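import Pool.Agent.Collatz3.FWCltFin

/-!
Local limit theorem for the total stopping time: definitions.
-/

set_option autoImplicit false

namespace Pool.Agent.LLT

open Pool.Agent.Collatz3.FW (F Fam)
open Pool.Agent.Helper14 (T)

/-- the integers which hit `S` for the first time at time `t` -/
def Es (S : Set ℤ) (t : ℝ) : Set ℤ :=
  {n | ∃ k : ℕ, (k : ℝ) = t ∧ T^[k] n ∈ S ∧ ∀ j < k, T^[j] n ∉ S}

/-- the number of odd elements of `A` up to `X`, divided by `X / 2` -/
noncomputable def ff (A : Set ℤ) (X : ℝ) : ℝ := F 1 A X / (X / 2)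

/-- the least `a` with `2 ^ b ≤ 3 ^ a` -/
noncomputable def ax (b : ℕ) : ℕ := ⌈(b : ℝ) * Real.log 2 / Real.log 3⌉₊

/-- `3 ^ a / 2 ^ b` with this `a`; it lies in `[1, 3)` -/
noncomputable def th (b : ℕ) : ℝ := 3 ^ ax b / 2 ^ b

/-- the rate `g = 2 / log (4/3)` and the variance constant `V` -/
noncomputable def gg : ℝ := 2 / Real.log (4 / 3)

noncomputable def VV : ℝ := 2 * Real.log 3 ^ 2 / Real.log (4 / 3) ^ 3

end Pool.Agent.LLT
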