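import Pool.Agent.LLT.Defs

/-!
The family `Es S`.
-/

set_option autoImplicit false

namespace Pool.Agent.LLT

open Finset Filter Topology ProbabilityTheory
open Pool.Agent.Collatz3.FW (F Fam NumT Hs Ls no_early Od)
open Pool.Agent.Helper14 (T)

theorem fam_Es {S : Set ℤ} {M : ℝ} (hS : ∀ c ∈ S, |(c : ℝ)| ≤ M) : Fam M (Es S) := by
  constructor
  · rintro m m' s t hm ⟨k, hk, hkS, hlate⟩ hM
    have h1 : s < k := by
      by_contra hcon
      exact no_early hS hM (not_lt.1 hcon) hkS
    refine ⟨k - s, ?_, ?_, ?_⟩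
    · rw [Nat.cast_sub h1.le, hk]
    · rw [← hm, ← Function.iterate_add_apply, Nat.sub_add_cancel h1.le]
      exact hkS
    · intro j hj
      rw [← hm, ← Function.iterate_add_apply]
      exact hlate (j + s) (by omega)
  · rintro m m' s t hm ⟨k, hk, hkS, hlate⟩ hM
    refine ⟨k + s, ?_, ?_, ?_⟩
    · push_cast
      linarith
    · rw [Function.iterate_add_apply, hm]
      exact hkS
    · intro j hj
      rcases le_or_gt j s with h1 | h1
      · exact no_early hS hM h1
      · have h2 := hlate (j - s) (by omega)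
        rw [← hm, ← Function.iterate_add_apply, Nat.sub_add_cancel h1.le] at h2
        exact h2

theorem dis_Es {S : Set ℤ} (n : ℤ) (t t' : ℝ) (h : n ∈ Es S t) (h' : n ∈ Es S t') : t = t' := by
  obtain ⟨k, hk, hkS, hlate⟩ := h
  obtain ⟨k', hk', hkS', hlate'⟩ := h'
  rcases lt_trichotomy k k' with h1 | h1 | h1
  · exact absurd hkS (hlate' k h1)
  · rw [← hk, ← hk', h1]
  · exact absurd hkS' (hlate k' h1)

theorem F_union {A B C : Set ℤ} (hC : ∀ n, n ∈ C ↔ n ∈ A ∨ n ∈ B) (hd : ∀ n, n ∈ A → n ∉ B)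
    (e : ℤ) (X : ℝ) : F e C X = F e A X + F e B X := by
  classical
  unfold F
  rw [← Nat.cast_add, ← Finset.card_union_of_disjoint]
  · congr 2
    ext n
    simp only [mem_union, mem_filter, hC]
    tauto
  · rw [Finset.disjoint_left]
    intro n hn hn'
    rw [mem_filter] at hn hn'
    exact hd n hn.2 hn'.2

/-- one more step -/
theorem ff_step (S : Set ℤ) (X : ℝ) (t : ℤ) :
    ff (Hs S t) X = ff (Hs S (t - 1)) X + ff (Es S t) X := by
  unfold ff
  rw [← add_div]
  congr 1
  apply F_union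
  · intro n
    constructor
    · rintro ⟨k, hk, hkS⟩
      classical
      have hex : ∃ k, T^[k] n ∈ S := ⟨k, hkS⟩
      have hle := Nat.find_min' hex hkS
      have h1 : ((Nat.find hex : ℕ) : ℝ) ≤ t := le_trans (by exact_mod_cast hle) hk
      have h2 : ((Nat.find hex : ℕ) : ℤ) ≤ t := by exact_mod_cast h1
      rcases lt_or_eq_of_le h2 with h3 | h3
      · left
        refine ⟨Nat.find hex, ?_, Nat.find_spec hex⟩
        have h4 : ((Nat.find hex : ℕ) : ℤ) ≤ t - 1 := by omega
        have h5 : (((Nat.find hex : ℕ) : ℤ) : ℝ) ≤ ((t - 1 : ℤ) : ℝ) := by exact_mod_cast h4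
        push_cast at h5
        exact h5
      · right
        refine ⟨Nat.find hex, ?_, Nat.find_spec hex, fun j hj => Nat.find_min hex hj⟩
        exact_mod_cast h3
    · rintro (⟨k, hk, hkS⟩ | ⟨k, hk, hkS, _⟩)
      · exact ⟨k, by linarith, hkS⟩
      · exact ⟨k, hk.le, hkS⟩
  · rintro n ⟨k, hk, hkS⟩ ⟨k', hk', _, hlate⟩
    apply hlate k _ hkS
    have : (k : ℝ) < k' := by
      rw [hk']
      linarith
    exact_mod_cast this

theorem sum_Es (S : Set ℤ) (X : ℝ) (t : ℤ) (m : ℕ) :
    ∑ b ∈ range m, ff (Es S (t + b)) X = ff (Hs S (t + m - 1)) X - ff (Hs S (t - 1)) X := by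
  induction m with
  | zero => simp
  | succ m ih =>
    rw [sum_range_succ, ih]
    have h := ff_step S X (t + m)
    push_cast at h ⊢
    have e : (t : ℝ) + (m + 1) - 1 = t + m := by ring
    rw [e, h]
    ring

end Pool.Agent.LLT
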