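import Pool.Agent.LLT.M10c
import Pool.Agent.LLT.M9F

set_option autoImplicit false

/-!
Local limit theorem: all integers, final form.
-/

namespace Pool.Agent.LLT

open Finset Filter Topology
open Pool.Agent.Collatz3.FW (Fam cN Od F_nonneg Tn iter_cast reach_tendsto)
open Pool.Agent.Collatz3.DN (Dens Reach dens_exists)
open Pool.Agent.Helper14 (T)

/-- the integers `1 ≤ n ≤ x` whose orbit meets `F` for the first time at time `t` -/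
noncomputable def cnt (F : Finset ℕ) (x : ℕ) (t : ℤ) : ℝ :=
  ({n : ℕ | 1 ≤ n ∧ n ≤ x ∧ ∃ k : ℕ, (k : ℤ) = t ∧ Pool.Agent.Collatz3.FW.Tn^[k] n ∈ F ∧
    ∀ j < k, Pool.Agent.Collatz3.FW.Tn^[j] n ∉ F}.ncard : ℝ)

/-- the finite set as a set of integers -/
def m10_S (F : Finset ℕ) : Set ℤ := (fun a : ℕ => (a : ℤ)) '' (F : Set ℕ)

theorem m10_mem (F : Finset ℕ) (m : ℕ) : (m : ℤ) ∈ m10_S F ↔ m ∈ F := by
  unfold m10_S
  simp

theorem m10_cnt (F : Finset ℕ) (x : ℕ) (t : ℤ) : cnt F x t = cN (Es (m10_S F) (t : ℝ)) (x : ℝ) := by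
  unfold cnt cN
  congr 2
  ext n
  simp only [Set.mem_ofPred_eq, Nat.cast_le]
  refine and_congr_right fun _ => and_congr_right fun _ => ?_
  unfold Es
  rw [Set.mem_ofPred_eq]
  refine exists_congr fun k => ?_
  rw [iter_cast, m10_mem]
  refine and_congr ?_ (and_congr_right fun _ => forall_congr' fun j => ?_)
  · constructor
    · intro h
      rw [← h]
      push_cast
      rfl
    · intro h
      exact_mod_cast h
  · rw [iter_cast, m10_mem]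

/-- the final form from the local limit theorem for odd numbers -/
theorem llt_of (F : Finset ℕ) {M : ℝ} (hM : 0 ≤ M) (hA : Fam M (Es (m10_S F)))
    (hloc : ∃ C X₀ : ℝ, 0 < C ∧ 2 ≤ X₀ ∧
      ∀ X t : ℝ, X₀ ≤ X → ff (Es (m10_S F) t) X ≤ C / √(Real.log X))
    (hinv : ∃ C X₀ : ℝ, 0 < C ∧ 2 ≤ X₀ ∧
      ∀ X t B : ℝ, X₀ ≤ X → 0 ≤ B →
        (∀ y τ : ℝ, X ^ (9 / 10 : ℝ) ≤ y → ff (Es (m10_S F) τ) y ≤ B) →
        |ff (Es (m10_S F) (t + 1)) (2 * X) - ff (Es (m10_S F) t) X| ≤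
          C * (B / √(Real.log X) + 1 / Real.log X ^ 2) ∧
        |ff (Es (m10_S F) t) (3 * X) - ff (Es (m10_S F) t) X| ≤
          C * (B / √(Real.log X) + 1 / Real.log X ^ 2))
    {d : ℝ} (hodd : ∀ ε : ℝ, 0 < ε → ∃ H₀ : ℕ, 0 < H₀ ∧ ∀ H : ℕ, H₀ ≤ H →
      ∃ X₀ : ℝ, ∀ (X : ℝ) (t : ℤ), X₀ ≤ X →
      |(∑ b ∈ range H, ff (Es (m10_S F) (t + b)) X) / H -
        d / √(2 * Real.pi * VV * Real.log X) *
        Real.exp (-(t - gg * Real.log X) ^ 2 / (2 * VV * Real.log X))| ≤ ε / √(Real.log X)) :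
    (∃ C : ℝ, ∃ x₀ : ℕ, ∀ (x : ℕ) (t : ℤ), x₀ ≤ x → cnt F x t ≤ C * x / √(Real.log x)) ∧
    (0 < d → ∀ R : ℝ, ∃ c : ℝ, 0 < c ∧ ∃ x₀ : ℕ, ∀ (x : ℕ) (t : ℤ), x₀ ≤ x →
      |(t : ℝ) - gg * Real.log x| ≤ R * √(Real.log x) → c * x / √(Real.log x) ≤ cnt F x t) ∧
    ∀ ε : ℝ, 0 < ε → ∃ H₀ : ℕ, 0 < H₀ ∧ ∀ H : ℕ, H₀ ≤ H → ∃ x₀ : ℕ, ∀ (x : ℕ) (t : ℤ), x₀ ≤ x →
      |∑ b ∈ range H, cnt F x (t + b) - d * (x * H) / √(2 * Real.pi * VV * Real.log x) *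
        Real.exp (-(t - gg * Real.log x) ^ 2 / (2 * VV * Real.log x))| ≤
        ε * (x * H) / √(Real.log x) := by
  refine ⟨?_, ?_, ?_⟩
  · obtain ⟨C, X₀, hC, hX₀, hl⟩ := id hloc
    obtain ⟨K, hK, hup⟩ := m10_up hM hA hC hX₀ hl
    refine ⟨K, 2, fun x t hx => ?_⟩
    have hx' : (2 : ℝ) ≤ x := by exact_mod_cast hx
    have hlog : 0 < Real.log (x : ℝ) := Real.log_pos (by linarith)
    rw [m10_cnt]
    refine (hup x t (by linarith)).trans ?_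
    apply div_le_div_of_nonneg_left (by positivity) (Real.sqrt_pos.2 hlog)
    exact Real.sqrt_le_sqrt (by linarith)
  · intro hd R
    obtain ⟨c, hc, h⟩ := m10_low hM hA hd R hodd
    obtain ⟨X₁, hX₁⟩ := eventually_atTop.1 h
    obtain ⟨x₀, hx₀⟩ := exists_nat_ge X₁
    refine ⟨c, hc, x₀, fun x t hx hR => ?_⟩
    have hx' : (x₀ : ℝ) ≤ x := by exact_mod_cast hx
    rw [m10_cnt, mul_div_assoc]
    exact hX₁ x (hx₀.trans hx') t hR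
  · intro ε hε
    obtain ⟨H₀, hH₀, hH⟩ := hodd (ε / 2) (by positivity)
    refine ⟨H₀, hH₀, fun H hHH => ?_⟩
    obtain ⟨X₀, hX₀⟩ := hH H hHH
    obtain ⟨X₁, hX₁⟩ := eventually_atTop.1 (m10_main hM hA hloc hinv (by positivity : 0 < ε / 2))
    obtain ⟨x₀, hx₀⟩ := exists_nat_ge (max (max X₀ X₁) 2)
    refine ⟨x₀, fun x t hx => ?_⟩
    have hx' : (x₀ : ℝ) ≤ x := by exact_mod_cast hx
    have h1 : X₀ ≤ x := (le_max_left _ _).trans ((le_max_left _ _).trans (hx₀.trans hx'))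
    have h2 : X₁ ≤ x := (le_max_right _ _).trans ((le_max_left _ _).trans (hx₀.trans hx'))
    have h3 : (2 : ℝ) ≤ x := (le_max_right _ _).trans (hx₀.trans hx')
    have hx0 : (0 : ℝ) < x := by linarith
    have hH0 : (0 : ℝ) < H := by exact_mod_cast lt_of_lt_of_le hH₀ hHH
    have hlog : 0 < Real.log (x : ℝ) := Real.log_pos (by linarith)
    have hs : 0 < √(Real.log (x : ℝ)) := Real.sqrt_pos.2 hlog
    have e1 : ∀ b : ℕ, cnt F x (t + b) = cN (Es (m10_S F) ((t : ℝ) + b)) (x : ℝ) := by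
      intro b
      rw [m10_cnt]
      push_cast
      rfl
    have e2 : |∑ b ∈ range H, cnt F x (t + b) -
        ∑ b ∈ range H, (x : ℝ) * ff (Es (m10_S F) ((t : ℝ) + b)) x| ≤
        H * (ε / 2 * (x / √(Real.log (x : ℝ)))) := by
      rw [← sum_sub_distrib]
      refine (abs_sum_le_sum_abs _ _).trans ?_
      calc ∑ b ∈ range H, |cnt F x (t + b) - (x : ℝ) * ff (Es (m10_S F) ((t : ℝ) + b)) x| ≤
          ∑ b ∈ range H, ε / 2 * (x / √(Real.log (x : ℝ))) := by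
            apply sum_le_sum
            intro b _
            rw [e1]
            exact hX₁ x h2 _
        _ = H * (ε / 2 * (x / √(Real.log (x : ℝ)))) := by
          rw [sum_const, card_range, nsmul_eq_mul]
    have e3 := hX₀ x t h1
    obtain ⟨G, hG⟩ : ∃ G, G = Real.exp (-((t : ℝ) - gg * Real.log (x : ℝ)) ^ 2 /
      (2 * VV * Real.log (x : ℝ))) := ⟨_, rfl⟩
    obtain ⟨Q, hQ⟩ : ∃ Q, Q = √(2 * Real.pi * VV * Real.log (x : ℝ)) := ⟨_, rfl⟩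
    obtain ⟨Z, hZ⟩ : ∃ Z, Z = ∑ b ∈ range H, ff (Es (m10_S F) ((t : ℝ) + b)) x := ⟨_, rfl⟩
    rw [← hG, ← hQ, ← hZ] at e3
    rw [← mul_sum, ← hZ] at e2
    rw [← hG, ← hQ]
    have e4 : |(x : ℝ) * Z - d * (x * H) / Q * G| ≤ x * H * (ε / 2 / √(Real.log (x : ℝ))) := by
      have a1 : (x : ℝ) * Z - d * (x * H) / Q * G = x * H * (Z / H - d / Q * G) := by
        field_simp
      rw [a1, abs_mul, abs_of_pos (by positivity : (0 : ℝ) < x * H)]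
      exact mul_le_mul_of_nonneg_left e3 (by positivity)
    have e5 : ε * (x * H) / √(Real.log (x : ℝ)) = H * (ε / 2 * (x / √(Real.log (x : ℝ)))) +
        x * H * (ε / 2 / √(Real.log (x : ℝ))) := by ring
    rw [e5]
    exact (abs_sub_le _ _ _).trans (add_le_add e2 e4)

/-- the final form, from the three inputs `inv`, `loc`, `llt_odd` -/
theorem llt_core
    (hinv : ∀ (M : ℝ) (A : ℝ → Set ℤ), 1 < M → Fam M A → ∃ C X₀ : ℝ, 0 < C ∧ 2 ≤ X₀ ∧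
      ∀ X t B : ℝ, X₀ ≤ X → 0 ≤ B → (∀ y τ : ℝ, X ^ (9 / 10 : ℝ) ≤ y → ff (A τ) y ≤ B) →
        |ff (A (t + 1)) (2 * X) - ff (A t) X| ≤ C * (B / √(Real.log X) + 1 / Real.log X ^ 2) ∧
        |ff (A t) (3 * X) - ff (A t) X| ≤ C * (B / √(Real.log X) + 1 / Real.log X ^ 2))
    (hloc : ∀ (M : ℝ) (A : ℝ → Set ℤ), 1 < M → Fam M A →
      (∀ n t t', n ∈ A t → n ∈ A t' → t = t') → ∃ C X₀ : ℝ, 0 < C ∧ 2 ≤ X₀ ∧
      ∀ X t : ℝ, X₀ ≤ X → ff (A t) X ≤ C / √(Real.log X))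
    (hodd : ∀ (S : Set ℤ) (M₀ : ℝ), (∀ c ∈ S, |(c : ℝ)| ≤ M₀) → ∀ d : ℝ,
      Dens 1 (Reach S) d → ∀ ε : ℝ, 0 < ε → ∃ H₀ : ℕ, 0 < H₀ ∧ ∀ H : ℕ, H₀ ≤ H →
      ∃ X₀ : ℝ, ∀ (X : ℝ) (t : ℤ), X₀ ≤ X →
      |(∑ b ∈ range H, ff (Es S (t + b)) X) / H - d / √(2 * Real.pi * VV * Real.log X) *
        Real.exp (-(t - gg * Real.log X) ^ 2 / (2 * VV * Real.log X))| ≤ ε / √(Real.log X))
    (F : Finset ℕ) : ∃ d : ℝ, Tendsto (fun x : ℕ =>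
      ({n : ℕ | 1 ≤ n ∧ n ≤ x ∧ ∃ k : ℕ, Pool.Agent.Collatz3.FW.Tn^[k] n ∈ F}.ncard : ℝ) / x)
        atTop (𝓝 d) ∧
    (∃ C : ℝ, ∃ x₀ : ℕ, ∀ (x : ℕ) (t : ℤ), x₀ ≤ x → cnt F x t ≤ C * x / √(Real.log x)) ∧
    (0 < d → ∀ R : ℝ, ∃ c : ℝ, 0 < c ∧ ∃ x₀ : ℕ, ∀ (x : ℕ) (t : ℤ), x₀ ≤ x →
      |(t : ℝ) - gg * Real.log x| ≤ R * √(Real.log x) → c * x / √(Real.log x) ≤ cnt F x t) ∧
    ∀ ε : ℝ, 0 < ε → ∃ H₀ : ℕ, 0 < H₀ ∧ ∀ H : ℕ, H₀ ≤ H → ∃ x₀ : ℕ, ∀ (x : ℕ) (t : ℤ), x₀ ≤ x →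
      |∑ b ∈ range H, cnt F x (t + b) - d * (x * H) / √(2 * Real.pi * VV * Real.log x) *
        Real.exp (-(t - gg * Real.log x) ^ 2 / (2 * VV * Real.log x))| ≤
        ε * (x * H) / √(Real.log x) := by
  obtain ⟨C, hC⟩ : ∃ C : ℕ, ∀ c ∈ m10_S F, |c| ≤ C := by
    refine ⟨F.sup id, ?_⟩
    rintro c ⟨a, ha, rfl⟩
    rw [Nat.abs_cast]
    exact_mod_cast Finset.le_sup (f := id) (Finset.mem_coe.1 ha)
  have hCr : ∀ c ∈ m10_S F, |(c : ℝ)| ≤ (C : ℝ) + 2 := by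
    intro c hc
    have h1 := hC c hc
    have h2 : |(c : ℝ)| ≤ (C : ℝ) := by exact_mod_cast h1
    linarith
  have hM : (1 : ℝ) < (C : ℝ) + 2 := by
    have : (0 : ℝ) ≤ (C : ℝ) := Nat.cast_nonneg _
    linarith
  have hA : Fam ((C : ℝ) + 2) (Es (m10_S F)) := fam_Es hCr
  obtain ⟨d, hd⟩ := dens_exists (σ := 1) (by norm_num) (Pool.Agent.Collatz3.DN.Reach.evInv hC)
  have hreach : ∀ n : ℕ, (n : ℤ) ∈ Reach (m10_S F) ↔ ∃ k : ℕ, Tn^[k] n ∈ F := by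
    intro n
    constructor
    · rintro ⟨k, hk⟩
      rw [iter_cast, m10_mem] at hk
      exact ⟨k, hk⟩
    · rintro ⟨k, hk⟩
      exact ⟨k, by rw [iter_cast, m10_mem]; exact hk⟩
  refine ⟨d, ?_, llt_of F (by linarith) hA (hloc _ _ hM hA fun n t t' h h' => dis_Es n t t' h h')
    (hinv _ _ hM hA) fun ε hε => hodd _ _ hCr d hd ε hε⟩
  refine ((reach_tendsto hd).comp tendsto_natCast_atTop_atTop).congr fun x => ?_
  simp only [Function.comp]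
  unfold cN
  congr 3
  ext n
  simp only [Set.mem_ofPred_eq, Nat.cast_le, hreach]

end Pool.Agent.LLT
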