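import Pool.Agent.LLT.Defs

/-!
Local limit theorem for the total stopping time: the upper bound by `C / √(log X)`.
-/

set_option autoImplicit false

namespace Pool.Agent.LLT

open Finset Filter Topology
open Pool.Agent.Collatz3.FW
open Pool.Agent.Helper14 (T)

theorem ff_nonneg (A : Set ℤ) {X : ℝ} (hX : 0 ≤ X) : 0 ≤ ff A X :=
  div_nonneg (F_nonneg _ _ _) (by linarith)

theorem ff_le_two (A : Set ℤ) {X : ℝ} (hX : 1 ≤ X) : ff A X ≤ 2 := by
  unfold ff
  rw [div_le_iff₀ (by linarith)]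
  have := F_le (Or.inl rfl : (1 : ℤ) = 1 ∨ (1 : ℤ) = -1) A (by linarith : 0 ≤ X)
  linarith

theorem F_mono_X (A : Set ℤ) {X Y : ℝ} (h : X ≤ Y) : F 1 A X ≤ F 1 A Y := by
  classical
  unfold F
  have : (Od 1 X).filter (fun n => n ∈ A) ⊆ (Od 1 Y).filter (fun n => n ∈ A) := by
    intro n hn
    rw [mem_filter, mem_Od (Or.inl rfl)] at hn ⊢
    obtain ⟨⟨h1, h2, h3⟩, h4⟩ := hn
    exact ⟨⟨h1, h2, h3.trans h⟩, h4⟩
  exact_mod_cast card_le_card (by convert this)

theorem sum_F_le {A : ℝ → Set ℤ} (hdis : ∀ n t t', n ∈ A t → n ∈ A t' → t = t') (t : ℝ) (N : ℕ)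
    {Y : ℝ} (hY : 0 ≤ Y) : ∑ b ∈ range N, F 1 (A (t + b)) Y ≤ (Y + 1) / 2 := by
  classical
  unfold F
  have h1 : ∑ b ∈ range N, ((Od 1 Y).filter (fun n => n ∈ A (t + b))).card =
      ((range N).biUnion fun b => (Od 1 Y).filter (fun n => n ∈ A (t + b))).card := by
    rw [card_biUnion]
    intro i _ j _ hij
    rw [Function.onFun, Finset.disjoint_left]
    intro n h1 h2
    rw [mem_filter] at h1 h2
    have := hdis _ _ _ h1.2 h2.2
    apply hij
    have h3 : (i : ℝ) = j := by linarith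
    exact_mod_cast h3
  have h2 : ((range N).biUnion fun b => (Od 1 Y).filter (fun n => n ∈ A (t + b))) ⊆ Od 1 Y := by
    intro n hn
    rw [mem_biUnion] at hn
    obtain ⟨b, -, hb⟩ := hn
    exact (mem_filter.1 hb).1
  have h3 : (((Od 1 Y).card : ℕ) : ℝ) ≤ (Y + 1) / 2 := by
    rw [card_Od (Or.inl rfl) Y]
    exact oc_le hY
  have h4 : ((∑ b ∈ range N, ((Od 1 Y).filter (fun n => n ∈ A (t + b))).card : ℕ) : ℝ) ≤
      ((Od 1 Y).card : ℝ) := by
    rw [h1]
    exact_mod_cast card_le_card h2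
  push_cast at h4
  refine le_trans (le_of_eq ?_) (h4.trans h3)
  apply sum_congr rfl
  intro b _
  congr!

/-- the statement of `inv` for one family -/
def Inv2 (A : ℝ → Set ℤ) (C X₀ : ℝ) : Prop :=
  ∀ X t B : ℝ, X₀ ≤ X → 0 ≤ B → (∀ y τ : ℝ, X ^ (9 / 10 : ℝ) ≤ y → ff (A τ) y ≤ B) →
      |ff (A (t + 1)) (2 * X) - ff (A t) X| ≤ C * (B / √(Real.log X) + 1 / Real.log X ^ 2) ∧
      |ff (A t) (3 * X) - ff (A t) X| ≤ C * (B / √(Real.log X) + 1 / Real.log X ^ 2)

section steps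

variable {A : ℝ → Set ℤ} {C X₀ : ℝ} (hI : Inv2 A C X₀) (hC : 0 < C) (hX₀ : 2 ≤ X₀)
  {X B : ℝ} (hX : X₀ ≤ X) (hB : 0 ≤ B) (hle : ∀ y τ : ℝ, X ^ (9 / 10 : ℝ) ≤ y → ff (A τ) y ≤ B)

include hC hX₀ hB hX in
theorem err_mono {Y : ℝ} (hXY : X ≤ Y) : C * (B / √(Real.log Y) + 1 / Real.log Y ^ 2) ≤
    C * (B / √(Real.log X) + 1 / Real.log X ^ 2) := by
  have h0 : 0 < Real.log X := Real.log_pos (by linarith)
  have h1 : Real.log X ≤ Real.log Y := Real.log_le_log (by linarith) hXY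
  have h2 := Real.sqrt_le_sqrt h1
  have h3 : 0 < √(Real.log X) := Real.sqrt_pos.2 h0
  apply mul_le_mul_of_nonneg_left _ hC.le
  apply add_le_add
  · exact div_le_div_of_nonneg_left hB h3 h2
  · exact div_le_div_of_nonneg_left (by norm_num) (by positivity) (pow_le_pow_left₀ h0.le h1 2)

include hI hC hX₀ hX hB hle in
theorem at_Y {Y : ℝ} (hXY : X ≤ Y) (t : ℝ) :
    |ff (A (t + 1)) (2 * Y) - ff (A t) Y| ≤ C * (B / √(Real.log X) + 1 / Real.log X ^ 2) ∧
    |ff (A t) (3 * Y) - ff (A t) Y| ≤ C * (B / √(Real.log X) + 1 / Real.log X ^ 2) := by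
  have h1 := hI Y t B (hX.trans hXY) hB (fun y τ hy => hle y τ (le_trans
    (Real.rpow_le_rpow (by linarith) hXY (by norm_num)) hy))
  have h2 := err_mono hC hX₀ hX hB hXY
  exact ⟨h1.1.trans h2, h1.2.trans h2⟩

include hI hC hX₀ hX hB hle in
theorem up_two (t : ℝ) (b : ℕ) : |ff (A (t + b)) (2 ^ b * X) - ff (A t) X| ≤
    b * (C * (B / √(Real.log X) + 1 / Real.log X ^ 2)) := by
  induction b with
  | zero => simp
  | succ b ih =>
    have h1 : X ≤ 2 ^ b * X := by
      have : (1 : ℝ) ≤ 2 ^ b := one_le_pow₀ (by norm_num)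
      nlinarith
    have h2 := (at_Y hI hC hX₀ hX hB hle h1 (t + b)).1
    have e1 : t + ((b + 1 : ℕ) : ℝ) = t + b + 1 := by push_cast; ring
    have e2 : (2 : ℝ) ^ (b + 1) * X = 2 * (2 ^ b * X) := by ring
    rw [e1, e2]
    rw [abs_le] at *
    push_cast
    constructor <;> linarith [ih.1, ih.2, h2.1, h2.2]

include hI hC hX₀ hX hB hle in
theorem down_three (t : ℝ) {Z : ℝ} (a : ℕ) (hZ : X ≤ Z / 3 ^ a) :
    |ff (A t) (Z / 3 ^ a) - ff (A t) Z| ≤ a * (C * (B / √(Real.log X) + 1 / Real.log X ^ 2)) := by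
  induction a with
  | zero => simp
  | succ a ih =>
    have h0 : Z / 3 ^ (a + 1) * 3 = Z / 3 ^ a := by
      rw [pow_succ]
      field_simp
    have hZ' : X ≤ Z / 3 ^ a := by
      have : 0 ≤ Z / 3 ^ (a + 1) := by linarith
      linarith
    have h2 := (at_Y hI hC hX₀ hX hB hle hZ t).2
    rw [mul_comm, h0] at h2
    have h3 := ih hZ'
    rw [abs_le] at *
    push_cast
    constructor <;> linarith [h3.1, h3.2, h2.1, h2.2]

include hI hC hX₀ hX hB hle in
theorem avg (hdis : ∀ n t t', n ∈ A t → n ∈ A t' → t = t') {N : ℕ} (hN : 0 < N) (t : ℝ) :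
    ff (A t) X ≤ 4 / N + 2 * N * (C * (B / √(Real.log X) + 1 / Real.log X ^ 2)) := by
  obtain ⟨E, hE⟩ : ∃ E, E = C * (B / √(Real.log X) + 1 / Real.log X ^ 2) := ⟨_, rfl⟩
  have hE0 : 0 ≤ E := by
    rw [hE]
    have h0 : 0 < Real.log X := Real.log_pos (by linarith)
    have h1 : 0 < √(Real.log X) := Real.sqrt_pos.2 h0
    positivity
  rw [← hE]
  have hX0 : 0 < X := by linarith
  have key : ∀ b ∈ range N, ff (A t) X ≤ F 1 (A (t + b)) (3 * X) / (X / 2) + 2 * N * E := by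
    intro b hb
    rw [mem_range] at hb
    obtain ⟨a, ha⟩ : ∃ a, a = Nat.log 3 (2 ^ b) := ⟨_, rfl⟩
    have h1 : 3 ^ a ≤ 2 ^ b := by
      rw [ha]; exact Nat.pow_log_le_self 3 (by positivity)
    have h2 : 2 ^ b < 3 ^ (a + 1) := by
      rw [ha]; exact Nat.lt_pow_succ_log_self (by norm_num) _
    have h1' : (3 : ℝ) ^ a ≤ 2 ^ b := by exact_mod_cast h1
    have h2' : (2 : ℝ) ^ b < 3 ^ (a + 1) := by exact_mod_cast h2
    have hab : a ≤ b := by
      by_contra hcon
      push Not at hcon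
      have h3 : 2 ^ b < 3 ^ a := lt_of_lt_of_le (Nat.pow_lt_pow_right (by norm_num) hcon)
        (Nat.pow_le_pow_left (by norm_num) a)
      omega
    have h3a : (0 : ℝ) < 3 ^ a := by positivity
    have hW1 : X ≤ 2 ^ b * X / 3 ^ a := by
      rw [le_div_iff₀ h3a]
      nlinarith
    have hW2 : 2 ^ b * X / 3 ^ a ≤ 3 * X := by
      rw [div_le_iff₀ h3a]
      rw [pow_succ] at h2'
      nlinarith
    have h4 := up_two hI hC hX₀ hX hB hle t b
    have h5 := down_three hI hC hX₀ hX hB hle (t + b) a hW1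
    rw [← hE] at h4 h5
    have h6 : (a : ℝ) * E + b * E ≤ 2 * N * E := by
      have h7 : (a : ℝ) ≤ N := by exact_mod_cast hab.trans hb.le
      have h8 : (b : ℝ) ≤ N := by exact_mod_cast hb.le
      nlinarith
    have h9 : ff (A (t + b)) (2 ^ b * X / 3 ^ a) ≤ F 1 (A (t + b)) (3 * X) / (X / 2) := by
      unfold ff
      exact div_le_div₀ (F_nonneg _ _ _) (F_mono_X _ hW2) (by linarith) (by linarith)
    rw [abs_le] at h4 h5
    linarith [h4.1, h4.2, h5.1, h5.2]
  have hsum := sum_le_sum key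
  rw [sum_const, card_range, nsmul_eq_mul, sum_add_distrib, ← sum_div, sum_const, card_range,
    nsmul_eq_mul] at hsum
  have h1 := sum_F_le hdis t N (by linarith : 0 ≤ 3 * X)
  have h2 : (∑ b ∈ range N, F 1 (A (t + b)) (3 * X)) / (X / 2) ≤ 4 := by
    rw [div_le_iff₀ (by linarith)]
    linarith
  have hN' : (0 : ℝ) < N := by exact_mod_cast hN
  have h3 : (N : ℝ) * ff (A t) X ≤ 4 + N * (2 * N * E) := by linarith
  have h4 : ff (A t) X ≤ (4 + N * (2 * N * E)) / N := by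
    rw [le_div_iff₀ hN']
    linarith
  refine h4.trans (le_of_eq ?_)
  field_simp

end steps

theorem loc_of {A : ℝ → Set ℤ}
    (hdis : ∀ n t t', n ∈ A t → n ∈ A t' → t = t') {C X₀ : ℝ} (hC : 0 < C) (hX₀ : 2 ≤ X₀)
    (hI : Inv2 A C X₀) : ∃ C X₀ : ℝ, 0 < C ∧ 2 ≤ X₀ ∧
    ∀ X t : ℝ, X₀ ≤ X → ff (A t) X ≤ C / √(Real.log X) := by
  obtain ⟨L₀, hL₀⟩ : ∃ L₀, L₀ = max (Real.log X₀) (1 + (16 * C) ^ 2) := ⟨_, rfl⟩
  have hL1 : Real.log X₀ ≤ L₀ := by rw [hL₀]; exact le_max_left _ _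
  have hL2 : 1 + (16 * C) ^ 2 ≤ L₀ := by rw [hL₀]; exact le_max_right _ _
  have hL0 : 0 < L₀ := by nlinarith [sq_nonneg (16 * C)]
  have hL01 : 1 ≤ L₀ := by nlinarith [sq_nonneg (16 * C)]
  obtain ⟨K, hK⟩ : ∃ K, K = 2 * √L₀ + 88 * C + 1 := ⟨_, rfl⟩
  have hK0 : 0 < K := by rw [hK]; positivity
  have hK1 : 2 * √L₀ ≤ K := by rw [hK]; linarith
  have hK2 : 88 * C + 1 ≤ K := by
    rw [hK]
    have := Real.sqrt_nonneg L₀
    linarith
  have hP : ∀ n : ℕ, ∀ X t : ℝ, X₀ ≤ X → L₀ * (10 / 9) ^ n ≤ Real.log X →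
      ff (A t) X ≤ K / √(L₀ * (10 / 9) ^ n) := by
    intro n
    induction n with
    | zero =>
      intro X t hX _
      have h1 := ff_le_two (A t) (by linarith : 1 ≤ X)
      refine h1.trans ?_
      rw [pow_zero, mul_one, le_div_iff₀ (Real.sqrt_pos.2 hL0)]
      exact hK1
    | succ n ih =>
      intro X t hX hlog
      obtain ⟨l, hl⟩ : ∃ l, l = L₀ * (10 / 9 : ℝ) ^ (n + 1) := ⟨_, rfl⟩
      obtain ⟨l', hl'⟩ : ∃ l', l' = L₀ * (10 / 9 : ℝ) ^ n := ⟨_, rfl⟩
      rw [← hl'] at ih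
      rw [← hl] at hlog ⊢
      have hll : l' = 9 / 10 * l := by rw [hl, hl', pow_succ]; ring
      have hl'L : L₀ ≤ l' := by
        rw [hl']
        have : (1 : ℝ) ≤ (10 / 9) ^ n := one_le_pow₀ (by norm_num)
        nlinarith
      have hl1 : 1 ≤ l := by linarith
      have hlL : L₀ ≤ l := by linarith
      have hl0 : 0 < l := by linarith
      have hX0 : 0 < X := by linarith
      obtain ⟨s, hs⟩ : ∃ s, s = √l := ⟨_, rfl⟩
      have hs2 : s * s = l := by rw [hs]; exact Real.mul_self_sqrt hl0.le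
      have hs1 : 1 ≤ s := by rw [hs]; exact Real.one_le_sqrt.2 hl1
      have hs0 : 0 < s := by linarith
      have hsC : 16 * C ≤ s := by
        rw [hs]
        apply Real.le_sqrt_of_sq_le
        linarith
      have hl'0 : 0 < l' := by linarith
      have hs' : 94 / 100 * s ≤ √l' := by
        apply Real.le_sqrt_of_sq_le
        nlinarith
      have hs'0 : 0 < √l' := Real.sqrt_pos.2 hl'0
      have hle : ∀ y τ : ℝ, X ^ (9 / 10 : ℝ) ≤ y → ff (A τ) y ≤ K / √l' := by
        intro y τ hy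
        have h1 : 0 < X ^ (9 / 10 : ℝ) := Real.rpow_pos_of_pos hX0 _
        have hy0 : 0 < y := lt_of_lt_of_le h1 hy
        have h2 : l' ≤ Real.log y := by
          have h3 := Real.log_le_log h1 hy
          rw [Real.log_rpow hX0] at h3
          linarith
        apply ih y τ _ h2
        rw [← Real.log_le_log_iff (by linarith) hy0]
        linarith
      have hc : 2 ≤ 1 / (8 * C) * s := by
        rw [one_div, ← div_eq_inv_mul, le_div_iff₀ (by positivity)]
        linarith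
      obtain ⟨N, hN⟩ : ∃ N, N = ⌊1 / (8 * C) * s⌋₊ := ⟨_, rfl⟩
      have hN1 : (N : ℝ) ≤ 1 / (8 * C) * s := by
        rw [hN]; exact Nat.floor_le (by linarith)
      have hN2 : 1 / (8 * C) * s - 1 < N := by
        rw [hN]; exact Nat.sub_one_lt_floor _
      have hN3 : 1 / (8 * C) * s / 2 ≤ N := by linarith
      have hNpos : (0 : ℝ) < N := by linarith
      have hN0 : 0 < N := by exact_mod_cast hNpos
      have h1 := avg hI hC hX₀ hX (div_nonneg hK0.le hs'0.le) hle hdis hN0 t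
      have hCs : C * (1 / (8 * C) * s) = s / 8 := by field_simp
      have h2 : 4 / (N : ℝ) ≤ 64 * C / s := by
        rw [div_le_div_iff₀ hNpos hs0]
        nlinarith
      have h3 : s ≤ √(Real.log X) := by rw [hs]; exact Real.sqrt_le_sqrt hlog
      have h4 : K / √l' / √(Real.log X) ≤ K / (94 / 100 * s * s) := by
        rw [div_div]
        apply div_le_div_of_nonneg_left hK0.le (by positivity)
        exact mul_le_mul hs' h3 hs0.le hs'0.le
      have h5 : 1 / Real.log X ^ 2 ≤ 1 / (s * s) := by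
        apply div_le_div_of_nonneg_left (by norm_num) (by positivity)
        rw [hs2]
        nlinarith
      have h6 : 2 * N * (C * (K / √l' / √(Real.log X) + 1 / Real.log X ^ 2)) ≤
          2 * (1 / (8 * C) * s) * (C * (K / (94 / 100 * s * s) + 1 / (s * s))) := by
        have h7 : 0 ≤ K / √l' / √(Real.log X) + 1 / Real.log X ^ 2 := by positivity
        apply mul_le_mul (by linarith) _ (by positivity) (by positivity)
        exact mul_le_mul_of_nonneg_left (by linarith) hC.le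
      have h8 : 2 * (1 / (8 * C) * s) * (C * (K / (94 / 100 * s * s) + 1 / (s * s))) =
          (K / (94 / 100) + 1) / 4 / s := by
        field_simp
        ring
      rw [h8] at h6
      have h9 : 64 * C / s + (K / (94 / 100) + 1) / 4 / s ≤ K / s := by
        rw [← add_div]
        apply div_le_div_of_nonneg_right _ hs0.le
        linarith
      rw [← hs]
      linarith
  refine ⟨2 * K, Real.exp L₀, by positivity, ?_, ?_⟩
  · have h1 : X₀ ≤ Real.exp L₀ := by
      rw [← Real.log_le_iff_le_exp (by linarith)]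
      exact hL1
    linarith
  · intro X t hX
    have hX1 : X₀ ≤ X := by
      have h1 : X₀ ≤ Real.exp L₀ := by
        rw [← Real.log_le_iff_le_exp (by linarith)]
        exact hL1
      linarith
    have hX0 : 0 < X := by linarith
    have hlog : L₀ ≤ Real.log X := by
      rw [Real.le_log_iff_exp_le hX0]
      exact hX
    obtain ⟨n, hn1, hn2⟩ := exists_nat_pow_near (x := Real.log X / L₀) (y := 10 / 9)
      (by rw [le_div_iff₀ hL0]; linarith) (by norm_num)
    rw [le_div_iff₀ hL0] at hn1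
    rw [div_lt_iff₀ hL0] at hn2
    have h1 := hP n X t hX1 (by linarith)
    refine h1.trans ?_
    have hl' : 0 < L₀ * (10 / 9) ^ n := by positivity
    have hlogX : 0 < Real.log X := by linarith
    rw [div_le_div_iff₀ (Real.sqrt_pos.2 hl') (Real.sqrt_pos.2 hlogX)]
    have h2 : √(Real.log X) ≤ 2 * √(L₀ * (10 / 9) ^ n) := by
      rw [Real.sqrt_le_left (by positivity), mul_pow, Real.sq_sqrt hl'.le]
      rw [pow_succ] at hn2
      nlinarith
    nlinarith

end Pool.Agent.LLT
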