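import Pool.Agent.LLT.M3
import Pool.Agent.LLT.M4

/-!
Local limit theorem, module 4: final form of `loc`.
-/

set_option autoImplicit false

namespace Pool.Agent.LLT

open Pool.Agent.Collatz3.FW (F Fam)

theorem loc {M : ℝ} (hM : 1 < M) {A : ℝ → Set ℤ} (hA : Fam M A)
    (hdis : ∀ n t t', n ∈ A t → n ∈ A t' → t = t') : ∃ C X₀ : ℝ, 0 < C ∧ 2 ≤ X₀ ∧
    ∀ X t : ℝ, X₀ ≤ X → ff (A t) X ≤ C / √(Real.log X) := by
  obtain ⟨C, X₀, hC, hX₀, hI⟩ := inv hM hA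
  exact loc_of hdis hC hX₀ hI

end Pool.Agent.LLT
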