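import Pool.Agent.LLT.Defs

/-!
Local limit theorem, module M2: one more letter, from the estimate for a shift by one.
-/

set_option autoImplicit false

namespace Pool.Agent.LLT

open Finset Filter Topology ProbabilityTheory
open Pool.Agent.Collatz3.FW (F Fam NumT Hs Ls)
open Pool.Agent.Collatz3.PD (goodV II P)
open Pool.Agent.Collatz3.Mix (words)

/-- the weighted sum over a set of words -/
private noncomputable def M2b_S (G : Finset (List ℕ)) (g : ℤ → ℝ) : ℝ :=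
  ∑ v ∈ G, (1 / 2 : ℝ) ^ v.sum * g (v.sum : ℤ)

private theorem M2b_sub {G W : Finset (List ℕ)} (h : G ⊆ W) (hW : P W ≤ 1) {B : ℝ} {g : ℤ → ℝ}
    (hB : 0 ≤ B) (h0 : ∀ s, 0 ≤ g s) (h1 : ∀ s, g s ≤ B) :
    |M2b_S W g - M2b_S G g| ≤ B * (1 - P G) := by
  have e1 : M2b_S W g - M2b_S G g = M2b_S (W \ G) g := by
    unfold M2b_S
    rw [← sum_sdiff h]
    ring
  have e2 : P W - P G = P (W \ G) := by
    unfold P
    rw [← sum_sdiff h]
    ring
  have e3 : 0 ≤ M2b_S (W \ G) g := sum_nonneg fun v _ => mul_nonneg (by positivity) (h0 _)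
  have e4 : M2b_S (W \ G) g ≤ B * P (W \ G) := by
    unfold M2b_S P
    rw [mul_sum]
    refine sum_le_sum fun v _ => ?_
    rw [mul_comm]
    exact mul_le_mul_of_nonneg_right (h1 _) (by positivity)
  rw [e1, abs_of_nonneg e3]
  refine e4.trans (mul_le_mul_of_nonneg_left ?_ hB)
  linarith

private theorem M2b_le {G : Finset (List ℕ)} (hG : P G ≤ 1) {B : ℝ} {g : ℤ → ℝ}
    (hB : 0 ≤ B) (h0 : ∀ s, 0 ≤ g s) (h1 : ∀ s, g s ≤ B) :
    0 ≤ M2b_S G g ∧ M2b_S G g ≤ B := by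
  refine ⟨sum_nonneg fun v _ => mul_nonneg (by positivity) (h0 _), ?_⟩
  have e4 : M2b_S G g ≤ B * P G := by
    unfold M2b_S P
    rw [mul_sum]
    refine sum_le_sum fun v _ => ?_
    rw [mul_comm]
    exact mul_le_mul_of_nonneg_right (h1 _) (by positivity)
  exact e4.trans (mul_le_of_le_one_right hB hG)

private theorem M2b_succ (I l : ℕ) (g : ℤ → ℝ) :
    M2b_S (words I (l + 1)) g =
      ∑ a ∈ Icc 1 I, (1 / 2 : ℝ) ^ a * M2b_S (words I l) (fun s => g (s + a)) := by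
  unfold M2b_S
  rw [Pool.Agent.Collatz3.Mix.sum_words_succ]
  refine sum_congr rfl fun a _ => ?_
  rw [mul_sum]
  refine sum_congr rfl fun v _ => ?_
  rw [List.sum_cons, pow_add, Nat.cast_add, add_comm (a : ℤ) (v.sum : ℤ)]
  ring

private theorem M2b_it {G : Finset (List ℕ)} {D B : ℝ}
    (h : ∀ g : ℤ → ℝ, (∀ s, 0 ≤ g s) → (∀ s, g s ≤ B) →
      |M2b_S G g - M2b_S G (fun s => g (s - 1))| ≤ D)
    {g : ℤ → ℝ} (h0 : ∀ s, 0 ≤ g s) (h1 : ∀ s, g s ≤ B) (a : ℕ) :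
    |M2b_S G (fun s => g (s + a)) - M2b_S G g| ≤ a * D := by
  induction a with
  | zero => simp
  | succ a ih =>
    have h2 := h (fun s => g (s + ((a + 1 : ℕ) : ℤ))) (fun s => h0 _) (fun s => h1 _)
    have e : (fun s : ℤ => g (s - 1 + ((a + 1 : ℕ) : ℤ))) = fun s => g (s + (a : ℤ)) := by
      funext s
      congr 1
      push_cast
      ring
    simp only [e] at h2
    have h3 := abs_sub_le (M2b_S G (fun s => g (s + ((a + 1 : ℕ) : ℤ))))
      (M2b_S G (fun s => g (s + (a : ℤ)))) (M2b_S G g)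
    refine h3.trans ?_
    push_cast at h2 ⊢
    linarith

private theorem M2b_geo (I : ℕ) : ∑ a ∈ Icc 1 I, (1 / 2 : ℝ) ^ a * a ≤ 2 := by
  have h : ∀ I : ℕ, ∑ a ∈ Icc 1 I, (1 / 2 : ℝ) ^ a * a = 2 - (I + 2) * (1 / 2) ^ I := by
    intro I
    induction I with
    | zero => simp
    | succ I ih =>
      rw [sum_Icc_succ_top (by omega), ih, pow_succ]
      push_cast
      ring
  rw [h]
  have : (0 : ℝ) ≤ (I + 2) * (1 / 2) ^ I := by positivity
  linarith

private theorem M2b_pow {k : ℕ} (hk : 1 ≤ k) : 2 / (k : ℝ) ^ 8 ≤ 2 / √k := by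
  have h1 : (1 : ℝ) ≤ k := by exact_mod_cast hk
  have h2 : √(k : ℝ) ≤ k := by
    rw [Real.sqrt_le_left (by linarith)]
    nlinarith
  have h3 : (k : ℝ) ≤ (k : ℝ) ^ 8 := le_self_pow₀ h1 (by norm_num)
  have h4 : 0 < √(k : ℝ) := Real.sqrt_pos.2 (by linarith)
  exact div_le_div_of_nonneg_left (by norm_num) h4 (h2.trans h3)

private theorem M2b_II {k : ℕ} (hk : 1 ≤ k) : (1 / 2 : ℝ) ^ II (k + 1) ≤ 2 / √k := by
  have h1 : (1 : ℝ) ≤ k := by exact_mod_cast hk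
  have h0 := Pool.Agent.Collatz3.PD.half_pow_II (N := k + 1) (by omega)
  have h2 : √(k : ℝ) ≤ k := by
    rw [Real.sqrt_le_left (by linarith)]
    nlinarith
  have h4 : 0 < √(k : ℝ) := Real.sqrt_pos.2 (by linarith)
  have h5 : (2 : ℝ) / ((k + 1 : ℕ) : ℝ) ≤ 1 := by
    rw [div_le_one (by positivity)]
    push_cast
    linarith
  have h6 : ((2 : ℝ) / ((k + 1 : ℕ) : ℝ)) ^ 12 ≤ (2 : ℝ) / ((k + 1 : ℕ) : ℝ) :=
    pow_le_of_le_one (by positivity) h5 (by norm_num)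
  refine (h0.trans h6).trans (div_le_div_of_nonneg_left (by norm_num) h4 ?_)
  push_cast
  linarith

/-- The comparison of `l` and `l + 1` letters follows from the estimate for a shift. -/
theorem nb_len_of (hsh : ∃ C : ℝ, 0 < C ∧ ∀ (θ : ℝ) (k : ℕ), NumT θ k →
    ∀ (B : ℝ) (g : ℤ → ℝ), 0 ≤ B → (∀ s, 0 ≤ g s) → (∀ s, g s ≤ B) →
    |∑ v ∈ goodV (II k) k (k - k / 20), (1 / 2 : ℝ) ^ v.sum * g (v.sum : ℤ) -
      ∑ v ∈ goodV (II k) k (k - k / 20), (1 / 2 : ℝ) ^ v.sum * g ((v.sum : ℤ) - 1)| ≤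
        C * B / √k) :
    ∃ C : ℝ, 0 < C ∧ ∀ (θ : ℝ) (k : ℕ), NumT θ k → NumT θ (k + 1) →
    k + 1 - (k + 1) / 20 = k - k / 20 + 1 → ∀ (B : ℝ) (g : ℤ → ℝ), 0 ≤ B →
    (∀ s, 0 ≤ g s) → (∀ s, g s ≤ B) →
    |∑ v ∈ goodV (II k) k (k - k / 20), (1 / 2 : ℝ) ^ v.sum * g (v.sum : ℤ) -
      ∑ v ∈ goodV (II (k + 1)) (k + 1) (k + 1 - (k + 1) / 20), (1 / 2 : ℝ) ^ v.sum * g (v.sum : ℤ)| ≤
        C * B / √k := by
  obtain ⟨C, hC, hsh⟩ := hsh
  refine ⟨2 * C + 6, by linarith, ?_⟩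
  intro θ k hN hN' hlen B g hB h0 h1
  have hk : 1 ≤ k := by
    have := hN.big
    omega
  obtain ⟨l, hl⟩ : ∃ l : ℕ, l = k - k / 20 := ⟨_, rfl⟩
  rw [hlen, ← hl]
  have hsh' := hsh θ k hN B
  rw [← hl] at hsh'
  have hG1 := Pool.Agent.Collatz3.FW.P_good_ge hN.n1 (d := l) (by omega) (by omega)
  have hG2 := Pool.Agent.Collatz3.FW.P_good_ge hN'.n1 (d := l + 1) (by omega) (by omega)
  have hIJ : II k ≤ II (k + 1) := by
    unfold II
    exact Nat.mul_le_mul_left _ (Nat.log_mono_right (by omega))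
  set I := II k with hI
  set J := II (k + 1) with hJ
  set G1 := goodV I k l with hG1d
  set G2 := goodV J (k + 1) (l + 1) with hG2d
  have s1 : G1 ⊆ words J l := (Pool.Agent.Collatz3.FW.goodV_subset I k l).trans
    (Pool.Agent.Collatz3.PD.words_mono hIJ l)
  have s2 : G2 ⊆ words J (l + 1) := Pool.Agent.Collatz3.FW.goodV_subset J (k + 1) (l + 1)
  have pw : ∀ n : ℕ, P (words J n) ≤ 1 := by
    intro n
    rw [Pool.Agent.Collatz3.PD.P_words]
    exact pow_le_one₀ (Pool.Agent.Collatz3.PD.Z_nonneg J) (Pool.Agent.Collatz3.PD.Z_le_one J)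
  have hr : 0 < √(k : ℝ) := Real.sqrt_pos.2 (by exact_mod_cast hk)
  have w1 : 1 - P G1 ≤ 2 / √k := by
    have := M2b_pow hk
    linarith
  have w2 : 1 - P G2 ≤ 2 / √k := by
    have h3 := M2b_pow (k := k + 1) (by omega)
    have h4 : (2 : ℝ) / √((k + 1 : ℕ) : ℝ) ≤ 2 / √k := by
      apply div_le_div_of_nonneg_left (by norm_num) hr
      apply Real.sqrt_le_sqrt
      push_cast
      linarith
    linarith
  have w3 : (1 / 2 : ℝ) ^ J ≤ 2 / √k := M2b_II hk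
  -- the sum over all words with one more letter
  have t2 := M2b_sub s2 (pw (l + 1)) hB h0 h1
  have t1 : ∀ a : ℕ, |M2b_S (words J l) (fun s => g (s + a)) - M2b_S G1 g| ≤
      B * (2 / √k) + a * (C * B / √k) := by
    intro a
    have u1 := M2b_sub s1 (pw l) hB (g := fun s => g (s + a)) (fun s => h0 _) (fun s => h1 _)
    have u2 := M2b_it (G := G1) (D := C * B / √k) (B := B)
      (fun g h0 h1 => hsh' g hB h0 h1) h0 h1 a
    have u3 := abs_sub_le (M2b_S (words J l) (fun s => g (s + a)))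
      (M2b_S G1 (fun s => g (s + a))) (M2b_S G1 g)
    have u4 := mul_le_mul_of_nonneg_left w1 hB
    linarith
  have hZ : ∑ a ∈ Icc 1 J, (1 / 2 : ℝ) ^ a = 1 - (1 / 2 : ℝ) ^ J :=
    Pool.Agent.Collatz3.PD.Z_eq J
  have t3 : |M2b_S (words J (l + 1)) g - M2b_S G1 g| ≤
      B * (2 / √k) + 2 * (C * B / √k) + B * (2 / √k) := by
    have v1 : M2b_S (words J (l + 1)) g - M2b_S G1 g =
        ∑ a ∈ Icc 1 J, (1 / 2 : ℝ) ^ a *
          (M2b_S (words J l) (fun s => g (s + a)) - M2b_S G1 g) - (1 / 2 : ℝ) ^ J * M2b_S G1 g := by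
      rw [M2b_succ]
      simp only [mul_sub, sum_sub_distrib]
      rw [← sum_mul, hZ]
      ring
    have v2 : |∑ a ∈ Icc 1 J, (1 / 2 : ℝ) ^ a *
          (M2b_S (words J l) (fun s => g (s + a)) - M2b_S G1 g)| ≤
        B * (2 / √k) + 2 * (C * B / √k) := by
      refine (abs_sum_le_sum_abs _ _).trans ?_
      have v3 : ∑ a ∈ Icc 1 J, |(1 / 2 : ℝ) ^ a *
          (M2b_S (words J l) (fun s => g (s + a)) - M2b_S G1 g)| ≤
          ∑ a ∈ Icc 1 J, ((1 / 2 : ℝ) ^ a * (B * (2 / √k)) +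
            ((1 / 2 : ℝ) ^ a * a) * (C * B / √k)) := by
        refine sum_le_sum fun a _ => ?_
        rw [abs_mul, abs_of_nonneg (by positivity : (0 : ℝ) ≤ (1 / 2) ^ a)]
        have := mul_le_mul_of_nonneg_left (t1 a) (by positivity : (0 : ℝ) ≤ (1 / 2) ^ a)
        refine this.trans (le_of_eq ?_)
        ring
      refine v3.trans ?_
      rw [sum_add_distrib, ← sum_mul, ← sum_mul, hZ]
      have q1 : (1 - (1 / 2 : ℝ) ^ J) * (B * (2 / √k)) ≤ B * (2 / √k) := by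
        apply mul_le_of_le_one_left (by positivity)
        have : (0 : ℝ) ≤ (1 / 2) ^ J := by positivity
        linarith
      have q2 := mul_le_mul_of_nonneg_right (M2b_geo J) (by positivity : 0 ≤ C * B / √(k : ℝ))
      linarith
    have v4 : |(1 / 2 : ℝ) ^ J * M2b_S G1 g| ≤ B * (2 / √k) := by
      have q3 := M2b_le ((Pool.Agent.Collatz3.PD.P_mono s1).trans (pw l)) hB h0 h1
      rw [abs_of_nonneg (mul_nonneg (by positivity) q3.1), mul_comm B]
      exact mul_le_mul w3 q3.2 q3.1 (by positivity)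
    rw [v1]
    refine (abs_sub _ _).trans ?_
    linarith
  have t4 := mul_le_mul_of_nonneg_left w2 hB
  have t5 : |M2b_S G1 g - M2b_S G2 g| ≤ (2 * C + 6) * B / √k := by
    have x1 := abs_sub_le (M2b_S G1 g) (M2b_S (words J (l + 1)) g) (M2b_S G2 g)
    rw [abs_sub_comm (M2b_S G1 g) (M2b_S (words J (l + 1)) g)] at x1
    have x2 : (2 * C + 6) * B / √k =
        B * (2 / √k) + 2 * (C * B / √k) + B * (2 / √k) + B * (2 / √k) := by ring
    rw [x2]
    linarith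
  exact t5

end Pool.Agent.LLT
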