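import Pool.Agent.LLT.M1

/-!
Near invariance of the shares of odd numbers.
-/

set_option autoImplicit false

namespace Pool.Agent.LLT

open Finset Filter Topology
open Pool.Agent.Collatz3.FW
open Pool.Agent.Collatz3.PD

/-- The statement of `nb_shift` (M2). -/
def NbShift : Prop := ∃ C : ℝ, 0 < C ∧ ∀ (θ : ℝ) (k : ℕ), NumT θ k → ∀ (B : ℝ) (g : ℤ → ℝ), 0 ≤ B →
    (∀ s, 0 ≤ g s) → (∀ s, g s ≤ B) →
    |∑ v ∈ goodV (II k) k (k - k / 20), (1 / 2 : ℝ) ^ v.sum * g (v.sum : ℤ) -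
      ∑ v ∈ goodV (II k) k (k - k / 20), (1 / 2 : ℝ) ^ v.sum * g ((v.sum : ℤ) - 1)| ≤ C * B / √k

/-- The statement of `nb_len` (M2). -/
def NbLen : Prop := ∃ C : ℝ, 0 < C ∧ ∀ (θ : ℝ) (k : ℕ), NumT θ k → NumT θ (k + 1) →
    k + 1 - (k + 1) / 20 = k - k / 20 + 1 → ∀ (B : ℝ) (g : ℤ → ℝ), 0 ≤ B →
    (∀ s, 0 ≤ g s) → (∀ s, g s ≤ B) →
    |∑ v ∈ goodV (II k) k (k - k / 20), (1 / 2 : ℝ) ^ v.sum * g (v.sum : ℤ) -
      ∑ v ∈ goodV (II (k + 1)) (k + 1) (k + 1 - (k + 1) / 20), (1 / 2 : ℝ) ^ v.sum * g (v.sum : ℤ)| ≤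
        C * B / √k

namespace Inv3

theorem F_mono_X (A : Set ℤ) {X Y : ℝ} (h : X ≤ Y) : F 1 A X ≤ F 1 A Y := by
  classical
  unfold F
  exact_mod_cast card_le_card (filter_subset_filter _ (Od_mono 1 h))

theorem F_diff (A : Set ℤ) {y δ : ℝ} (hy : 0 ≤ y) (hδ : 0 ≤ δ) :
    F 1 A (y + δ) ≤ F 1 A y + (δ / 2 + 1) := by
  classical
  have hsub : Od 1 y ⊆ Od 1 (y + δ) := Od_mono 1 (by linarith)
  have h1 : (Od 1 (y + δ)).filter (fun n => n ∈ A) ⊆
      (Od 1 y).filter (fun n => n ∈ A) ∪ (Od 1 (y + δ) \ Od 1 y) := by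
    intro n hn
    rw [mem_filter] at hn
    rw [mem_union, mem_filter, Finset.mem_sdiff]
    by_cases h : n ∈ Od 1 y
    · exact Or.inl ⟨h, hn.2⟩
    · exact Or.inr ⟨hn.1, h⟩
  have h2 := (card_le_card h1).trans (card_union_le _ _)
  have h3 : (Od 1 (y + δ) \ Od 1 y).card + (Od 1 y).card = (Od 1 (y + δ)).card :=
    card_sdiff_add_card_eq_card hsub
  have h4 : ((Od 1 (y + δ)).card : ℝ) ≤ (y + δ + 1) / 2 := by
    rw [card_Od (Or.inl rfl)]
    exact oc_le (by linarith)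
  have h5 : (y - 1) / 2 ≤ ((Od 1 y).card : ℝ) := by
    rw [card_Od (Or.inl rfl)]
    unfold oc
    have := Nat.lt_floor_add_one ((y + 1) / 2)
    linarith
  have h6 : (((Od 1 (y + δ) \ Od 1 y).card : ℕ) : ℝ) + ((Od 1 y).card : ℝ) =
      ((Od 1 (y + δ)).card : ℝ) := by exact_mod_cast h3
  unfold F
  have h7 : ((((Od 1 (y + δ)).filter fun n => n ∈ A).card : ℕ) : ℝ) ≤
      (((Od 1 y).filter fun n => n ∈ A).card : ℝ) + ((Od 1 (y + δ) \ Od 1 y).card : ℝ) := by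
    exact_mod_cast h2
  linarith

theorem ff_nonneg (A : Set ℤ) {y : ℝ} (hy : 0 ≤ y) : 0 ≤ ff A y :=
  div_nonneg (F_nonneg _ _ _) (by linarith)

theorem ff_le_two (A : Set ℤ) {y : ℝ} (hy : 1 ≤ y) : ff A y ≤ 2 := by
  unfold ff
  rw [div_le_iff₀ (by linarith)]
  have := F_le (Or.inl rfl) A (by linarith : (0 : ℝ) ≤ y)
  linarith

theorem ff_diff (A : Set ℤ) {y δ : ℝ} (hy : 1 ≤ y) (hδ : 0 ≤ δ) :
    |ff A (y + δ) - ff A y| ≤ (2 * δ + 2) / y := by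
  have hy0 : 0 < y := by linarith
  have h1 := F_diff A hy0.le hδ
  have h2 := F_mono_X A (by linarith : y ≤ y + δ)
  have h3 := F_nonneg 1 A y
  have h3' := F_nonneg 1 A (y + δ)
  have h4 := ff_le_two A hy
  have h5 : F 1 A y = ff A y * (y / 2) := by
    unfold ff
    field_simp
  have h6 : F 1 A (y + δ) = ff A (y + δ) * ((y + δ) / 2) := by
    unfold ff
    field_simp
  have h7 := ff_nonneg A (by linarith : 0 ≤ y + δ)
  rw [abs_le]
  constructor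
  · have h8 : ff A y - ff A (y + δ) ≤ (2 * δ + 2) / y := by
      rw [le_div_iff₀ hy0]
      have : ff A y * y ≤ ff A (y + δ) * (y + δ) := by
        rw [h5, h6] at h2
        linarith
      have h9 : ff A (y + δ) ≤ 2 := ff_le_two A (by linarith)
      nlinarith
    linarith
  · rw [le_div_iff₀ hy0]
    rw [h5, h6] at h1
    nlinarith

theorem two_pow_le_six {d s : ℕ} (h : 100 * s ≤ 201 * d) : (2 : ℝ) ^ s ≤ 6 ^ d := by
  have h1 : ((2 : ℝ) ^ s) ^ 2 ≤ (6 ^ d) ^ 2 := by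
    rw [← pow_mul, ← pow_mul, mul_comm s 2, mul_comm d 2, pow_mul 6]
    calc (2 : ℝ) ^ (2 * s) ≤ 2 ^ (5 * d) := pow_le_pow_right₀ (by norm_num) (by omega)
      _ = (2 ^ 5) ^ d := by rw [pow_mul]
      _ ≤ (6 ^ 2) ^ d := pow_le_pow_left₀ (by norm_num) (by norm_num) d
  exact le_of_sq_le_sq h1 (by positivity)

/-- The levels after one stage. -/
theorem level_ge {k : ℕ} {X : ℝ} (hX : 2 ^ (10 * k) ≤ X) {s : ℕ}
    (hs : 100 * s ≤ 201 * (k - k / 20)) :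
    X ^ (9 / 10 : ℝ) ≤ 3 ^ (k - k / 20) * X / 2 ^ s := by
  have hX0 : 0 < X := lt_of_lt_of_le (by positivity) hX
  have h1 := two_pow_le_six hs
  have h2 : (6 : ℝ) ^ (k - k / 20) = 3 ^ (k - k / 20) * 2 ^ (k - k / 20) := by
    rw [← mul_pow]
    norm_num
  have h3 : (2 : ℝ) ^ (k - k / 20) ≤ 2 ^ k := pow_le_pow_right₀ (by norm_num) (by omega)
  have h4 : (2 : ℝ) ^ k ≤ X ^ (1 / 10 : ℝ) := by
    have h5 : ((2 : ℝ) ^ (10 * k)) ^ (1 / 10 : ℝ) ≤ X ^ (1 / 10 : ℝ) :=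
      Real.rpow_le_rpow (by positivity) hX (by norm_num)
    refine le_trans (le_of_eq ?_) h5
    rw [← Real.rpow_natCast, ← Real.rpow_natCast, ← Real.rpow_mul (by norm_num)]
    congr 1
    push_cast
    ring
  have h5 : X ^ (9 / 10 : ℝ) * X ^ (1 / 10 : ℝ) = X := by
    rw [← Real.rpow_add hX0]
    norm_num
  have h6 : 0 < X ^ (9 / 10 : ℝ) := Real.rpow_pos_of_pos hX0 _
  rw [le_div_iff₀ (by positivity)]
  calc X ^ (9 / 10 : ℝ) * 2 ^ s ≤ X ^ (9 / 10 : ℝ) * (3 ^ (k - k / 20) * 2 ^ k) := by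
        apply mul_le_mul_of_nonneg_left _ h6.le
        refine (h1.trans (le_of_eq h2)).trans ?_
        exact mul_le_mul_of_nonneg_left h3 (by positivity)
    _ ≤ X ^ (9 / 10 : ℝ) * (3 ^ (k - k / 20) * X ^ (1 / 10 : ℝ)) := by
        apply mul_le_mul_of_nonneg_left _ h6.le
        exact mul_le_mul_of_nonneg_left h4 (by positivity)
    _ = 3 ^ (k - k / 20) * (X ^ (9 / 10 : ℝ) * X ^ (1 / 10 : ℝ)) := by ring
    _ = 3 ^ (k - k / 20) * X := by rw [h5]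

theorem zpow_sub (s : ℕ) : (2 : ℝ) ^ ((s : ℤ) - 1) = 2 ^ s / 2 := by
  rw [zpow_sub_one₀ (by norm_num), zpow_natCast]
  rfl

theorem inv_aux {k : ℕ} {L B C : ℝ} (hk : 21 ≤ k) (hL0 : 0 < L) (hL : L ≤ 8 * k) (hB : 0 ≤ B)
    (hC : 0 ≤ C) : C * B / √k ≤ 3 * C * (B / √L) ∧ 1 / (k : ℝ) ^ 7 ≤ 64 * (1 / L ^ 2) ∧
      1 / (k : ℝ) ^ 2 ≤ 64 * (1 / L ^ 2) := by
  have hk0 : (0 : ℝ) < k := by
    have : (21 : ℝ) ≤ k := by exact_mod_cast hk
    linarith
  have hk1 : (1 : ℝ) ≤ k := by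
    have : (21 : ℝ) ≤ k := by exact_mod_cast hk
    linarith
  have h2 : 1 / (k : ℝ) ^ 2 ≤ 64 * (1 / L ^ 2) := by
    rw [mul_one_div, div_le_div_iff₀ (by positivity) (by positivity)]
    nlinarith
  refine ⟨?_, ?_, h2⟩
  · have h3 : √L ≤ 3 * √k := by
      have h4 : (3 : ℝ) * √k = √(9 * k) := by
        rw [Real.sqrt_mul (by norm_num)]
        congr 1
        rw [show (9 : ℝ) = 3 ^ 2 by norm_num, Real.sqrt_sq (by norm_num)]
      rw [h4]
      exact Real.sqrt_le_sqrt (by linarith)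
    have h5 : 0 < √L := Real.sqrt_pos.2 hL0
    have h6 : (0 : ℝ) < √k := Real.sqrt_pos.2 hk0
    rw [show 3 * C * (B / √L) = (3 * (C * B)) / √L by ring, div_le_div_iff₀ h6 h5]
    have h7 : 0 ≤ C * B := mul_nonneg hC hB
    nlinarith
  · refine le_trans ?_ h2
    apply one_div_le_one_div_of_le (by positivity)
    exact pow_le_pow_right₀ hk1 (by norm_num)

end Inv3

open Inv3 in
/-- Near invariance under `(X, t) → (2X, t+1)` and `X → 3X`. -/
theorem inv_of (sh : NbShift) (sl : NbLen) {M : ℝ} (hM : 1 < M) {A : ℝ → Set ℤ} (hA : Fam M A) : ∃ C X₀ : ℝ, 0 < C ∧ 2 ≤ X₀ ∧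
    ∀ X t B : ℝ, X₀ ≤ X → 0 ≤ B → (∀ y τ : ℝ, X ^ (9 / 10 : ℝ) ≤ y → ff (A τ) y ≤ B) →
      |ff (A (t + 1)) (2 * X) - ff (A t) X| ≤ C * (B / √(Real.log X) + 1 / Real.log X ^ 2) ∧
      |ff (A t) (3 * X) - ff (A t) X| ≤ C * (B / √(Real.log X) + 1 / Real.log X ^ 2) := by
  obtain ⟨C1, hC1, h1⟩ := sh
  obtain ⟨C2, hC2, h2⟩ := sl
  have hpow : Tendsto (fun k : ℕ => (2 : ℝ) ^ (10 * k)) atTop atTop := by
    have h3 : Tendsto (fun k : ℕ => ((2 : ℝ) ^ 10) ^ k) atTop atTop :=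
      tendsto_pow_atTop_atTop_of_one_lt (by norm_num)
    refine h3.congr fun k => ?_
    rw [pow_mul]
  obtain ⟨k₀, hk₀⟩ := eventually_atTop.1 ((numT_all (θ := 13 / 25) (by norm_num)).and
    (hpow.eventually_gt_atTop (M ^ 2)))
  refine ⟨3 * C1 + 3 * C2 + 10000, 2 ^ (10 * (k₀ + 40)), by positivity, ?_, ?_⟩
  · calc (2 : ℝ) = 2 ^ 1 := by norm_num
      _ ≤ 2 ^ (10 * (k₀ + 40)) := pow_le_pow_right₀ (by norm_num) (by omega)
  intro X t B hX hB hbd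
  have hX1 : (1 : ℝ) ≤ X := le_trans (one_le_pow₀ (by norm_num)) hX
  have hX0 : 0 < X := by linarith
  obtain ⟨k1, hk1, hk2⟩ := exists_stage hX1
  have hk1' : k₀ + 40 ≤ k1 := by
    have h3 : (2 : ℝ) ^ (10 * (k₀ + 40)) < 2 ^ (10 * (k1 + 1)) := lt_of_le_of_lt hX hk2
    have h4 := (pow_lt_pow_iff_right₀ (by norm_num : (1 : ℝ) < 2)).1 h3
    omega
  obtain ⟨k, hkk0, hkk1, hkk3, hkl⟩ : ∃ k, k₀ + 30 ≤ k ∧ k + 1 ≤ k1 ∧ k1 ≤ k + 2 ∧
      k + 1 - (k + 1) / 20 = k - k / 20 + 1 := by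
    by_cases h : k1 % 20 = 0
    · exact ⟨k1 - 2, by omega, by omega, by omega, by omega⟩
    · exact ⟨k1 - 1, by omega, by omega, by omega, by omega⟩
  obtain ⟨hN, hMk⟩ := hk₀ k (by omega)
  obtain ⟨hN', hMk'⟩ := hk₀ (k + 1) (by omega)
  have hkX' : (2 : ℝ) ^ (10 * (k + 1)) ≤ X :=
    (pow_le_pow_right₀ (by norm_num) (by omega)).trans hk1
  have hkX : (2 : ℝ) ^ (10 * k) ≤ X := (pow_le_pow_right₀ (by norm_num) (by omega)).trans hk1
  obtain ⟨L, hL⟩ : ∃ L, L = Real.log X := ⟨_, rfl⟩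
  have hL0 : 0 < L := by
    rw [hL]
    apply Real.log_pos
    refine lt_of_lt_of_le ?_ hkX
    exact one_lt_pow₀ (by norm_num) (by omega)
  have hkr : (30 : ℝ) ≤ k := by
    have : 30 ≤ k := by omega
    exact_mod_cast this
  have hL8 : L ≤ 8 * k := by
    have h3 : L ≤ (10 * (k1 + 1) : ℕ) * Real.log 2 := by
      rw [hL, ← Real.log_pow]
      exact Real.log_le_log hX0 hk2.le
    have h4 : Real.log 2 < 0.6931471808 := Real.log_two_lt_d9
    have h5 : ((10 * (k1 + 1) : ℕ) : ℝ) ≤ 10 * (k + 3) := by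
      have : 10 * (k1 + 1) ≤ 10 * (k + 3) := by omega
      exact_mod_cast this
    have h6 : (0 : ℝ) < Real.log 2 := Real.log_pos (by norm_num)
    nlinarith
  rw [← hL]
  obtain ⟨a1, a2, a3⟩ := inv_aux (by omega : 21 ≤ k) hL0 hL8 hB hC1.le
  obtain ⟨b1, -, -⟩ := inv_aux (by omega : 21 ≤ k) hL0 hL8 hB hC2.le
  have hBL : 0 ≤ B / √L := by positivity
  have hLL : 0 ≤ 1 / L ^ 2 := by positivity
  constructor
  · -- one step
    obtain ⟨g, hg⟩ : ∃ g : ℤ → ℝ, g = fun s : ℤ => if X ^ (9 / 10 : ℝ) ≤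
      3 ^ (k - k / 20) * X / (2 : ℝ) ^ s + 2 ^ k then
        ff (A (t - (s : ℝ))) (3 ^ (k - k / 20) * X / (2 : ℝ) ^ s + 2 ^ k) else 0 := ⟨_, rfl⟩
    have hg0 : ∀ s, 0 ≤ g s := by
      intro s
      rw [hg]
      simp only
      split_ifs
      · exact ff_nonneg _ (by positivity)
      · exact le_rfl
    have hgB : ∀ s, g s ≤ B := by
      intro s
      rw [hg]
      simp only
      split_ifs with h
      · exact hbd _ _ h
      · exact hB
    have e1 := stage2 hN hM hMk hA hkX t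
    have e2 := stage2 hN hM hMk hA (by linarith : (2 : ℝ) ^ (10 * k) ≤ 2 * X) (t + 1)
    have e3 := h1 _ k hN B g hB hg0 hgB
    have s1 : ∑ v ∈ goodV (II k) k (k - k / 20), (1 / 2 : ℝ) ^ v.sum *
        ff (A (t - v.sum)) (3 ^ (k - k / 20) * X / 2 ^ v.sum + 2 ^ k) =
        ∑ v ∈ goodV (II k) k (k - k / 20), (1 / 2 : ℝ) ^ v.sum * g (v.sum : ℤ) := by
      apply sum_congr rfl
      intro v hv
      have h3 := level_ge hkX (goodV_bounds hv).2.1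
      have h4 : (0 : ℝ) < 2 ^ k := by positivity
      rw [hg]
      simp only [zpow_natCast, Int.cast_natCast]
      rw [if_pos (by linarith)]
    have s2 : ∑ v ∈ goodV (II k) k (k - k / 20), (1 / 2 : ℝ) ^ v.sum *
        ff (A (t + 1 - v.sum)) (3 ^ (k - k / 20) * (2 * X) / 2 ^ v.sum + 2 ^ k) =
        ∑ v ∈ goodV (II k) k (k - k / 20), (1 / 2 : ℝ) ^ v.sum * g ((v.sum : ℤ) - 1) := by
      apply sum_congr rfl
      intro v hv
      have h3 := level_ge hkX (goodV_bounds hv).2.1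
      have h4 : (0 : ℝ) < 2 ^ k := by positivity
      rw [hg]
      simp only
      rw [zpow_sub]
      have h5 : 3 ^ (k - k / 20) * X / ((2 : ℝ) ^ v.sum / 2) =
          3 ^ (k - k / 20) * (2 * X) / 2 ^ v.sum := by
        rw [div_div_eq_mul_div]
        congr 1
        ring
      have h6 : 3 ^ (k - k / 20) * (2 * X) / 2 ^ v.sum =
          2 * (3 ^ (k - k / 20) * X / (2 : ℝ) ^ v.sum) := by ring
      have h7 : 0 < 3 ^ (k - k / 20) * X / (2 : ℝ) ^ v.sum := by positivity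
      have h8 : t - (((v.sum : ℤ) - 1 : ℤ) : ℝ) = t + 1 - (v.sum : ℝ) := by
        rw [Int.cast_sub, Int.cast_natCast, Int.cast_one]
        ring
      rw [h5, if_pos (by rw [h6]; linarith), h8]
    rw [s1] at e1
    rw [s2] at e2
    have e4 : |ff (A (t + 1)) (2 * X) - ff (A t) X| ≤ 20 / (k : ℝ) ^ 7 + 20 / (k : ℝ) ^ 7 +
        C1 * B / √k := by
      rw [abs_le] at e1 e2 e3 ⊢
      constructor <;> linarith [e1.1, e1.2, e2.1, e2.2, e3.1, e3.2]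
    have h20 : 20 / (k : ℝ) ^ 7 = 20 * (1 / (k : ℝ) ^ 7) := by ring
    rw [h20] at e4
    have f1 : 0 ≤ C2 * (B / √L) := mul_nonneg hC2.le hBL
    have f2 : 0 ≤ C2 * (1 / L ^ 2) := mul_nonneg hC2.le hLL
    have f3 : 0 ≤ C1 * (1 / L ^ 2) := mul_nonneg hC1.le hLL
    nlinarith
  · -- one letter
    obtain ⟨g, hg⟩ : ∃ g : ℤ → ℝ, g = fun s : ℤ => if X ^ (9 / 10 : ℝ) ≤
      3 ^ (k - k / 20 + 1) * X / (2 : ℝ) ^ s + 2 ^ k then
        ff (A (t - (s : ℝ))) (3 ^ (k - k / 20 + 1) * X / (2 : ℝ) ^ s + 2 ^ k) else 0 := ⟨_, rfl⟩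
    have hg0 : ∀ s, 0 ≤ g s := by
      intro s
      rw [hg]
      simp only
      split_ifs
      · exact ff_nonneg _ (by positivity)
      · exact le_rfl
    have hgB : ∀ s, g s ≤ B := by
      intro s
      rw [hg]
      simp only
      split_ifs with h
      · exact hbd _ _ h
      · exact hB
    have e1 := stage2 hN hM hMk hA (by linarith : (2 : ℝ) ^ (10 * k) ≤ 3 * X) t
    have e2 := stage2 hN' hM hMk' hA hkX' t
    have e3 := h2 _ k hN hN' hkl B g hB hg0 hgB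
    have s1 : ∑ v ∈ goodV (II k) k (k - k / 20), (1 / 2 : ℝ) ^ v.sum *
        ff (A (t - v.sum)) (3 ^ (k - k / 20) * (3 * X) / 2 ^ v.sum + 2 ^ k) =
        ∑ v ∈ goodV (II k) k (k - k / 20), (1 / 2 : ℝ) ^ v.sum * g (v.sum : ℤ) := by
      apply sum_congr rfl
      intro v hv
      have h3 := level_ge hkX (goodV_bounds hv).2.1
      have h4 : (0 : ℝ) < 2 ^ k := by positivity
      have h5 : (3 : ℝ) ^ (k - k / 20 + 1) * X / 2 ^ v.sum =
          3 ^ (k - k / 20) * (3 * X) / 2 ^ v.sum := by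
        rw [pow_succ]
        ring
      have h6 : 3 ^ (k - k / 20) * (3 * X) / 2 ^ v.sum =
          3 * (3 ^ (k - k / 20) * X / (2 : ℝ) ^ v.sum) := by ring
      have h7 : 0 < 3 ^ (k - k / 20) * X / (2 : ℝ) ^ v.sum := by positivity
      rw [hg]
      simp only [zpow_natCast, Int.cast_natCast]
      rw [h5, if_pos (by rw [h6]; linarith)]
    have s2 : |∑ v ∈ goodV (II (k + 1)) (k + 1) (k + 1 - (k + 1) / 20), (1 / 2 : ℝ) ^ v.sum *
        ff (A (t - v.sum)) (3 ^ (k + 1 - (k + 1) / 20) * X / 2 ^ v.sum + 2 ^ (k + 1)) -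
        ∑ v ∈ goodV (II (k + 1)) (k + 1) (k + 1 - (k + 1) / 20), (1 / 2 : ℝ) ^ v.sum *
          g (v.sum : ℤ)| ≤ 1 / (k : ℝ) ^ 2 := by
      rw [← sum_sub_distrib]
      refine (abs_sum_le_sum_abs _ _).trans ?_
      have h9 : ∀ v ∈ goodV (II (k + 1)) (k + 1) (k + 1 - (k + 1) / 20),
          |(1 / 2 : ℝ) ^ v.sum * ff (A (t - v.sum)) (3 ^ (k + 1 - (k + 1) / 20) * X / 2 ^ v.sum +
            2 ^ (k + 1)) - (1 / 2 : ℝ) ^ v.sum * g (v.sum : ℤ)| ≤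
          (1 / 2 : ℝ) ^ v.sum * (1 / (k : ℝ) ^ 2) := by
        intro v hv
        rw [← mul_sub, abs_mul, abs_of_nonneg (by positivity : (0 : ℝ) ≤ (1 / 2) ^ v.sum)]
        apply mul_le_mul_of_nonneg_left _ (by positivity)
        have h3 := level_ge hkX' (goodV_bounds hv).2.1
        have h4 : (0 : ℝ) < 2 ^ k := by positivity
        rw [hkl] at h3 ⊢
        rw [hg]
        simp only [zpow_natCast, Int.cast_natCast]
        rw [if_pos (by linarith)]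
        obtain ⟨y, hy⟩ : ∃ y, y = (3 : ℝ) ^ (k - k / 20 + 1) * X / 2 ^ v.sum + 2 ^ k := ⟨_, rfl⟩
        have h5 : (3 : ℝ) ^ (k - k / 20 + 1) * X / 2 ^ v.sum + 2 ^ (k + 1) = y + 2 ^ k := by
          rw [hy, pow_succ]
          ring
        rw [h5, ← hy]
        have h6 : (2 : ℝ) ^ (9 * k) ≤ X ^ (9 / 10 : ℝ) := by
          have h7 : ((2 : ℝ) ^ (10 * k)) ^ (9 / 10 : ℝ) ≤ X ^ (9 / 10 : ℝ) :=
            Real.rpow_le_rpow (by positivity) hkX (by norm_num)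
          refine le_trans (le_of_eq ?_) h7
          rw [← Real.rpow_natCast, ← Real.rpow_natCast, ← Real.rpow_mul (by norm_num)]
          congr 1
          push_cast
          ring
        have h7 : (2 : ℝ) ^ (9 * k) ≤ y := by rw [hy]; linarith
        have h8 : (1 : ℝ) ≤ 2 ^ k := one_le_pow₀ (by norm_num)
        have h9 : (1 : ℝ) ≤ 2 ^ (9 * k) := one_le_pow₀ (by norm_num)
        refine (ff_diff _ (by linarith) h4.le).trans ?_
        have hk0 : (0 : ℝ) < (k : ℝ) ^ 2 := by positivity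
        rw [div_le_div_iff₀ (by linarith) hk0]
        have h10 : (k : ℝ) ≤ 2 ^ k := by exact_mod_cast (Nat.lt_two_pow_self (n := k)).le
        have h11 : (k : ℝ) ^ 2 ≤ (2 ^ k) ^ 2 := pow_le_pow_left₀ (by linarith) h10 2
        have h12 : (4 : ℝ) ≤ 2 ^ k := by
          calc (4 : ℝ) = 2 ^ 2 := by norm_num
            _ ≤ 2 ^ k := pow_le_pow_right₀ (by norm_num) (by omega)
        have h13 : ((2 : ℝ) ^ k) * (2 ^ k) * (2 ^ k) ^ 2 ≤ 2 ^ (9 * k) := by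
          rw [← pow_mul, ← pow_add, ← pow_add]
          exact pow_le_pow_right₀ (by norm_num) (by omega)
        calc (2 * (2 : ℝ) ^ k + 2) * (k : ℝ) ^ 2 ≤ (2 ^ k * 2 ^ k) * (2 ^ k) ^ 2 := by
              apply mul_le_mul _ h11 (by positivity) (by positivity)
              nlinarith
          _ ≤ 2 ^ (9 * k) := h13
          _ ≤ 1 * y := by linarith
      refine (sum_le_sum h9).trans ?_
      rw [← sum_mul]
      have h10 := P_good_le_one (k + 1) (k + 1 - (k + 1) / 20)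
      unfold P at h10
      have h11 := mul_le_mul_of_nonneg_right h10 (by positivity : (0 : ℝ) ≤ 1 / (k : ℝ) ^ 2)
      rw [one_mul] at h11
      exact h11
    rw [s1] at e1
    have e4 : |ff (A t) (3 * X) - ff (A t) X| ≤ 20 / (k : ℝ) ^ 7 +
        20 / (((k + 1 : ℕ) : ℝ)) ^ 7 + C2 * B / √k + 1 / (k : ℝ) ^ 2 := by
      rw [abs_le] at e1 e2 e3 s2 ⊢
      constructor <;> linarith [e1.1, e1.2, e2.1, e2.2, e3.1, e3.2, s2.1, s2.2]
    have h20 : 20 / (k : ℝ) ^ 7 = 20 * (1 / (k : ℝ) ^ 7) := by ring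
    have h21 : 20 / (((k + 1 : ℕ) : ℝ)) ^ 7 ≤ 20 * (1 / (k : ℝ) ^ 7) := by
      rw [mul_one_div]
      apply div_le_div_of_nonneg_left (by norm_num) (by positivity)
      apply pow_le_pow_left₀ (by linarith)
      push_cast
      linarith
    rw [h20] at e4
    have f1 : 0 ≤ C1 * (B / √L) := mul_nonneg hC1.le hBL
    have f2 : 0 ≤ C2 * (1 / L ^ 2) := mul_nonneg hC2.le hLL
    have f3 : 0 ≤ C1 * (1 / L ^ 2) := mul_nonneg hC1.le hLL
    nlinarith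

end Pool.Agent.LLT
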