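import Pool.Agent.LLT.M2
import Pool.Agent.LLT.M2b
import Pool.Agent.LLT.M3core

/-!
Near invariance of the shares of odd numbers, from M2, M2b and M3core.
-/

set_option autoImplicit false

namespace Pool.Agent.LLT

open Pool.Agent.Collatz3.FW (Fam)

/-- Near invariance under `(X, t) → (2X, t+1)` and `X → 3X`. -/
theorem inv {M : ℝ} (hM : 1 < M) {A : ℝ → Set ℤ} (hA : Fam M A) : ∃ C X₀ : ℝ, 0 < C ∧ 2 ≤ X₀ ∧
    ∀ X t B : ℝ, X₀ ≤ X → 0 ≤ B → (∀ y τ : ℝ, X ^ (9 / 10 : ℝ) ≤ y → ff (A τ) y ≤ B) →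
      |ff (A (t + 1)) (2 * X) - ff (A t) X| ≤ C * (B / √(Real.log X) + 1 / Real.log X ^ 2) ∧
      |ff (A t) (3 * X) - ff (A t) X| ≤ C * (B / √(Real.log X) + 1 / Real.log X ^ 2) :=
  inv_of nb_shift (nb_len_of nb_shift) hM hA

end Pool.Agent.LLT
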