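import Pool.Agent.LLT.M5core
import Pool.Agent.LLT.M3
import Pool.Agent.LLT.M4c

/-!
Local limit theorem, module 5: final form of `chain`.
-/

set_option autoImplicit false

namespace Pool.Agent.LLT

open Pool.Agent.Collatz3.FW (F Fam)

theorem chain {M : ℝ} (hM : 1 < M) {A : ℝ → Set ℤ} (hA : Fam M A)
    (hdis : ∀ n t t', n ∈ A t → n ∈ A t' → t = t') : ∃ C X₀ : ℝ, 0 < C ∧ 2 ≤ X₀ ∧
    ∀ (X t : ℝ) (b : ℕ), X₀ ≤ X → (b : ℝ) ≤ √(Real.log X) →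
      |ff (A (t + b)) X - ff (A t) (th b * X)| ≤ C * (b + 1) / Real.log X := by
  obtain ⟨C1, X1, hC1, hX1, h1⟩ := inv hM hA
  obtain ⟨C2, X2, hC2, _, h2⟩ := loc hM hA hdis
  exact chain_of hC1 hX1 h1 hC2 h2

end Pool.Agent.LLT
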