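import Pool.Agent.LLT.Defs

/-!
[M6] quotients `3 ^ a / 2 ^ b` close to `1` from above.
-/

set_option autoImplicit false

namespace Pool.Agent.LLT

/-- [M6] -/
theorem close_pow {ε : ℝ} (hε : 0 < ε) : ∃ a b : ℕ, 0 < b ∧ 1 < (3 : ℝ) ^ a / 2 ^ b ∧
    (3 : ℝ) ^ a / 2 ^ b < 1 + ε := by
  have h2 : (0 : ℝ) < Real.log 2 := Real.log_pos one_lt_two
  have h21 : Real.log 2 < 1 := by
    have := Real.log_two_lt_d9
    linarith
  have h23 : Real.log 2 < Real.log 3 := Real.log_lt_log (by norm_num) (by norm_num)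
  have h3 : (0 : ℝ) < Real.log 3 := h2.trans h23
  obtain ⟨η, hη⟩ : ∃ η : ℝ, η = min (Real.log (1 + ε)) (Real.log 2) := ⟨_, rfl⟩
  have hη0 : 0 < η := by
    rw [hη]
    exact lt_min (Real.log_pos (by linarith)) h2
  have hη1 : η ≤ Real.log (1 + ε) := by rw [hη]; exact min_le_left _ _
  have hη2 : η ≤ Real.log 2 := by rw [hη]; exact min_le_right _ _
  -- it is enough to find the logarithms
  have hkey : (∃ a b : ℕ, 0 < b ∧ 0 < a * Real.log 3 - b * Real.log 2 ∧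
      a * Real.log 3 - b * Real.log 2 < η) → ∃ a b : ℕ, 0 < b ∧ 1 < (3 : ℝ) ^ a / 2 ^ b ∧
      (3 : ℝ) ^ a / 2 ^ b < 1 + ε := by
    rintro ⟨a, b, hb, h4, h5⟩
    have e1 : Real.log ((3 : ℝ) ^ a / 2 ^ b) = a * Real.log 3 - b * Real.log 2 := by
      rw [Real.log_div (by positivity) (by positivity), Real.log_pow, Real.log_pow]
    refine ⟨a, b, hb, ?_, ?_⟩
    · have h6 : 0 < Real.log ((3 : ℝ) ^ a / 2 ^ b) := by rw [e1]; exact h4
      by_contra hc
      exact absurd h6 (not_lt.2 (Real.log_nonpos (by positivity) (not_lt.1 hc)))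
    · rw [← Real.log_lt_log_iff (by positivity) (by linarith), e1]
      exact h5.trans_le hη1
  apply hkey
  -- Dirichlet
  obtain ⟨n, hn⟩ := exists_nat_gt (1 / η)
  have hn0 : 0 < n := by
    have h4 : (0 : ℝ) < n := (by positivity : (0 : ℝ) < 1 / η).trans hn
    exact_mod_cast h4
  obtain ⟨k, hk0, _, hk⟩ := Real.exists_nat_abs_mul_sub_round_le (Real.log 3 / Real.log 2) hn0
  obtain ⟨p, hp⟩ : ∃ p : ℤ, p = round (k * (Real.log 3 / Real.log 2)) := ⟨_, rfl⟩
  rw [← hp] at hk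
  have hk1 : (1 : ℝ) ≤ k := by exact_mod_cast hk0
  have hsmall : |k * Real.log 3 - p * Real.log 2| < η := by
    have e1 : k * Real.log 3 - p * Real.log 2 =
        (k * (Real.log 3 / Real.log 2) - p) * Real.log 2 := by
      field_simp
    rw [e1, abs_mul, abs_of_pos h2]
    have h4 : (1 : ℝ) / (n + 1) < η := by
      rw [div_lt_comm₀ (by positivity) hη0]
      linarith
    calc |k * (Real.log 3 / Real.log 2) - p| * Real.log 2 ≤ 1 / (n + 1) * 1 :=
          mul_le_mul hk h21.le h2.le (by positivity)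
      _ < η := by rw [mul_one]; exact h4
  have hp1 : (0 : ℝ) < p := by
    have h4 := (abs_lt.1 hsmall).2
    have h5 : Real.log 3 ≤ k * Real.log 3 := le_mul_of_one_le_left h3.le hk1
    have h6 : 0 < p * Real.log 2 := by linarith
    by_contra hc
    have h7 : (p : ℝ) * Real.log 2 ≤ 0 := mul_nonpos_of_nonpos_of_nonneg (not_lt.1 hc) h2.le
    linarith
  have hp0 : 0 < p := by exact_mod_cast hp1
  obtain ⟨p', hp'⟩ : ∃ p' : ℕ, (p : ℤ) = p' := Int.eq_ofNat_of_zero_le hp0.le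
  have hpp : (p : ℝ) = (p' : ℝ) := by exact_mod_cast hp'
  have hp'0 : 0 < p' := by omega
  rw [hpp] at hsmall
  have hne : k * Real.log 3 - (p' : ℝ) * Real.log 2 ≠ 0 := by
    intro h0
    have h4 : Real.log ((3 : ℝ) ^ k) = Real.log ((2 : ℝ) ^ p') := by
      rw [Real.log_pow, Real.log_pow]
      linarith
    have h5 : (3 : ℝ) ^ k = 2 ^ p' :=
      Real.log_injOn_pos (Set.mem_Ioi.2 (by positivity)) (Set.mem_Ioi.2 (by positivity)) h4
    have h6 : (3 : ℕ) ^ k = 2 ^ p' := by exact_mod_cast h5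
    have h7 : 2 ∣ (3 : ℕ) ^ k := by
      rw [h6]
      exact dvd_pow_self 2 hp'0.ne'
    have h8 := Nat.Prime.dvd_of_dvd_pow Nat.prime_two h7
    omega
  rcases lt_or_gt_of_ne hne with hs | hs
  · obtain ⟨δ, hδ⟩ : ∃ δ : ℝ, δ = (p' : ℝ) * Real.log 2 - k * Real.log 3 := ⟨_, rfl⟩
    have hδ0 : 0 < δ := by rw [hδ]; linarith
    have hδη : δ < η := by
      have := (abs_lt.1 hsmall).1
      rw [hδ]; linarith
    obtain ⟨m, hm⟩ : ∃ m : ℕ, m = ⌈Real.log 3 / δ⌉₊ - 1 := ⟨_, rfl⟩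
    have hc1 : 1 < ⌈Real.log 3 / δ⌉₊ := by
      rw [Nat.lt_ceil, Nat.cast_one, one_lt_div hδ0]
      linarith
    have hm1 : ((m : ℕ) : ℝ) = (⌈Real.log 3 / δ⌉₊ : ℝ) - 1 := by
      rw [hm]
      push_cast [Nat.cast_sub hc1.le]
      ring
    have hm0 : 0 < m := by omega
    have h4 : Real.log 3 / δ ≤ (⌈Real.log 3 / δ⌉₊ : ℝ) := Nat.le_ceil _
    have h5 : (⌈Real.log 3 / δ⌉₊ : ℝ) < Real.log 3 / δ + 1 := Nat.ceil_lt_add_one (by positivity)
    have h6 : (m : ℝ) < Real.log 3 / δ := by linarith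
    have h7 : Real.log 3 / δ - 1 ≤ (m : ℝ) := by linarith
    rw [lt_div_iff₀ hδ0] at h6
    have h8 : Real.log 3 - δ ≤ m * δ := by
      have := mul_le_mul_of_nonneg_right h7 hδ0.le
      rw [sub_mul, div_mul_cancel₀ _ hδ0.ne', one_mul] at this
      exact this
    refine ⟨1 + m * k, m * p', Nat.mul_pos hm0 hp'0, ?_, ?_⟩
    · have e1 : ((1 + m * k : ℕ) : ℝ) * Real.log 3 - ((m * p' : ℕ) : ℝ) * Real.log 2 =
          Real.log 3 - m * δ := by
        rw [hδ]; push_cast; ring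
      rw [e1]
      linarith
    · have e1 : ((1 + m * k : ℕ) : ℝ) * Real.log 3 - ((m * p' : ℕ) : ℝ) * Real.log 2 =
          Real.log 3 - m * δ := by
        rw [hδ]; push_cast; ring
      rw [e1]
      linarith
  · exact ⟨k, p', hp'0, hs, (abs_lt.1 hsmall).2⟩

end Pool.Agent.LLT
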