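import Mathlib

/-!
Local limit theorem for the total stopping time: the abstract form of the window lemma (helper47).
-/

set_option autoImplicit false

namespace Pool.Agent.LLT

open Finset Filter Topology

/-- the hypotheses of the window lemma -/
structure WH (f : ℝ → ℝ → ℝ) (th : ℕ → ℝ) (C X₀ : ℝ) : Prop where
  C0 : 0 < C
  X2 : 2 ≤ X₀
  nn : ∀ t X, 0 < X → 0 ≤ f t X
  mo : ∀ t x y, 0 < x → x ≤ y → x * f t x ≤ y * f t y
  i2 : ∀ X t, X₀ ≤ X → |f (t + 1) (2 * X) - f t X| ≤ C / Real.log X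
  i3 : ∀ X t, X₀ ≤ X → |f t (3 * X) - f t X| ≤ C / Real.log X
  lo : ∀ X t, X₀ ≤ X → f t X ≤ C / √(Real.log X)
  ch : ∀ X t (b : ℕ), X₀ ≤ X → (b : ℝ) ≤ √(Real.log X) →
    |f (t + b) X - f t (th b * X)| ≤ C * (b + 1) / Real.log X
  t1 : ∀ b, 1 ≤ th b
  t3 : ∀ b, th b < 3

variable {f : ℝ → ℝ → ℝ} {th : ℕ → ℝ} {C X₀ : ℝ}

private theorem lpos (h : WH f th C X₀) {X : ℝ} (hX : X₀ ≤ X) : 0 < Real.log X :=
  Real.log_pos (by linarith [h.X2])

private theorem div_mono (h : WH f th C X₀) {X Y : ℝ} (hX : X₀ ≤ X) (hY : X ≤ Y) :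
    C / Real.log Y ≤ C / Real.log X :=
  div_le_div_of_nonneg_left h.C0.le (lpos h hX) (Real.log_le_log (by linarith [h.X2]) hY)

private theorem it3 (h : WH f th C X₀) (a : ℕ) {X : ℝ} (t : ℝ) (hX : X₀ ≤ X) :
    |f t (3 ^ a * X) - f t X| ≤ a * (C / Real.log X) := by
  have hX0 : 0 < X := by linarith [h.X2]
  induction a with
  | zero => simp
  | succ a ih =>
    have h1 : X ≤ 3 ^ a * X := le_mul_of_one_le_left hX0.le (one_le_pow₀ (by norm_num))
    have h2 := h.i3 (3 ^ a * X) t (hX.trans h1)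
    have h3 := div_mono h hX h1
    have e : (3 : ℝ) ^ (a + 1) * X = 3 * (3 ^ a * X) := by ring
    rw [e]
    have h4 := abs_sub_le (f t (3 * (3 ^ a * X))) (f t (3 ^ a * X)) (f t X)
    push_cast
    linarith

private theorem it2 (h : WH f th C X₀) (b : ℕ) {X : ℝ} (t : ℝ) (hX : X₀ ≤ X) :
    |f (t + b) (2 ^ b * X) - f t X| ≤ b * (C / Real.log X) := by
  have hX0 : 0 < X := by linarith [h.X2]
  induction b with
  | zero => simp
  | succ b ih =>
    have h1 : X ≤ 2 ^ b * X := le_mul_of_one_le_left hX0.le (one_le_pow₀ (by norm_num))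
    have h2 := h.i2 (2 ^ b * X) (t + b) (hX.trans h1)
    have h3 := div_mono h hX h1
    have e : (2 : ℝ) ^ (b + 1) * X = 2 * (2 ^ b * X) := by ring
    have e' : t + ((b + 1 : ℕ) : ℝ) = t + b + 1 := by push_cast; ring
    rw [e, e']
    have h4 := abs_sub_le (f (t + b + 1) (2 * (2 ^ b * X))) (f (t + b) (2 ^ b * X)) (f t X)
    push_cast
    linarith

private theorem itq (h : WH f th C X₀) (a b : ℕ) {X : ℝ} (t : ℝ) (hX : 2 ^ b * X₀ ≤ X) :
    |f t ((3 : ℝ) ^ a / 2 ^ b * X) - f (t + b) X| ≤ (a + b) * (C / Real.log (X / 2 ^ b)) := by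
  have hp : (0 : ℝ) < 2 ^ b := by positivity
  have h1 : X₀ ≤ X / 2 ^ b := by
    rw [le_div_iff₀ hp]
    linarith
  have h2 := it3 h a t h1
  have h3 := it2 h b t h1
  have e1 : (3 : ℝ) ^ a * (X / 2 ^ b) = 3 ^ a / 2 ^ b * X := by ring
  have e2 : (2 : ℝ) ^ b * (X / 2 ^ b) = X := by field_simp
  rw [e1] at h2
  rw [e2] at h3
  have h4 := abs_sub_le (f t ((3 : ℝ) ^ a / 2 ^ b * X)) (f t (X / 2 ^ b)) (f (t + b) X)
  rw [abs_sub_comm (f t (X / 2 ^ b))] at h4
  linarith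

private theorem itqi (h : WH f th C X₀) (a b : ℕ) (hq : 1 < (3 : ℝ) ^ a / 2 ^ b) (i : ℕ) {X : ℝ}
    (t : ℝ) (hX : 2 ^ b * X₀ ≤ X) :
    |f t (((3 : ℝ) ^ a / 2 ^ b) ^ i * X) - f (t + i * b) X| ≤
      i * ((a + b) * (C / Real.log (X / 2 ^ b))) := by
  have hp : (0 : ℝ) < 2 ^ b := by positivity
  have hX0 : 0 < X := lt_of_lt_of_le (mul_pos hp (by linarith [h.X2])) hX
  induction i generalizing t with
  | zero => simp
  | succ i ih =>
    have h1 : X ≤ ((3 : ℝ) ^ a / 2 ^ b) ^ i * X := le_mul_of_one_le_left hX0.le (one_le_pow₀ hq.le)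
    have h2 := itq h a b t (hX.trans h1)
    have h5 := ih (t + b)
    have h3 : C / Real.log (((3 : ℝ) ^ a / 2 ^ b) ^ i * X / 2 ^ b) ≤ C / Real.log (X / 2 ^ b) := by
      refine div_mono h ?_ ?_
      · rw [le_div_iff₀ hp]
        linarith
      · gcongr
    have h6 : ((a : ℝ) + b) * (C / Real.log (((3 : ℝ) ^ a / 2 ^ b) ^ i * X / 2 ^ b)) ≤
        ((a : ℝ) + b) * (C / Real.log (X / 2 ^ b)) :=
      mul_le_mul_of_nonneg_left h3 (by positivity)
    have e : ((3 : ℝ) ^ a / 2 ^ b) ^ (i + 1) * X = (3 : ℝ) ^ a / 2 ^ b * (((3 : ℝ) ^ a / 2 ^ b) ^ i * X) := by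
      ring
    have e' : t + ((i + 1 : ℕ) : ℝ) * b = t + b + i * b := by push_cast; ring
    rw [e, e']
    have h4 := abs_sub_le (f t ((3 : ℝ) ^ a / 2 ^ b * (((3 : ℝ) ^ a / 2 ^ b) ^ i * X)))
      (f (t + b) (((3 : ℝ) ^ a / 2 ^ b) ^ i * X)) (f (t + b + i * b) X)
    push_cast
    linarith

/-- the sum over a window -/
noncomputable def WS (f : ℝ → ℝ → ℝ) (H : ℕ) (X t : ℝ) : ℝ := ∑ b ∈ range H, f (t + b) X

private theorem shift (g : ℕ → ℝ) (B : ℝ) (h0 : ∀ n, 0 ≤ g n) (hB : ∀ n, g n ≤ B) (H s : ℕ) :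
    |∑ c ∈ range H, g (s + c) - ∑ c ∈ range H, g c| ≤ s * B := by
  have h1 : ∑ c ∈ range (H + s), g c = ∑ c ∈ range H, g c + ∑ c ∈ range s, g (H + c) :=
    Finset.sum_range_add _ _ _
  have h2 : ∑ c ∈ range (s + H), g c = ∑ c ∈ range s, g c + ∑ c ∈ range H, g (s + c) :=
    Finset.sum_range_add _ _ _
  rw [Nat.add_comm] at h2
  have a1 : 0 ≤ ∑ c ∈ range s, g (H + c) := Finset.sum_nonneg fun _ _ => h0 _
  have a2 : 0 ≤ ∑ c ∈ range s, g c := Finset.sum_nonneg fun _ _ => h0 _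
  have a3 : ∑ c ∈ range s, g (H + c) ≤ s * B := by
    have := Finset.sum_le_card_nsmul (range s) (fun c => g (H + c)) B (fun c _ => hB _)
    simpa using this
  have a4 : ∑ c ∈ range s, g c ≤ s * B := by
    have := Finset.sum_le_card_nsmul (range s) (fun c => g c) B (fun c _ => hB _)
    simpa using this
  rw [abs_le]
  constructor <;> linarith

private theorem ws_shift (h : WH f th C X₀) (H s : ℕ) {X : ℝ} (t : ℝ) (hX : X₀ ≤ X) :
    |WS f H X (t + s) - WS f H X t| ≤ s * (C / √(Real.log X)) := by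
  have hX0 : 0 < X := by linarith [h.X2]
  have h1 := shift (fun n : ℕ => f (t + n) X) (C / √(Real.log X)) (fun n => h.nn _ _ hX0)
    (fun n => h.lo _ _ hX) H s
  have e : WS f H X (t + s) = ∑ c ∈ range H, f (t + ((s + c : ℕ) : ℝ)) X := by
    unfold WS
    refine Finset.sum_congr rfl fun c _ => ?_
    push_cast
    rw [add_assoc]
  rw [e]
  exact h1

private theorem ws_q (h : WH f th C X₀) (a b : ℕ) (hq : 1 < (3 : ℝ) ^ a / 2 ^ b) (i H : ℕ) {X : ℝ}
    (t : ℝ) (hX : 2 ^ b * X₀ ≤ X) :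
    |WS f H (((3 : ℝ) ^ a / 2 ^ b) ^ i * X) t - WS f H X t| ≤
      H * (i * ((a + b) * (C / Real.log (X / 2 ^ b)))) + (i * b) * (C / √(Real.log X)) := by
  have hp : (1 : ℝ) ≤ 2 ^ b := one_le_pow₀ (by norm_num)
  have hX' : X₀ ≤ X := le_trans (le_mul_of_one_le_left (by linarith [h.X2]) hp) hX
  have h1 := ws_shift h H (i * b) t hX'
  have h2 : |WS f H (((3 : ℝ) ^ a / 2 ^ b) ^ i * X) t - WS f H X (t + ((i * b : ℕ) : ℝ))| ≤
      H * (i * ((a + b) * (C / Real.log (X / 2 ^ b)))) := by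
    unfold WS
    rw [← Finset.sum_sub_distrib]
    refine (Finset.abs_sum_le_sum_abs _ _).trans ?_
    have h3 := Finset.sum_le_card_nsmul (range H)
      (fun c : ℕ => |f (t + c) (((3 : ℝ) ^ a / 2 ^ b) ^ i * X) - f (t + ((i * b : ℕ) : ℝ) + c) X|)
      (i * ((a + b) * (C / Real.log (X / 2 ^ b)))) (fun c _ => by
        have h4 := itqi h a b hq i (t + c) hX
        have e : t + ((i * b : ℕ) : ℝ) + c = t + c + i * b := by push_cast; ring
        simp only [e]
        exact h4)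
    simpa using h3
  have h4 := abs_sub_le (WS f H (((3 : ℝ) ^ a / 2 ^ b) ^ i * X) t)
    (WS f H X (t + ((i * b : ℕ) : ℝ))) (WS f H X t)
  push_cast at h1 h2 h4
  linarith

private theorem ws_nn (h : WH f th C X₀) (H : ℕ) {X : ℝ} (t : ℝ) (hX : 0 < X) : 0 ≤ WS f H X t :=
  Finset.sum_nonneg fun _ _ => h.nn _ _ hX

private theorem ws_le (h : WH f th C X₀) (H : ℕ) {X : ℝ} (t : ℝ) (hX : X₀ ≤ X) :
    WS f H X t ≤ H * (C / √(Real.log X)) := by
  have h3 := Finset.sum_le_card_nsmul (range H) (fun c : ℕ => f (t + c) X) (C / √(Real.log X))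
    (fun c _ => h.lo _ _ hX)
  simpa [WS] using h3

private theorem ws_mono (h : WH f th C X₀) (H : ℕ) {x y : ℝ} (t : ℝ) (hx : 0 < x) (hy : x ≤ y) :
    x * WS f H x t ≤ y * WS f H y t := by
  unfold WS
  rw [Finset.mul_sum, Finset.mul_sum]
  exact Finset.sum_le_sum fun c _ => h.mo _ _ _ hx hy

private theorem ws_lam (h : WH f th C X₀) (a b : ℕ) (hq : 1 < (3 : ℝ) ^ a / 2 ^ b)
    (hq2 : (3 : ℝ) ^ a / 2 ^ b ≤ 2) (I H : ℕ) (hI : 3 ≤ ((3 : ℝ) ^ a / 2 ^ b) ^ I) {X : ℝ} (t : ℝ)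
    (hX : 2 ^ b * X₀ ≤ X) {l : ℝ} (h1 : 1 ≤ l) (h3 : l < 3) :
    |WS f H (l * X) t - WS f H X t| ≤ ((3 : ℝ) ^ a / 2 ^ b - 1) * (H * (C / √(Real.log X))) +
      2 * (H * (I * ((a + b) * (C / Real.log (X / 2 ^ b)))) + (I * b) * (C / √(Real.log X))) := by
  obtain ⟨q, hqe⟩ : ∃ q : ℝ, q = (3 : ℝ) ^ a / 2 ^ b := ⟨_, rfl⟩
  have hp : (1 : ℝ) ≤ 2 ^ b := one_le_pow₀ (by norm_num)
  have hp0 : (0 : ℝ) < 2 ^ b := by positivity
  have hX' : X₀ ≤ X := le_trans (le_mul_of_one_le_left (by linarith [h.X2]) hp) hX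
  have hX0 : 0 < X := by linarith [h.X2]
  have hL : 0 < C / Real.log (X / 2 ^ b) := by
    refine div_pos h.C0 (lpos h ?_)
    rw [le_div_iff₀ hp0]
    linarith
  have hS : 0 < C / √(Real.log X) := div_pos h.C0 (Real.sqrt_pos.2 (lpos h hX'))
  obtain ⟨D, hD⟩ : ∃ D : ℝ, D = H * (I * ((a + b) * (C / Real.log (X / 2 ^ b)))) +
    (I * b) * (C / √(Real.log X)) := ⟨_, rfl⟩
  have key : ∀ i : ℕ, i ≤ I → |WS f H (q ^ i * X) t - WS f H X t| ≤ D := by
    intro i hi
    have h4 := ws_q h a b hq i H t hX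
    rw [← hqe] at h4
    have hi' : (i : ℝ) ≤ I := by exact_mod_cast hi
    rw [hD]
    refine h4.trans ?_
    gcongr
  have hWle := ws_le h H t hX'
  have hW0 := ws_nn h H t hX0
  rw [← hD, ← hqe]
  rw [← hqe] at hq hq2 hI
  have hq0 : 0 < q := by linarith
  -- the index
  obtain ⟨i, hi1, hi2⟩ : ∃ i : ℕ, i + 1 ≤ I ∧ q ^ i ≤ l ∧ l < q ^ (i + 1) := by
    have hex : ∃ j : ℕ, l < q ^ j := ⟨I, by linarith⟩
    classical
    have hj := Nat.find_spec hex
    have hj0 : Nat.find hex ≠ 0 := by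
      intro h0
      rw [h0, pow_zero] at hj
      linarith
    obtain ⟨i, hi⟩ := Nat.exists_eq_succ_of_ne_zero hj0
    refine ⟨i, ?_, ?_, ?_⟩
    · rw [← Nat.succ_eq_add_one, ← hi]
      exact Nat.find_min' hex (by linarith)
    · exact not_lt.1 (Nat.find_min hex (by omega))
    · rw [← Nat.succ_eq_add_one, ← hi]
      exact hj
  obtain ⟨hi3, hi4⟩ := hi2
  have k1 := abs_le.1 (key i (by omega))
  have k2 := abs_le.1 (key (i + 1) hi1)
  have hqi : 0 < q ^ i := by positivity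
  have m1 := ws_mono h H t (mul_pos hqi hX0) (mul_le_mul_of_nonneg_right hi3 hX0.le)
  have m2 := ws_mono h H t (by positivity : 0 < l * X) (mul_le_mul_of_nonneg_right hi4.le hX0.le)
  have hl0 : 0 < l := by linarith
  have n1 : q ^ i * WS f H (q ^ i * X) t ≤ l * WS f H (l * X) t := by
    have : X * (q ^ i * WS f H (q ^ i * X) t) ≤ X * (l * WS f H (l * X) t) := by linarith
    exact le_of_mul_le_mul_left this hX0
  have n2 : l * WS f H (l * X) t ≤ q ^ (i + 1) * WS f H (q ^ (i + 1) * X) t := by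
    have : X * (l * WS f H (l * X) t) ≤ X * (q ^ (i + 1) * WS f H (q ^ (i + 1) * X) t) := by linarith
    exact le_of_mul_le_mul_left this hX0
  have w1 := ws_nn h H t (mul_pos hqi hX0)
  have w2 := ws_nn h H t (by positivity : 0 < q ^ (i + 1) * X)
  have w3 := ws_nn h H t (by positivity : 0 < l * X)
  have hD0 : 0 ≤ D := (abs_nonneg _).trans (key i (by omega))
  -- upper bound
  have u1 : WS f H (l * X) t ≤ q * WS f H (q ^ (i + 1) * X) t := by
    have h5 : q ^ (i + 1) * WS f H (q ^ (i + 1) * X) t ≤ l * (q * WS f H (q ^ (i + 1) * X) t) := by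
      have : q ^ (i + 1) * WS f H (q ^ (i + 1) * X) t = q ^ i * (q * WS f H (q ^ (i + 1) * X) t) := by
        ring
      rw [this]
      exact mul_le_mul_of_nonneg_right hi3 (mul_nonneg hq0.le w2)
    exact le_of_mul_le_mul_left (n2.trans h5) hl0
  have u2 : WS f H (q ^ i * X) t ≤ q * WS f H (l * X) t := by
    have h5 : l * WS f H (l * X) t ≤ q ^ i * (q * WS f H (l * X) t) := by
      have : q ^ i * (q * WS f H (l * X) t) = q ^ (i + 1) * WS f H (l * X) t := by ring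
      rw [this]
      exact mul_le_mul_of_nonneg_right hi4.le w3
    exact le_of_mul_le_mul_left (n1.trans h5) hqi
  rw [abs_le]
  constructor
  · -- lower
    have h6 : WS f H X t - D ≤ q * WS f H (l * X) t := by linarith
    by_cases hc : WS f H X t ≤ WS f H (l * X) t
    · have : 0 ≤ (q - 1) * (H * (C / √(Real.log X))) := by
        refine mul_nonneg (by linarith) (by positivity)
      linarith
    · have h7 : (q - 1) * WS f H (l * X) t ≤ (q - 1) * WS f H X t :=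
        mul_le_mul_of_nonneg_left (not_le.1 hc).le (by linarith)
      have h8 : (q - 1) * WS f H X t ≤ (q - 1) * (H * (C / √(Real.log X))) :=
        mul_le_mul_of_nonneg_left hWle (by linarith)
      nlinarith
  · have h7 : q * WS f H (q ^ (i + 1) * X) t ≤ q * (WS f H X t + D) :=
      mul_le_mul_of_nonneg_left (by linarith) hq0.le
    have h8 : (q - 1) * WS f H X t ≤ (q - 1) * (H * (C / √(Real.log X))) :=
      mul_le_mul_of_nonneg_left hWle (by linarith)
    have h9 : q * D ≤ 2 * D := mul_le_mul_of_nonneg_right hq2 hD0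
    nlinarith

private theorem ws_chain (h : WH f th C X₀) (H : ℕ) (r : ℕ) {X : ℝ} (t : ℝ) (hX : X₀ ≤ X)
    (hr : (r : ℝ) ≤ √(Real.log X)) :
    |WS f H X (t + r) - WS f H (th r * X) t| ≤ H * (C * (r + 1) / Real.log X) := by
  unfold WS
  rw [← Finset.sum_sub_distrib]
  refine (Finset.abs_sum_le_sum_abs _ _).trans ?_
  have h3 := Finset.sum_le_card_nsmul (range H)
    (fun c : ℕ => |f (t + r + c) X - f (t + c) (th r * X)|) (C * (r + 1) / Real.log X) (fun c _ => by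
      have h4 := h.ch X (t + c) r hX hr
      have e : t + (r : ℝ) + c = t + c + r := by ring
      simp only [e]
      exact h4)
  simpa using h3

private theorem ws_avg (h : WH f th C X₀) (H m : ℕ) {X : ℝ} (t : ℝ) (hX : X₀ ≤ X) :
    |∑ r ∈ range m, WS f H X (t + r) - H * WS f m X t| ≤ H * (H * (C / √(Real.log X))) := by
  have hX0 : 0 < X := by linarith [h.X2]
  have hS : 0 < C / √(Real.log X) := div_pos h.C0 (Real.sqrt_pos.2 (lpos h hX))
  have e1 : ∑ r ∈ range m, WS f H X (t + r) = ∑ c ∈ range H, WS f m X (t + c) := by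
    unfold WS
    rw [Finset.sum_comm]
    refine Finset.sum_congr rfl fun c _ => Finset.sum_congr rfl fun r _ => ?_
    have e : t + (r : ℝ) + c = t + c + r := by ring
    rw [e]
  have e2 : (H : ℝ) * WS f m X t = ∑ c ∈ range H, WS f m X t := by simp
  rw [e1, e2, ← Finset.sum_sub_distrib]
  refine (Finset.abs_sum_le_sum_abs _ _).trans ?_
  have h3 := Finset.sum_le_card_nsmul (range H)
    (fun c : ℕ => |WS f m X (t + c) - WS f m X t|) (H * (C / √(Real.log X))) (fun c hc => by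
      refine (ws_shift h m c t hX).trans ?_
      have : (c : ℝ) ≤ H := by exact_mod_cast (Finset.mem_range.1 hc).le
      exact mul_le_mul_of_nonneg_right this hS.le)
  simpa using h3

/-- the abstract window lemma -/
theorem window_abs (h : WH f th C X₀)
    (hcl : ∀ ε : ℝ, 0 < ε → ∃ a b : ℕ, 0 < b ∧ 1 < (3 : ℝ) ^ a / 2 ^ b ∧ (3 : ℝ) ^ a / 2 ^ b < 1 + ε)
    {ε : ℝ} (hε : 0 < ε) : ∃ η₀ : ℝ, 0 < η₀ ∧
    ∀ η : ℝ, 0 < η → η ≤ η₀ → ∃ H₀ : ℕ, 0 < H₀ ∧ ∀ H : ℕ, H₀ ≤ H → ∃ X₁ : ℝ, ∀ X t : ℝ, X₁ ≤ X →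
      |(∑ b ∈ range H, f (t + b) X) / H -
        (∑ b ∈ range ⌊η * √(Real.log X)⌋₊, f (t + b) X) / ⌊η * √(Real.log X)⌋₊| ≤
          ε / √(Real.log X) := by
  have hC := h.C0
  obtain ⟨a, b, -, hq1, hq2⟩ := hcl (min 1 (ε / (8 * C))) (by positivity)
  have hq2' : (3 : ℝ) ^ a / 2 ^ b ≤ 2 := by
    have := min_le_left (1 : ℝ) (ε / (8 * C))
    linarith
  have hqe : ((3 : ℝ) ^ a / 2 ^ b - 1) * C ≤ ε / 8 := by
    have h1 := min_le_right (1 : ℝ) (ε / (8 * C))
    have h2 : (3 : ℝ) ^ a / 2 ^ b - 1 ≤ ε / (8 * C) := by linarith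
    have h3 := mul_le_mul_of_nonneg_right h2 hC.le
    have h4 : ε / (8 * C) * C = ε / 8 := by field_simp
    linarith
  obtain ⟨I, hI⟩ := pow_unbounded_of_one_lt (3 : ℝ) hq1
  refine ⟨min 1 (ε / (8 * C)), by positivity, fun η hη hη1 => ?_⟩
  have hη2 : η ≤ 1 := hη1.trans (min_le_left _ _)
  have hη3 : C * η ≤ ε / 8 := by
    have h2 : η ≤ ε / (8 * C) := hη1.trans (min_le_right _ _)
    have h3 := mul_le_mul_of_nonneg_left h2 hC.le
    have h4 : C * (ε / (8 * C)) = ε / 8 := by field_simp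
    linarith
  obtain ⟨H₀, hH₀⟩ := exists_nat_ge (2 * (I * b) * C / (ε / 8) + 1)
  refine ⟨H₀, ?_, fun H hH => ?_⟩
  · have h1 : (0 : ℝ) ≤ 2 * (I * b) * C / (ε / 8) := by positivity
    have h2 : (0 : ℝ) < H₀ := by linarith
    exact_mod_cast h2
  have hHr : (H₀ : ℝ) ≤ H := by exact_mod_cast hH
  have hH1 : 2 * (I * b) * C ≤ ε / 8 * H := by
    have h1 : 2 * (I * b) * C / (ε / 8) ≤ H := by linarith
    rw [div_le_iff₀ (by positivity)] at h1
    linarith
  have hHpos : (0 : ℝ) < H := by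
    have h1 : (0 : ℝ) ≤ 2 * (I * b) * C / (ε / 8) := by positivity
    linarith
  -- the threshold for the square root of the logarithm
  obtain ⟨K, hK⟩ : ∃ K : ℝ, K = 1 + 2 * b * Real.log 2 + 4 * I * (a + b) * C / (ε / 8) +
      (1 + H * C / (ε / 8)) / η := ⟨_, rfl⟩
  have hlog2 : 0 < Real.log 2 := Real.log_pos (by norm_num)
  have hK1 : 1 ≤ K := by
    have : 0 ≤ 2 * b * Real.log 2 + 4 * I * (a + b) * C / (ε / 8) + (1 + H * C / (ε / 8)) / η := by
      positivity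
    linarith
  refine ⟨max (2 ^ b * X₀) (Real.exp (K ^ 2)), fun X t hX => ?_⟩
  have hXa : 2 ^ b * X₀ ≤ X := (le_max_left _ _).trans hX
  have hXb : Real.exp (K ^ 2) ≤ X := (le_max_right _ _).trans hX
  have hp : (1 : ℝ) ≤ 2 ^ b := one_le_pow₀ (by norm_num)
  have hX' : X₀ ≤ X := le_trans (le_mul_of_one_le_left (by linarith [h.X2]) hp) hXa
  have hX0 : 0 < X := by linarith [h.X2]
  have hlogK : K ^ 2 ≤ Real.log X := by
    rw [Real.le_log_iff_exp_le hX0]
    exact hXb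
  obtain ⟨s, hs⟩ : ∃ s : ℝ, s = √(Real.log X) := ⟨_, rfl⟩
  have hsK : K ≤ s := by
    rw [hs]
    exact Real.le_sqrt_of_sq_le hlogK
  have hs0 : 0 < s := by linarith
  have hs2 : Real.log X = s ^ 2 := by
    rw [hs, Real.sq_sqrt (lpos h hX').le]
  obtain ⟨m, hm⟩ : ∃ m : ℕ, m = ⌊η * s⌋₊ := ⟨_, rfl⟩
  have hmle : (m : ℝ) ≤ η * s := by
    rw [hm]
    exact Nat.floor_le (by positivity)
  have hmge : η * s < m + 1 := by
    rw [hm]
    exact Nat.lt_floor_add_one _
  have hmbig : H * C / (ε / 8) ≤ m := by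
    have h1 : (1 + H * C / (ε / 8)) / η ≤ s := by
      have : 0 ≤ 1 + 2 * b * Real.log 2 + 4 * I * (a + b) * C / (ε / 8) := by positivity
      linarith
    rw [div_le_iff₀ hη] at h1
    linarith
  have hHC : 0 < H * C / (ε / 8) := by positivity
  have hmpos : (0 : ℝ) < m := by linarith
  have hHC2 : H * C ≤ ε / 8 * m := by
    rw [div_le_iff₀ (by positivity)] at hmbig
    linarith
  -- the logarithm of `X / 2 ^ b`
  have hlb : s ^ 2 / 2 ≤ Real.log (X / 2 ^ b) := by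
    rw [Real.log_div hX0.ne' (by positivity), Real.log_pow, hs2]
    have h1 : 2 * b * Real.log 2 ≤ s := by
      have : 0 ≤ 1 + 4 * I * (a + b) * C / (ε / 8) + (1 + H * C / (ε / 8)) / η := by positivity
      linarith
    have h2 : s ≤ s ^ 2 := by nlinarith
    linarith
  have hD1 : I * ((a + b) * (C / Real.log (X / 2 ^ b))) ≤ (ε / 8 / s) / 2 := by
    have h1 : C / Real.log (X / 2 ^ b) ≤ C / (s ^ 2 / 2) :=
      div_le_div_of_nonneg_left hC.le (by positivity) hlb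
    have h2 : 4 * I * (a + b) * C / (ε / 8) ≤ s := by
      have : 0 ≤ 1 + 2 * b * Real.log 2 + (1 + H * C / (ε / 8)) / η := by positivity
      linarith
    rw [div_le_iff₀ (by positivity)] at h2
    have h3 : (I : ℝ) * ((a + b) * (C / Real.log (X / 2 ^ b))) ≤ I * ((a + b) * (C / (s ^ 2 / 2))) := by
      gcongr
    refine h3.trans ?_
    have h4 : (I : ℝ) * ((a + b) * (C / (s ^ 2 / 2))) = (4 * I * (a + b) * C) / (2 * s ^ 2) := by
      field_simp
      ring
    rw [h4, div_le_iff₀ (by positivity)]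
    have h5 : ε / 8 / s / 2 * (2 * s ^ 2) = s * (ε / 8) := by
      field_simp
    rw [h5]
    exact h2
  -- one step
  have step : ∀ r ∈ range m, |WS f H X (t + r) - WS f H X t| ≤ H * (ε / 8 / s * 4) := by
    intro r hr
    have hr1 : (r : ℝ) + 1 ≤ m := by exact_mod_cast Finset.mem_range.1 hr
    have hr2 : (r : ℝ) ≤ √(Real.log X) := by
      rw [← hs]
      have : η * s ≤ 1 * s := mul_le_mul_of_nonneg_right hη2 hs0.le
      linarith
    have h1 := ws_chain h H r t hX' hr2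
    have h2 := ws_lam h a b hq1 hq2' I H hI.le t hXa (h.t1 r) (h.t3 r)
    rw [← hs] at h2
    rw [hs2] at h1
    have h3 := abs_sub_le (WS f H X (t + r)) (WS f H (th r * X) t) (WS f H X t)
    have e1 : C * ((r : ℝ) + 1) / s ^ 2 ≤ ε / 8 / s := by
      rw [div_le_div_iff₀ (by positivity) hs0]
      have h5 : C * ((r : ℝ) + 1) ≤ C * (η * s) := mul_le_mul_of_nonneg_left (by linarith) hC.le
      have h6 : C * (η * s) ≤ ε / 8 * s := by
        have := mul_le_mul_of_nonneg_right hη3 hs0.le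
        linarith
      have h7 : C * ((r : ℝ) + 1) * s ≤ ε / 8 * s * s := mul_le_mul_of_nonneg_right (h5.trans h6) hs0.le
      calc C * ((r : ℝ) + 1) * s ≤ ε / 8 * s * s := h7
        _ = ε / 8 * s ^ 2 := by ring
    have e2 : ((3 : ℝ) ^ a / 2 ^ b - 1) * (H * (C / s)) ≤ H * (ε / 8 / s) := by
      have h5 := mul_le_mul_of_nonneg_right hqe (by positivity : (0 : ℝ) ≤ H / s)
      have h6 : ((3 : ℝ) ^ a / 2 ^ b - 1) * (H * (C / s)) = ((3 : ℝ) ^ a / 2 ^ b - 1) * C * (H / s) := by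
        field_simp
      have h7 : (H : ℝ) * (ε / 8 / s) = ε / 8 * (H / s) := by field_simp
      rw [h6, h7]
      exact h5
    have e3 : 2 * ((I * b) * (C / s)) ≤ H * (ε / 8 / s) := by
      have h5 := mul_le_mul_of_nonneg_right hH1 (by positivity : (0 : ℝ) ≤ 1 / s)
      have h6 : 2 * (((I : ℝ) * b) * (C / s)) = 2 * (I * b) * C * (1 / s) := by field_simp
      have h7 : (H : ℝ) * (ε / 8 / s) = ε / 8 * H * (1 / s) := by field_simp
      rw [h6, h7]
      exact h5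
    have e4 := mul_le_mul_of_nonneg_left hD1 hHpos.le
    have e5 := mul_le_mul_of_nonneg_left e1 hHpos.le
    linarith
  have h1 := ws_avg h H m t hX'
  rw [← hs] at h1
  have h2 : |∑ r ∈ range m, WS f H X (t + r) - m * WS f H X t| ≤ m * (H * (ε / 8 / s * 4)) := by
    have e2 : (m : ℝ) * WS f H X t = ∑ c ∈ range m, WS f H X t := by simp
    rw [e2, ← Finset.sum_sub_distrib]
    refine (Finset.abs_sum_le_sum_abs _ _).trans ?_
    have h3 := Finset.sum_le_card_nsmul (range m) _ _ step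
    simpa using h3
  have h3 : |m * WS f H X t - H * WS f m X t| ≤ m * (H * (ε / 8 / s * 4)) + H * (H * (C / s)) := by
    have h4 := abs_sub_le (m * WS f H X t) (∑ r ∈ range m, WS f H X (t + r)) (H * WS f m X t)
    rw [abs_sub_comm] at h2
    linarith
  have h4 : H * (H * (C / s)) ≤ m * (H * (ε / 8 / s)) := by
    have h5 := mul_le_mul_of_nonneg_right hHC2 (by positivity : (0 : ℝ) ≤ H / s)
    have h6 : (H : ℝ) * (H * (C / s)) = H * C * (H / s) := by field_simp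
    have h7 : (m : ℝ) * (H * (ε / 8 / s)) = ε / 8 * m * (H / s) := by field_simp
    rw [h6, h7]
    exact h5
  have e0 : (∑ b ∈ range H, f (t + b) X) / H -
      (∑ b ∈ range ⌊η * √(Real.log X)⌋₊, f (t + b) X) / ⌊η * √(Real.log X)⌋₊ =
      (m * WS f H X t - H * WS f m X t) / (m * H) := by
    rw [← hs, ← hm]
    unfold WS
    field_simp
  rw [e0, abs_div, abs_of_pos (mul_pos hmpos hHpos), div_le_iff₀ (mul_pos hmpos hHpos), ← hs]
  have h8 : m * (H * (ε / 8 / s * 4)) + m * (H * (ε / 8 / s)) ≤ ε / s * (m * H) := by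
    have h9 : m * (H * (ε / 8 / s * 4)) + m * (H * (ε / 8 / s)) = (5 / 8) * (ε / s * (m * H)) := by
      ring
    rw [h9]
    have : 0 ≤ ε / s * (m * H) := by positivity
    linarith
  linarith

end Pool.Agent.LLT
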