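import Pool.Agent.LLT.Defs
import Pool.Agent.LLT.M7A

/-!
Local limit theorem for the total stopping time: the window lemma (helper47).
-/

set_option autoImplicit false

namespace Pool.Agent.LLT

open Finset Filter Topology
open Pool.Agent.Collatz3.FW (F Fam)

private theorem ff_nn (A : Set ℤ) {X : ℝ} (hX : 0 < X) : 0 ≤ ff A X :=
  div_nonneg (Pool.Agent.Collatz3.FW.F_nonneg _ _ _) (by positivity)

private theorem ff_mo (A : Set ℤ) {x y : ℝ} (hx : 0 < x) (h : x ≤ y) : x * ff A x ≤ y * ff A y := by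
  have hy : 0 < y := lt_of_lt_of_le hx h
  have h1 : F 1 A x ≤ F 1 A y := by
    classical
    unfold Pool.Agent.Collatz3.FW.F
    exact_mod_cast card_le_card (filter_subset_filter _ (Pool.Agent.Collatz3.FW.Od_mono 1 h))
  have e1 : x * ff A x = 2 * F 1 A x := by
    unfold ff
    field_simp
  have e2 : y * ff A y = 2 * F 1 A y := by
    unfold ff
    field_simp
  rw [e1, e2]
  linarith

/-- the window lemma, from `inv`, `loc`, `chain`, `th_mem`, `close_pow` -/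
theorem window_of {A : ℝ → Set ℤ}
    (hinv : ∃ C X₀ : ℝ, 0 < C ∧ 2 ≤ X₀ ∧
      ∀ X t B : ℝ, X₀ ≤ X → 0 ≤ B → (∀ y τ : ℝ, X ^ (9 / 10 : ℝ) ≤ y → ff (A τ) y ≤ B) →
        |ff (A (t + 1)) (2 * X) - ff (A t) X| ≤ C * (B / √(Real.log X) + 1 / Real.log X ^ 2) ∧
        |ff (A t) (3 * X) - ff (A t) X| ≤ C * (B / √(Real.log X) + 1 / Real.log X ^ 2))
    (hloc : ∃ C X₀ : ℝ, 0 < C ∧ 2 ≤ X₀ ∧
      ∀ X t : ℝ, X₀ ≤ X → ff (A t) X ≤ C / √(Real.log X))
    (hchain : ∃ C X₀ : ℝ, 0 < C ∧ 2 ≤ X₀ ∧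
      ∀ (X t : ℝ) (b : ℕ), X₀ ≤ X → (b : ℝ) ≤ √(Real.log X) →
        |ff (A (t + b)) X - ff (A t) (th b * X)| ≤ C * (b + 1) / Real.log X)
    (hth : ∀ b, 1 ≤ th b ∧ th b < 3)
    (hcl : ∀ ε : ℝ, 0 < ε → ∃ a b : ℕ, 0 < b ∧ 1 < (3 : ℝ) ^ a / 2 ^ b ∧ (3 : ℝ) ^ a / 2 ^ b < 1 + ε)
    {ε : ℝ} (hε : 0 < ε) : ∃ η₀ : ℝ, 0 < η₀ ∧
    ∀ η : ℝ, 0 < η → η ≤ η₀ → ∃ H₀ : ℕ, 0 < H₀ ∧ ∀ H : ℕ, H₀ ≤ H → ∃ X₀ : ℝ, ∀ X t : ℝ, X₀ ≤ X →
      |(∑ b ∈ range H, ff (A (t + b)) X) / H -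
        (∑ b ∈ range ⌊η * √(Real.log X)⌋₊, ff (A (t + b)) X) / ⌊η * √(Real.log X)⌋₊| ≤
          ε / √(Real.log X) := by
  obtain ⟨C₁, X₁, hC₁, hX₁, h1⟩ := hinv
  obtain ⟨C₂, X₂, hC₂, hX₂, h2⟩ := hloc
  obtain ⟨C₃, X₃, hC₃, hX₃, h3⟩ := hchain
  obtain ⟨X₀, hX₀⟩ : ∃ X₀ : ℝ, X₀ = max (max X₁ (X₂ ^ 2)) (max X₃ 3) := ⟨_, rfl⟩
  have q1 : X₁ ≤ X₀ := hX₀ ▸ (le_max_left _ _).trans (le_max_left _ _)
  have q2 : X₂ ^ 2 ≤ X₀ := hX₀ ▸ (le_max_right _ _).trans (le_max_left _ _)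
  have q3 : X₃ ≤ X₀ := hX₀ ▸ (le_max_left _ _).trans (le_max_right _ _)
  have q4 : 3 ≤ X₀ := hX₀ ▸ (le_max_right _ _).trans (le_max_right _ _)
  have q5 : X₂ ≤ X₀ := le_trans (by nlinarith) q2
  have hlog : ∀ X, X₀ ≤ X → 1 ≤ Real.log X := by
    intro X hX
    rw [Real.le_log_iff_exp_le (by linarith)]
    have := Real.exp_one_lt_d9
    linarith
  have hX9 : ∀ X, X₀ ≤ X → X₂ ≤ X ^ (9 / 10 : ℝ) := by
    intro X hX
    have a1 : X₂ ≤ (X₂ ^ 2 : ℝ) ^ (9 / 10 : ℝ) := by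
      rw [← Real.rpow_natCast, ← Real.rpow_mul (by linarith)]
      calc X₂ = X₂ ^ (1 : ℝ) := (Real.rpow_one _).symm
        _ ≤ X₂ ^ (((2 : ℕ) : ℝ) * (9 / 10)) :=
          Real.rpow_le_rpow_of_exponent_le (by linarith) (by norm_num)
    exact a1.trans (Real.rpow_le_rpow (by positivity) (q2.trans hX) (by norm_num))
  have hB : ∀ X, X₀ ≤ X → ∀ y τ : ℝ, X ^ (9 / 10 : ℝ) ≤ y → ff (A τ) y ≤ 2 * C₂ / √(Real.log X) := by
    intro X hX y τ hy
    have hl := hlog X hX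
    have hX0 : 0 < X := by linarith
    refine (h2 y τ ((hX9 X hX).trans hy)).trans ?_
    have a1 : Real.log X / 4 ≤ Real.log y := by
      have a2 := Real.log_le_log (by positivity) hy
      rw [Real.log_rpow hX0] at a2
      linarith
    have a3 : √(Real.log X) / 2 ≤ √(Real.log y) := by
      have a4 : √(Real.log X / 4) ≤ √(Real.log y) := Real.sqrt_le_sqrt a1
      have a5 : √(Real.log X / 4) = √(Real.log X) / 2 := by
        rw [Real.sqrt_div (by linarith)]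
        congr 1
        rw [show (4 : ℝ) = 2 ^ 2 by norm_num, Real.sqrt_sq (by norm_num)]
      linarith
    have a6 : 0 < √(Real.log X) := Real.sqrt_pos.2 (by linarith)
    have a7 : 2 * C₂ / √(Real.log X) = C₂ / (√(Real.log X) / 2) := by field_simp
    rw [a7]
    exact div_le_div_of_nonneg_left hC₂.le (by positivity) a3
  have hE : ∀ X, X₀ ≤ X → C₁ * (2 * C₂ / √(Real.log X) / √(Real.log X) + 1 / Real.log X ^ 2) ≤
      (C₁ * (2 * C₂ + 1) + C₂ + C₃) / Real.log X := by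
    intro X hX
    have hl := hlog X hX
    have a1 : 2 * C₂ / √(Real.log X) / √(Real.log X) = 2 * C₂ / Real.log X := by
      rw [div_div, Real.mul_self_sqrt (by linarith)]
    have a2 : 1 / Real.log X ^ 2 ≤ 1 / Real.log X := by
      apply one_div_le_one_div_of_le (by linarith)
      nlinarith
    rw [a1]
    have a3 : C₁ * (2 * C₂ / Real.log X + 1 / Real.log X ^ 2) ≤
        C₁ * (2 * C₂ / Real.log X + 1 / Real.log X) := by
      gcongr
    refine a3.trans ?_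
    have a4 : C₁ * (2 * C₂ / Real.log X + 1 / Real.log X) = C₁ * (2 * C₂ + 1) / Real.log X := by
      ring
    rw [a4]
    apply div_le_div_of_nonneg_right _ (by linarith)
    linarith
  have hW : WH (fun t X => ff (A t) X) th (C₁ * (2 * C₂ + 1) + C₂ + C₃) X₀ := by
    refine ⟨by positivity, by linarith, fun t X hX => ff_nn _ hX, fun t x y hx hxy => ff_mo _ hx hxy,
      ?_, ?_, ?_, ?_, fun b => (hth b).1, fun b => (hth b).2⟩
    · intro X t hX
      have hl := hlog X hX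
      exact (h1 X t _ (q1.trans hX) (by positivity) (hB X hX)).1.trans (hE X hX)
    · intro X t hX
      have hl := hlog X hX
      exact (h1 X t _ (q1.trans hX) (by positivity) (hB X hX)).2.trans (hE X hX)
    · intro X t hX
      refine (h2 X t (q5.trans hX)).trans ?_
      apply div_le_div_of_nonneg_right _ (Real.sqrt_nonneg _)
      have : 0 < C₁ * (2 * C₂ + 1) := by positivity
      linarith
    · intro X t b hX hb
      refine (h3 X t b (q3.trans hX) hb).trans ?_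
      have hl := hlog X hX
      apply div_le_div_of_nonneg_right _ (by linarith)
      apply mul_le_mul_of_nonneg_right _ (by positivity)
      have : 0 < C₁ * (2 * C₂ + 1) := by positivity
      linarith
  exact window_abs hW hcl hε

end Pool.Agent.LLT
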