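import Pool.Agent.LLT.M3
import Pool.Agent.LLT.M4c
import Pool.Agent.LLT.M5
import Pool.Agent.LLT.M6
import Pool.Agent.LLT.M7

/-!
Local limit theorem, module 7: final form of `window`.
-/

set_option autoImplicit false

namespace Pool.Agent.LLT

open Finset Filter Topology
open Pool.Agent.Collatz3.FW (F Fam)

theorem window {M : ℝ} (hM : 1 < M) {A : ℝ → Set ℤ} (hA : Fam M A)
    (hdis : ∀ n t t', n ∈ A t → n ∈ A t' → t = t') {ε : ℝ} (hε : 0 < ε) : ∃ η₀ : ℝ, 0 < η₀ ∧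
    ∀ η : ℝ, 0 < η → η ≤ η₀ → ∃ H₀ : ℕ, 0 < H₀ ∧ ∀ H : ℕ, H₀ ≤ H → ∃ X₀ : ℝ, ∀ X t : ℝ, X₀ ≤ X →
      |(∑ b ∈ range H, ff (A (t + b)) X) / H -
        (∑ b ∈ range ⌊η * √(Real.log X)⌋₊, ff (A (t + b)) X) / ⌊η * √(Real.log X)⌋₊| ≤
          ε / √(Real.log X) :=
  window_of (inv hM hA) (loc hM hA hdis) (chain hM hA hdis) th_mem (fun _ h => close_pow h) hε

end Pool.Agent.LLT
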