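import Pool.Agent.LLT.Defs

/-!
Local limit theorem for the total stopping time, module M8: the uniform central limit theorem for
odd numbers.
-/

set_option autoImplicit false

namespace Pool.Agent.LLT

open Finset Filter Topology ProbabilityTheory MeasureTheory
open Pool.Agent.Collatz3.FW
open Pool.Agent.Collatz3.DN (Dens Reach)
open Pool.Agent.Helper14 (T)

private theorem m8_mono {a b : ℝ} (h : a ≤ b) : Phi a ≤ Phi b :=
  measureReal_mono (Set.Iic_subset_Iic.2 h) (measure_ne_top _ _)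

private theorem m8_cont : Continuous Phi := by
  rw [continuous_iff_continuousAt]
  intro y
  rw [Metric.continuousAt_iff]
  intro ε hε
  obtain ⟨δ₁, h1, h2⟩ := Phi_right (y := y) (by positivity : 0 < ε / 2)
  obtain ⟨δ₂, h3, h4⟩ := Phi_right (y := -y) (by positivity : 0 < ε / 2)
  refine ⟨min δ₁ δ₂, lt_min h1 h3, fun {x} hx => ?_⟩
  rw [Real.dist_eq] at hx ⊢
  have h5 := lt_of_lt_of_le hx (min_le_left _ _)
  have h6 := lt_of_lt_of_le hx (min_le_right _ _)
  rw [abs_lt] at h5 h6
  have h7 : Phi x ≤ Phi (y + δ₁) := m8_mono (by linarith)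
  have h8 : Phi (-x) ≤ Phi (-y + δ₂) := m8_mono (by linarith)
  rw [Phi_neg] at h8
  rw [Phi_neg y] at h4
  rw [abs_lt]
  constructor <;> linarith

private theorem m8_level {q : ℝ} (h0 : 0 < q) (h1 : q < 1) : ∃ y, Phi y = q := by
  obtain ⟨R, -, hR⟩ := Phi_far h0
  obtain ⟨R', -, hR'⟩ := Phi_far (by linarith : 0 < 1 - q)
  rw [Phi_neg] at hR'
  exact mem_range_of_exists_le_of_exists_ge m8_cont ⟨-R, hR⟩ ⟨R', by linarith⟩

private theorem m8_dens {A : Set ℤ} {d : ℝ} (h : Dens 1 A d) {ε : ℝ} (hε : 0 < ε) :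
    ∀ᶠ y : ℝ in atTop, y / 2 * (d - ε) ≤ F 1 A y := by
  obtain ⟨hd0, hd1⟩ := dens_bounds h
  have h1 := (h 2 1 (by norm_num)).eventually_const_le (by linarith : d - ε / 2 < d)
  have h2 : Tendsto (fun y : ℝ => (y - 1) / 2) atTop atTop :=
    (tendsto_atTop_add_const_right _ (-1) tendsto_id).atTop_div_const (by norm_num)
  filter_upwards [h2.eventually h1, eventually_ge_atTop (2 / ε), eventually_gt_atTop 1]
    with y hy hy1 hy0
  have hy2 : 0 < (y - 1) / 2 := by linarith
  rw [le_div_iff₀ hy2] at hy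
  rw [div_le_iff₀ hε] at hy1
  have h3 : (Set.ncard {m : ℕ | (m : ℝ) ≤ (y - 1) / 2 ∧
      (1 : ℤ) * (((2 : ℕ) : ℤ) * m + ((1 : ℕ) : ℤ)) ∈ A} : ℝ) ≤ F 1 A y := by
    classical
    have hfin : {m : ℕ | (m : ℝ) ≤ (y - 1) / 2 ∧
        (1 : ℤ) * (((2 : ℕ) : ℤ) * m + ((1 : ℕ) : ℤ)) ∈ A}.Finite := by
      refine (Set.finite_Iic ⌊(y - 1) / 2⌋₊).subset ?_
      intro m hm
      exact Nat.le_floor hm.1
    unfold F
    rw [Set.ncard_eq_toFinset_card _ hfin]
    have h4 : hfin.toFinset.card ≤ ((Od 1 y).filter fun n => n ∈ A).card := by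
      apply card_le_card_of_injOn (fun m : ℕ => (1 : ℤ) * (((2 : ℕ) : ℤ) * m + ((1 : ℕ) : ℤ)))
      · intro m hm
        rw [mem_coe, Set.Finite.mem_toFinset] at hm
        obtain ⟨h5, h6⟩ := hm
        rw [mem_coe, mem_filter, mem_Od (Or.inl rfl)]
        refine ⟨⟨?_, ?_, ?_⟩, h6⟩
        · change ((1 : ℤ) * (((2 : ℕ) : ℤ) * (m : ℤ) + ((1 : ℕ) : ℤ))) % 2 = 1
          omega
        · change 0 < (1 : ℤ) * ((1 : ℤ) * (((2 : ℕ) : ℤ) * (m : ℤ) + ((1 : ℕ) : ℤ)))
          omega
        · push_cast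
          linarith
      · intro a _ b _ hab
        simp only at hab
        omega
    refine le_trans ?_ (le_of_eq ?_ : ((((Od 1 y).filter fun n => n ∈ A).card : ℕ) : ℝ) ≤ _)
    · exact_mod_cast h4
    · congr!
  refine le_trans ?_ h3
  refine le_trans ?_ hy
  nlinarith

private theorem m8_union (S : Set ℤ) (t X : ℝ) :
    F 1 (Reach S) X ≤ F 1 (Hs S t) X + F 1 (Ls S t) X := by
  apply F_union_le
  rintro n ⟨k, hk⟩
  by_cases h : n ∈ Hs S t
  · exact Or.inl h
  · exact Or.inr ⟨⟨k, hk⟩, fun j hj hjS => h ⟨j, hj, hjS⟩⟩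

private theorem m8_sub (S : Set ℤ) (t X : ℝ) : F 1 (Hs S t) X ≤ F 1 (Reach S) X := by
  apply F_mono
  rintro n ⟨k, -, hk⟩
  exact ⟨k, hk⟩

private theorem m8_tb {X t z : ℝ} (hX : 1 < X)
    (hz : z = (t - gg * Real.log X) / √(VV * Real.log X)) : t = tb z (Real.log X) := by
  have hL : 0 < Real.log X := Real.log_pos hX
  have h1 := log_four_thirds_pos
  have h3 : 0 < Real.log 3 := Real.log_pos (by norm_num)
  have hV : 0 < VV := by
    unfold VV
    positivity
  have hs : 0 < √(VV * Real.log X) := Real.sqrt_pos.2 (by positivity)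
  rw [eq_div_iff hs.ne'] at hz
  rw [tb_eq]
  unfold gg VV at hz
  unfold VV at hs
  linarith

private theorem m8_tbmono {y z X : ℝ} (h : y ≤ z) :
    tb y (Real.log X) ≤ tb z (Real.log X) := by
  unfold tb
  have hg := gam_ge
  have ha := gam_log_two_ge
  have h1 : 0 ≤ (gam * Real.log 2 - 1) * √(gam * Real.log X) :=
    mul_nonneg (by linarith) (Real.sqrt_nonneg _)
  have := mul_le_mul_of_nonneg_right h h1
  linarith

/-- Uniform central limit theorem for odd numbers. -/
theorem clt_unif {S : Set ℤ} {M₀ : ℝ} (hS : ∀ c ∈ S, |(c : ℝ)| ≤ M₀) {d : ℝ}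
    (hd : Dens 1 (Reach S) d) {ε : ℝ} (hε : 0 < ε) : ∃ X₀ : ℝ, ∀ X t : ℝ, X₀ ≤ X →
      |ff (Hs S t) X - d * (gaussianReal 0 1).real
        (Set.Iic ((t - gg * Real.log X) / √(VV * Real.log X)))| ≤ ε := by
  classical
  obtain ⟨hd0, hd1⟩ := dens_bounds hd
  obtain ⟨N, hN⟩ := exists_nat_gt (8 / ε)
  have hN0 : (0 : ℝ) < N := lt_trans (by positivity) hN
  have hNε : 1 / (N : ℝ) ≤ ε / 8 := by
    rw [div_lt_iff₀ hε] at hN
    rw [div_le_iff₀ hN0]
    linarith
  have hlev : ∀ j : ℕ, ∃ y : ℝ, 1 ≤ j → j < N → Phi y = (j : ℝ) / N := by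
    intro j
    by_cases h : 1 ≤ j ∧ j < N
    · obtain ⟨y, hy⟩ := m8_level (q := (j : ℝ) / N)
        (div_pos (by exact_mod_cast h.1) hN0)
        ((div_lt_one hN0).2 (by exact_mod_cast h.2))
      exact ⟨y, fun _ _ => hy⟩
    · exact ⟨0, fun h1 h2 => absurd ⟨h1, h2⟩ h⟩
  choose y hy using hlev
  have hH : ∀ᶠ X : ℝ in atTop, ∀ j ∈ range N, ∀ t : ℝ,
      t ≤ gam * Real.log X + y j * ((gam * Real.log 2 - 1) * √(gam * Real.log X)) →
      F 1 (Hs S t) X ≤ X / 2 * (d * Phi (y j) + ε / 8) :=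
    (eventually_all_finset _).2 fun j _ => H_est hS hd (y j) (by positivity)
  have hL : ∀ᶠ X : ℝ in atTop, ∀ j ∈ range N, ∀ t : ℝ,
      gam * Real.log X + y j * ((gam * Real.log 2 - 1) * √(gam * Real.log X)) ≤ t →
      F 1 (Ls S t) X ≤ X / 2 * (d * Phi (-(y j)) + ε / 8) :=
    (eventually_all_finset _).2 fun j _ => L_est hS hd (y j) (by positivity)
  have hmain : ∀ᶠ X : ℝ in atTop, ∀ t : ℝ, |ff (Hs S t) X - d * (gaussianReal 0 1).real
      (Set.Iic ((t - gg * Real.log X) / √(VV * Real.log X)))| ≤ ε := by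
    filter_upwards [hH, hL, m8_dens hd (by positivity : 0 < ε / 8),
      F_dens hd (by positivity : 0 < ε / 8), eventually_gt_atTop 1] with X h1 h2 h3 h4 hX t
    obtain ⟨z, hz⟩ : ∃ z, z = (t - gg * Real.log X) / √(VV * Real.log X) := ⟨_, rfl⟩
    rw [← hz]
    change |ff (Hs S t) X - d * Phi z| ≤ ε
    have ht := m8_tb hX hz
    have hP0 := Phi_nonneg z
    have hP1 := Phi_le_one z
    have hX2 : 0 < X / 2 := by linarith
    obtain ⟨j, hj⟩ : ∃ j : ℕ, j = ⌊Phi z * N⌋₊ := ⟨_, rfl⟩
    have hj1 : (j : ℝ) ≤ Phi z * N := by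
      rw [hj]
      exact Nat.floor_le (by positivity)
    have hj2 : Phi z * N < j + 1 := by
      rw [hj]
      exact Nat.lt_floor_add_one _
    have hdz : 0 ≤ d * Phi z := mul_nonneg hd0 hP0
    have hN1 : ∀ a b : ℝ, a ≤ b → a / N ≤ b / N := fun a b h =>
      div_le_div_of_nonneg_right h hN0.le
    have hzN : Phi z * N / N = Phi z := by field_simp
    have hsplit : ∀ a b : ℝ, (a + b) / N = a / N + b / N := fun a b => add_div a b _
    rw [abs_le]
    constructor
    · -- lower bound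
      have hnn : 0 ≤ ff (Hs S t) X := div_nonneg (F_nonneg _ _ _) hX2.le
      rcases Nat.lt_or_ge j 2 with hj3 | hj3
      · have h5 : Phi z ≤ 2 / N := by
          rw [le_div_iff₀ hN0]
          have : (j : ℝ) ≤ 1 := by exact_mod_cast (by omega : j ≤ 1)
          linarith
        have h6 : (2 : ℝ) / N = 2 * (1 / N) := by ring
        have h7 : d * Phi z ≤ 1 * Phi z := mul_le_mul_of_nonneg_right hd1 hP0
        linarith
      · have hjN : j - 1 < N := by
          have : (j : ℝ) ≤ N := by nlinarith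
          have h8 : j ≤ N := by exact_mod_cast this
          omega
        have h5 := hy (j - 1) (by omega) hjN
        have hjc : ((j - 1 : ℕ) : ℝ) = j - 1 := by
          rw [Nat.cast_sub (by omega)]
          norm_num
        have h6 : y (j - 1) ≤ z := by
          by_contra hcon
          have h7 := m8_mono (not_le.1 hcon).le
          rw [h5, hjc, le_div_iff₀ hN0] at h7
          linarith
        have h7 := h2 (j - 1) (mem_range.2 hjN) t (by
          have := m8_tbmono (X := X) h6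
          rw [← ht] at this
          exact this)
        have h8 := m8_union S t X
        rw [Phi_neg, h5, hjc] at h7
        have h9 : X / 2 * (d * ((j - 1) / N) - ε / 4) ≤ F 1 (Hs S t) X := by nlinarith
        have h10 : d * ((j - 1) / N) - ε / 4 ≤ ff (Hs S t) X := by
          unfold ff
          rw [le_div_iff₀ hX2]
          linarith
        have h11 : Phi z - 2 * (1 / N) ≤ ((j : ℝ) - 1) / N := by
          rw [le_div_iff₀ hN0]
          have : (Phi z - 2 * (1 / N)) * N = Phi z * N - 2 := by field_simp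
          linarith
        have h12 : d * (Phi z - 2 * (1 / N)) ≤ d * (((j : ℝ) - 1) / N) :=
          mul_le_mul_of_nonneg_left h11 hd0
        have h13 : d * (1 / N) ≤ 1 * (1 / (N : ℝ)) :=
          mul_le_mul_of_nonneg_right hd1 (by positivity)
        nlinarith
    · -- upper bound
      rcases Nat.lt_or_ge (j + 1) N with hj3 | hj3
      · have h5 := hy (j + 1) (by omega) hj3
        have h6 : z ≤ y (j + 1) := by
          by_contra hcon
          have h7 := m8_mono (not_le.1 hcon).le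
          rw [h5, div_le_iff₀ hN0] at h7
          push_cast at h7
          linarith
        have h7 := h1 (j + 1) (mem_range.2 hj3) t (by
          have := m8_tbmono (X := X) h6
          rw [← ht] at this
          exact this)
        rw [h5] at h7
        have h8 : ff (Hs S t) X ≤ d * (((j + 1 : ℕ) : ℝ) / N) + ε / 8 := by
          unfold ff
          rw [div_le_iff₀ hX2]
          linarith
        have h9 : ((j + 1 : ℕ) : ℝ) / N ≤ Phi z + 1 / N := by
          rw [div_le_iff₀ hN0]
          have : (Phi z + 1 / N) * N = Phi z * N + 1 := by field_simp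
          push_cast
          linarith
        have h10 := mul_le_mul_of_nonneg_left h9 hd0
        have h13 : d * (1 / N) ≤ 1 * (1 / (N : ℝ)) :=
          mul_le_mul_of_nonneg_right hd1 (by positivity)
        nlinarith
      · have h5 := (m8_sub S t X).trans h4
        have h8 : ff (Hs S t) X ≤ d + ε / 8 := by
          unfold ff
          rw [div_le_iff₀ hX2]
          linarith
        have h9 : 1 - 1 / N ≤ Phi z := by
          have h6 : (N : ℝ) ≤ j + 1 := by exact_mod_cast hj3
          have h7 : (1 - 1 / N) * N = (N : ℝ) - 1 := by field_simp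
          have h10 : (1 - 1 / N) * N ≤ Phi z * N := by linarith
          exact le_of_mul_le_mul_right h10 hN0
        have h10 := mul_le_mul_of_nonneg_left h9 hd0
        have h13 : d * (1 / N) ≤ 1 * (1 / (N : ℝ)) :=
          mul_le_mul_of_nonneg_right hd1 (by positivity)
        nlinarith
  obtain ⟨X₀, hX₀⟩ := eventually_atTop.1 hmain
  exact ⟨X₀, fun X t hX => hX₀ X hX t⟩

end Pool.Agent.LLT
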