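import Pool.Agent.LLT.M9O
import Pool.Agent.LLT.M7w
import Pool.Agent.LLT.M8

/-!
The local limit theorem for odd numbers.
-/

set_option autoImplicit false

namespace Pool.Agent.LLT

open Finset Filter Topology ProbabilityTheory
open Pool.Agent.Collatz3.FW (F Fam NumT Hs Ls)
open Pool.Agent.Collatz3.DN (Dens Reach)
open Pool.Agent.Helper14 (T)

theorem llt_odd {S : Set ℤ} {M₀ : ℝ} (hS : ∀ c ∈ S, |(c : ℝ)| ≤ M₀) {d : ℝ}
    (hd : Dens 1 (Reach S) d) {ε : ℝ} (hε : 0 < ε) : ∃ H₀ : ℕ, 0 < H₀ ∧ ∀ H : ℕ, H₀ ≤ H →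
    ∃ X₀ : ℝ, ∀ (X : ℝ) (t : ℤ), X₀ ≤ X →
      |(∑ b ∈ range H, ff (Es S (t + b)) X) / H - d / √(2 * Real.pi * VV * Real.log X) *
        Real.exp (-(t - gg * Real.log X) ^ 2 / (2 * VV * Real.log X))| ≤ ε / √(Real.log X) :=
  llt_odd_of (fun _ hM _ hA hdis _ hε => window hM hA hdis hε)
    (fun _ _ hS _ hd _ hε => clt_unif hS hd hε) hS hd hε

end Pool.Agent.LLT
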