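import Pool.Agent.LLT.M3
import Pool.Agent.LLT.M4c
import Pool.Agent.LLT.M9
import Pool.Agent.LLT.M10

/-!
Local limit theorem for the hitting times of the 3x+1 map: the final form.
-/

set_option autoImplicit false

namespace Pool.Agent.LLT

open Finset Filter Topology

theorem llt (F : Finset ℕ) : ∃ d : ℝ, Tendsto (fun x : ℕ =>
      ({n : ℕ | 1 ≤ n ∧ n ≤ x ∧ ∃ k : ℕ, Pool.Agent.Collatz3.FW.Tn^[k] n ∈ F}.ncard : ℝ) / x) atTop (𝓝 d) ∧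
    (∃ C : ℝ, ∃ x₀ : ℕ, ∀ (x : ℕ) (t : ℤ), x₀ ≤ x → cnt F x t ≤ C * x / √(Real.log x)) ∧
    (0 < d → ∀ R : ℝ, ∃ c : ℝ, 0 < c ∧ ∃ x₀ : ℕ, ∀ (x : ℕ) (t : ℤ), x₀ ≤ x →
      |(t : ℝ) - gg * Real.log x| ≤ R * √(Real.log x) → c * x / √(Real.log x) ≤ cnt F x t) ∧
    ∀ ε : ℝ, 0 < ε → ∃ H₀ : ℕ, 0 < H₀ ∧ ∀ H : ℕ, H₀ ≤ H → ∃ x₀ : ℕ, ∀ (x : ℕ) (t : ℤ), x₀ ≤ x →
      |∑ b ∈ range H, cnt F x (t + b) - d * (x * H) / √(2 * Real.pi * VV * Real.log x) *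
        Real.exp (-(t - gg * Real.log x) ^ 2 / (2 * VV * Real.log x))| ≤ ε * (x * H) / √(Real.log x) :=
  llt_core (fun _ _ hM hA => inv hM hA) (fun _ _ hM hA hdis => loc hM hA hdis)
    (fun _ _ hS _ hd _ he => llt_odd hS hd he) F

end Pool.Agent.LLT
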