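import Mathlib
import Pool.Agent.LLT.Defs

set_option autoImplicit false

/-!
Local limit theorem: the two-sided stage formula.
-/

namespace Pool.Agent.LLT

open Finset Filter Topology
open Pool.Agent.Collatz3.FW (F Fam NumT Od oc card_Od oc_le F_nonneg F_le fam_stage P_good_le_one)
open Pool.Agent.Collatz3.PD (goodV II P)
open Pool.Agent.Helper14 (T)

theorem fam_compl {M : ℝ} {A : ℝ → Set ℤ} (hA : Fam M A) : Fam M fun t => (A t)ᶜ := by
  refine ⟨?_, ?_⟩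
  · intro m m' s t h1 h2 h3 h4
    exact h2 (hA.up m m' s t h1 h4 h3)
  · intro m m' s t h1 h2 h3 h4
    exact h2 (hA.down m m' s t h1 h4 h3)

theorem F_compl (A : Set ℤ) (X : ℝ) : F 1 A X + F 1 Aᶜ X = (oc X : ℝ) := by
  classical
  unfold F
  rw [← card_Od (Or.inl rfl) X, ← Nat.cast_add]
  congr 1
  have h := Finset.card_filter_add_card_filter_not (s := Od 1 X) (fun n => n ∈ A)
  simp only [Set.mem_compl_iff]
  convert h using 2

theorem pow7_le {θ : ℝ} {k : ℕ} (hN : NumT θ k) : (k : ℝ) ^ 7 ≤ 2 ^ k := by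
  have h1 := hN.e1
  have h2 : (2 : ℝ) ^ (3 * k) ≤ (403 / 100 : ℝ) ^ k * 2 ^ k := by
    rw [← mul_pow, pow_mul]
    apply pow_le_pow_left₀ (by norm_num)
    norm_num
  have h3 : (0 : ℝ) ≤ (k : ℝ) ^ 7 := by positivity
  have h4 := mul_le_mul_of_nonneg_right h2 h3
  have h5 : (2 : ℝ) ^ (4 * k) = 2 ^ (3 * k) * 2 ^ k := by
    rw [← pow_add]
    congr 1
    ring
  rw [h5] at h1
  exact le_of_mul_le_mul_left (h4.trans h1) (by positivity)

theorem oc_ge (X : ℝ) : (X - 1) / 2 ≤ (oc X : ℝ) := by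
  have h := Nat.lt_floor_add_one ((X + 1) / 2)
  unfold oc
  linarith

theorem stage2 {θ : ℝ} {k : ℕ} (hN : NumT θ k) {M : ℝ} (hM : 1 < M)
    (hMk : M ^ 2 < 2 ^ (10 * k)) {A : ℝ → Set ℤ} (hA : Fam M A) {X : ℝ} (hX : 2 ^ (10 * k) ≤ X)
    (t : ℝ) :
    |ff (A t) X - ∑ v ∈ goodV (Pool.Agent.Collatz3.PD.II k) k (k - k / 20), (1 / 2 : ℝ) ^ v.sum *
      ff (A (t - v.sum)) (3 ^ (k - k / 20) * X / 2 ^ v.sum + 2 ^ k)| ≤ 20 / (k : ℝ) ^ 7 := by
  have hbig := hN.big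
  have hk0 : (0 : ℝ) < k := by exact_mod_cast (by omega : 0 < k)
  have hk7 : (0 : ℝ) < (k : ℝ) ^ 7 := by positivity
  have h2k : (0 : ℝ) < 2 ^ k := by positivity
  have hX0 : (0 : ℝ) < X := lt_of_lt_of_le (by positivity) hX
  have hXk : (2 : ℝ) ^ k ≤ X := (pow_le_pow_right₀ (by norm_num) (by omega)).trans hX
  have h7 := pow7_le hN
  have hypos : ∀ v : List ℕ, (2 : ℝ) ^ k ≤ 3 ^ (k - k / 20) * X / 2 ^ v.sum + 2 ^ k := by
    intro v
    have : (0 : ℝ) ≤ 3 ^ (k - k / 20) * X / 2 ^ v.sum := by positivity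
    linarith
  have hff : ∀ (B : Set ℤ) (y : ℝ), 0 < y → ff B y * (y / 2) = F 1 B y := by
    intro B y hy
    unfold ff
    exact div_mul_cancel₀ _ (by positivity)
  have hu := fam_stage hN hM hMk hA hX (Or.inl rfl) t
    (fun v => ff (A (t - v.sum)) (3 ^ (k - k / 20) * X / 2 ^ v.sum + 2 ^ k))
    (fun v _ => le_of_eq (hff _ _ (lt_of_lt_of_le h2k (hypos v))).symm)
  have hl := fam_stage hN hM hMk (fam_compl hA) hX (Or.inl rfl) t
    (fun v => 1 + 1 / 2 ^ k - ff (A (t - v.sum)) (3 ^ (k - k / 20) * X / 2 ^ v.sum + 2 ^ k))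
    (fun v _ => by
      have hy := hypos v
      generalize (3 : ℝ) ^ (k - k / 20) * X / 2 ^ v.sum + 2 ^ k = y at hy
      have hy0 : 0 < y := lt_of_lt_of_le h2k hy
      have h1 := F_compl (A (t - v.sum)) y
      have h2 := oc_le hy0.le
      have h3 : 1 ≤ 1 / 2 ^ k * y := by
        rw [one_div, inv_mul_eq_div, le_div_iff₀ h2k]
        linarith
      rw [sub_mul, hff _ _ hy0]
      linarith)
  have hP := P_good_le_one k (k - k / 20)
  unfold P at hP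
  have hc := F_compl (A t) X
  have ho := oc_ge X
  have hFX := hff (A t) X hX0
  obtain ⟨Sg, hSg⟩ : ∃ Sg, Sg = ∑ v ∈ goodV (Pool.Agent.Collatz3.PD.II k) k (k - k / 20),
    (1 / 2 : ℝ) ^ v.sum * ff (A (t - v.sum)) (3 ^ (k - k / 20) * X / 2 ^ v.sum + 2 ^ k) := ⟨_, rfl⟩
  rw [← hSg] at hu ⊢
  have e1 : ∑ v ∈ goodV (Pool.Agent.Collatz3.PD.II k) k (k - k / 20), (1 / 2 : ℝ) ^ v.sum *
      (1 + 1 / 2 ^ k - ff (A (t - v.sum)) (3 ^ (k - k / 20) * X / 2 ^ v.sum + 2 ^ k)) =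
      (1 + 1 / 2 ^ k) * ∑ v ∈ goodV (Pool.Agent.Collatz3.PD.II k) k (k - k / 20),
        (1 / 2 : ℝ) ^ v.sum - Sg := by
    rw [hSg, mul_sum, ← sum_sub_distrib]
    apply sum_congr rfl
    intro v _
    ring
  rw [e1] at hl
  have h8 : (0 : ℝ) < 1 / 2 ^ k := by positivity
  have h9 : (1 : ℝ) / 2 ^ k ≤ 1 / (k : ℝ) ^ 7 := one_div_le_one_div_of_le hk7 h7
  have h10 : (1 + 1 / 2 ^ k) * ∑ v ∈ goodV (Pool.Agent.Collatz3.PD.II k) k (k - k / 20),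
      (1 / 2 : ℝ) ^ v.sum ≤ 1 + 1 / 2 ^ k := by
    have := mul_le_mul_of_nonneg_left hP (by positivity : (0 : ℝ) ≤ 1 + 1 / 2 ^ k)
    linarith
  have h11 : X / 2 * ((1 + 1 / 2 ^ k) * ∑ v ∈ goodV (Pool.Agent.Collatz3.PD.II k) k (k - k / 20),
      (1 / 2 : ℝ) ^ v.sum - Sg) ≤ X / 2 * (1 + 1 / (k : ℝ) ^ 7 - Sg) :=
    mul_le_mul_of_nonneg_left (by linarith) (by positivity)
  have h12 : (1 : ℝ) ≤ X * (1 / (k : ℝ) ^ 7) := by
    rw [mul_one_div, le_div_iff₀ hk7]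
    linarith
  have e2 : X / (k : ℝ) ^ 7 = X * (1 / (k : ℝ) ^ 7) := by ring
  have e3 : 20 / (k : ℝ) ^ 7 = 20 * (1 / (k : ℝ) ^ 7) := by ring
  rw [e2] at hu hl
  rw [e3]
  have hX2 : 0 < X / 2 := by positivity
  generalize (1 : ℝ) / (k : ℝ) ^ 7 = q at *
  rw [abs_le]
  constructor
  · refine le_of_mul_le_mul_right ?_ hX2
    have : (ff (A t) X - Sg) * (X / 2) = F 1 (A t) X - Sg * (X / 2) := by rw [sub_mul, hFX]
    rw [this]
    nlinarith
  · refine le_of_mul_le_mul_right ?_ hX2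
    have : (ff (A t) X - Sg) * (X / 2) = F 1 (A t) X - Sg * (X / 2) := by rw [sub_mul, hFX]
    rw [this]
    nlinarith

end Pool.Agent.LLT
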