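import Pool.Agent.LLT.Defs

set_option autoImplicit false

/-!
Local limit theorem: from odd to all integers.
-/

namespace Pool.Agent.LLT

open Finset Filter Topology
open Pool.Agent.Collatz3.FW
open Pool.Agent.Collatz3.DN (Dens Reach)
open Pool.Agent.Helper14 (T)

theorem m10_ff (A : Set ℤ) {X : ℝ} (hX : 0 < X) : F 1 A X = ff A X * (X / 2) := by
  unfold ff
  field_simp

theorem m10_ff_nonneg (A : Set ℤ) {X : ℝ} (hX : 0 < X) : 0 ≤ ff A X := by
  unfold ff
  exact div_nonneg (F_nonneg _ _ _) (by positivity)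

theorem m10_step (A : Set ℤ) (X : ℝ) : F 1 A X + cN {m | 2 * m ∈ A} (X / 2) ≤ cN A X := by
  classical
  unfold F cN
  have h1 : (((Od 1 X).filter fun n => n ∈ A).image Int.toNat).card =
      ((Od 1 X).filter fun n => n ∈ A).card := by
    apply card_image_of_injOn
    intro a ha b hb hab
    rw [mem_coe, mem_filter, mem_Od (Or.inl rfl)] at ha hb
    have e1 := ha.1.2.1
    have e2 := hb.1.2.1
    omega
  have h2 : ((fun m : ℕ => 2 * m) ''
      {n : ℕ | 1 ≤ n ∧ (n : ℝ) ≤ X / 2 ∧ (n : ℤ) ∈ {m | 2 * m ∈ A}}).ncard =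
      {n : ℕ | 1 ≤ n ∧ (n : ℝ) ≤ X / 2 ∧ (n : ℤ) ∈ {m | 2 * m ∈ A}}.ncard := by
    apply Set.ncard_image_of_injective
    intro a b hab
    simp only at hab
    omega
  have h3 : Disjoint ((((Od 1 X).filter fun n => n ∈ A).image Int.toNat : Finset ℕ) : Set ℕ)
      ((fun m : ℕ => 2 * m) ''
      {n : ℕ | 1 ≤ n ∧ (n : ℝ) ≤ X / 2 ∧ (n : ℤ) ∈ {m | 2 * m ∈ A}}) := by
    rw [Set.disjoint_left]
    rintro n hn ⟨m, -, hm⟩
    rw [mem_coe, mem_image] at hn
    obtain ⟨a, ha, ha'⟩ := hn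
    rw [mem_filter, mem_Od (Or.inl rfl)] at ha
    have e1 := ha.1.1
    have e2 := ha.1.2.1
    simp only at hm
    omega
  have h4 : ((((Od 1 X).filter fun n => n ∈ A).image Int.toNat : Finset ℕ) : Set ℕ) ∪
      ((fun m : ℕ => 2 * m) ''
      {n : ℕ | 1 ≤ n ∧ (n : ℝ) ≤ X / 2 ∧ (n : ℤ) ∈ {m | 2 * m ∈ A}}) ⊆
      {n : ℕ | 1 ≤ n ∧ (n : ℝ) ≤ X ∧ (n : ℤ) ∈ A} := by
    rintro n (hn | ⟨m, ⟨h5, h6, h7⟩, hm⟩)
    · rw [mem_coe, mem_image] at hn
      obtain ⟨a, ha, hab⟩ := hn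
      rw [mem_filter, mem_Od (Or.inl rfl)] at ha
      obtain ⟨⟨-, e2, e3⟩, e4⟩ := ha
      have e5 : (n : ℤ) = a := by omega
      refine ⟨by omega, ?_, by rw [e5]; exact e4⟩
      have e6 : (n : ℝ) = ((n : ℤ) : ℝ) := by push_cast; rfl
      rw [e6, e5]
      rw [one_mul] at e3
      exact e3
    · simp only at hm
      subst hm
      refine ⟨by omega, ?_, ?_⟩
      · push_cast
        linarith
      · rw [Set.mem_ofPred_eq] at h7
        push_cast
        exact h7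
  have h5 := Set.ncard_le_ncard h4 (cN_finite A X)
  rw [Set.ncard_union_eq h3 (Finset.finite_toSet _) ((cN_finite _ _).image _),
    Set.ncard_coe_finset, h1, h2] at h5
  exact_mod_cast h5

theorem m10_eq (A : Set ℤ) (X : ℝ) : cN A X = F 1 A X + cN {m | 2 * m ∈ A} (X / 2) :=
  le_antisymm (cN_step A X) (m10_step A X)

theorem m10_sum (A : Set ℤ) (X : ℝ) (I : ℕ) :
    cN A X = ∑ i ∈ range I, F 1 {m | 2 ^ i * m ∈ A} (X / 2 ^ i) +
      cN {m | 2 ^ I * m ∈ A} (X / 2 ^ I) := by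
  induction I with
  | zero => simp
  | succ I ih =>
    rw [ih, sum_range_succ, m10_eq {m | 2 ^ I * m ∈ A} (X / 2 ^ I)]
    have h1 : {m : ℤ | 2 * m ∈ {m : ℤ | 2 ^ I * m ∈ A}} = {m : ℤ | 2 ^ (I + 1) * m ∈ A} := by
      ext m
      simp only [Set.mem_ofPred_eq]
      rw [pow_succ, mul_assoc]
    have h2 : X / 2 ^ I / 2 = X / 2 ^ (I + 1) := by
      rw [pow_succ, div_div]
    rw [h1, h2, add_assoc]

section fam
variable {M : ℝ} {A : ℝ → Set ℤ}

theorem m10_down (hA : Fam M A) {t : ℝ} {i : ℕ} {m : ℤ} (hm : 2 ^ i * m ∈ A t)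
    (h : M < |(m : ℝ)|) : m ∈ A (t - i) := by
  refine hA.down _ _ _ _ (T_iter_mul i m) hm ?_
  push_cast
  rw [abs_mul, abs_of_pos (by positivity : (0 : ℝ) < 2 ^ i), mul_comm]
  exact mul_lt_mul_of_pos_left h (by positivity)

theorem m10_upm (hA : Fam M A) {t : ℝ} {i : ℕ} {m : ℤ} (hm : m ∈ A (t - i))
    (h : M < |(m : ℝ)|) : 2 ^ i * m ∈ A t := by
  refine hA.up _ _ _ _ (T_iter_mul i m) hm ?_
  push_cast
  rw [abs_mul, abs_of_pos (by positivity : (0 : ℝ) < 2 ^ i), mul_comm]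
  exact mul_lt_mul_of_pos_left h (by positivity)

theorem m10_F1 (hM : 0 ≤ M) (hA : Fam M A) (t : ℝ) (i : ℕ) (Y : ℝ) :
    F 1 {m | 2 ^ i * m ∈ A t} Y ≤ F 1 (A (t - i)) Y + (M + 1) / 2 := by
  have h6 := F_small (Or.inl rfl : (1 : ℤ) = 1 ∨ (1 : ℤ) = -1) Y hM
  have h7 : F 1 {m | 2 ^ i * m ∈ A t} Y ≤ F 1 (A (t - i)) Y + F 1 {n : ℤ | |(n : ℝ)| ≤ M} Y := by
    apply F_union_le
    intro m hm
    rcases le_or_gt |(m : ℝ)| M with h8 | h8
    · exact Or.inr h8
    · exact Or.inl (m10_down hA hm h8)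
  linarith

theorem m10_F2 (hM : 0 ≤ M) (hA : Fam M A) (t : ℝ) (i : ℕ) (Y : ℝ) :
    F 1 (A (t - i)) Y ≤ F 1 {m | 2 ^ i * m ∈ A t} Y + (M + 1) / 2 := by
  have h6 := F_small (Or.inl rfl : (1 : ℤ) = 1 ∨ (1 : ℤ) = -1) Y hM
  have h7 : F 1 (A (t - i)) Y ≤ F 1 {m | 2 ^ i * m ∈ A t} Y + F 1 {n : ℤ | |(n : ℝ)| ≤ M} Y := by
    apply F_union_le
    intro m hm
    rcases le_or_gt |(m : ℝ)| M with h8 | h8
    · exact Or.inr h8
    · exact Or.inl (m10_upm hA hm h8)
  linarith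

theorem m10_cN (hM : 0 ≤ M) (hA : Fam M A) (t : ℝ) (i : ℕ) (Y : ℝ) :
    cN {m | 2 ^ i * m ∈ A t} Y ≤ cN (A (t - i)) Y + M := by
  have h7 : cN {m | 2 ^ i * m ∈ A t} Y ≤ cN (A (t - i)) Y + cN {n : ℤ | |(n : ℝ)| ≤ M} Y := by
    apply cN_union
    intro n _ _ hm
    rcases le_or_gt |((n : ℤ) : ℝ)| M with h8 | h8
    · exact Or.inr h8
    · exact Or.inl (m10_down hA hm h8)
  have h8 : cN {n : ℤ | |(n : ℝ)| ≤ M} Y ≤ cN Set.univ M := by
    apply cN_mono
    intro n _ _ h7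
    refine ⟨?_, Set.mem_univ _⟩
    rw [Set.mem_ofPred_eq] at h7
    have h9 := le_abs_self (((n : ℤ) : ℝ))
    push_cast at h9 h7
    linarith
  have h9 := cN_le Set.univ hM
  linarith

theorem m10_upF {C X₀ : ℝ} (hC : 0 < C) (hX₀ : 2 ≤ X₀)
    (hloc : ∀ X t : ℝ, X₀ ≤ X → ff (A t) X ≤ C / √(Real.log X)) :
    ∀ X t : ℝ, 1 ≤ X → F 1 (A t) X ≤ (C + √(Real.log X₀ + 1)) * X / √(Real.log X + 1) := by
  intro X t hX
  have hX0 : 0 < X := by linarith
  have hl : 0 ≤ Real.log X := Real.log_nonneg hX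
  have hs : 0 < √(Real.log X + 1) := Real.sqrt_pos.2 (by linarith)
  have hl0 : 0 ≤ Real.log X₀ := Real.log_nonneg (by linarith)
  rw [le_div_iff₀ hs]
  rcases le_or_gt X₀ X with h | h
  · have h1 := hloc X t h
    have h2 : Real.log 2 ≤ Real.log X := Real.log_le_log (by norm_num) (by linarith)
    have h3 := Real.log_two_gt_d9
    have hl' : 0 < Real.log X := by linarith
    have h4 : √(Real.log X + 1) ≤ 2 * √(Real.log X) := by
      rw [Real.sqrt_le_left (by positivity), mul_pow, Real.sq_sqrt hl]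
      linarith
    have hs' : 0 < √(Real.log X) := Real.sqrt_pos.2 hl'
    rw [le_div_iff₀ hs'] at h1
    rw [m10_ff _ hX0]
    have h5 := m10_ff_nonneg (A t) hX0
    have h6 : ff (A t) X * √(Real.log X + 1) ≤ 2 * C := by
      calc ff (A t) X * √(Real.log X + 1) ≤ ff (A t) X * (2 * √(Real.log X)) :=
            mul_le_mul_of_nonneg_left h4 h5
        _ ≤ 2 * C := by linarith
    have h7 : 0 ≤ √(Real.log X₀ + 1) * X := by positivity
    nlinarith
  · have h1 := F_le (Or.inl rfl : (1 : ℤ) = 1 ∨ (1 : ℤ) = -1) (A t) hX0.le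
    have h2 : √(Real.log X + 1) ≤ √(Real.log X₀ + 1) := by
      apply Real.sqrt_le_sqrt
      have := Real.log_le_log hX0 h.le
      linarith
    have h3 : F 1 (A t) X ≤ X := by linarith
    have h4 : F 1 (A t) X * √(Real.log X + 1) ≤ X * √(Real.log X₀ + 1) :=
      mul_le_mul h3 h2 hs.le hX0.le
    have h5 : 0 ≤ C * X := by positivity
    linarith

theorem m10_up (hM : 0 ≤ M) (hA : Fam M A) {C X₀ : ℝ} (hC : 0 < C) (hX₀ : 2 ≤ X₀)
    (hloc : ∀ X t : ℝ, X₀ ≤ X → ff (A t) X ≤ C / √(Real.log X)) :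
    ∃ K : ℝ, 0 < K ∧ ∀ X t : ℝ, 1 ≤ X → cN (A t) X ≤ K * X / √(Real.log X + 1) := by
  obtain ⟨C₁, hC₁⟩ : ∃ C₁, C₁ = C + √(Real.log X₀ + 1) := ⟨_, rfl⟩
  have hC₁0 : 0 ≤ C₁ := by rw [hC₁]; positivity
  have hF := m10_upF hC hX₀ hloc
  rw [← hC₁] at hF
  obtain ⟨K, hK⟩ : ∃ K, K = 4 * (C₁ + M + 1) := ⟨_, rfl⟩
  refine ⟨K, by rw [hK]; positivity, ?_⟩
  have key : ∀ n : ℕ, ∀ X t : ℝ, 1 ≤ X → X < 2 ^ n → cN (A t) X ≤ K * X / √(Real.log X + 1) := by
    intro n
    induction n with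
    | zero =>
      intro X t h1 h2
      rw [pow_zero] at h2
      linarith
    | succ n ih =>
      intro X t hX hXn
      have hX0 : 0 < X := by linarith
      have hl : 0 ≤ Real.log X := Real.log_nonneg hX
      have hs : 0 < √(Real.log X + 1) := Real.sqrt_pos.2 (by linarith)
      have hlX : Real.log X ≤ X - 1 := Real.log_le_sub_one_of_pos hX0
      have hsX : √(Real.log X + 1) ≤ X := by
        rw [Real.sqrt_le_left hX0.le]
        nlinarith
      rw [le_div_iff₀ hs]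
      rcases lt_or_ge X 2 with h2 | h2
      · have h3 := cN_le (A t) hX0.le
        have h4 : cN (A t) X * √(Real.log X + 1) ≤ X * X := mul_le_mul h3 hsX hs.le hX0.le
        have h5 : 0 ≤ (C₁ + M) * X := by positivity
        rw [hK]
        nlinarith
      · have h3 := ih (X / 2) (t - (1 : ℕ)) (by linarith) (by
          rw [pow_succ] at hXn
          linarith)
        have h4 := m10_cN hM hA t 1 (X / 2)
        rw [pow_one] at h4
        have h5 := cN_step (A t) X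
        have h6 := hF X t hX
        have hlog2 : Real.log 2 ≤ Real.log X := Real.log_le_log (by norm_num) h2
        have hd1 := Real.log_two_gt_d9
        have hd2 := Real.log_two_lt_d9
        have h7 : Real.log (X / 2) = Real.log X - Real.log 2 :=
          Real.log_div hX0.ne' (by norm_num)
        rw [h7] at h3
        have hs' : 0 < √(Real.log X - Real.log 2 + 1) := Real.sqrt_pos.2 (by linarith)
        have h8 : √(Real.log X + 1) ≤ 3 / 2 * √(Real.log X - Real.log 2 + 1) := by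
          rw [Real.sqrt_le_left (by positivity), mul_pow, Real.sq_sqrt (by linarith)]
          linarith
        rw [le_div_iff₀ hs'] at h3
        rw [le_div_iff₀ hs] at h6
        have hc0 := cN_nonneg (A (t - (1 : ℕ))) (X / 2)
        have h9 : cN (A (t - (1 : ℕ))) (X / 2) * √(Real.log X + 1) ≤ 3 / 4 * (K * X) := by
          calc cN (A (t - (1 : ℕ))) (X / 2) * √(Real.log X + 1) ≤
              cN (A (t - (1 : ℕ))) (X / 2) * (3 / 2 * √(Real.log X - Real.log 2 + 1)) :=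
                mul_le_mul_of_nonneg_left h8 hc0
            _ ≤ 3 / 4 * (K * X) := by linarith
        have h10 : M * √(Real.log X + 1) ≤ M * X := mul_le_mul_of_nonneg_left hsX hM
        have h11 : cN (A t) X * √(Real.log X + 1) ≤
            (F 1 (A t) X + (cN (A (t - (1 : ℕ))) (X / 2) + M)) * √(Real.log X + 1) :=
          mul_le_mul_of_nonneg_right (by linarith) hs.le
        have h12 : (0 : ℝ) ≤ X := hX0.le
        have h13 : K * X = 4 * (C₁ * X + M * X + X) := by rw [hK]; ring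
        linarith
  intro X t hX
  obtain ⟨n, hn⟩ := pow_unbounded_of_one_lt X (by norm_num : (1 : ℝ) < 2)
  exact key n X t hX hn

end fam

end Pool.Agent.LLT
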