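import Pool.Agent.LLT.M10a

set_option autoImplicit false

/-!
Local limit theorem: the number of all integers against the number of odd integers.
-/

namespace Pool.Agent.LLT

open Finset Filter Topology
open Pool.Agent.Collatz3.FW
open Pool.Agent.Collatz3.DN (Dens Reach)
open Pool.Agent.Helper14 (T)

theorem m10_big (c : ℝ) {δ : ℝ} (hδ : 0 < δ) :
    ∀ᶠ X : ℝ in atTop, c ≤ δ * (X / √(Real.log X)) := by
  have h1 : Tendsto (fun X : ℝ => δ * √X) atTop atTop :=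
    Real.tendsto_sqrt_atTop.const_mul_atTop hδ
  filter_upwards [h1.eventually_ge_atTop c, eventually_gt_atTop 1] with X h2 h3
  refine h2.trans (mul_le_mul_of_nonneg_left ?_ hδ.le)
  have hl : 0 < Real.log X := Real.log_pos h3
  have hs : 0 < √(Real.log X) := Real.sqrt_pos.2 hl
  rw [le_div_iff₀ hs]
  have h4 : √(Real.log X) ≤ √X :=
    Real.sqrt_le_sqrt ((Real.log_le_sub_one_of_pos (by linarith)).trans (by linarith))
  calc √X * √(Real.log X) ≤ √X * √X := mul_le_mul_of_nonneg_left h4 (Real.sqrt_nonneg _)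
    _ = X := Real.mul_self_sqrt (by linarith)

theorem m10_log (i : ℕ) : ∀ᶠ X : ℝ in atTop, 1 ≤ Real.log X ∧
    Real.log X / 4 ≤ Real.log (X / 2 ^ i) ∧ √(Real.log X) ≤ 2 * √(Real.log (X / 2 ^ i)) := by
  filter_upwards [Real.tendsto_log_atTop.eventually_ge_atTop (1 : ℝ),
    Real.tendsto_log_atTop.eventually_ge_atTop (2 * (i : ℝ)), eventually_gt_atTop 0] with X h1 h2 h3
  have h4 := log_div_two_pow h3 i
  have hd2 := Real.log_two_lt_d9
  have hi : (0 : ℝ) ≤ i := Nat.cast_nonneg _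
  have h5 : (i : ℝ) * Real.log 2 ≤ i * (3 / 4) := mul_le_mul_of_nonneg_left (by linarith) hi
  have h6 : Real.log X / 4 ≤ Real.log (X / 2 ^ i) := by
    rw [h4]
    linarith
  refine ⟨h1, h6, ?_⟩
  rw [Real.sqrt_le_left (by positivity), mul_pow, Real.sq_sqrt (by linarith)]
  linarith

section fam
variable {M : ℝ} {A : ℝ → Set ℤ}

theorem m10_inv1 (hloc : ∃ C X₀ : ℝ, 0 < C ∧ 2 ≤ X₀ ∧
      ∀ X t : ℝ, X₀ ≤ X → ff (A t) X ≤ C / √(Real.log X))
    (hinv : ∃ C X₀ : ℝ, 0 < C ∧ 2 ≤ X₀ ∧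
      ∀ X t B : ℝ, X₀ ≤ X → 0 ≤ B → (∀ y τ : ℝ, X ^ (9 / 10 : ℝ) ≤ y → ff (A τ) y ≤ B) →
        |ff (A (t + 1)) (2 * X) - ff (A t) X| ≤ C * (B / √(Real.log X) + 1 / Real.log X ^ 2) ∧
        |ff (A t) (3 * X) - ff (A t) X| ≤ C * (B / √(Real.log X) + 1 / Real.log X ^ 2))
    {δ : ℝ} (hδ : 0 < δ) : ∀ᶠ X : ℝ in atTop, ∀ t : ℝ,
      |ff (A (t + 1)) (2 * X) - ff (A t) X| ≤ δ / √(Real.log X) := by
  obtain ⟨C, X₀, hC, hX₀, hl⟩ := hloc
  obtain ⟨C', X₁, hC', hX₁, hi⟩ := hinv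
  have hs : Tendsto (fun X : ℝ => √(Real.log X)) atTop atTop :=
    Real.tendsto_sqrt_atTop.comp Real.tendsto_log_atTop
  filter_upwards [eventually_ge_atTop X₁,
    (tendsto_rpow_atTop (by norm_num : (0 : ℝ) < 9 / 10)).eventually_ge_atTop X₀,
    hs.eventually_ge_atTop (1 : ℝ), hs.eventually_ge_atTop (C' * (2 * C + 1) / δ)]
    with X h1 h2 h3 h4 t
  have hX0 : 0 < X := by linarith
  obtain ⟨s, hsdef⟩ : ∃ s, s = √(Real.log X) := ⟨_, rfl⟩
  rw [← hsdef] at h3 h4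
  have hs0 : 0 < s := by linarith
  have hlog : 0 < Real.log X := by
    have h5 : 0 < √(Real.log X) := by rw [← hsdef]; exact hs0
    exact Real.sqrt_pos.1 h5
  have hsq : s * s = Real.log X := by
    rw [hsdef]
    exact Real.mul_self_sqrt hlog.le
  have h5 : s ≤ 2 * √(9 / 10 * Real.log X) := by
    rw [hsdef, Real.sqrt_le_left (by positivity), mul_pow, Real.sq_sqrt (by positivity)]
    linarith
  have h6 : 0 < √(9 / 10 * Real.log X) := Real.sqrt_pos.2 (by positivity)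
  have hB : C / √(9 / 10 * Real.log X) ≤ 2 * C / s := by
    rw [div_le_div_iff₀ h6 hs0]
    nlinarith
  have h7 := (hi X t (C / √(9 / 10 * Real.log X)) h1 (by positivity) (fun y τ hy => by
    refine (hl y τ (h2.trans hy)).trans ?_
    apply div_le_div_of_nonneg_left hC.le h6
    apply Real.sqrt_le_sqrt
    rw [← Real.log_rpow hX0]
    exact Real.log_le_log (by positivity) hy)).1
  refine h7.trans ?_
  rw [← hsdef, ← hsq, le_div_iff₀ hs0]
  rw [div_le_iff₀ hδ] at h4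
  have h8 : C / √(9 / 10 * (s * s)) / s + 1 / (s * s) ^ 2 ≤ (2 * C + 1) / (s * s) := by
    rw [hsq]
    have e1 : C / √(9 / 10 * Real.log X) / s ≤ 2 * C / Real.log X := by
      calc C / √(9 / 10 * Real.log X) / s ≤ 2 * C / s / s :=
            div_le_div_of_nonneg_right hB hs0.le
        _ = 2 * C / Real.log X := by rw [div_div, hsq]
    have e2 : 1 / Real.log X ^ 2 ≤ 1 / Real.log X := by
      apply div_le_div_of_nonneg_left (by norm_num) hlog
      have : 1 ≤ Real.log X := by nlinarith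
      nlinarith
    rw [add_div]
    linarith
  calc C' * (C / √(9 / 10 * (s * s)) / s + 1 / (s * s) ^ 2) * s ≤
      C' * ((2 * C + 1) / (s * s)) * s := by
        apply mul_le_mul_of_nonneg_right _ hs0.le
        exact mul_le_mul_of_nonneg_left h8 hC'.le
    _ = C' * (2 * C + 1) / s := by field_simp
    _ ≤ δ := by
      rw [div_le_iff₀ hs0]
      linarith

theorem m10_shift (hloc : ∃ C X₀ : ℝ, 0 < C ∧ 2 ≤ X₀ ∧
      ∀ X t : ℝ, X₀ ≤ X → ff (A t) X ≤ C / √(Real.log X))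
    (hinv : ∃ C X₀ : ℝ, 0 < C ∧ 2 ≤ X₀ ∧
      ∀ X t B : ℝ, X₀ ≤ X → 0 ≤ B → (∀ y τ : ℝ, X ^ (9 / 10 : ℝ) ≤ y → ff (A τ) y ≤ B) →
        |ff (A (t + 1)) (2 * X) - ff (A t) X| ≤ C * (B / √(Real.log X) + 1 / Real.log X ^ 2) ∧
        |ff (A t) (3 * X) - ff (A t) X| ≤ C * (B / √(Real.log X) + 1 / Real.log X ^ 2))
    (i : ℕ) : ∀ δ : ℝ, 0 < δ → ∀ᶠ X : ℝ in atTop, ∀ t : ℝ,
      |ff (A (t - i)) (X / 2 ^ i) - ff (A t) X| ≤ δ / √(Real.log X) := by
  induction i with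
  | zero =>
    intro δ hδ
    filter_upwards with X t
    simp only [Nat.cast_zero, sub_zero, pow_zero, div_one, sub_self, abs_zero]
    positivity
  | succ i ih =>
    intro δ hδ
    have ht : Tendsto (fun X : ℝ => X / 2 ^ (i + 1)) atTop atTop :=
      tendsto_id.atTop_div_const (by positivity)
    filter_upwards [ih (δ / 2) (by positivity),
      ht.eventually (m10_inv1 hloc hinv (by positivity : 0 < δ / 4)), m10_log (i + 1)]
      with X h1 h2 h3 t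
    obtain ⟨h4, h5, h6⟩ := h3
    have e1 := h1 t
    have e2 := h2 (t - ((i + 1 : ℕ) : ℝ))
    have e3 : t - ((i + 1 : ℕ) : ℝ) + 1 = t - i := by
      push_cast
      ring
    have e4 : 2 * (X / 2 ^ (i + 1)) = X / 2 ^ i := by
      rw [pow_succ]
      field_simp
    rw [e3, e4] at e2
    have p1 : 0 < √(Real.log X) := Real.sqrt_pos.2 (by linarith)
    have p2 : 0 < √(Real.log (X / 2 ^ (i + 1))) := Real.sqrt_pos.2 (by linarith)
    have e5 : δ / 4 / √(Real.log (X / 2 ^ (i + 1))) ≤ δ / 2 / √(Real.log X) := by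
      rw [div_le_div_iff₀ p2 p1]
      nlinarith
    have e6 : δ / 2 / √(Real.log X) + δ / 2 / √(Real.log X) = δ / √(Real.log X) := by ring
    rw [abs_le] at e1 e2 ⊢
    constructor <;> linarith [e1.1, e1.2, e2.1, e2.2]

theorem m10_main (hM : 0 ≤ M) (hA : Fam M A) (hloc : ∃ C X₀ : ℝ, 0 < C ∧ 2 ≤ X₀ ∧
      ∀ X t : ℝ, X₀ ≤ X → ff (A t) X ≤ C / √(Real.log X))
    (hinv : ∃ C X₀ : ℝ, 0 < C ∧ 2 ≤ X₀ ∧
      ∀ X t B : ℝ, X₀ ≤ X → 0 ≤ B → (∀ y τ : ℝ, X ^ (9 / 10 : ℝ) ≤ y → ff (A τ) y ≤ B) →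
        |ff (A (t + 1)) (2 * X) - ff (A t) X| ≤ C * (B / √(Real.log X) + 1 / Real.log X ^ 2) ∧
        |ff (A t) (3 * X) - ff (A t) X| ≤ C * (B / √(Real.log X) + 1 / Real.log X ^ 2))
    {ε : ℝ} (hε : 0 < ε) : ∀ᶠ X : ℝ in atTop, ∀ t : ℝ,
      |cN (A t) X - X * ff (A t) X| ≤ ε * (X / √(Real.log X)) := by
  obtain ⟨C, X₀, hC, hX₀, hl⟩ := id hloc
  obtain ⟨K, hK, hup⟩ := m10_up hM hA hC hX₀ hl
  obtain ⟨I, hI⟩ : ∃ I : ℕ, (2 * K + C) / 2 ^ I ≤ ε / 4 := by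
    obtain ⟨I, hI⟩ := exists_pow_lt_of_lt_one (by positivity : 0 < ε / 4 / (2 * K + C))
      (by norm_num : (1 / 2 : ℝ) < 1)
    refine ⟨I, ?_⟩
    rw [lt_div_iff₀ (by positivity)] at hI
    refine le_trans (le_of_eq ?_) hI.le
    rw [one_div, inv_pow]
    field_simp
  have h1 : ∀ᶠ X : ℝ in atTop, ∀ i ∈ range I, ∀ t : ℝ,
      |ff (A (t - i)) (X / 2 ^ i) - ff (A t) X| ≤ ε / 4 / √(Real.log X) :=
    (eventually_all_finset _).2 fun i _ => m10_shift hloc hinv i _ (by positivity)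
  filter_upwards [h1, m10_log I, m10_big (I * ((M + 1) / 2) + M) (by positivity : 0 < ε / 4),
    eventually_ge_atTop X₀, eventually_ge_atTop (2 ^ I)] with X h2 h3 h4 h5 h6 t
  obtain ⟨h7, h8, h9⟩ := h3
  have hX0 : 0 < X := by linarith
  obtain ⟨s, hs⟩ : ∃ s, s = √(Real.log X) := ⟨_, rfl⟩
  have hs0 : 0 < s := by
    rw [hs]
    exact Real.sqrt_pos.2 (by linarith)
  rw [← hs] at h4 h9 ⊢
  obtain ⟨f, hf⟩ : ∃ f, f = ff (A t) X := ⟨_, rfl⟩
  have hf0 : 0 ≤ f := by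
    rw [hf]
    exact m10_ff_nonneg _ hX0
  have hfC : f ≤ C / s := by
    rw [hf, hs]
    exact hl X t h5
  rw [← hf]
  have h2' : ∀ i ∈ range I, |ff (A (t - i)) (X / 2 ^ i) - f| ≤ ε / 4 / s := by
    intro i hi
    rw [hf, hs]
    exact h2 i hi t
  obtain ⟨y, hy⟩ : ∃ y, y = X / s := ⟨_, rfl⟩
  have hy0 : 0 < y := by rw [hy]; positivity
  have hq : ∀ i : ℕ, 0 < X / 2 ^ i := fun i => by positivity
  have e0 := m10_sum (A t) X I
  have e1 : ∑ i ∈ range I, F 1 {m | 2 ^ i * m ∈ A t} (X / 2 ^ i) ≤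
      ∑ i ∈ range I, (X / 2 ^ i / 2 * (f + ε / 4 / s) + (M + 1) / 2) := by
    apply sum_le_sum
    intro i hi
    have a1 := m10_F1 hM hA t i (X / 2 ^ i)
    rw [m10_ff (A (t - i)) (hq i)] at a1
    have a2 := (abs_le.1 (h2' i hi)).2
    have a3 : ff (A (t - i)) (X / 2 ^ i) * (X / 2 ^ i / 2) ≤
        (f + ε / 4 / s) * (X / 2 ^ i / 2) :=
      mul_le_mul_of_nonneg_right (by linarith) (by have := hq i; positivity)
    linarith
  have e2 : ∑ i ∈ range I, (X / 2 ^ i / 2 * (f - ε / 4 / s) - (M + 1) / 2) ≤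
      ∑ i ∈ range I, F 1 {m | 2 ^ i * m ∈ A t} (X / 2 ^ i) := by
    apply sum_le_sum
    intro i hi
    have a1 := m10_F2 hM hA t i (X / 2 ^ i)
    rw [m10_ff (A (t - i)) (hq i)] at a1
    have a2 := (abs_le.1 (h2' i hi)).1
    have a3 : (f - ε / 4 / s) * (X / 2 ^ i / 2) ≤
        ff (A (t - i)) (X / 2 ^ i) * (X / 2 ^ i / 2) :=
      mul_le_mul_of_nonneg_right (by linarith) (by have := hq i; positivity)
    linarith
  rw [sum_add_distrib, ← sum_mul, half_sum, sum_const, card_range, nsmul_eq_mul] at e1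
  rw [sum_sub_distrib, ← sum_mul, half_sum, sum_const, card_range, nsmul_eq_mul] at e2
  have e3 := m10_cN hM hA t I (X / 2 ^ I)
  have e4 := hup (X / 2 ^ I) (t - I) ((one_le_div (by positivity)).2 h6)
  have e5 : K * (X / 2 ^ I) / √(Real.log (X / 2 ^ I) + 1) ≤ 2 * K / 2 ^ I * y := by
    have b1 : s ≤ 2 * √(Real.log (X / 2 ^ I) + 1) := by
      refine h9.trans (mul_le_mul_of_nonneg_left (Real.sqrt_le_sqrt (by linarith)) (by norm_num))
    have b2 : 0 < √(Real.log (X / 2 ^ I) + 1) := Real.sqrt_pos.2 (by linarith)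
    rw [div_le_iff₀ b2, hy]
    have b3 : 0 ≤ K * (X / 2 ^ I) := by positivity
    calc K * (X / 2 ^ I) = K * (X / 2 ^ I) * (s / s) := by rw [div_self hs0.ne', mul_one]
      _ ≤ K * (X / 2 ^ I) * (2 * √(Real.log (X / 2 ^ I) + 1) / s) :=
        mul_le_mul_of_nonneg_left (div_le_div_of_nonneg_right b1 hs0.le) b3
      _ = 2 * K / 2 ^ I * (X / s) * √(Real.log (X / 2 ^ I) + 1) := by ring
  have e6 : cN {m | 2 ^ I * m ∈ A t} (X / 2 ^ I) ≤ 2 * K / 2 ^ I * y + M := by linarith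
  have e7 : 0 ≤ cN {m | 2 ^ I * m ∈ A t} (X / 2 ^ I) := cN_nonneg _ _
  have e8 : X * (ε / 4 / s) = ε / 4 * y := by rw [hy]; ring
  have e9 : 2 * K / 2 ^ I * y + C / 2 ^ I * y ≤ ε / 4 * y := by
    have c1 : (2 * K + C) / 2 ^ I * y ≤ ε / 4 * y := mul_le_mul_of_nonneg_right hI hy0.le
    have c2 : (2 * K + C) / 2 ^ I * y = 2 * K / 2 ^ I * y + C / 2 ^ I * y := by ring
    linarith
  have e10 : 0 ≤ 2 * K / 2 ^ I * y := by positivity
  have e11 : 0 ≤ C / 2 ^ I * y := by positivity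
  have e12 : X / 2 ^ I * f ≤ C / 2 ^ I * y := by
    have c1 : X / 2 ^ I * f ≤ X / 2 ^ I * (C / s) := mul_le_mul_of_nonneg_left hfC (hq I).le
    have c2 : X / 2 ^ I * (C / s) = C / 2 ^ I * y := by rw [hy]; ring
    linarith
  have e13 : 0 ≤ X / 2 ^ I * (f + ε / 4 / s) := by
    have := hq I
    positivity
  have e14 : 0 ≤ X / 2 ^ I * (ε / 4 / s) := by
    have := hq I
    positivity
  have e15 : 0 ≤ ε * y := by positivity
  rw [hy.symm] at h4 ⊢
  rw [abs_le]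
  constructor
  · nlinarith
  · nlinarith

end fam

end Pool.Agent.LLT
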