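import Pool.Agent.LLT.M10b

set_option autoImplicit false

/-!
Local limit theorem: the pointwise lower bound for all integers.
-/

namespace Pool.Agent.LLT

open Finset Filter Topology
open Pool.Agent.Collatz3.FW
open Pool.Agent.Collatz3.DN (Dens Reach)
open Pool.Agent.Helper14 (T)

theorem m10_gg_pos : 0 < gg := by
  unfold gg
  have : 0 < Real.log (4 / 3) := Real.log_pos (by norm_num)
  positivity

theorem m10_VV_pos : 0 < VV := by
  unfold VV
  have h1 : 0 < Real.log (4 / 3) := Real.log_pos (by norm_num)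
  have h2 : 0 < Real.log 3 := Real.log_pos (by norm_num)
  positivity

theorem m10_Fmono (A : Set ℤ) {X Y : ℝ} (h : X ≤ Y) : F 1 A X ≤ F 1 A Y := by
  classical
  unfold F
  exact_mod_cast card_le_card (filter_subset_filter _ (Od_mono 1 h))

section fam
variable {M : ℝ} {A : ℝ → Set ℤ}

theorem m10_low (hM : 0 ≤ M) (hA : Fam M A) {d : ℝ} (hd : 0 < d) (R : ℝ)
    (hodd : ∀ ε : ℝ, 0 < ε → ∃ H₀ : ℕ, 0 < H₀ ∧ ∀ H : ℕ, H₀ ≤ H →
      ∃ X₀ : ℝ, ∀ (X : ℝ) (t : ℤ), X₀ ≤ X →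
      |(∑ b ∈ range H, ff (A (t + b)) X) / H - d / √(2 * Real.pi * VV * Real.log X) *
        Real.exp (-(t - gg * Real.log X) ^ 2 / (2 * VV * Real.log X))| ≤ ε / √(Real.log X)) :
    ∃ c : ℝ, 0 < c ∧ ∀ᶠ X : ℝ in atTop, ∀ t : ℤ,
      |(t : ℝ) - gg * Real.log X| ≤ R * √(Real.log X) → c * (X / √(Real.log X)) ≤ cN (A t) X := by
  have hV := m10_VV_pos
  have hg := m10_gg_pos
  have hpi := Real.pi_pos
  obtain ⟨R₁, hR₁⟩ : ∃ R₁, R₁ = 2 * (|R| + 1) := ⟨_, rfl⟩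
  obtain ⟨e₀, he₀⟩ : ∃ e₀, e₀ = Real.exp (-(R₁ ^ 2 / (2 * VV))) := ⟨_, rfl⟩
  obtain ⟨q, hq⟩ : ∃ q, q = √(2 * Real.pi * VV) := ⟨_, rfl⟩
  have he0 : 0 < e₀ := by rw [he₀]; exact Real.exp_pos _
  have hq0 : 0 < q := by rw [hq]; exact Real.sqrt_pos.2 (by positivity)
  obtain ⟨ε₀, hε₀⟩ : ∃ ε₀, ε₀ = d / q * e₀ / 2 := ⟨_, rfl⟩
  have hε0 : 0 < ε₀ := by rw [hε₀]; positivity
  obtain ⟨H, hH0, hH⟩ := hodd ε₀ hε0
  obtain ⟨X₀, hX₀⟩ := hH H le_rfl
  have hH0' : (0 : ℝ) < H := by exact_mod_cast hH0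
  refine ⟨H * ε₀ / 2 ^ (H + 2), by positivity, ?_⟩
  have ht : Tendsto (fun X : ℝ => X / 2 ^ H) atTop atTop :=
    tendsto_id.atTop_div_const (by positivity)
  have hs : Tendsto (fun X : ℝ => √(Real.log X)) atTop atTop :=
    Real.tendsto_sqrt_atTop.comp Real.tendsto_log_atTop
  filter_upwards [ht.eventually_ge_atTop X₀, m10_log H,
    m10_big (H * ((M + 1) / 2)) (by positivity : 0 < (H : ℝ) * ε₀ / 2 ^ (H + 2)),
    eventually_gt_atTop 0, hs.eventually_ge_atTop (H + 1 + gg * H)] with X h1 h2 h3 h4 h5 t htR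
  obtain ⟨h6, h7, h8⟩ := h2
  have hlog := log_div_two_pow h4 H
  have hl' : 0 < Real.log (X / 2 ^ H) := by linarith
  have hd1 := Real.log_two_gt_d9
  have hd2 := Real.log_two_lt_d9
  have hlt : Real.log (X / 2 ^ H) ≤ Real.log X := by
    rw [hlog]
    have : 0 ≤ (H : ℝ) * Real.log 2 := by positivity
    linarith
  have hs0 : 0 < √(Real.log X) := Real.sqrt_pos.2 (by linarith)
  have hs1 : 0 < √(Real.log (X / 2 ^ H)) := Real.sqrt_pos.2 hl'
  have hRabs : R ≤ |R| := le_abs_self R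
  -- the shifted time
  have key := hX₀ (X / 2 ^ H) (t - H + 1) h1
  have hdist : |(((t - H + 1 : ℤ) : ℝ)) - gg * Real.log (X / 2 ^ H)| ≤
      R₁ * √(Real.log (X / 2 ^ H)) := by
    have a1 : (((t - H + 1 : ℤ) : ℝ)) - gg * Real.log (X / 2 ^ H) =
        ((t : ℝ) - gg * Real.log X) + (1 - H + gg * (H * Real.log 2)) := by
      rw [hlog]
      push_cast
      ring
    have a2 : |1 - (H : ℝ) + gg * (H * Real.log 2)| ≤ H + 1 + gg * H := by
      have b1 : 0 ≤ gg * ((H : ℝ) * Real.log 2) := by positivity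
      have b2 : gg * ((H : ℝ) * Real.log 2) ≤ gg * H := by
        apply mul_le_mul_of_nonneg_left _ hg.le
        nlinarith
      rw [abs_le]
      constructor <;> nlinarith
    rw [a1]
    refine (abs_add_le _ _).trans ?_
    have a3 : R * √(Real.log X) ≤ |R| * √(Real.log X) := mul_le_mul_of_nonneg_right hRabs hs0.le
    have a4 : (|R| + 1) * √(Real.log X) ≤ (|R| + 1) * (2 * √(Real.log (X / 2 ^ H))) :=
      mul_le_mul_of_nonneg_left h8 (by positivity)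
    rw [hR₁]
    linarith
  have hexp : e₀ ≤ Real.exp (-((((t - H + 1 : ℤ) : ℝ)) - gg * Real.log (X / 2 ^ H)) ^ 2 /
      (2 * VV * Real.log (X / 2 ^ H))) := by
    rw [he₀]
    apply Real.exp_le_exp.2
    rw [neg_div, neg_le_neg_iff, div_le_div_iff₀ (by positivity) (by positivity)]
    have a1 : ((((t - H + 1 : ℤ) : ℝ)) - gg * Real.log (X / 2 ^ H)) ^ 2 ≤
        R₁ ^ 2 * Real.log (X / 2 ^ H) := by
      have a2 := pow_le_pow_left₀ (abs_nonneg _) hdist 2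
      rw [sq_abs, mul_pow, Real.sq_sqrt hl'.le] at a2
      exact a2
    calc _ ≤ R₁ ^ 2 * Real.log (X / 2 ^ H) * (2 * VV) :=
          mul_le_mul_of_nonneg_right a1 (by positivity)
      _ = _ := by ring
  have hsq : √(2 * Real.pi * VV * Real.log (X / 2 ^ H)) = q * √(Real.log (X / 2 ^ H)) := by
    rw [hq, Real.sqrt_mul (by positivity)]
  rw [hsq] at key
  have hmain : 2 * ε₀ / √(Real.log (X / 2 ^ H)) ≤ d / (q * √(Real.log (X / 2 ^ H))) *
      Real.exp (-((((t - H + 1 : ℤ) : ℝ)) - gg * Real.log (X / 2 ^ H)) ^ 2 /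
      (2 * VV * Real.log (X / 2 ^ H))) := by
    have a1 : 2 * ε₀ / √(Real.log (X / 2 ^ H)) = d / (q * √(Real.log (X / 2 ^ H))) * e₀ := by
      rw [hε₀]
      field_simp
    rw [a1]
    exact mul_le_mul_of_nonneg_left hexp (by positivity)
  have havg : ε₀ / √(Real.log (X / 2 ^ H)) ≤
      (∑ b ∈ range H, ff (A (((t - H + 1 : ℤ) : ℝ) + b)) (X / 2 ^ H)) / H := by
    have a1 := (abs_le.1 key).1
    have a2 : 2 * ε₀ / √(Real.log (X / 2 ^ H)) = ε₀ / √(Real.log (X / 2 ^ H)) +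
        ε₀ / √(Real.log (X / 2 ^ H)) := by ring
    linarith
  have hsum : H * ε₀ / √(Real.log X) ≤
      ∑ b ∈ range H, ff (A (((t - H + 1 : ℤ) : ℝ) + b)) (X / 2 ^ H) := by
    rw [le_div_iff₀ hH0'] at havg
    refine le_trans ?_ havg
    have a1 : ε₀ / √(Real.log X) ≤ ε₀ / √(Real.log (X / 2 ^ H)) :=
      div_le_div_of_nonneg_left hε0.le hs1 (Real.sqrt_le_sqrt hlt)
    calc H * ε₀ / √(Real.log X) = ε₀ / √(Real.log X) * H := by ring
      _ ≤ _ := mul_le_mul_of_nonneg_right a1 hH0'.le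
  have hX' : 0 < X / 2 ^ H := by positivity
  have hF : ∑ b ∈ range H, ff (A (((t - H + 1 : ℤ) : ℝ) + b)) (X / 2 ^ H) * (X / 2 ^ H / 2) ≤
      ∑ i ∈ range H, (F 1 {m | 2 ^ i * m ∈ A t} (X / 2 ^ i) + (M + 1) / 2) := by
    rw [← sum_range_reflect (fun i => F 1 {m | 2 ^ i * m ∈ A t} (X / 2 ^ i) + (M + 1) / 2) H]
    apply sum_le_sum
    intro b hb
    rw [mem_range] at hb
    rw [← m10_ff _ hX']
    have a1 : (((t - H + 1 : ℤ) : ℝ) + b) = (t : ℝ) - ((H - 1 - b : ℕ) : ℝ) := by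
      have a2 : ((H - 1 - b : ℕ) : ℝ) = (H : ℝ) - 1 - b := by
        rw [Nat.cast_sub (by omega), Nat.cast_sub (by omega)]
        push_cast
        ring
      rw [a2]
      push_cast
      ring
    rw [a1]
    refine le_trans ?_ (m10_F2 hM hA t (H - 1 - b) (X / 2 ^ (H - 1 - b)))
    apply m10_Fmono
    apply div_le_div_of_nonneg_left h4.le (by positivity)
    exact pow_le_pow_right₀ (by norm_num) (by omega)
  have e0 := m10_sum (A t) X H
  have e1 := cN_nonneg {m | 2 ^ H * m ∈ A t} (X / 2 ^ H)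
  rw [sum_add_distrib, sum_const, card_range, nsmul_eq_mul, ← sum_mul] at hF
  have e2 : H * ε₀ / √(Real.log X) * (X / 2 ^ H / 2) ≤
      (∑ b ∈ range H, ff (A (((t - H + 1 : ℤ) : ℝ) + b)) (X / 2 ^ H)) * (X / 2 ^ H / 2) :=
    mul_le_mul_of_nonneg_right hsum (by positivity)
  have e3 : H * ε₀ / √(Real.log X) * (X / 2 ^ H / 2) =
      2 * (H * ε₀ / 2 ^ (H + 2) * (X / √(Real.log X))) := by
    rw [pow_add]
    field_simp
  linarith

end fam

end Pool.Agent.LLT
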