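import Pool.Agent.Collatz3.VBasic

/-!
Negative binomial distributions: counting words by their sum, unimodality, shifts.
-/

set_option autoImplicit false

namespace Pool.Agent.LLT

open Finset
open Pool.Agent.Collatz3.Mix (words sum_words_succ sum_words_zero)

/-- the number of words of `l` positive letters with sum `s` -/
def nb_n : ℕ → ℕ → ℕ
  | 0, s => if s = 0 then 1 else 0
  | l + 1, s => ∑ j ∈ range s, nb_n l j

theorem nb_card (I l s : ℕ) : ((words I l).filter fun v => v.sum = s).card ≤ nb_n l s := by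
  induction l generalizing s with
  | zero =>
    rw [card_filter, sum_words_zero, nb_n]
    rcases s with _ | s
    · simp
    · simp
  | succ l ih =>
    rw [card_filter, sum_words_succ, nb_n]
    have h1 : ∀ i ∈ Icc 1 I, ∑ w ∈ words I l, (if (i :: w).sum = s then 1 else 0) ≤
        if i ≤ s then nb_n l (s - i) else 0 := by
      intro i _
      by_cases hi : i ≤ s
      · rw [if_pos hi]
        refine le_trans (le_of_eq ?_) (ih (s - i))
        rw [card_filter]
        refine sum_congr rfl fun w _ => ?_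
        rw [List.sum_cons]
        by_cases hw : w.sum = s - i
        · rw [if_pos (by omega), if_pos hw]
        · rw [if_neg (by omega), if_neg hw]
      · rw [if_neg hi]
        refine le_of_eq (sum_eq_zero fun w _ => ?_)
        rw [List.sum_cons, if_neg (by omega)]
    refine (sum_le_sum h1).trans ?_
    rw [← sum_filter]
    have h2 : ∑ i ∈ (Icc 1 I).filter (fun i => i ≤ s), nb_n l (s - i) ≤
        ∑ i ∈ Icc 1 s, nb_n l (s - i) := by
      apply sum_le_sum_of_subset
      intro i hi
      rw [mem_filter, mem_Icc] at hi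
      rw [mem_Icc]
      exact ⟨hi.1.1, hi.2⟩
    refine h2.trans (le_of_eq ?_)
    refine sum_bij (fun i _ => s - i) ?_ ?_ ?_ ?_
    · intro i hi
      rw [mem_Icc] at hi
      rw [mem_range]
      omega
    · intro i hi j hj h
      rw [mem_Icc] at hi hj
      have h : s - i = s - j := h
      omega
    · intro j hj
      rw [mem_range] at hj
      exact ⟨s - j, by rw [mem_Icc]; omega, by show s - (s - j) = j; omega⟩
    · intro i _
      rfl

theorem nb_n_zero (l : ℕ) : nb_n (l + 1) 0 = 0 := by
  rw [nb_n, range_zero, sum_empty]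

theorem nb_n_succ (l s : ℕ) : nb_n (l + 1) (s + 1) = s.choose l := by
  induction l generalizing s with
  | zero =>
    rw [nb_n, sum_range_succ']
    have : ∑ k ∈ range s, nb_n 0 (k + 1) = 0 := sum_eq_zero fun k _ => by simp [nb_n]
    rw [this]
    simp [nb_n]
  | succ l ih =>
    rw [nb_n, sum_range_succ', nb_n_zero, add_zero]
    simp only [ih]
    induction s with
    | zero => simp
    | succ s ihs => rw [sum_range_succ, ihs, Nat.choose_succ_succ, Nat.add_comm]

theorem nb_mass (l M : ℕ) : ∑ s ∈ range M, (nb_n l s : ℝ) / 2 ^ s ≤ 1 := by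
  induction l generalizing M with
  | zero =>
    rcases M with _ | M
    · simp
    · rw [sum_range_succ']
      have : ∑ k ∈ range M, (nb_n 0 (k + 1) : ℝ) / 2 ^ (k + 1) = 0 :=
        sum_eq_zero fun k _ => by simp [nb_n]
      rw [this]
      simp [nb_n]
  | succ l ih =>
    have h : ∀ M : ℕ, ∑ s ∈ range M, (nb_n (l + 1) s : ℝ) / 2 ^ s + 2 * (nb_n (l + 1) M : ℝ) / 2 ^ M =
        ∑ s ∈ range M, (nb_n l s : ℝ) / 2 ^ s := by
      intro M
      induction M with
      | zero => simp [nb_n_zero]
      | succ M ihM =>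
        have e : (nb_n (l + 1) (M + 1) : ℝ) = nb_n (l + 1) M + nb_n l M := by
          have : nb_n (l + 1) (M + 1) = nb_n (l + 1) M + nb_n l M := by
            rw [nb_n, nb_n, sum_range_succ]
          rw [this]
          push_cast
          rfl
        rw [sum_range_succ, sum_range_succ, ← ihM, e, pow_succ]
        field_simp
        ring
    have h1 := h M
    have h2 : 0 ≤ 2 * (nb_n (l + 1) M : ℝ) / 2 ^ M := by positivity
    have h3 := ih M
    linarith

/-- the central binomial coefficient -/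
theorem nb_central (n : ℕ) : (n.centralBinom : ℝ) ^ 2 * (2 * n + 1) ≤ (4 ^ n) ^ 2 := by
  induction n with
  | zero => simp
  | succ n ih =>
    have h := Nat.succ_mul_centralBinom_succ n
    have h1 : ((n : ℝ) + 1) * (n + 1).centralBinom = 2 * (2 * n + 1) * n.centralBinom := by
      exact_mod_cast h
    have hn : (0 : ℝ) < (n : ℝ) + 1 := by positivity
    have h2 : ((n + 1).centralBinom : ℝ) = 2 * (2 * n + 1) * n.centralBinom / (n + 1) := by
      rw [eq_div_iff hn.ne', ← h1]
      ring
    rw [h2]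
    push_cast
    rw [div_pow, div_mul_eq_mul_div, div_le_iff₀ (by positivity)]
    have h3 : (2 * (2 * (n : ℝ) + 1) * n.centralBinom) ^ 2 * (2 * (n + 1) + 1) =
        4 * (n.centralBinom ^ 2 * (2 * n + 1)) * ((2 * n + 1) * (2 * n + 3)) := by ring
    rw [h3]
    have h4 : (2 * (n : ℝ) + 1) * (2 * n + 3) ≤ 4 * (n + 1) ^ 2 := by nlinarith
    calc 4 * ((n.centralBinom : ℝ) ^ 2 * (2 * (n : ℝ) + 1)) * ((2 * (n : ℝ) + 1) * (2 * (n : ℝ) + 3))
        ≤ 4 * ((4 : ℝ) ^ n) ^ 2 * (4 * ((n : ℝ) + 1) ^ 2) := by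
          apply mul_le_mul _ h4 (by positivity) (by positivity)
          exact mul_le_mul_of_nonneg_left ih (by norm_num)
      _ = ((4 : ℝ) ^ (n + 1)) ^ 2 * ((n : ℝ) + 1) ^ 2 := by rw [pow_succ (4 : ℝ) n]; ring

/-- the weights -/
noncomputable def nb_r (l s : ℕ) : ℝ := (s.choose l : ℝ) / 2 ^ s

theorem nb_r_nonneg (l s : ℕ) : 0 ≤ nb_r l s := by
  unfold nb_r
  positivity

theorem nb_r_peak (l : ℕ) : nb_r l (2 * l) ≤ 1 / √(2 * l + 1) := by
  have h := nb_central l
  have h0 : (0 : ℝ) < 2 * l + 1 := by positivity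
  have h1 : nb_r l (2 * l) = l.centralBinom / 4 ^ l := by
    unfold nb_r
    rw [Nat.centralBinom_eq_two_mul_choose, pow_mul]
    norm_num
  rw [h1, div_le_div_iff₀ (by positivity) (Real.sqrt_pos.2 h0), one_mul]
  refine le_of_sq_le_sq ?_ (by positivity)
  rw [mul_pow, Real.sq_sqrt h0.le]
  exact h

theorem nb_r_up {l s : ℕ} (h : s < 2 * l) : nb_r l s ≤ nb_r l (s + 1) := by
  unfold nb_r
  rw [div_le_div_iff₀ (by positivity) (by positivity), pow_succ]
  rcases l with _ | l
  · omega
  have h1 : s.choose (l + 1) ≤ s.choose l := by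
    have h2 := Nat.choose_succ_right_eq s l
    by_contra h3
    push Not at h3
    have h4 : s.choose l * (s - l) < s.choose (l + 1) * (l + 1) := by
      calc s.choose l * (s - l) ≤ s.choose l * (l + 1) := Nat.mul_le_mul_left _ (by omega)
        _ < s.choose (l + 1) * (l + 1) := Nat.mul_lt_mul_of_pos_right h3 (by omega)
    omega
  have h5 : 2 * s.choose (l + 1) ≤ (s + 1).choose (l + 1) := by
    rw [Nat.choose_succ_succ']
    omega
  have h6 : (2 : ℝ) * s.choose (l + 1) ≤ (s + 1).choose (l + 1) := by exact_mod_cast h5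
  calc (s.choose (l + 1) : ℝ) * (2 ^ s * 2) = 2 * s.choose (l + 1) * 2 ^ s := by ring
    _ ≤ (s + 1).choose (l + 1) * 2 ^ s := mul_le_mul_of_nonneg_right h6 (by positivity)

theorem nb_r_down {l s : ℕ} (h : 2 * l ≤ s) : nb_r l (s + 1) ≤ nb_r l s := by
  unfold nb_r
  rw [div_le_div_iff₀ (by positivity) (by positivity), pow_succ]
  rcases l with _ | l
  · simp only [Nat.choose_zero_right, Nat.cast_one, one_mul]
    have : (0 : ℝ) < 2 ^ s := by positivity
    linarith
  have h1 : s.choose l ≤ s.choose (l + 1) := by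
    have h2 := Nat.choose_succ_right_eq s l
    have h4 : s.choose l * (l + 1) ≤ s.choose (l + 1) * (l + 1) := by
      rw [h2]
      exact Nat.mul_le_mul_left _ (by omega)
    exact Nat.le_of_mul_le_mul_right h4 (by omega)
  have h5 : (s + 1).choose (l + 1) ≤ 2 * s.choose (l + 1) := by
    rw [Nat.choose_succ_succ']
    omega
  have h6 : ((s + 1).choose (l + 1) : ℝ) ≤ 2 * s.choose (l + 1) := by exact_mod_cast h5
  calc ((s + 1).choose (l + 1) : ℝ) * 2 ^ s ≤ 2 * s.choose (l + 1) * 2 ^ s :=
        mul_le_mul_of_nonneg_right h6 (by positivity)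
    _ = s.choose (l + 1) * (2 ^ s * 2) := by ring

theorem nb_r_le (l s : ℕ) : nb_r l s ≤ nb_r l (2 * l) := by
  rcases Nat.le_total s (2 * l) with h | h
  · obtain ⟨t, ht⟩ := Nat.exists_eq_add_of_le h
    have : ∀ t s : ℕ, s + t ≤ 2 * l → nb_r l s ≤ nb_r l (s + t) := by
      intro t
      induction t with
      | zero => intro s _; exact le_rfl
      | succ t ih =>
        intro s hs
        exact (ih s (by omega)).trans (nb_r_up (by omega))
    rw [ht]
    exact this t s (by omega)
  · obtain ⟨t, ht⟩ := Nat.exists_eq_add_of_le h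
    rw [ht]
    clear ht h
    induction t with
    | zero => exact le_rfl
    | succ t ih =>
      have h := nb_r_down (l := l) (s := 2 * l + t) (by omega)
      exact h.trans ih

theorem nb_tv (l M : ℕ) : ∑ s ∈ range M, |nb_r l (s + 1) - nb_r l s| ≤ 2 * nb_r l (2 * l) := by
  have h : ∀ M : ℕ, (M ≤ 2 * l → ∑ s ∈ range M, |nb_r l (s + 1) - nb_r l s| ≤ nb_r l M) ∧
      (2 * l ≤ M → ∑ s ∈ range M, |nb_r l (s + 1) - nb_r l s| ≤
        2 * nb_r l (2 * l) - nb_r l M) := by
    intro M
    induction M with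
    | zero =>
      refine ⟨fun _ => ?_, fun h => ?_⟩
      · rw [range_zero, sum_empty]; exact nb_r_nonneg _ _
      · have : 2 * l = 0 := by omega
        rw [this, range_zero, sum_empty]
        have := nb_r_nonneg l 0
        linarith
    | succ M ih =>
      refine ⟨fun h => ?_, fun h => ?_⟩
      · rw [sum_range_succ, abs_of_nonneg (by have := nb_r_up (l := l) (s := M) (by omega); linarith)]
        have := ih.1 (by omega)
        linarith
      · rw [sum_range_succ]
        rcases Nat.lt_or_ge M (2 * l) with h1 | h1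
        · have h2 : 2 * l = M + 1 := by omega
          rw [abs_of_nonneg (by have := nb_r_up (l := l) (s := M) h1; linarith), h2]
          have := ih.1 (by omega)
          linarith
        · rw [abs_of_nonpos (by have := nb_r_down (l := l) (s := M) h1; linarith)]
          have := ih.2 h1
          linarith
  rcases Nat.le_total M (2 * l) with h1 | h1
  · have h2 := (h M).1 h1
    have h3 := nb_r_le l M
    have h4 := nb_r_nonneg l (2 * l)
    linarith
  · have h2 := (h M).2 h1
    have h3 := nb_r_nonneg l M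
    linarith

theorem nb_abel (r u : ℕ → ℝ) (M : ℕ) : ∑ s ∈ range M, r s * (u (s + 1) - u s) =
    r M * u M - r 0 * u 0 - ∑ s ∈ range M, (r (s + 1) - r s) * u (s + 1) := by
  induction M with
  | zero => simp
  | succ M ih =>
    rw [sum_range_succ, sum_range_succ, ih]
    ring

theorem nb_main (l M : ℕ) (u : ℕ → ℝ) (B : ℝ) (h0 : ∀ s, 0 ≤ u s) (h1 : ∀ s, u s ≤ B) :
    |∑ s ∈ range M, nb_r l s * (u (s + 1) - u s)| ≤ 4 * B / √(2 * l + 1) := by
  have hB : 0 ≤ B := (h0 0).trans (h1 0)
  rw [nb_abel]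
  have e1 : |∑ s ∈ range M, (nb_r l (s + 1) - nb_r l s) * u (s + 1)| ≤
      2 * nb_r l (2 * l) * B := by
    refine (abs_sum_le_sum_abs _ _).trans ?_
    calc ∑ s ∈ range M, |(nb_r l (s + 1) - nb_r l s) * u (s + 1)|
        ≤ ∑ s ∈ range M, |nb_r l (s + 1) - nb_r l s| * B := by
          refine sum_le_sum fun s _ => ?_
          rw [abs_mul, abs_of_nonneg (h0 (s + 1))]
          exact mul_le_mul_of_nonneg_left (h1 _) (abs_nonneg _)
      _ = (∑ s ∈ range M, |nb_r l (s + 1) - nb_r l s|) * B := by rw [sum_mul]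
      _ ≤ 2 * nb_r l (2 * l) * B := mul_le_mul_of_nonneg_right (nb_tv l M) hB
  have e2 : |nb_r l M * u M - nb_r l 0 * u 0| ≤ nb_r l (2 * l) * B := by
    have a1 := mul_nonneg (nb_r_nonneg l M) (h0 M)
    have a2 := mul_nonneg (nb_r_nonneg l 0) (h0 0)
    have a3 := mul_le_mul (nb_r_le l M) (h1 M) (h0 M) (nb_r_nonneg l (2 * l))
    have a4 := mul_le_mul (nb_r_le l 0) (h1 0) (h0 0) (nb_r_nonneg l (2 * l))
    rw [abs_le]
    constructor <;> linarith
  have e3 : nb_r l (2 * l) * B ≤ B / √(2 * l + 1) := by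
    have := mul_le_mul_of_nonneg_right (nb_r_peak l) hB
    rw [one_div, inv_mul_eq_div] at this
    exact this
  have e4 : 0 ≤ nb_r l (2 * l) * B := mul_nonneg (nb_r_nonneg _ _) hB
  have e5 : 4 * B / √(2 * l + 1) = 4 * (B / √(2 * l + 1)) := by ring
  rw [e5]
  rw [abs_le] at e1 e2 ⊢
  constructor <;> linarith [e1.1, e1.2, e2.1, e2.2]

end Pool.Agent.LLT
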