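import Pool.Agent.LLT.Defs
import Pool.Agent.LLT.M2a

/-!
The sum of the letters of a random word and the same shifted by one are close.
-/

set_option autoImplicit false

namespace Pool.Agent.LLT

open Finset Filter Topology ProbabilityTheory
open Pool.Agent.Collatz3.FW (NumT goodV_subset P_good_ge)
open Pool.Agent.Collatz3.PD (goodV II P)
open Pool.Agent.Collatz3.Mix (words)

/-- sums over words of the same length, by the sum of the letters -/
theorem nb_regroup (G : Finset (List ℕ)) (M : ℕ) (hM : ∀ v ∈ G, v.sum < M) (h : ℕ → ℝ) :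
    ∑ v ∈ G, (1 / 2 : ℝ) ^ v.sum * h v.sum =
      ∑ s ∈ range M, ((G.filter fun v => v.sum = s).card : ℝ) / 2 ^ s * h s := by
  rw [← sum_fiberwise_of_maps_to (s := G) (t := range M) (g := fun v => v.sum)
    (fun v hv => mem_range.2 (hM v hv))]
  refine sum_congr rfl fun s _ => ?_
  rw [sum_congr rfl (g := fun _ => (1 / 2 : ℝ) ^ s * h s) (by
    intro v hv
    rw [(mem_filter.1 hv).2]), sum_const, nsmul_eq_mul, one_div, inv_pow]
  ring

theorem nb_shift_aux (G : Finset (List ℕ)) (I l : ℕ) (hG : G ⊆ words I (l + 1)) (u : ℕ → ℝ) (B ε : ℝ)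
    (h0 : ∀ s, 0 ≤ u s) (h1 : ∀ s, u s ≤ B) (hP : 1 - ε ≤ P G) (w : ℕ → ℝ)
    (hw : ∀ s, w (s + 1) = u s) (hw0 : 0 ≤ w 0) (hw1 : w 0 ≤ B) :
    |∑ v ∈ G, (1 / 2 : ℝ) ^ v.sum * (u v.sum - w v.sum)| ≤ B * ε + 2 * B / √(2 * l + 1) := by
  have hB : 0 ≤ B := (h0 0).trans (h1 0)
  obtain ⟨M, hM⟩ : ∃ M : ℕ, ∀ v ∈ G, v.sum < M :=
    ⟨G.sup List.sum + 1, fun v hv => Nat.lt_succ_of_le (le_sup (f := List.sum) hv)⟩
  have hM' : ∀ v ∈ G, v.sum < M + 1 := fun v hv => (hM v hv).trans (Nat.lt_succ_self M)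
  rw [nb_regroup G (M + 1) hM' (fun s => u s - w s)]
  have hd : ∀ s, |u s - w s| ≤ B := by
    intro s
    rcases s with _ | s
    · have a1 := h0 0
      have a2 := h1 0
      rw [abs_le]
      constructor <;> linarith
    · rw [hw]
      have a1 := h0 s
      have a2 := h1 s
      have a3 := h0 (s + 1)
      have a4 := h1 (s + 1)
      rw [abs_le]
      constructor <;> linarith
  have hc : ∀ s, ((G.filter fun v => v.sum = s).card : ℝ) ≤ nb_n (l + 1) s := by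
    intro s
    have := (card_le_card (filter_subset_filter (fun v : List ℕ => v.sum = s) hG)).trans
      (nb_card I (l + 1) s)
    exact_mod_cast this
  have hmass : ∑ s ∈ range (M + 1), ((G.filter fun v => v.sum = s).card : ℝ) / 2 ^ s = P G := by
    have := nb_regroup G (M + 1) hM' (fun _ => 1)
    simp only [mul_one] at this
    rw [← this, P]
  -- the main term
  have e1 : ∑ s ∈ range (M + 1), (nb_n (l + 1) s : ℝ) / 2 ^ s * (u s - w s) =
      1 / 2 * ∑ s ∈ range M, nb_r l s * (u (s + 1) - u s) := by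
    rw [sum_range_succ', nb_n_zero]
    simp only [Nat.cast_zero, zero_div, zero_mul, add_zero]
    rw [mul_sum]
    refine sum_congr rfl fun s _ => ?_
    rw [nb_n_succ, hw, nb_r, pow_succ]
    field_simp
  have e2 : |1 / 2 * ∑ s ∈ range M, nb_r l s * (u (s + 1) - u s)| ≤ 2 * B / √(2 * l + 1) := by
    rw [abs_mul, abs_of_nonneg (by norm_num : (0 : ℝ) ≤ 1 / 2)]
    have := nb_main l M u B h0 h1
    calc 1 / 2 * |∑ s ∈ range M, nb_r l s * (u (s + 1) - u s)| ≤ 1 / 2 * (4 * B / √(2 * l + 1)) :=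
          mul_le_mul_of_nonneg_left this (by norm_num)
      _ = 2 * B / √(2 * l + 1) := by ring
  -- the error
  have e3 : |∑ s ∈ range (M + 1), ((nb_n (l + 1) s : ℝ) / 2 ^ s -
      ((G.filter fun v => v.sum = s).card : ℝ) / 2 ^ s) * (u s - w s)| ≤ B * ε := by
    refine (abs_sum_le_sum_abs _ _).trans ?_
    have a1 : ∀ s ∈ range (M + 1), |((nb_n (l + 1) s : ℝ) / 2 ^ s -
        ((G.filter fun v => v.sum = s).card : ℝ) / 2 ^ s) * (u s - w s)| ≤
        ((nb_n (l + 1) s : ℝ) / 2 ^ s - ((G.filter fun v => v.sum = s).card : ℝ) / 2 ^ s) * B := by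
      intro s _
      have a2 : 0 ≤ (nb_n (l + 1) s : ℝ) / 2 ^ s -
          ((G.filter fun v => v.sum = s).card : ℝ) / 2 ^ s := by
        rw [← sub_div]
        exact div_nonneg (sub_nonneg.2 (hc s)) (by positivity)
      rw [abs_mul, abs_of_nonneg a2]
      exact mul_le_mul_of_nonneg_left (hd s) a2
    refine (sum_le_sum a1).trans ?_
    rw [← sum_mul, sum_sub_distrib, hmass, mul_comm]
    apply mul_le_mul_of_nonneg_left _ hB
    have := nb_mass (l + 1) (M + 1)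
    linarith
  have e4 : ∑ s ∈ range (M + 1), ((G.filter fun v => v.sum = s).card : ℝ) / 2 ^ s * (u s - w s) =
      ∑ s ∈ range (M + 1), (nb_n (l + 1) s : ℝ) / 2 ^ s * (u s - w s) -
      ∑ s ∈ range (M + 1), ((nb_n (l + 1) s : ℝ) / 2 ^ s -
        ((G.filter fun v => v.sum = s).card : ℝ) / 2 ^ s) * (u s - w s) := by
    rw [← sum_sub_distrib]
    exact sum_congr rfl fun s _ => by ring
  have e5 : ∑ s ∈ range (M + 1), ((G.filter fun v => v.sum = s).card : ℝ) / 2 ^ s *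
      (fun s => u s - w s) s = ∑ s ∈ range (M + 1),
        ((G.filter fun v => v.sum = s).card : ℝ) / 2 ^ s * (u s - w s) := rfl
  rw [e5, e4, e1]
  rw [abs_le] at e2 e3 ⊢
  constructor <;> linarith [e2.1, e2.2, e3.1, e3.2]

theorem nb_shift : ∃ C : ℝ, 0 < C ∧ ∀ (θ : ℝ) (k : ℕ), NumT θ k → ∀ (B : ℝ) (g : ℤ → ℝ), 0 ≤ B →
    (∀ s, 0 ≤ g s) → (∀ s, g s ≤ B) →
    |∑ v ∈ goodV (II k) k (k - k / 20), (1 / 2 : ℝ) ^ v.sum * g (v.sum : ℤ) -
      ∑ v ∈ goodV (II k) k (k - k / 20), (1 / 2 : ℝ) ^ v.sum * g ((v.sum : ℤ) - 1)| ≤ C * B / √k := by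
  refine ⟨4, by norm_num, ?_⟩
  intro θ k hN B g hB hg0 hg1
  have hk : 2000 ≤ k := hN.big
  have hk' : (2000 : ℝ) ≤ k := by exact_mod_cast hk
  obtain ⟨l, hl⟩ : ∃ l, k - k / 20 = l + 1 := ⟨k - k / 20 - 1, by omega⟩
  have hP := P_good_ge hN.n1 (d := k - k / 20) (by omega) (by omega)
  have h1 := nb_shift_aux (goodV (II k) k (k - k / 20)) (II k) l
    (by rw [← hl]; exact goodV_subset _ _ _) (fun s => g (s : ℤ)) B (2 / (k : ℝ) ^ 8)
    (fun s => hg0 _) (fun s => hg1 _) hP (fun s => g ((s : ℤ) - 1))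
    (fun s => by
      show g (((s + 1 : ℕ) : ℤ) - 1) = g (s : ℤ)
      congr 1
      push_cast
      ring) (hg0 _) (hg1 _)
  have h2 : ∑ v ∈ goodV (II k) k (k - k / 20), (1 / 2 : ℝ) ^ v.sum * g (v.sum : ℤ) -
      ∑ v ∈ goodV (II k) k (k - k / 20), (1 / 2 : ℝ) ^ v.sum * g ((v.sum : ℤ) - 1) =
      ∑ v ∈ goodV (II k) k (k - k / 20), (1 / 2 : ℝ) ^ v.sum *
        ((fun s : ℕ => g (s : ℤ)) v.sum - (fun s : ℕ => g ((s : ℤ) - 1)) v.sum) := by
    rw [← sum_sub_distrib]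
    exact sum_congr rfl fun v _ => by ring
  rw [h2]
  refine h1.trans ?_
  have hs0 : 0 < √(k : ℝ) := Real.sqrt_pos.2 (by linarith)
  have h3 : √(k : ℝ) ≤ √(2 * (l : ℝ) + 1) := by
    apply Real.sqrt_le_sqrt
    have : k ≤ 2 * l + 1 := by omega
    exact_mod_cast this
  have h4 : 2 * B / √(2 * (l : ℝ) + 1) ≤ 2 * B / √(k : ℝ) :=
    div_le_div_of_nonneg_left (by positivity) hs0 h3
  have h5 : B * (2 / (k : ℝ) ^ 8) ≤ 2 * B / √(k : ℝ) := by
    have h6 : √(k : ℝ) ≤ (k : ℝ) ^ 8 := by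
      have h7 : √(k : ℝ) ≤ k := by
        rw [Real.sqrt_le_left (by linarith)]
        nlinarith
      have h8 : (k : ℝ) ≤ (k : ℝ) ^ 8 := le_self_pow₀ (by linarith) (by norm_num)
      exact h7.trans h8
    have h9 : B * (2 / (k : ℝ) ^ 8) = 2 * B / (k : ℝ) ^ 8 := by ring
    rw [h9]
    exact div_le_div_of_nonneg_left (by positivity) hs0 h6
  have h10 : 4 * B / √(k : ℝ) = 2 * B / √(k : ℝ) + 2 * B / √(k : ℝ) := by ring
  rw [h10]
  linarith

end Pool.Agent.LLT
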