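import Pool.Agent.LLT.M2
import Pool.Agent.LLT.M2b

/-!
Local limit theorem, module M2: the comparison of `l` and `l + 1` letters.
-/

set_option autoImplicit false

namespace Pool.Agent.LLT

open Finset Filter Topology ProbabilityTheory
open Pool.Agent.Collatz3.FW (F Fam NumT Hs Ls)
open Pool.Agent.Collatz3.PD (goodV II P)

theorem nb_len : ∃ C : ℝ, 0 < C ∧ ∀ (θ : ℝ) (k : ℕ), NumT θ k → NumT θ (k + 1) →
    k + 1 - (k + 1) / 20 = k - k / 20 + 1 → ∀ (B : ℝ) (g : ℤ → ℝ), 0 ≤ B →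
    (∀ s, 0 ≤ g s) → (∀ s, g s ≤ B) →
    |∑ v ∈ goodV (II k) k (k - k / 20), (1 / 2 : ℝ) ^ v.sum * g (v.sum : ℤ) -
      ∑ v ∈ goodV (II (k + 1)) (k + 1) (k + 1 - (k + 1) / 20), (1 / 2 : ℝ) ^ v.sum * g (v.sum : ℤ)| ≤
        C * B / √k :=
  nb_len_of nb_shift

end Pool.Agent.LLT
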