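import Pool.Agent.LLT.Defs

/-!
Local limit theorem, module 5: `b` steps down by 2 and `ax b` steps up by 3.
-/

set_option autoImplicit false

namespace Pool.Agent.LLT

open Real
open Pool.Agent.Collatz3.FW (F Fam)

theorem ax_le (b : ℕ) : ax b ≤ b := by
  unfold ax
  rw [Nat.ceil_le]
  have hl3 : 0 < log 3 := log_pos (by norm_num)
  have h : log 2 ≤ log 3 := log_le_log (by norm_num) (by norm_num)
  rw [div_le_iff₀ hl3]
  exact mul_le_mul_of_nonneg_left h (Nat.cast_nonneg b)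

theorem th_mem (b : ℕ) : 1 ≤ th b ∧ th b < 3 := by
  have hl3 : 0 < log 3 := log_pos (by norm_num)
  have hl2 : 0 < log 2 := log_pos (by norm_num)
  have h0 : (0 : ℝ) ≤ (b : ℝ) * log 2 / log 3 := by positivity
  have h1 : (b : ℝ) * log 2 / log 3 ≤ ax b := Nat.le_ceil _
  have h2 : (ax b : ℝ) < (b : ℝ) * log 2 / log 3 + 1 := Nat.ceil_lt_add_one h0
  have e3 : ((3 : ℝ)) ^ ax b = exp (ax b * log 3) := by
    rw [mul_comm, exp_mul, exp_log (by norm_num), rpow_natCast]
  have e2 : ((2 : ℝ)) ^ b = exp (b * log 2) := by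
    rw [mul_comm, exp_mul, exp_log (by norm_num), rpow_natCast]
  have p2 : (0 : ℝ) < 2 ^ b := by positivity
  unfold th
  constructor
  · rw [one_le_div p2, e3, e2]
    apply exp_le_exp.2
    rw [div_le_iff₀ hl3] at h1
    exact h1
  · rw [div_lt_iff₀ p2]
    have e4 : (3 : ℝ) * 2 ^ b = exp (log 3 + b * log 2) := by
      rw [exp_add, ← e2, exp_log (by norm_num)]
    rw [e4, e3]
    apply exp_lt_exp.2
    have h3 : (ax b : ℝ) * log 3 < ((b : ℝ) * log 2 / log 3 + 1) * log 3 :=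
      mul_lt_mul_of_pos_right h2 hl3
    have h4 : ((b : ℝ) * log 2 / log 3 + 1) * log 3 = log 3 + b * log 2 := by
      field_simp
      ring
    linarith

/-- The two one-step estimates in the form needed here. -/
def Step (A : ℝ → Set ℤ) (C X₀ : ℝ) : Prop :=
  ∀ X t : ℝ, X₀ ≤ X → |ff (A (t + 1)) (2 * X) - ff (A t) X| ≤ C / log X ∧
    |ff (A t) (3 * X) - ff (A t) X| ≤ C / log X

theorem Step.down {A : ℝ → Set ℤ} {C X₀ : ℝ} (h : Step A C X₀) (hC : 0 ≤ C) (hX₀ : 2 ≤ X₀) :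
    ∀ (b : ℕ) (X t : ℝ), X₀ ≤ X / 2 ^ b →
      |ff (A (t + b)) X - ff (A t) (X / 2 ^ b)| ≤ b * (C / log (X / 2 ^ b))
  | 0, X, t, _ => by simp
  | b + 1, X, t, hX => by
    have e1 : X / 2 ^ (b + 1) = X / 2 / 2 ^ b := by
      rw [pow_succ, mul_comm, div_mul_eq_div_div]
    have h1 : X₀ ≤ X / 2 / 2 ^ b := by rw [← e1]; exact hX
    have ih := Step.down h hC hX₀ b (X / 2) t h1
    have hp : (1 : ℝ) ≤ 2 ^ b := one_le_pow₀ (by norm_num)
    have hXp : 0 < X / 2 := by
      by_contra hcon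
      push Not at hcon
      have : X / 2 / 2 ^ b ≤ 0 := div_nonpos_of_nonpos_of_nonneg hcon (by positivity)
      linarith
    have h2 : X / 2 / 2 ^ b ≤ X / 2 := div_le_self hXp.le hp
    have h3 : X₀ ≤ X / 2 := h1.trans h2
    have h4 := (h (X / 2) (t + b) h3).1
    have e2 : 2 * (X / 2) = X := by ring
    rw [e2] at h4
    have hlog : 0 < log (X / 2 / 2 ^ b) := log_pos (by linarith)
    have h5 : C / log (X / 2) ≤ C / log (X / 2 / 2 ^ b) :=
      div_le_div_of_nonneg_left hC hlog (log_le_log (by linarith) h2)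
    have e3 : t + ((b + 1 : ℕ) : ℝ) = t + b + 1 := by push_cast; ring
    rw [e3, e1]
    have e4 : (((b + 1 : ℕ) : ℝ)) * (C / log (X / 2 / 2 ^ b)) =
        C / log (X / 2 / 2 ^ b) + b * (C / log (X / 2 / 2 ^ b)) := by push_cast; ring
    rw [e4]
    calc |ff (A (t + b + 1)) X - ff (A t) (X / 2 / 2 ^ b)|
        ≤ |ff (A (t + b + 1)) X - ff (A (t + b)) (X / 2)| +
          |ff (A (t + b)) (X / 2) - ff (A t) (X / 2 / 2 ^ b)| := abs_sub_le _ _ _
      _ ≤ _ := add_le_add (h4.trans h5) ih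

theorem Step.up {A : ℝ → Set ℤ} {C X₀ : ℝ} (h : Step A C X₀) (hC : 0 ≤ C) (hX₀ : 2 ≤ X₀)
    (Y t : ℝ) (hY : X₀ ≤ Y) :
    ∀ a : ℕ, |ff (A t) (3 ^ a * Y) - ff (A t) Y| ≤ a * (C / log Y)
  | 0 => by simp
  | a + 1 => by
    have ih := Step.up h hC hX₀ Y t hY a
    have hp : (1 : ℝ) ≤ 3 ^ a := one_le_pow₀ (by norm_num)
    have hY0 : 0 < Y := by linarith
    have h1 : Y ≤ 3 ^ a * Y := le_mul_of_one_le_left hY0.le hp
    have h2 := (h (3 ^ a * Y) t (hY.trans h1)).2
    have hlog : 0 < log Y := log_pos (by linarith)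
    have h3 : C / log (3 ^ a * Y) ≤ C / log Y :=
      div_le_div_of_nonneg_left hC hlog (log_le_log hY0 h1)
    have e1 : (3 : ℝ) ^ (a + 1) * Y = 3 * (3 ^ a * Y) := by ring
    have e2 : (((a + 1 : ℕ) : ℝ)) * (C / log Y) = C / log Y + a * (C / log Y) := by
      push_cast; ring
    rw [e1, e2]
    calc |ff (A t) (3 * (3 ^ a * Y)) - ff (A t) Y|
        ≤ |ff (A t) (3 * (3 ^ a * Y)) - ff (A t) (3 ^ a * Y)| +
          |ff (A t) (3 ^ a * Y) - ff (A t) Y| := abs_sub_le _ _ _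
      _ ≤ _ := add_le_add (h2.trans h3) ih

/-- `b` steps down and `ax b` steps up. -/
theorem Step.chain {A : ℝ → Set ℤ} {C X₀ : ℝ} (h : Step A C X₀) (hC : 0 ≤ C) (hX₀ : 2 ≤ X₀)
    {X t : ℝ} {b : ℕ} (hX : max (X₀ ^ 2) (exp 4) ≤ X) (hb : (b : ℝ) ≤ √(log X)) :
    |ff (A (t + b)) X - ff (A t) (th b * X)| ≤ 4 * C * (b + 1) / log X := by
  have hX1 : X₀ ^ 2 ≤ X := (le_max_left _ _).trans hX
  have hX2 : exp 4 ≤ X := (le_max_right _ _).trans hX
  have hXpos : 0 < X := (exp_pos 4).trans_le hX2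
  have hL : 4 ≤ log X := by
    rw [le_log_iff_exp_le hXpos]
    exact hX2
  have hl2 : 0 < log 2 := log_pos (by norm_num)
  have hl2' : log 2 ≤ 1 := by
    have := log_le_sub_one_of_pos (show (0 : ℝ) < 2 by norm_num)
    linarith
  have hs : 2 ≤ √(log X) := by
    rw [show (2 : ℝ) = √4 by rw [show (4 : ℝ) = 2 ^ 2 by norm_num]; exact (sqrt_sq (by norm_num)).symm]
    exact sqrt_le_sqrt hL
  have hsq : √(log X) * √(log X) = log X := mul_self_sqrt (by linarith)
  have p2 : (0 : ℝ) < 2 ^ b := by positivity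
  have hYpos : 0 < X / 2 ^ b := by positivity
  have hlogY : log (X / 2 ^ b) = log X - b * log 2 := by
    rw [log_div hXpos.ne' p2.ne', log_pow]
  have hlogY2 : log X / 2 ≤ log (X / 2 ^ b) := by
    rw [hlogY]
    have h1 : (b : ℝ) * log 2 ≤ √(log X) * 1 :=
      mul_le_mul hb hl2' hl2.le (sqrt_nonneg _)
    nlinarith
  have hlogX₀ : log X₀ ≤ log X / 2 := by
    have h1 : log (X₀ ^ 2) ≤ log X := log_le_log (by positivity) hX1
    rw [log_pow] at h1
    push_cast at h1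
    linarith
  have hY : X₀ ≤ X / 2 ^ b := by
    rw [← log_le_log_iff (by linarith) hYpos]
    linarith
  have h1 := Step.down h hC hX₀ b X t hY
  have h2 := Step.up h hC hX₀ (X / 2 ^ b) t hY (ax b)
  have e1 : (3 : ℝ) ^ ax b * (X / 2 ^ b) = th b * X := by
    unfold th
    ring
  rw [e1] at h2
  have hlogYpos : 0 < log (X / 2 ^ b) := by linarith
  have h3 : C / log (X / 2 ^ b) ≤ 2 * C / log X := by
    rw [div_le_div_iff₀ hlogYpos (by linarith)]
    nlinarith
  have h4 : (ax b : ℝ) ≤ b := by exact_mod_cast ax_le b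
  have hnn : 0 ≤ C / log (X / 2 ^ b) := div_nonneg hC hlogYpos.le
  have hb0 : (0 : ℝ) ≤ b := Nat.cast_nonneg b
  calc |ff (A (t + b)) X - ff (A t) (th b * X)|
      ≤ |ff (A (t + b)) X - ff (A t) (X / 2 ^ b)| +
        |ff (A t) (X / 2 ^ b) - ff (A t) (th b * X)| := abs_sub_le _ _ _
    _ ≤ b * (C / log (X / 2 ^ b)) + ax b * (C / log (X / 2 ^ b)) := by
        refine add_le_add h1 ?_
        rw [abs_sub_comm]
        exact h2
    _ ≤ b * (2 * C / log X) + b * (2 * C / log X) := by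
        refine add_le_add (mul_le_mul_of_nonneg_left h3 hb0) ?_
        exact mul_le_mul h4 h3 hnn hb0
    _ = 4 * C * b / log X := by ring
    _ ≤ 4 * C * (b + 1) / log X := by
        apply div_le_div_of_nonneg_right _ (by linarith)
        nlinarith

/-- `chain` from the conclusions of `inv` and `loc`. -/
theorem chain_of {A : ℝ → Set ℤ} {C1 X1 C2 X2 : ℝ} (hC1 : 0 < C1) (hX1 : 2 ≤ X1)
    (h1 : ∀ X t B : ℝ, X1 ≤ X → 0 ≤ B → (∀ y τ : ℝ, X ^ (9 / 10 : ℝ) ≤ y → ff (A τ) y ≤ B) →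
      |ff (A (t + 1)) (2 * X) - ff (A t) X| ≤ C1 * (B / √(Real.log X) + 1 / Real.log X ^ 2) ∧
      |ff (A t) (3 * X) - ff (A t) X| ≤ C1 * (B / √(Real.log X) + 1 / Real.log X ^ 2))
    (hC2 : 0 < C2) (h2 : ∀ X t : ℝ, X2 ≤ X → ff (A t) X ≤ C2 / √(Real.log X)) :
    ∃ C X₀ : ℝ, 0 < C ∧ 2 ≤ X₀ ∧
    ∀ (X t : ℝ) (b : ℕ), X₀ ≤ X → (b : ℝ) ≤ √(Real.log X) →
      |ff (A (t + b)) X - ff (A t) (th b * X)| ≤ C * (b + 1) / Real.log X := by
  have hstep : Step A (C1 * (2 * C2 + 1)) (max X1 (max (X2 ^ 2) (Real.exp 1))) := by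
    intro X t hX
    have g1 : X1 ≤ X := (le_max_left _ _).trans hX
    have g2 : X2 ^ 2 ≤ X := ((le_max_left _ _).trans (le_max_right _ _)).trans hX
    have g3 : Real.exp 1 ≤ X := ((le_max_right _ _).trans (le_max_right _ _)).trans hX
    have hX0 : 0 < X := (Real.exp_pos 1).trans_le g3
    have hXone : 1 ≤ X := by linarith
    have hL : 1 ≤ Real.log X := by
      rw [Real.le_log_iff_exp_le hX0]
      exact g3
    have hsq : √(Real.log X) * √(Real.log X) = Real.log X :=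
      Real.mul_self_sqrt (by linarith)
    have hs0 : 0 < √(Real.log X) := Real.sqrt_pos.2 (by linarith)
    have hB : ∀ y τ : ℝ, X ^ (9 / 10 : ℝ) ≤ y → ff (A τ) y ≤ 2 * C2 / √(Real.log X) := by
      intro y τ hy
      have k1 : X2 ≤ X ^ (9 / 10 : ℝ) := by
        have k2 : X2 ≤ X ^ (1 / 2 : ℝ) := by
          rw [← Real.sqrt_eq_rpow]
          exact Real.le_sqrt_of_sq_le g2
        exact k2.trans (Real.rpow_le_rpow_of_exponent_le hXone (by norm_num))
      have k3 := h2 y τ (k1.trans hy)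
      refine k3.trans ?_
      have k4 : 0 < X ^ (9 / 10 : ℝ) := Real.rpow_pos_of_pos hX0 _
      have k5 : 9 / 10 * Real.log X ≤ Real.log y := by
        rw [← Real.log_rpow hX0]
        exact Real.log_le_log k4 hy
      have k6 : √(Real.log X) / 2 ≤ √(Real.log y) := by
        have k7 : √(Real.log X) / 2 = √(Real.log X / 4) := by
          rw [Real.sqrt_div (by linarith), show (4 : ℝ) = 2 ^ 2 by norm_num,
            Real.sqrt_sq (by norm_num)]
        rw [k7]
        apply Real.sqrt_le_sqrt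
        linarith
      have k8 : C2 / √(Real.log y) ≤ C2 / (√(Real.log X) / 2) :=
        div_le_div_of_nonneg_left hC2.le (by positivity) k6
      refine k8.trans (le_of_eq ?_)
      field_simp
    have hBnn : 0 ≤ 2 * C2 / √(Real.log X) := by positivity
    have hbound : C1 * (2 * C2 / √(Real.log X) / √(Real.log X) + 1 / Real.log X ^ 2) ≤
        C1 * (2 * C2 + 1) / Real.log X := by
      have e9 : C1 * (2 * C2 + 1) / Real.log X = C1 * ((2 * C2 + 1) / Real.log X) :=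
        mul_div_assoc _ _ _
      rw [div_div, hsq, e9]
      apply mul_le_mul_of_nonneg_left _ hC1.le
      rw [add_div]
      have : 1 / Real.log X ^ 2 ≤ 1 / Real.log X := by
        apply div_le_div_of_nonneg_left (by norm_num) (by linarith)
        nlinarith
      linarith
    have h3 := h1 X t _ g1 hBnn hB
    exact ⟨h3.1.trans hbound, h3.2.trans hbound⟩
  refine ⟨4 * (C1 * (2 * C2 + 1)), max ((max X1 (max (X2 ^ 2) (Real.exp 1))) ^ 2) (Real.exp 4),
    by positivity, ?_, ?_⟩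
  · have := Real.add_one_le_exp (4 : ℝ)
    exact le_trans (by linarith) (le_max_right _ _)
  · intro X t b hX hb
    exact hstep.chain (by positivity) (hX1.trans (le_max_left _ _)) hX hb

end Pool.Agent.LLT
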