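import Mathlib

/-!
The local slope of the distribution function of the normal law.
-/

set_option autoImplicit false

namespace Pool.Agent.LLT

open MeasureTheory ProbabilityTheory Set

theorem pdf_eq (x : ℝ) : gaussianPDFReal 0 1 x = (√(2 * Real.pi))⁻¹ * Real.exp (-x ^ 2 / 2) := by
  rw [gaussianPDFReal_def]
  simp

theorem pdf_deriv (x : ℝ) : HasDerivAt (gaussianPDFReal 0 1)
    ((√(2 * Real.pi))⁻¹ * (Real.exp (-x ^ 2 / 2) * (-x))) x := by
  have h : gaussianPDFReal 0 1 = fun x : ℝ => (√(2 * Real.pi))⁻¹ * Real.exp (-x ^ 2 / 2) := by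
    funext x
    exact pdf_eq x
  rw [h]
  have h1 : HasDerivAt (fun x : ℝ => -x ^ 2 / 2) (-x) x := by
    refine (((hasDerivAt_pow 2 x).neg).div_const 2).congr_deriv ?_
    norm_num
    ring
  exact (h1.exp).const_mul _

theorem inv_sqrt_le : (√(2 * Real.pi))⁻¹ ≤ 1 := by
  apply inv_le_one_of_one_le₀
  rw [Real.one_le_sqrt]
  nlinarith [Real.pi_gt_three]

theorem pdf_lip (x y : ℝ) : |gaussianPDFReal 0 1 x - gaussianPDFReal 0 1 y| ≤ |x - y| := by
  have hbound : ∀ x : ℝ, ‖(√(2 * Real.pi))⁻¹ * (Real.exp (-x ^ 2 / 2) * (-x))‖ ≤ 1 := by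
    intro x
    rw [Real.norm_eq_abs, abs_mul, abs_mul, abs_neg, abs_of_pos (Real.exp_pos _),
      abs_of_nonneg (by positivity : (0 : ℝ) ≤ (√(2 * Real.pi))⁻¹)]
    have h1 : Real.exp (-x ^ 2 / 2) * |x| ≤ 1 := by
      have h2 : |x| ≤ Real.exp (x ^ 2 / 2) := by
        have h3 := Real.add_one_le_exp (x ^ 2 / 2)
        nlinarith [sq_abs x, sq_nonneg (|x| - 1)]
      have h4 : Real.exp (-x ^ 2 / 2) * Real.exp (x ^ 2 / 2) = 1 := by
        rw [← Real.exp_add]
        ring_nf
        exact Real.exp_zero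
      calc Real.exp (-x ^ 2 / 2) * |x| ≤ Real.exp (-x ^ 2 / 2) * Real.exp (x ^ 2 / 2) :=
            mul_le_mul_of_nonneg_left h2 (Real.exp_pos _).le
        _ = 1 := h4
    calc (√(2 * Real.pi))⁻¹ * (Real.exp (-x ^ 2 / 2) * |x|) ≤ 1 * 1 :=
          mul_le_mul inv_sqrt_le h1 (by positivity) (by norm_num)
      _ = 1 := one_mul 1
  have h := Convex.norm_image_sub_le_of_norm_hasDerivWithin_le (f := gaussianPDFReal 0 1)
    (s := (Set.univ : Set ℝ)) (C := 1) (fun x _ => (pdf_deriv x).hasDerivWithinAt)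
    (fun x _ => hbound x) convex_univ (Set.mem_univ y) (Set.mem_univ x)
  simpa [Real.norm_eq_abs] using h

theorem real_Ioc (a b : ℝ) (h : a ≤ b) : (gaussianReal 0 1).real (Iic b) -
    (gaussianReal 0 1).real (Iic a) = ∫ x in Ioc a b, gaussianPDFReal 0 1 x := by
  have h1 : (gaussianReal 0 1).real (Iic b) - (gaussianReal 0 1).real (Iic a) =
      (gaussianReal 0 1).real (Ioc a b) := by
    have h2 : Iic b = Iic a ∪ Ioc a b := (Iic_union_Ioc_eq_Iic h).symm
    rw [h2, measureReal_union (Iic_disjoint_Ioc le_rfl) measurableSet_Ioc]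
    ring
  rw [h1, measureReal_def, gaussianReal_apply_eq_integral 0 (by norm_num) (Ioc a b),
    ENNReal.toReal_ofReal]
  exact setIntegral_nonneg measurableSet_Ioc fun x _ => gaussianPDFReal_nonneg _ _ _

theorem gauss_slope (u h : ℝ) (hh : 0 ≤ h) : |(gaussianReal 0 1).real (Iic (u + h)) -
    (gaussianReal 0 1).real (Iic u) - h * gaussianPDFReal 0 1 u| ≤ h ^ 2 := by
  rw [real_Ioc u (u + h) (by linarith)]
  have h1 : h * gaussianPDFReal 0 1 u = ∫ _x in Ioc u (u + h), gaussianPDFReal 0 1 u := by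
    rw [setIntegral_const, measureReal_def, Real.volume_Ioc, ENNReal.toReal_ofReal (by linarith),
      smul_eq_mul]
    ring
  rw [h1, ← integral_sub]
  · have h2 := norm_setIntegral_le_of_norm_le_const (μ := volume) (s := Ioc u (u + h)) (C := h)
      (f := fun x => gaussianPDFReal 0 1 x - gaussianPDFReal 0 1 u) (by simp) (by
        intro x hx
        rw [Real.norm_eq_abs]
        refine (pdf_lip x u).trans ?_
        rw [abs_le]
        constructor <;> linarith [hx.1, hx.2])
    rw [Real.norm_eq_abs, measureReal_def, Real.volume_Ioc,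
      ENNReal.toReal_ofReal (by linarith)] at h2
    calc _ ≤ h * (u + h - u) := h2
      _ = h ^ 2 := by ring
  · exact (integrable_gaussianPDFReal _ _).restrict
  · exact integrableOn_const (by simp)

end Pool.Agent.LLT
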