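import Pool.Agent.LLT.M9F
import Pool.Agent.LLT.M9G

/-!
The local limit theorem for odd numbers, from `window` and `clt_unif`.
-/

set_option autoImplicit false

namespace Pool.Agent.LLT

open Finset Filter Topology ProbabilityTheory
open Pool.Agent.Collatz3.FW (F Fam NumT Hs Ls)
open Pool.Agent.Collatz3.DN (Dens Reach)
open Pool.Agent.Helper14 (T)

/-- the statement of `window` -/
def StWindow : Prop := ∀ (M : ℝ), 1 < M → ∀ A : ℝ → Set ℤ, Fam M A →
    (∀ n t t', n ∈ A t → n ∈ A t' → t = t') → ∀ ε : ℝ, 0 < ε → ∃ η₀ : ℝ, 0 < η₀ ∧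
    ∀ η : ℝ, 0 < η → η ≤ η₀ → ∃ H₀ : ℕ, 0 < H₀ ∧ ∀ H : ℕ, H₀ ≤ H → ∃ X₀ : ℝ, ∀ X t : ℝ, X₀ ≤ X →
      |(∑ b ∈ range H, ff (A (t + b)) X) / H -
        (∑ b ∈ range ⌊η * √(Real.log X)⌋₊, ff (A (t + b)) X) / ⌊η * √(Real.log X)⌋₊| ≤
          ε / √(Real.log X)

/-- the statement of `clt_unif` -/
def StClt : Prop := ∀ (S : Set ℤ) (M₀ : ℝ), (∀ c ∈ S, |(c : ℝ)| ≤ M₀) → ∀ d : ℝ,
    Dens 1 (Reach S) d → ∀ ε : ℝ, 0 < ε → ∃ X₀ : ℝ, ∀ X t : ℝ, X₀ ≤ X →
      |ff (Hs S t) X - d * (gaussianReal 0 1).real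
        (Set.Iic ((t - gg * Real.log X) / √(VV * Real.log X)))| ≤ ε

theorem VV_pos : 0 < VV := by
  unfold VV
  have h1 : 0 < Real.log (4 / 3) := Real.log_pos (by norm_num)
  have h2 : 0 < Real.log 3 := Real.log_pos (by norm_num)
  positivity

/-- the local slope: `s = √L`, `z` the normalised time -/
theorem slope {d η ε₂ V s : ℝ} (hV : 0 < V) (hs : 0 < s) {m : ℕ} (hm : 0 < m)
    (hm1 : (m : ℝ) ≤ η * s) (hm2 : η * s / 2 ≤ m) (hη : 0 < η) {a b c : ℝ} (D : ℝ)
    (hD : D = ((b - a) - d * ((gaussianReal 0 1).real (Set.Iic ((c + m - 1) / (√V * s))) -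
      (gaussianReal 0 1).real (Set.Iic ((c - 1) / (√V * s))))))
    (h : |D| ≤ 2 * ε₂) :
    |(b - a) / m - d / (√V * s) * gaussianPDFReal 0 1 (c / (√V * s))| ≤
      4 * ε₂ / (η * s) + |d| * (η / V + 1 / (V * s)) / s := by
  have hV' : 0 < √V := Real.sqrt_pos.2 hV
  have hVV : √V * √V = V := Real.mul_self_sqrt hV.le
  have hm' : (0 : ℝ) < m := by exact_mod_cast hm
  have h1 := gauss_slope ((c - 1) / (√V * s)) (m / (√V * s)) (by positivity)
  have e1 : (c - 1) / (√V * s) + m / (√V * s) = (c + m - 1) / (√V * s) := by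
    field_simp
    ring
  rw [e1] at h1
  have h2 := pdf_lip ((c - 1) / (√V * s)) (c / (√V * s))
  have e2 : |(c - 1) / (√V * s) - c / (√V * s)| = 1 / (√V * s) := by
    have : (c - 1) / (√V * s) - c / (√V * s) = -(1 / (√V * s)) := by
      field_simp
      ring
    rw [this, abs_neg, abs_of_pos (by positivity)]
  rw [e2] at h2
  set Φ₁ := (gaussianReal 0 1).real (Set.Iic ((c + m - 1) / (√V * s))) with hΦ₁
  set Φ₀ := (gaussianReal 0 1).real (Set.Iic ((c - 1) / (√V * s))) with hΦ₀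
  set p₀ := gaussianPDFReal 0 1 ((c - 1) / (√V * s)) with hp₀
  set p₁ := gaussianPDFReal 0 1 (c / (√V * s)) with hp₁
  have e3 : (b - a) / m - d / (√V * s) * p₁ = D / m +
      d * ((Φ₁ - Φ₀ - m / (√V * s) * p₀) / m) + d / (√V * s) * (p₀ - p₁) := by
    rw [hD]
    field_simp
    ring
  rw [e3]
  have b1 : |D / m| ≤ 4 * ε₂ / (η * s) := by
    rw [abs_div, abs_of_pos hm', div_le_div_iff₀ hm' (by positivity)]
    have h3 : 0 ≤ |D| := abs_nonneg D
    have h4 : |D| * (η * s) ≤ 2 * ε₂ * (2 * m) := by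
      apply mul_le_mul h (by linarith) (by positivity) (by linarith)
    linarith
  have b2 : |d * ((Φ₁ - Φ₀ - m / (√V * s) * p₀) / m)| ≤ |d| * (η / V) / s := by
    rw [abs_mul, abs_div, abs_of_pos hm']
    have h3 : |Φ₁ - Φ₀ - m / (√V * s) * p₀| / m ≤ η / V / s := by
      rw [div_le_iff₀ hm']
      refine h1.trans ?_
      have h4 : (m / (√V * s)) ^ 2 = m * m / (V * s ^ 2) := by
        rw [div_pow, mul_pow, Real.sq_sqrt hV.le]
        ring
      rw [h4]
      have h5 : η / V / s * m = η * s * m / (V * s ^ 2) := by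
        field_simp
      rw [h5]
      apply div_le_div_of_nonneg_right _ (by positivity)
      exact mul_le_mul_of_nonneg_right hm1 hm'.le
    calc |d| * (|Φ₁ - Φ₀ - m / (√V * s) * p₀| / m) ≤ |d| * (η / V / s) :=
          mul_le_mul_of_nonneg_left h3 (abs_nonneg d)
      _ = |d| * (η / V) / s := by ring
  have b3 : |d / (√V * s) * (p₀ - p₁)| ≤ |d| * (1 / (V * s)) / s := by
    rw [abs_mul, abs_div, abs_of_pos (by positivity : 0 < √V * s)]
    calc |d| / (√V * s) * |p₀ - p₁| ≤ |d| / (√V * s) * (1 / (√V * s)) :=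
          mul_le_mul_of_nonneg_left h2 (by positivity)
      _ = |d| / (√V * √V * s * s) := by
          field_simp
      _ = |d| * (1 / (V * s)) / s := by
          rw [hVV]
          field_simp
  have b4 : |d| * (η / V + 1 / (V * s)) / s = |d| * (η / V) / s + |d| * (1 / (V * s)) / s := by
    ring
  rw [b4]
  refine (abs_add_le _ _).trans ?_
  have := abs_add_le (D / m) (d * ((Φ₁ - Φ₀ - m / (√V * s) * p₀) / m))
  linarith

theorem target_eq (d V L c : ℝ) (hV : 0 < V) (hL : 0 < L) :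
    d / √(2 * Real.pi * V * L) * Real.exp (-c ^ 2 / (2 * V * L)) =
      d / (√V * √L) * gaussianPDFReal 0 1 (c / (√V * √L)) := by
  rw [pdf_eq]
  have h1 : √(2 * Real.pi * V * L) = √(2 * Real.pi) * (√V * √L) := by
    rw [mul_assoc (2 * Real.pi), Real.sqrt_mul (by positivity), Real.sqrt_mul hV.le]
  have h2 : -(c / (√V * √L)) ^ 2 / 2 = -c ^ 2 / (2 * V * L) := by
    rw [div_pow, mul_pow, Real.sq_sqrt hV.le, Real.sq_sqrt hL.le]
    field_simp
  rw [h1, h2]
  have h3 : (0 : ℝ) < √(2 * Real.pi) := Real.sqrt_pos.2 (by positivity)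
  have h4 : 0 < √V := Real.sqrt_pos.2 hV
  have h5 : 0 < √L := Real.sqrt_pos.2 hL
  field_simp

theorem llt_odd_of (hW : StWindow) (hC : StClt) {S : Set ℤ} {M₀ : ℝ}
    (hS : ∀ c ∈ S, |(c : ℝ)| ≤ M₀) {d : ℝ} (hd : Dens 1 (Reach S) d) {ε : ℝ} (hε : 0 < ε) : ∃ H₀ : ℕ, 0 < H₀ ∧ ∀ H : ℕ, H₀ ≤ H →
    ∃ X₀ : ℝ, ∀ (X : ℝ) (t : ℤ), X₀ ≤ X →
      |(∑ b ∈ range H, ff (Es S (t + b)) X) / H - d / √(2 * Real.pi * VV * Real.log X) *
        Real.exp (-(t - gg * Real.log X) ^ 2 / (2 * VV * Real.log X))| ≤ ε / √(Real.log X) := by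
  have hV := VV_pos
  have hS' : ∀ c ∈ S, |(c : ℝ)| ≤ max M₀ 2 := fun c hc => (hS c hc).trans (le_max_left _ _)
  have hM : (1 : ℝ) < max M₀ 2 := lt_of_lt_of_le (by norm_num) (le_max_right _ _)
  obtain ⟨η₀, hη₀, hwin⟩ := hW _ hM _ (fam_Es hS') dis_Es (ε / 4) (by positivity)
  have hd0 : 0 ≤ |d| := abs_nonneg d
  set η : ℝ := min η₀ (ε * VV / (8 * (|d| + 1))) with hη
  have hη1 : 0 < η := lt_min hη₀ (by positivity)
  have hη2 : η ≤ ε * VV / (8 * (|d| + 1)) := min_le_right _ _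
  obtain ⟨H₀, hH₀, hwin⟩ := hwin η hη1 (min_le_left _ _)
  refine ⟨H₀, hH₀, fun H hH => ?_⟩
  obtain ⟨X₁, hX₁⟩ := hwin H hH
  obtain ⟨X₂, hX₂⟩ := hC S M₀ hS d hd (ε * η / 16) (by positivity)
  set K : ℝ := 2 / η + 8 * (|d| + 1) / (VV * ε) with hK
  have hK0 : 0 < K := by positivity
  refine ⟨max (max X₁ X₂) (Real.exp (K ^ 2)), fun X t hX => ?_⟩
  have hXa : X₁ ≤ X := (le_max_left _ _).trans ((le_max_left _ _).trans hX)
  have hXb : X₂ ≤ X := (le_max_right _ _).trans ((le_max_left _ _).trans hX)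
  have hXc : Real.exp (K ^ 2) ≤ X := (le_max_right _ _).trans hX
  have hX0 : 0 < X := lt_of_lt_of_le (Real.exp_pos _) hXc
  have hL : K ^ 2 ≤ Real.log X := by
    rw [Real.le_log_iff_exp_le hX0]
    exact hXc
  have hL0 : 0 < Real.log X := lt_of_lt_of_le (by positivity) hL
  have hs : K ≤ √(Real.log X) := by
    rw [Real.le_sqrt hK0.le hL0.le]
    exact hL
  have hs0 : 0 < √(Real.log X) := lt_of_lt_of_le hK0 hs
  have hηs : 2 ≤ η * √(Real.log X) := by
    have h1 : 2 / η ≤ √(Real.log X) := by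
      refine le_trans ?_ hs
      rw [hK]
      have : 0 ≤ 8 * (|d| + 1) / (VV * ε) := by positivity
      linarith
    rw [div_le_iff₀ hη1] at h1
    linarith
  have hds : |d| * (1 / (VV * √(Real.log X))) ≤ ε / 8 := by
    have h1 : 8 * (|d| + 1) / (VV * ε) ≤ √(Real.log X) := by
      refine le_trans ?_ hs
      rw [hK]
      have : 0 ≤ 2 / η := by positivity
      linarith
    rw [div_le_iff₀ (by positivity)] at h1
    rw [mul_one_div, div_le_iff₀ (by positivity)]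
    nlinarith
  have hdη : |d| * (η / VV) ≤ ε / 8 := by
    have h1 : η * (8 * (|d| + 1)) ≤ ε * VV := by
      rw [le_div_iff₀ (by positivity)] at hη2
      exact hη2
    rw [← mul_div_assoc, div_le_iff₀ hV]
    nlinarith
  set m : ℕ := ⌊η * √(Real.log X)⌋₊ with hm
  have hm1 : (m : ℝ) ≤ η * √(Real.log X) := Nat.floor_le (by positivity)
  have hm2 : η * √(Real.log X) / 2 ≤ m := by
    have := Nat.lt_floor_add_one (η * √(Real.log X))
    rw [← hm] at this
    linarith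
  have hm0 : 0 < m := by
    have : (0 : ℝ) < m := by linarith
    exact_mod_cast this
  have h1 := hX₁ X t hXa
  rw [← hm, sum_Es S X t m] at h1
  have ha := hX₂ X (t - 1) hXb
  have hb := hX₂ X (t + m - 1) hXb
  have hsq : √(VV * Real.log X) = √VV * √(Real.log X) := Real.sqrt_mul hV.le _
  rw [hsq] at ha hb
  have ec : (t : ℝ) + m - 1 - gg * Real.log X = (t - gg * Real.log X) + m - 1 := by ring
  have ec' : (t : ℝ) - 1 - gg * Real.log X = (t - gg * Real.log X) - 1 := by ring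
  rw [ec] at hb
  rw [ec'] at ha
  have h2 := slope (d := d) (η := η) (ε₂ := ε * η / 16) hV hs0 hm0 hm1 hm2 hη1
    (a := ff (Hs S (t - 1)) X) (b := ff (Hs S (t + m - 1)) X) (c := (t : ℝ) - gg * Real.log X)
    _ rfl (by
      rw [abs_le] at ha hb ⊢
      constructor <;> linarith [ha.1, ha.2, hb.1, hb.2])
  rw [target_eq d VV (Real.log X) _ hV hL0]
  have h3 : 4 * (ε * η / 16) / (η * √(Real.log X)) = ε / 4 / √(Real.log X) := by
    field_simp
    ring
  have h4 : |d| * (η / VV + 1 / (VV * √(Real.log X))) / √(Real.log X) ≤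
      ε / 4 / √(Real.log X) := by
    apply div_le_div_of_nonneg_right _ hs0.le
    rw [mul_add]
    linarith
  rw [h3] at h2
  have h5 : ε / √(Real.log X) = 4 * (ε / 4 / √(Real.log X)) := by ring
  have h6 : 0 ≤ ε / 4 / √(Real.log X) := by positivity
  rw [h5]
  have h7 := abs_sub_le ((∑ b ∈ range H, ff (Es S (t + b)) X) / H)
    ((ff (Hs S (t + m - 1)) X - ff (Hs S (t - 1)) X) / m)
    (d / (√VV * √(Real.log X)) * gaussianPDFReal 0 1
      ((t - gg * Real.log X) / (√VV * √(Real.log X))))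
  linarith

end Pool.Agent.LLT
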