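import Pool.Agent.LLT.M10
import Pool.Agent.LLT.ModA

/-!
Local limit theorem for the total stopping time: windows in arithmetic progressions of times.
-/

set_option autoImplicit false

namespace Pool.Agent.LLT.Mod

open Finset Filter Topology
open Pool.Agent.Collatz3.FW (F Fam cN)

private theorem ff_nn (A : Set ℤ) {X : ℝ} (hX : 0 < X) : 0 ≤ ff A X :=
  div_nonneg (Pool.Agent.Collatz3.FW.F_nonneg _ _ _) (by positivity)

private theorem ff_mo (A : Set ℤ) {x y : ℝ} (hx : 0 < x) (h : x ≤ y) : x * ff A x ≤ y * ff A y := by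
  have hy : 0 < y := lt_of_lt_of_le hx h
  have h1 : F 1 A x ≤ F 1 A y := by
    classical
    unfold Pool.Agent.Collatz3.FW.F
    exact_mod_cast card_le_card (filter_subset_filter _ (Pool.Agent.Collatz3.FW.Od_mono 1 h))
  have e1 : x * ff A x = 2 * F 1 A x := by
    unfold ff
    field_simp
  have e2 : y * ff A y = 2 * F 1 A y := by
    unfold ff
    field_simp
  rw [e1, e2]
  linarith

/-- the window of a progression of times against the full window -/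
theorem modw_of {A : ℝ → Set ℤ}
    (hinv : ∃ C X₀ : ℝ, 0 < C ∧ 2 ≤ X₀ ∧
      ∀ X t B : ℝ, X₀ ≤ X → 0 ≤ B → (∀ y τ : ℝ, X ^ (9 / 10 : ℝ) ≤ y → ff (A τ) y ≤ B) →
        |ff (A (t + 1)) (2 * X) - ff (A t) X| ≤ C * (B / √(Real.log X) + 1 / Real.log X ^ 2) ∧
        |ff (A t) (3 * X) - ff (A t) X| ≤ C * (B / √(Real.log X) + 1 / Real.log X ^ 2))
    (hloc : ∃ C X₀ : ℝ, 0 < C ∧ 2 ≤ X₀ ∧
      ∀ X t : ℝ, X₀ ≤ X → ff (A t) X ≤ C / √(Real.log X))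
    (hchain : ∃ C X₀ : ℝ, 0 < C ∧ 2 ≤ X₀ ∧
      ∀ (X t : ℝ) (b : ℕ), X₀ ≤ X → (b : ℝ) ≤ √(Real.log X) →
        |ff (A (t + b)) X - ff (A t) (th b * X)| ≤ C * (b + 1) / Real.log X)
    (hth : ∀ b, 1 ≤ th b ∧ th b < 3)
    (hcl : ∀ ε : ℝ, 0 < ε → ∃ a b : ℕ, 0 < b ∧ 1 < (3 : ℝ) ^ a / 2 ^ b ∧ (3 : ℝ) ^ a / 2 ^ b < 1 + ε)
    {m : ℕ} (hm : 0 < m) {ε : ℝ} (hε : 0 < ε) : ∃ H₀ : ℕ, 0 < H₀ ∧ ∀ H : ℕ, H₀ ≤ H → ∃ X₁ : ℝ,
    ∀ X t : ℝ, X₁ ≤ X →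
      |(∑ b ∈ range H, ff (A (t + m * b)) X) / H -
        (∑ b ∈ range (m * H), ff (A (t + b)) X) / (m * H)| ≤ ε / √(Real.log X) := by
  obtain ⟨C₁, X₁, hC₁, hX₁, h1⟩ := hinv
  obtain ⟨C₂, X₂, hC₂, hX₂, h2⟩ := hloc
  obtain ⟨C₃, X₃, hC₃, hX₃, h3⟩ := hchain
  obtain ⟨X₀, hX₀⟩ : ∃ X₀ : ℝ, X₀ = max (max X₁ (X₂ ^ 2)) (max X₃ 3) := ⟨_, rfl⟩
  have q1 : X₁ ≤ X₀ := hX₀ ▸ (le_max_left _ _).trans (le_max_left _ _)
  have q2 : X₂ ^ 2 ≤ X₀ := hX₀ ▸ (le_max_right _ _).trans (le_max_left _ _)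
  have q3 : X₃ ≤ X₀ := hX₀ ▸ (le_max_left _ _).trans (le_max_right _ _)
  have q4 : 3 ≤ X₀ := hX₀ ▸ (le_max_right _ _).trans (le_max_right _ _)
  have q5 : X₂ ≤ X₀ := le_trans (by nlinarith) q2
  have hlog : ∀ X, X₀ ≤ X → 1 ≤ Real.log X := by
    intro X hX
    rw [Real.le_log_iff_exp_le (by linarith)]
    have := Real.exp_one_lt_d9
    linarith
  have hX9 : ∀ X, X₀ ≤ X → X₂ ≤ X ^ (9 / 10 : ℝ) := by
    intro X hX
    have a1 : X₂ ≤ (X₂ ^ 2 : ℝ) ^ (9 / 10 : ℝ) := by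
      rw [← Real.rpow_natCast, ← Real.rpow_mul (by linarith)]
      calc X₂ = X₂ ^ (1 : ℝ) := (Real.rpow_one _).symm
        _ ≤ X₂ ^ (((2 : ℕ) : ℝ) * (9 / 10)) :=
          Real.rpow_le_rpow_of_exponent_le (by linarith) (by norm_num)
    exact a1.trans (Real.rpow_le_rpow (by positivity) (q2.trans hX) (by norm_num))
  have hB : ∀ X, X₀ ≤ X → ∀ y τ : ℝ, X ^ (9 / 10 : ℝ) ≤ y → ff (A τ) y ≤ 2 * C₂ / √(Real.log X) := by
    intro X hX y τ hy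
    have hl := hlog X hX
    have hX0 : 0 < X := by linarith
    refine (h2 y τ ((hX9 X hX).trans hy)).trans ?_
    have a1 : Real.log X / 4 ≤ Real.log y := by
      have a2 := Real.log_le_log (by positivity) hy
      rw [Real.log_rpow hX0] at a2
      linarith
    have a3 : √(Real.log X) / 2 ≤ √(Real.log y) := by
      have a4 : √(Real.log X / 4) ≤ √(Real.log y) := Real.sqrt_le_sqrt a1
      have a5 : √(Real.log X / 4) = √(Real.log X) / 2 := by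
        rw [Real.sqrt_div (by linarith)]
        congr 1
        rw [show (4 : ℝ) = 2 ^ 2 by norm_num, Real.sqrt_sq (by norm_num)]
      linarith
    have a6 : 0 < √(Real.log X) := Real.sqrt_pos.2 (by linarith)
    have a7 : 2 * C₂ / √(Real.log X) = C₂ / (√(Real.log X) / 2) := by field_simp
    rw [a7]
    exact div_le_div_of_nonneg_left hC₂.le (by positivity) a3
  have hE : ∀ X, X₀ ≤ X → C₁ * (2 * C₂ / √(Real.log X) / √(Real.log X) + 1 / Real.log X ^ 2) ≤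
      (C₁ * (2 * C₂ + 1) + C₂ + C₃) / Real.log X := by
    intro X hX
    have hl := hlog X hX
    have a1 : 2 * C₂ / √(Real.log X) / √(Real.log X) = 2 * C₂ / Real.log X := by
      rw [div_div, Real.mul_self_sqrt (by linarith)]
    have a2 : 1 / Real.log X ^ 2 ≤ 1 / Real.log X := by
      apply one_div_le_one_div_of_le (by linarith)
      nlinarith
    rw [a1]
    have a3 : C₁ * (2 * C₂ / Real.log X + 1 / Real.log X ^ 2) ≤
        C₁ * (2 * C₂ / Real.log X + 1 / Real.log X) := by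
      gcongr
    refine a3.trans ?_
    have a4 : C₁ * (2 * C₂ / Real.log X + 1 / Real.log X) = C₁ * (2 * C₂ + 1) / Real.log X := by
      ring
    rw [a4]
    apply div_le_div_of_nonneg_right _ (by linarith)
    linarith
  have hW : WH (fun t X => ff (A t) X) th (C₁ * (2 * C₂ + 1) + C₂ + C₃) X₀ := by
    refine ⟨by positivity, by linarith, fun t X hX => ff_nn _ hX, fun t x y hx hxy => ff_mo _ hx hxy,
      ?_, ?_, ?_, ?_, fun b => (hth b).1, fun b => (hth b).2⟩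
    · intro X t hX
      have hl := hlog X hX
      exact (h1 X t _ (q1.trans hX) (by positivity) (hB X hX)).1.trans (hE X hX)
    · intro X t hX
      have hl := hlog X hX
      exact (h1 X t _ (q1.trans hX) (by positivity) (hB X hX)).2.trans (hE X hX)
    · intro X t hX
      refine (h2 X t (q5.trans hX)).trans ?_
      apply div_le_div_of_nonneg_right _ (Real.sqrt_nonneg _)
      have : 0 < C₁ * (2 * C₂ + 1) := by positivity
      linarith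
    · intro X t b hX hb
      refine (h3 X t b (q3.trans hX) hb).trans ?_
      have hl := hlog X hX
      apply div_le_div_of_nonneg_right _ (by linarith)
      apply mul_le_mul_of_nonneg_right _ (by positivity)
      have : 0 < C₁ * (2 * C₂ + 1) := by positivity
      linarith
  exact mod_abs hW hcl hm hε

/-- the last clause of the local limit theorem for the times in a progression -/
theorem llt_mod_of (F : Finset ℕ) {M : ℝ} (hM : 0 ≤ M) (hA : Fam M (Es (m10_S F)))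
    (hloc : ∃ C X₀ : ℝ, 0 < C ∧ 2 ≤ X₀ ∧
      ∀ X t : ℝ, X₀ ≤ X → ff (Es (m10_S F) t) X ≤ C / √(Real.log X))
    (hinv : ∃ C X₀ : ℝ, 0 < C ∧ 2 ≤ X₀ ∧
      ∀ X t B : ℝ, X₀ ≤ X → 0 ≤ B →
        (∀ y τ : ℝ, X ^ (9 / 10 : ℝ) ≤ y → ff (Es (m10_S F) τ) y ≤ B) →
        |ff (Es (m10_S F) (t + 1)) (2 * X) - ff (Es (m10_S F) t) X| ≤
          C * (B / √(Real.log X) + 1 / Real.log X ^ 2) ∧
        |ff (Es (m10_S F) t) (3 * X) - ff (Es (m10_S F) t) X| ≤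
          C * (B / √(Real.log X) + 1 / Real.log X ^ 2))
    (hchain : ∃ C X₀ : ℝ, 0 < C ∧ 2 ≤ X₀ ∧
      ∀ (X t : ℝ) (b : ℕ), X₀ ≤ X → (b : ℝ) ≤ √(Real.log X) →
        |ff (Es (m10_S F) (t + b)) X - ff (Es (m10_S F) t) (th b * X)| ≤ C * (b + 1) / Real.log X)
    (hth : ∀ b, 1 ≤ th b ∧ th b < 3)
    (hcl : ∀ ε : ℝ, 0 < ε → ∃ a b : ℕ, 0 < b ∧ 1 < (3 : ℝ) ^ a / 2 ^ b ∧ (3 : ℝ) ^ a / 2 ^ b < 1 + ε)
    {d : ℝ} (hmain : ∀ ε : ℝ, 0 < ε → ∃ H₀ : ℕ, 0 < H₀ ∧ ∀ H : ℕ, H₀ ≤ H → ∃ x₀ : ℕ,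
      ∀ (x : ℕ) (t : ℤ), x₀ ≤ x →
      |∑ b ∈ range H, cnt F x (t + b) - d * (x * H) / √(2 * Real.pi * VV * Real.log x) *
        Real.exp (-(t - gg * Real.log x) ^ 2 / (2 * VV * Real.log x))| ≤
        ε * (x * H) / √(Real.log x))
    {m : ℕ} (hm : 0 < m) {ε : ℝ} (hε : 0 < ε) : ∃ H₀ : ℕ, 0 < H₀ ∧ ∀ H : ℕ, H₀ ≤ H → ∃ x₀ : ℕ,
      ∀ (x : ℕ) (t : ℤ), x₀ ≤ x →
      |∑ b ∈ range H, cnt F x (t + m * b) - d * (x * H) / √(2 * Real.pi * VV * Real.log x) *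
        Real.exp (-(t - gg * Real.log x) ^ 2 / (2 * VV * Real.log x))| ≤
        ε * (x * H) / √(Real.log x) := by
  have hm' : (0 : ℝ) < m := by exact_mod_cast hm
  obtain ⟨H₁, hH₁, h1⟩ := hmain (ε / 4) (by positivity)
  obtain ⟨H₂, hH₂, h2⟩ := modw_of hinv hloc hchain hth hcl hm (by positivity : 0 < ε / 4)
  obtain ⟨X₃, h3⟩ := eventually_atTop.1 (m10_main hM hA hloc hinv (by positivity : 0 < ε / 4))
  refine ⟨max H₁ H₂, lt_of_lt_of_le hH₁ (le_max_left _ _), fun H hH => ?_⟩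
  have hHa : H₁ ≤ H := (le_max_left _ _).trans hH
  have hHb : H₂ ≤ H := (le_max_right _ _).trans hH
  have hH0 : (0 : ℝ) < H := by exact_mod_cast lt_of_lt_of_le hH₁ hHa
  obtain ⟨y₁, hy₁⟩ := h1 (m * H) (hHa.trans (Nat.le_mul_of_pos_left H hm))
  obtain ⟨X₂, hX₂⟩ := h2 H hHb
  obtain ⟨x₀, hx₀⟩ := exists_nat_ge (max (max X₂ X₃) 2)
  refine ⟨max x₀ y₁, fun x t hx => ?_⟩
  have hx' : (x₀ : ℝ) ≤ x := by exact_mod_cast (le_max_left _ _).trans hx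
  have hxa : X₂ ≤ x := (le_max_left _ _).trans ((le_max_left _ _).trans (hx₀.trans hx'))
  have hxb : X₃ ≤ x := (le_max_right _ _).trans ((le_max_left _ _).trans (hx₀.trans hx'))
  have hxc : (2 : ℝ) ≤ x := (le_max_right _ _).trans (hx₀.trans hx')
  have hx0 : (0 : ℝ) < x := by linarith
  have hlog : 0 < Real.log (x : ℝ) := Real.log_pos (by linarith)
  have a1 := hy₁ x t ((le_max_right _ _).trans hx)
  have a2 := hX₂ x t hxa
  have a3 := h3 x hxb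
  obtain ⟨s, hs⟩ : ∃ s, s = √(Real.log (x : ℝ)) := ⟨_, rfl⟩
  have hs0 : 0 < s := by
    rw [hs]
    exact Real.sqrt_pos.2 hlog
  have hc : ∀ u : ℤ, |cnt F x u - x * ff (Es (m10_S F) (u : ℝ)) x| ≤ ε / 4 * (x / s) := by
    intro u
    rw [m10_cnt, hs]
    exact a3 u
  have b1 : |∑ b ∈ range H, cnt F x (t + m * b) -
      x * ∑ b ∈ range H, ff (Es (m10_S F) ((t : ℝ) + m * b)) x| ≤ H * (ε / 4 * (x / s)) := by
    rw [mul_sum, ← sum_sub_distrib]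
    refine (abs_sum_le_sum_abs _ _).trans ?_
    calc _ ≤ ∑ b ∈ range H, ε / 4 * (x / s) := by
          apply sum_le_sum
          intro b _
          have := hc (t + m * b)
          push_cast at this
          exact this
      _ = H * (ε / 4 * (x / s)) := by
          rw [sum_const, card_range, nsmul_eq_mul]
  have b2 : |∑ b ∈ range (m * H), cnt F x (t + b) -
      x * ∑ b ∈ range (m * H), ff (Es (m10_S F) ((t : ℝ) + b)) x| ≤
      (m * H) * (ε / 4 * (x / s)) := by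
    rw [mul_sum, ← sum_sub_distrib]
    refine (abs_sum_le_sum_abs _ _).trans ?_
    calc _ ≤ ∑ b ∈ range (m * H), ε / 4 * (x / s) := by
          apply sum_le_sum
          intro b _
          have := hc (t + b)
          push_cast at this
          exact this
      _ = (m * H) * (ε / 4 * (x / s)) := by
          rw [sum_const, card_range, nsmul_eq_mul]
          push_cast
          ring
  rw [← hs] at a1 a2 ⊢
  obtain ⟨G, hG⟩ : ∃ G, G = Real.exp (-((t : ℝ) - gg * Real.log (x : ℝ)) ^ 2 /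
    (2 * VV * Real.log (x : ℝ))) := ⟨_, rfl⟩
  obtain ⟨Q, hQ⟩ : ∃ Q, Q = √(2 * Real.pi * VV * Real.log (x : ℝ)) := ⟨_, rfl⟩
  obtain ⟨Z1, hZ1⟩ : ∃ Z, Z = ∑ b ∈ range H, ff (Es (m10_S F) ((t : ℝ) + m * b)) x := ⟨_, rfl⟩
  obtain ⟨Z2, hZ2⟩ : ∃ Z, Z = ∑ b ∈ range (m * H), ff (Es (m10_S F) ((t : ℝ) + b)) x := ⟨_, rfl⟩
  obtain ⟨W1, hW1⟩ : ∃ W, W = ∑ b ∈ range H, cnt F x (t + m * b) := ⟨_, rfl⟩
  obtain ⟨W2, hW2⟩ : ∃ W, W = ∑ b ∈ range (m * H), cnt F x (t + b) := ⟨_, rfl⟩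
  rw [← hG, ← hQ, ← hW2] at a1
  rw [← hZ1, ← hZ2] at a2
  rw [← hW1, ← hZ1] at b1
  rw [← hW2, ← hZ2] at b2
  rw [← hG, ← hQ, ← hW1]
  push_cast at a1
  -- divide by `m`
  have c1 : |W2 / m - d * (x * H) / Q * G| ≤ ε / 4 * (x * H) / s := by
    have e : W2 / m - d * (x * H) / Q * G = (W2 - d * (x * (m * H)) / Q * G) / m := by
      field_simp
    rw [e, abs_div, abs_of_pos hm', div_le_iff₀ hm']
    refine a1.trans (le_of_eq ?_)
    ring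
  have c2 : |W2 / m - x * Z2 / m| ≤ ε / 4 * (x * H) / s := by
    have e : W2 / m - x * Z2 / m = (W2 - x * Z2) / m := by ring
    rw [e, abs_div, abs_of_pos hm', div_le_iff₀ hm']
    refine b2.trans (le_of_eq ?_)
    ring
  have c3 : |x * Z1 - x * Z2 / m| ≤ ε / 4 * (x * H) / s := by
    have e : x * Z1 - x * Z2 / m = x * H * (Z1 / H - Z2 / (m * H)) := by
      field_simp
    rw [e, abs_mul, abs_of_pos (by positivity : (0 : ℝ) < x * H)]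
    refine (mul_le_mul_of_nonneg_left a2 (by positivity)).trans (le_of_eq ?_)
    ring
  have c4 : |W1 - x * Z1| ≤ ε / 4 * (x * H) / s := by
    refine b1.trans (le_of_eq ?_)
    ring
  have c5 : ε * (x * H) / s = ε / 4 * (x * H) / s + ε / 4 * (x * H) / s +
      ε / 4 * (x * H) / s + ε / 4 * (x * H) / s := by ring
  rw [c5]
  have d1 := abs_le.1 c1
  have d2 := abs_le.1 c2
  have d3 := abs_le.1 c3
  have d4 := abs_le.1 c4
  rw [abs_le]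
  constructor
  · linarith [d1.1, d2.2, d3.1, d4.1]
  · linarith [d1.2, d2.1, d3.2, d4.2]

/-- the final form, from the inputs -/
theorem mod_core
    (hinv : ∀ (M : ℝ) (A : ℝ → Set ℤ), 1 < M → Fam M A → ∃ C X₀ : ℝ, 0 < C ∧ 2 ≤ X₀ ∧
      ∀ X t B : ℝ, X₀ ≤ X → 0 ≤ B → (∀ y τ : ℝ, X ^ (9 / 10 : ℝ) ≤ y → ff (A τ) y ≤ B) →
        |ff (A (t + 1)) (2 * X) - ff (A t) X| ≤ C * (B / √(Real.log X) + 1 / Real.log X ^ 2) ∧
        |ff (A t) (3 * X) - ff (A t) X| ≤ C * (B / √(Real.log X) + 1 / Real.log X ^ 2))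
    (hloc : ∀ (M : ℝ) (A : ℝ → Set ℤ), 1 < M → Fam M A →
      (∀ n t t', n ∈ A t → n ∈ A t' → t = t') → ∃ C X₀ : ℝ, 0 < C ∧ 2 ≤ X₀ ∧
      ∀ X t : ℝ, X₀ ≤ X → ff (A t) X ≤ C / √(Real.log X))
    (hchain : ∀ (M : ℝ) (A : ℝ → Set ℤ), 1 < M → Fam M A →
      (∀ n t t', n ∈ A t → n ∈ A t' → t = t') → ∃ C X₀ : ℝ, 0 < C ∧ 2 ≤ X₀ ∧
      ∀ (X t : ℝ) (b : ℕ), X₀ ≤ X → (b : ℝ) ≤ √(Real.log X) →
        |ff (A (t + b)) X - ff (A t) (th b * X)| ≤ C * (b + 1) / Real.log X)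
    (hth : ∀ b, 1 ≤ th b ∧ th b < 3)
    (hcl : ∀ ε : ℝ, 0 < ε → ∃ a b : ℕ, 0 < b ∧ 1 < (3 : ℝ) ^ a / 2 ^ b ∧ (3 : ℝ) ^ a / 2 ^ b < 1 + ε)
    (F : Finset ℕ) {d : ℝ} (hmain : ∀ ε : ℝ, 0 < ε → ∃ H₀ : ℕ, 0 < H₀ ∧ ∀ H : ℕ, H₀ ≤ H → ∃ x₀ : ℕ,
      ∀ (x : ℕ) (t : ℤ), x₀ ≤ x →
      |∑ b ∈ range H, cnt F x (t + b) - d * (x * H) / √(2 * Real.pi * VV * Real.log x) *
        Real.exp (-(t - gg * Real.log x) ^ 2 / (2 * VV * Real.log x))| ≤
        ε * (x * H) / √(Real.log x))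
    {m : ℕ} (hm : 0 < m) {ε : ℝ} (hε : 0 < ε) : ∃ H₀ : ℕ, 0 < H₀ ∧ ∀ H : ℕ, H₀ ≤ H → ∃ x₀ : ℕ,
      ∀ (x : ℕ) (t : ℤ), x₀ ≤ x →
      |∑ b ∈ range H, cnt F x (t + m * b) - d * (x * H) / √(2 * Real.pi * VV * Real.log x) *
        Real.exp (-(t - gg * Real.log x) ^ 2 / (2 * VV * Real.log x))| ≤
        ε * (x * H) / √(Real.log x) := by
  obtain ⟨C, hC⟩ : ∃ C : ℕ, ∀ c ∈ m10_S F, |c| ≤ C := by
    refine ⟨F.sup id, ?_⟩
    rintro c ⟨a, ha, rfl⟩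
    rw [Nat.abs_cast]
    exact_mod_cast Finset.le_sup (f := id) (Finset.mem_coe.1 ha)
  have hCr : ∀ c ∈ m10_S F, |(c : ℝ)| ≤ (C : ℝ) + 2 := by
    intro c hc
    have h1 := hC c hc
    have h2 : |(c : ℝ)| ≤ (C : ℝ) := by exact_mod_cast h1
    linarith
  have hM : (1 : ℝ) < (C : ℝ) + 2 := by
    have : (0 : ℝ) ≤ (C : ℝ) := Nat.cast_nonneg _
    linarith
  have hA : Fam ((C : ℝ) + 2) (Es (m10_S F)) := fam_Es hCr
  have hdis : ∀ n t t', n ∈ Es (m10_S F) t → n ∈ Es (m10_S F) t' → t = t' :=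
    fun n t t' h h' => dis_Es n t t' h h'
  exact llt_mod_of F (by linarith) hA (hloc _ _ hM hA hdis) (hinv _ _ hM hA)
    (hchain _ _ hM hA hdis) hth hcl hmain hm hε

end Pool.Agent.LLT.Mod
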