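import Pool.Agent.LLT.Final
import Pool.Agent.LLT.M5
import Pool.Agent.LLT.M6
import Pool.Agent.LLT.ModB

/-!
Local limit theorem for the total stopping time: the times in an arithmetic progression.
-/

set_option autoImplicit false

namespace Pool.Agent.LLT

open Finset Filter Topology

theorem mod_window (F : Finset ℕ) : ∃ d : ℝ, Tendsto (fun x : ℕ =>
      ({n : ℕ | 1 ≤ n ∧ n ≤ x ∧ ∃ k : ℕ, Pool.Agent.Collatz3.FW.Tn^[k] n ∈ F}.ncard : ℝ) / x)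
        atTop (𝓝 d) ∧
    ∀ m : ℕ, 1 ≤ m → ∀ ε : ℝ, 0 < ε → ∃ H₀ : ℕ, ∀ H : ℕ, H₀ ≤ H → ∃ x₀ : ℕ,
      ∀ (x : ℕ) (t : ℤ), x₀ ≤ x →
      |∑ b ∈ range H, cnt F x (t + m * b) - d * (x * H) / √(2 * Real.pi * VV * Real.log x) *
        Real.exp (-(t - gg * Real.log x) ^ 2 / (2 * VV * Real.log x))| ≤
        ε * (x * H) / √(Real.log x) := by
  obtain ⟨d, h1, -, -, h4⟩ := llt F
  refine ⟨d, h1, fun m hm ε hε => ?_⟩
  obtain ⟨H₀, -, h⟩ := Mod.mod_core (fun _ _ hM hA => inv hM hA)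
    (fun _ _ hM hA hdis => loc hM hA hdis) (fun _ _ hM hA hdis => chain hM hA hdis) th_mem
    (fun _ h => close_pow h) F h4 hm hε
  exact ⟨H₀, h⟩

end Pool.Agent.LLT
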