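import Mathlib
import Pool.Agent.Collatz3.VDefs

set_option autoImplicit false

/-!
The law of the sum of `K` geometric letters: recursion, masses, total variation of a shift.
-/

namespace Pool.Agent.LLT

open Finset

/-- `nb K s`: the mass of the sum `s` for `K` letters. -/
noncomputable def nb : ℕ → ℕ → ℝ
  | 0, 0 => 1
  | 0, _ + 1 => 0
  | _ + 1, 0 => 0
  | K + 1, s + 1 => (nb (K + 1) s + nb K s) / 2

theorem nb_zero_zero : nb 0 0 = 1 := by rw [nb]
theorem nb_zero_succ (s : ℕ) : nb 0 (s + 1) = 0 := by rw [nb]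
theorem nb_succ_zero (K : ℕ) : nb (K + 1) 0 = 0 := by rw [nb]
theorem nb_succ (K s : ℕ) : nb (K + 1) (s + 1) = (nb (K + 1) s + nb K s) / 2 := by rw [nb]

theorem nb_choose (K s : ℕ) : nb (K + 1) (s + 1) = (s.choose K : ℝ) / 2 ^ (s + 1) := by
  induction s generalizing K with
  | zero =>
    rw [nb_succ, nb_succ_zero]
    cases K with
    | zero => rw [nb_zero_zero]; norm_num
    | succ K => rw [nb_succ_zero]; simp
  | succ s ih =>
    rw [nb_succ, ih]
    cases K with
    | zero => rw [nb_zero_succ]; simp; ring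
    | succ K =>
      rw [ih, Nat.choose_succ_succ]
      push_cast
      ring

theorem nb_nonneg (K s : ℕ) : 0 ≤ nb K s := by
  induction s generalizing K with
  | zero =>
    cases K with
    | zero => rw [nb_zero_zero]; norm_num
    | succ K => rw [nb_succ_zero]
  | succ s ih =>
    cases K with
    | zero => rw [nb_zero_succ]
    | succ K =>
      rw [nb_succ]
      have := ih (K + 1)
      have := ih K
      linarith

theorem nb_mass (N K : ℕ) : ∑ s ∈ range N, nb K s ≤ 1 := by
  induction N generalizing K with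
  | zero => simp
  | succ N ih =>
    rw [sum_range_succ']
    cases K with
    | zero =>
      rw [nb_zero_zero]
      simp [nb_zero_succ]
    | succ K =>
      rw [nb_succ_zero, add_zero]
      have h1 : ∑ s ∈ range N, nb (K + 1) (s + 1) =
          (∑ s ∈ range N, nb (K + 1) s + ∑ s ∈ range N, nb K s) / 2 := by
        rw [← sum_add_distrib, sum_div]
        exact sum_congr rfl fun s _ => nb_succ K s
      rw [h1]
      have := ih (K + 1)
      have := ih K
      linarith

theorem nb_mass_le (R : Finset ℕ) (K : ℕ) : ∑ s ∈ R, nb K s ≤ 1 := by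
  obtain ⟨N, hN⟩ : ∃ N, R ⊆ range N := ⟨R.sup id + 1, fun x hx => by
    rw [mem_range]
    exact Nat.lt_succ_of_le (le_sup (f := id) hx)⟩
  exact (sum_le_sum_of_subset_of_nonneg hN fun s _ _ => nb_nonneg K s).trans (nb_mass N K)

/-- The central binomial bound. -/
theorem central_sq (n : ℕ) : ((Nat.centralBinom n : ℝ)) ^ 2 * (2 * n + 1) ≤ 16 ^ n := by
  induction n with
  | zero => simp
  | succ n ih =>
    have h1 : ((n : ℝ) + 1) * (Nat.centralBinom (n + 1) : ℝ) =
        2 * (2 * n + 1) * (Nat.centralBinom n : ℝ) := by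
      exact_mod_cast Nat.succ_mul_centralBinom_succ n
    have h2 : (0 : ℝ) < (n : ℝ) + 1 := by positivity
    have h3 : ((n : ℝ) + 1) ^ 2 * ((Nat.centralBinom (n + 1) : ℝ) ^ 2 * (2 * ((n : ℝ) + 1) + 1)) =
        ((Nat.centralBinom n : ℝ) ^ 2 * (2 * n + 1)) * (4 * (2 * n + 1) * (2 * n + 3)) := by
      have : ((n : ℝ) + 1) ^ 2 * ((Nat.centralBinom (n + 1) : ℝ) ^ 2 * (2 * ((n : ℝ) + 1) + 1)) =
        (((n : ℝ) + 1) * (Nat.centralBinom (n + 1) : ℝ)) ^ 2 * (2 * ((n : ℝ) + 1) + 1) := by ring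
      rw [this, h1]
      ring
    have h4 : (4 * (2 * (n : ℝ) + 1) * (2 * n + 3)) ≤ 16 * ((n : ℝ) + 1) ^ 2 := by nlinarith
    have h5 : ((n : ℝ) + 1) ^ 2 * ((Nat.centralBinom (n + 1) : ℝ) ^ 2 * (2 * ((n : ℝ) + 1) + 1)) ≤
        ((n : ℝ) + 1) ^ 2 * 16 ^ (n + 1) := by
      rw [h3]
      calc (Nat.centralBinom n : ℝ) ^ 2 * (2 * n + 1) * (4 * (2 * n + 1) * (2 * n + 3)) ≤
          16 ^ n * (16 * ((n : ℝ) + 1) ^ 2) := mul_le_mul ih h4 (by positivity) (by positivity)
        _ = ((n : ℝ) + 1) ^ 2 * 16 ^ (n + 1) := by ring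
    have h6 := le_of_mul_le_mul_left h5 (by positivity)
    push_cast
    exact h6

theorem choose_sq (n j : ℕ) : ((n.choose j : ℝ)) ^ 2 * (n + 1) ≤ 2 * 4 ^ n := by
  have h0 : (n.choose j : ℝ) ≤ (n.choose (n / 2) : ℝ) := by exact_mod_cast Nat.choose_le_middle j n
  have h1 : (0 : ℝ) ≤ n.choose j := Nat.cast_nonneg _
  have h2 : ((n.choose j : ℝ)) ^ 2 ≤ ((n.choose (n / 2) : ℝ)) ^ 2 := pow_le_pow_left₀ h1 h0 2
  refine (mul_le_mul_of_nonneg_right h2 (by positivity)).trans ?_
  rcases Nat.even_or_odd' n with ⟨m, rfl | rfl⟩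
  · have h3 := central_sq m
    rw [Nat.centralBinom_eq_two_mul_choose] at h3
    rw [Nat.mul_div_cancel_left m (by norm_num)]
    push_cast
    have h4 : (4 : ℝ) ^ (2 * m) = 16 ^ m := by rw [pow_mul]; norm_num
    rw [h4]
    have : (0 : ℝ) < 16 ^ m := by positivity
    linarith
  · have h3 := central_sq (m + 1)
    have e : (2 * m + 1) / 2 = m := by omega
    rw [e]
    have h5 : Nat.centralBinom (m + 1) = 2 * (2 * m + 1).choose m := by
      rw [Nat.centralBinom_eq_two_mul_choose]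
      have h6 : 2 * (m + 1) = (2 * m + 1) + 1 := by ring
      rw [h6, Nat.choose_succ_succ]
      have h7 : (2 * m + 1).choose (m + 1) = (2 * m + 1).choose m :=
        Nat.choose_symm_half m
      rw [Nat.succ_eq_add_one, h7]
      ring
    rw [h5] at h3
    push_cast at h3 ⊢
    have h4 : (4 : ℝ) ^ (2 * m + 1) = 4 * 16 ^ m := by rw [pow_succ, pow_mul]; norm_num; ring
    rw [h4]
    have h8 : (0 : ℝ) ≤ ((2 * m + 1).choose m : ℝ) ^ 2 := by positivity
    have h9 : (16 : ℝ) ^ (m + 1) = 16 * 16 ^ m := by rw [pow_succ]; ring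
    rw [h9] at h3
    have h10 : (2 * ((2 * m + 1).choose m : ℝ)) ^ 2 * (2 * ((m : ℝ) + 1) + 1) =
      4 * (((2 * m + 1).choose m : ℝ) ^ 2 * (2 * m + 1 + 1)) + 4 * ((2 * m + 1).choose m : ℝ) ^ 2 := by
      ring
    rw [h10] at h3
    have h11 : (0 : ℝ) < 16 ^ m := by positivity
    linarith

theorem nb_le (K s : ℕ) : nb (K + 1) s ≤ 1 / √(K + 1) := by
  have hK : (0 : ℝ) < √((K : ℝ) + 1) := Real.sqrt_pos.2 (by positivity)
  cases s with
  | zero => rw [nb_succ_zero]; positivity
  | succ s =>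
    rw [nb_choose]
    rcases lt_or_ge s K with h | h
    · rw [Nat.choose_eq_zero_of_lt h]
      simp only [CharP.cast_eq_zero, zero_div]
      positivity
    · rw [div_le_div_iff₀ (by positivity) hK]
      have h1 := choose_sq s K
      have h2 : (0 : ℝ) ≤ s.choose K := Nat.cast_nonneg _
      have h3 : ((s.choose K : ℝ) * √((K : ℝ) + 1)) ^ 2 ≤ (1 * 2 ^ (s + 1)) ^ 2 := by
        rw [mul_pow, Real.sq_sqrt (by positivity)]
        have h4 : ((K : ℝ) + 1) ≤ (s : ℝ) + 1 := by
          have : (K : ℝ) ≤ s := by exact_mod_cast h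
          linarith
        have h5 : (s.choose K : ℝ) ^ 2 * ((K : ℝ) + 1) ≤ (s.choose K : ℝ) ^ 2 * ((s : ℝ) + 1) :=
          mul_le_mul_of_nonneg_left h4 (by positivity)
        have h6 : ((1 : ℝ) * 2 ^ (s + 1)) ^ 2 = 4 * 4 ^ s := by
          rw [one_mul, ← pow_mul, mul_comm (s + 1) 2, pow_mul]
          norm_num
          ring
        have h7 : (0 : ℝ) < 4 ^ s := by positivity
        rw [h6]
        linarith
      exact le_of_sq_le_sq h3 (by positivity)

/-- Unimodality. -/
theorem nb_up {K s : ℕ} (h : s ≤ 2 * K) : nb (K + 1) s ≤ nb (K + 1) (s + 1) := by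
  cases s with
  | zero => rw [nb_succ_zero]; exact nb_nonneg _ _
  | succ s =>
    rw [nb_choose, nb_choose]
    rcases lt_or_ge s K with h1 | h1
    · rw [Nat.choose_eq_zero_of_lt h1]
      simp only [CharP.cast_eq_zero, zero_div]
      positivity
    · have h2 : (s + 1) * s.choose K = (s + 1).choose K * (s + 1 - K) := by
        have := Nat.choose_mul_succ_eq s K
        linarith
      have h3 : ((s : ℝ) + 1) * (s.choose K : ℝ) = ((s + 1).choose K : ℝ) * ((s : ℝ) + 1 - K) := by
        have h4 : (((s + 1 - K : ℕ)) : ℝ) = (s : ℝ) + 1 - K := by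
          rw [Nat.cast_sub (by omega)]
          push_cast
          ring
        rw [← h4]
        exact_mod_cast h2
      have h5 : (s : ℝ) + 1 ≤ 2 * K := by exact_mod_cast h
      have h6 : (K : ℝ) ≤ s := by exact_mod_cast h1
      have h7 : (0 : ℝ) ≤ s.choose K := Nat.cast_nonneg _
      have h8 : (0 : ℝ) ≤ (s + 1).choose K := Nat.cast_nonneg _
      rw [div_le_div_iff₀ (by positivity) (by positivity), pow_succ 2 (s + 1)]
      have h9 : 2 * (s.choose K : ℝ) ≤ ((s + 1).choose K : ℝ) := by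
        have h10 : ((s : ℝ) + 1) * (2 * (s.choose K : ℝ)) ≤ ((s : ℝ) + 1) * ((s + 1).choose K : ℝ) := by
          nlinarith
        exact le_of_mul_le_mul_left h10 (by positivity)
      have h11 : (0 : ℝ) < 2 ^ (s + 1) := by positivity
      nlinarith

theorem nb_down {K s : ℕ} (h : 2 * K + 1 ≤ s) : nb (K + 1) (s + 1) ≤ nb (K + 1) s := by
  cases s with
  | zero => omega
  | succ s =>
    rw [nb_choose, nb_choose]
    have h2 : (s + 1) * s.choose K = (s + 1).choose K * (s + 1 - K) := by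
      have := Nat.choose_mul_succ_eq s K
      linarith
    have h3 : ((s : ℝ) + 1) * (s.choose K : ℝ) = ((s + 1).choose K : ℝ) * ((s : ℝ) + 1 - K) := by
      have h4 : (((s + 1 - K : ℕ)) : ℝ) = (s : ℝ) + 1 - K := by
        rw [Nat.cast_sub (by omega)]
        push_cast
        ring
      rw [← h4]
      exact_mod_cast h2
    have h5 : 2 * (K : ℝ) + 1 ≤ (s : ℝ) + 1 := by exact_mod_cast h
    have h7 : (0 : ℝ) ≤ s.choose K := Nat.cast_nonneg _
    have h8 : (0 : ℝ) ≤ (s + 1).choose K := Nat.cast_nonneg _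
    rw [div_le_div_iff₀ (by positivity) (by positivity), pow_succ 2 (s + 1)]
    have h9 : ((s + 1).choose K : ℝ) ≤ 2 * (s.choose K : ℝ) := by
      have h10 : ((s : ℝ) + 1) * ((s + 1).choose K : ℝ) ≤ ((s : ℝ) + 1) * (2 * (s.choose K : ℝ)) := by
        nlinarith
      exact le_of_mul_le_mul_left h10 (by positivity)
    have h11 : (0 : ℝ) < 2 ^ (s + 1) := by positivity
    nlinarith

/-- Total variation of a shift by one. -/
theorem nb_tv (K N : ℕ) : ∑ s ∈ range N, |nb (K + 1) (s + 1) - nb (K + 1) s| ≤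
    2 / √(K + 1) := by
  have hmax := nb_le K (2 * K + 1)
  have key : ∀ N, ∑ s ∈ range N, |nb (K + 1) (s + 1) - nb (K + 1) s| ≤
      if N ≤ 2 * K + 1 then nb (K + 1) N else 2 * nb (K + 1) (2 * K + 1) - nb (K + 1) N := by
    intro N
    induction N with
    | zero => simp [nb_succ_zero]
    | succ N ih =>
      rw [sum_range_succ]
      rcases Nat.lt_or_ge N (2 * K + 1) with h | h
      · rw [if_pos (by omega)] at ih
        rw [if_pos (by omega)]
        have h1 := nb_up (K := K) (s := N) (by omega)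
        rw [abs_of_nonneg (by linarith)]
        linarith
      · rw [if_neg (by omega)]
        have h1 := nb_down (K := K) (s := N) h
        rw [abs_of_nonpos (by linarith)]
        by_cases h2 : N ≤ 2 * K + 1
        · rw [if_pos h2] at ih
          have h3 : N = 2 * K + 1 := by omega
          rw [h3] at ih ⊢
          linarith
        · rw [if_neg h2] at ih
          linarith
  refine (key N).trans ?_
  have h0 := nb_nonneg (K + 1) N
  have h1 : 2 / √((K : ℝ) + 1) = 2 * (1 / √((K : ℝ) + 1)) := by ring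
  have h2 : 0 ≤ 1 / √((K : ℝ) + 1) := by positivity
  rw [h1]
  split_ifs
  · have := nb_le K N
    linarith
  · linarith

/-- One letter more. -/
theorem nb_tv_succ (K N : ℕ) : ∑ s ∈ range N, |nb (K + 1) s - nb (K + 2) s| ≤
    4 / √(K + 1) := by
  have h1 : ∀ s, nb (K + 1) s - nb (K + 2) s = 2 * (nb (K + 2) (s + 1) - nb (K + 2) s) := by
    intro s
    have := nb_succ (K + 1) s
    linarith
  simp_rw [h1, abs_mul, ← mul_sum]
  have h2 := nb_tv (K + 1) N
  have h3 : √((K : ℝ) + 1) ≤ √(((K + 1 : ℕ) : ℝ) + 1) := by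
    apply Real.sqrt_le_sqrt
    push_cast
    linarith
  have h4 : (0 : ℝ) < √((K : ℝ) + 1) := Real.sqrt_pos.2 (by positivity)
  have h5 : 2 / √(((K + 1 : ℕ) : ℝ) + 1) ≤ 2 / √((K : ℝ) + 1) :=
    div_le_div_of_nonneg_left (by norm_num) h4 h3
  have h6 : |(2 : ℝ)| = 2 := abs_of_pos (by norm_num)
  rw [h6]
  have h7 : 4 / √((K : ℝ) + 1) = 2 * (2 / √((K : ℝ) + 1)) := by ring
  rw [h7]
  linarith

end Pool.Agent.LLT
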