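import Pool.Agent.LLT.QDefs
import Pool.Agent.SLD.ALE

/-! Module QAL: all residues for time families, from the odd ones (after SLD module ALE). -/

set_option autoImplicit false
set_option linter.unusedVariables false

namespace Pool.Agent.LLT.Q

open Finset Filter Topology
open Pool.Agent.SLD

theorem QAL_step (σ : ℤ) (hσ : σ = 1 ∨ σ = -1) (K : ℕ) (A A' : Set ℤ)
    (hA : ∀ n : ℤ, (K : ℤ) < |n| → (T n ∈ A' ↔ n ∈ A)) (q : ℕ)
    (hq : Odd q) (X : ℕ) (r : ℤ) :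
    ∃ r' : ℤ, |(N σ A X q r : ℝ) - E σ A X q r - N σ A' (X / 2) q r'| ≤ K := by
  obtain ⟨c, hc⟩ := hq
  have hcz : (q : ℤ) = 2 * c + 1 := by exact_mod_cast hc
  refine ⟨(c + 1) * r, ?_⟩
  -- the even part
  have hfin := ALE_fin σ hσ X
  have e1 : N σ A X q r = E σ A X q r +
      {n : ℤ | Even n ∧ 1 ≤ σ * n ∧ σ * n ≤ X ∧ (q : ℤ) ∣ n - r ∧ n ∈ A}.ncard := by
    have f1 : {n : ℤ | Odd n ∧ 1 ≤ σ * n ∧ σ * n ≤ X ∧ (q : ℤ) ∣ n - r ∧ n ∈ A}.Finite := by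
      refine hfin.1.subset ?_
      rintro n ⟨_, h1, h2, _⟩
      exact ⟨h1, h2⟩
    have f2 : {n : ℤ | Even n ∧ 1 ≤ σ * n ∧ σ * n ≤ X ∧ (q : ℤ) ∣ n - r ∧ n ∈ A}.Finite := by
      refine hfin.1.subset ?_
      rintro n ⟨_, h1, h2, _⟩
      exact ⟨h1, h2⟩
    have f3 : Disjoint {n : ℤ | Odd n ∧ 1 ≤ σ * n ∧ σ * n ≤ X ∧ (q : ℤ) ∣ n - r ∧ n ∈ A}
        {n : ℤ | Even n ∧ 1 ≤ σ * n ∧ σ * n ≤ X ∧ (q : ℤ) ∣ n - r ∧ n ∈ A} := by
      rw [Set.disjoint_left]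
      rintro n ⟨h1, _⟩ ⟨h2, _⟩
      exact (Int.not_even_iff_odd.2 h1) h2
    unfold N E
    rw [← Set.ncard_union_eq f3 f1 f2]
    apply congrArg
    ext n
    constructor
    · intro h
      rcases Int.even_or_odd n with h0 | h0
      · exact Or.inr ⟨h0, h⟩
      · exact Or.inl ⟨h0, h⟩
    · rintro (⟨_, h⟩ | ⟨_, h⟩) <;> exact h
  have e2 : N σ A' (X / 2) q ((c + 1) * r) =
      ((fun m : ℤ => 2 * m) '' {n : ℤ | 1 ≤ σ * n ∧ σ * n ≤ ((X / 2 : ℕ) : ℤ) ∧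
        (q : ℤ) ∣ n - (c + 1) * r ∧ n ∈ A'}).ncard := by
    unfold N
    rw [Set.ncard_image_of_injective]
    intro a b hab
    simp only at hab
    omega
  rw [e1, e2]
  push_cast
  have e3 : ∀ a b c : ℝ, a + b - a - c = b - c := fun a b c => by ring
  rw [e3]
  have hfin2 := ALE_fin σ hσ (X / 2)
  refine ALE_ncard (F := {n : ℤ | 1 ≤ σ * n ∧ σ * n ≤ K}) ?_ ?_ (ALE_fin σ hσ K).1 ?_ ?_
    (ALE_fin σ hσ K).2
  · refine hfin.1.subset ?_
    rintro n ⟨_, h1, h2, _⟩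
    exact ⟨h1, h2⟩
  · apply Set.Finite.image
    refine hfin2.1.subset ?_
    rintro n ⟨h1, h2, _⟩
    exact ⟨h1, by exact_mod_cast h2⟩
  · rintro n ⟨⟨m, hm⟩, h1, h2, h3, h4⟩
    by_cases hK : σ * n ≤ K
    · exact Or.inr ⟨h1, hK⟩
    · refine Or.inl ⟨m, ⟨?_, ?_, ?_, ?_⟩, by simp only; omega⟩
      · rcases hσ with rfl | rfl <;> omega
      · rcases hσ with rfl | rfl <;> omega
      · have e4 : m - (c + 1) * r = q * (m - (c + 1) * r) - c * (n - r) + q * (c * r) := by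
          rw [hm, hcz]
          ring
        rw [e4]
        exact dvd_add (dvd_sub (Dvd.intro _ rfl) (h3.mul_left _)) (Dvd.intro _ rfl)
      · have hn : (K : ℤ) < |n| := by
          rcases hσ with rfl | rfl
          · rw [abs_of_pos (by omega)]
            omega
          · rw [abs_of_neg (by omega)]
            omega
        have h5 := (hA n hn).2 h4
        have e5 : T n = m := by
          unfold T
          rw [if_pos ⟨m, by omega⟩]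
          omega
        rwa [e5] at h5
  · rintro n ⟨m, ⟨h1, h2, h3, h4⟩, hm⟩
    simp only at hm
    have h1' : 1 ≤ σ * n := by
      rcases hσ with rfl | rfl <;> omega
    by_cases hK : σ * n ≤ K
    · exact Or.inr ⟨h1', hK⟩
    · refine Or.inl ⟨⟨m, by omega⟩, h1', ?_, ?_, ?_⟩
      · rcases hσ with rfl | rfl <;> omega
      · have e4 : n - r = 2 * (m - (c + 1) * r) + q * r := by
          rw [← hm, hcz]
          ring
        rw [e4]
        exact dvd_add (h3.mul_left _) (Dvd.intro _ rfl)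
      · have hn : (K : ℤ) < |n| := by
          rcases hσ with rfl | rfl
          · rw [abs_of_pos (by omega)]
            omega
          · rw [abs_of_neg (by omega)]
            omega
        refine (hA n hn).1 ?_
        have e5 : T n = m := by
          unfold T
          rw [if_pos ⟨m, by omega⟩]
          omega
        rwa [e5]

theorem QAL_ind (σ : ℤ) (hσ : σ = 1 ∨ σ = -1) (K : ℕ) (A : ℤ → Set ℤ) (hA : EvFam K A) (q : ℕ)
    (hq : Odd q) (X Y₀ : ℕ) (hY₀ : 2 ≤ Y₀) (D : ℝ) (hD : 0 ≤ D)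
    (h : ∀ (b t : ℤ) (Y : ℕ), Y₀ ≤ Y → Y ≤ X →
      |(E σ (A t) Y q b : ℝ) - E σ (A t) Y 1 0 / q| ≤ D * Y) :
    ∀ (Y : ℕ) (r t : ℤ), Y ≤ X → |(N σ (A t) Y q r : ℝ) - N σ (A t) Y 1 0 / q| ≤
      2 * D * Y + 2 * K * (Nat.log 2 Y + 1) + Y₀ := by
  have hq1 : (1 : ℝ) ≤ q := by
    obtain ⟨c, hc⟩ := hq
    have : 1 ≤ q := by omega
    exact_mod_cast this
  intro Y
  induction Y using Nat.strong_induction_on with
  | _ Y ih =>
    intro r t hYX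
    have hK0 : (0 : ℝ) ≤ 2 * K * (Nat.log 2 Y + 1) := by positivity
    have hDY : 0 ≤ 2 * D * (Y : ℝ) := by positivity
    by_cases hY : Y < Y₀
    · have a1 : (N σ (A t) Y q r : ℝ) ≤ Y := by exact_mod_cast ALE_N_le σ hσ (A t) Y q r
      have a2 : (N σ (A t) Y 1 0 : ℝ) ≤ Y := by exact_mod_cast ALE_N_le σ hσ (A t) Y 1 0
      have a3 : (N σ (A t) Y 1 0 : ℝ) / q ≤ Y :=
        (div_le_self (Nat.cast_nonneg _) hq1).trans a2
      have a4 : (0 : ℝ) ≤ N σ (A t) Y q r := Nat.cast_nonneg _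
      have a5 : (0 : ℝ) ≤ (N σ (A t) Y 1 0 : ℝ) / q := by positivity
      have a6 : (Y : ℝ) ≤ Y₀ := by exact_mod_cast hY.le
      rw [abs_le]
      constructor <;> linarith
    · have hY' : Y₀ ≤ Y := not_lt.1 hY
      obtain ⟨r', hr'⟩ := QAL_step σ hσ K (A t) (A (t - 1)) (hA t) q hq Y r
      obtain ⟨r'', hr''⟩ := QAL_step σ hσ K (A t) (A (t - 1)) (hA t) 1 odd_one Y 0
      rw [ALE_N_one σ (A (t - 1)) (Y / 2) r''] at hr''
      have b1 := ih (Y / 2) (by omega) r' (t - 1) (by omega)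
      have b2 := h r t Y hY' hYX
      have b3 : (((Y / 2 : ℕ) : ℕ) : ℝ) ≤ (Y : ℝ) / 2 := Nat.cast_div_le
      have b4 : Nat.log 2 Y = Nat.log 2 (Y / 2) + 1 :=
        Nat.log_of_one_lt_of_le one_lt_two (by omega)
      have b5 : |((N σ (A t) Y 1 0 : ℝ) - E σ (A t) Y 1 0 -
          N σ (A (t - 1)) (Y / 2) 1 0) / q| ≤ K := by
        rw [abs_div, abs_of_pos (by linarith : (0 : ℝ) < q)]
        exact (div_le_self (abs_nonneg _) hq1).trans hr''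
      have b6 : (N σ (A t) Y q r : ℝ) - N σ (A t) Y 1 0 / q =
          ((N σ (A t) Y q r : ℝ) - E σ (A t) Y q r - N σ (A (t - 1)) (Y / 2) q r') +
          ((E σ (A t) Y q r : ℝ) - E σ (A t) Y 1 0 / q) +
          ((N σ (A (t - 1)) (Y / 2) q r' : ℝ) - N σ (A (t - 1)) (Y / 2) 1 0 / q) -
          ((N σ (A t) Y 1 0 : ℝ) - E σ (A t) Y 1 0 - N σ (A (t - 1)) (Y / 2) 1 0) / q := by ring
      have b7 : 2 * D * ((Y / 2 : ℕ) : ℝ) ≤ D * Y := by
        have := mul_le_mul_of_nonneg_left b3 hD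
        linarith
      rw [b6, b4]
      push_cast
      rw [abs_le] at hr' b1 b2 b5 ⊢
      obtain ⟨c1, c2⟩ := hr'
      obtain ⟨c3, c4⟩ := b1
      obtain ⟨c5, c6⟩ := b2
      obtain ⟨c7, c8⟩ := b5
      have c9 : 2 * (K : ℝ) * ((Nat.log 2 (Y / 2) : ℝ) + 1 + 1) =
        2 * K * ((Nat.log 2 (Y / 2) : ℝ) + 1) + 2 * K := by ring
      rw [c9]
      constructor <;> linarith

theorem thm_QAL (h1 : St_QOD) : St_QAL := by
  intro B
  obtain ⟨δ, hδ, C, hC⟩ := h1 B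
  refine ⟨min (δ / 2) (1 / 8), lt_min (by linarith) (by norm_num),
    2 * |C| * 2 ^ B + 36 * (8 * ((B : ℝ) + 1)) ^ B, ?_⟩
  intro σ r K A t X q hσ hA hX hK hq hqX
  have hx : (2 : ℝ) ≤ X := by exact_mod_cast hX
  have hx0 : (0 : ℝ) < X := by linarith
  have hx1 : (1 : ℝ) ≤ X := by linarith
  have hL : 0 < Real.log X := Real.log_pos (by linarith)
  have hq1 : (1 : ℝ) ≤ q := by
    obtain ⟨c, hc⟩ := hq
    have : 1 ≤ q := by omega
    exact_mod_cast this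
  have hq0 : (0 : ℝ) < q := by linarith
  have hs1 : 1 < (X : ℝ) ^ ((1 : ℝ) / 2) := Real.one_lt_rpow (by linarith) (by norm_num)
  have hY₀2 : 2 ≤ ⌈(X : ℝ) ^ ((1 : ℝ) / 2)⌉₊ := by
    have : 1 < ⌈(X : ℝ) ^ ((1 : ℝ) / 2)⌉₊ := by
      rw [Nat.lt_ceil]
      exact_mod_cast hs1
    omega
  have hpow : ∀ (n Y : ℕ), (n : ℝ) ≤ (X : ℝ) ^ (min (δ / 2) (1 / 8)) →
      (X : ℝ) ^ ((1 : ℝ) / 2) ≤ Y → (n : ℝ) ≤ (Y : ℝ) ^ δ := by
    intro n Y hn hY
    have hY1 : (1 : ℝ) ≤ Y := by linarith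
    have a1 : (X : ℝ) ^ (min (δ / 2) (1 / 8)) ≤ (X : ℝ) ^ (δ / 2) :=
      Real.rpow_le_rpow_of_exponent_le hx1 (min_le_left _ _)
    have a2 : (X : ℝ) ^ (δ / 2) = ((X : ℝ) ^ ((1 : ℝ) / 2)) ^ δ := by
      rw [← Real.rpow_mul hx0.le]
      apply congrArg
      ring
    have a3 : ((X : ℝ) ^ ((1 : ℝ) / 2)) ^ δ ≤ (Y : ℝ) ^ δ :=
      Real.rpow_le_rpow (by linarith) hY hδ.le
    linarith [a1, a2, a3]
  have hmain := QAL_ind σ hσ K A hA q hq X ⌈(X : ℝ) ^ ((1 : ℝ) / 2)⌉₊ hY₀2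
    (|C| * 2 ^ B / (q * Real.log X ^ B)) (by positivity) (by
      intro b t Y hY hYX
      have hYr : (X : ℝ) ^ ((1 : ℝ) / 2) ≤ Y := (Nat.le_ceil _).trans (by exact_mod_cast hY)
      have hY1 : (1 : ℝ) < Y := by linarith
      have b0 := hC σ b K A t Y q hσ hA (hY₀2.trans hY) (hpow K Y hK hYr) hq (hpow q Y hqX hYr)
      have hlogY : Real.log X / 2 ≤ Real.log Y := by
        have := Real.log_le_log (by linarith) hYr
        rw [Real.log_rpow hx0] at this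
        linarith
      have b1 : (Real.log X / 2) ^ B ≤ Real.log Y ^ B :=
        pow_le_pow_left₀ (by linarith) hlogY B
      have b2 : C * Y / (q * Real.log Y ^ B) ≤ |C| * Y / (q * (Real.log X / 2) ^ B) := by
        have b3 : C * Y ≤ |C| * Y := mul_le_mul_of_nonneg_right (le_abs_self C) (by linarith)
        have b4 : 0 < (q : ℝ) * (Real.log X / 2) ^ B := by positivity
        have b5 : (q : ℝ) * (Real.log X / 2) ^ B ≤ q * Real.log Y ^ B :=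
          mul_le_mul_of_nonneg_left b1 hq0.le
        exact div_le_div₀ (by positivity) b3 b4 b5
      refine b0.trans (b2.trans (le_of_eq ?_))
      rw [div_pow]
      field_simp)
    X r t le_rfl
  refine hmain.trans ?_
  have hc1 : (⌈(X : ℝ) ^ ((1 : ℝ) / 2)⌉₊ : ℝ) ≤ 2 * (X : ℝ) ^ ((1 : ℝ) / 2) := by
    have := (Nat.ceil_lt_add_one (by positivity : 0 ≤ (X : ℝ) ^ ((1 : ℝ) / 2))).le
    linarith
  have hc2 : (K : ℝ) ≤ (X : ℝ) ^ ((1 : ℝ) / 8) :=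
    hK.trans (Real.rpow_le_rpow_of_exponent_le hx1 (min_le_right _ _))
  have hc3 : (q : ℝ) ≤ (X : ℝ) ^ ((1 : ℝ) / 8) :=
    hqX.trans (Real.rpow_le_rpow_of_exponent_le hx1 (min_le_right _ _))
  have hc4 := ALE_natlog X hX
  have hp0 : (0 : ℝ) < (X : ℝ) ^ ((1 : ℝ) / 8) := by positivity
  have hc5 : 2 * (K : ℝ) * ((Nat.log 2 X : ℝ) + 1) ≤ 34 * (X : ℝ) ^ ((1 : ℝ) / 4) := by
    have e : (X : ℝ) ^ ((1 : ℝ) / 4) = (X : ℝ) ^ ((1 : ℝ) / 8) * (X : ℝ) ^ ((1 : ℝ) / 8) := by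
      rw [← Real.rpow_add hx0]
      norm_num
    have h := mul_le_mul hc2 hc4 (by positivity) hp0.le
    rw [e]
    nlinarith [h]
  have hc6 : (X : ℝ) ^ ((1 : ℝ) / 4) ≤ (X : ℝ) ^ ((3 : ℝ) / 4) :=
    Real.rpow_le_rpow_of_exponent_le hx1 (by norm_num)
  have hc7 : (X : ℝ) ^ ((1 : ℝ) / 2) ≤ (X : ℝ) ^ ((3 : ℝ) / 4) :=
    Real.rpow_le_rpow_of_exponent_le hx1 (by norm_num)
  have hc8 : (X : ℝ) ^ ((3 : ℝ) / 4) ≤
      (8 * ((B : ℝ) + 1)) ^ B * X / (q * Real.log X ^ B) := by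
    rw [le_div_iff₀ (by positivity)]
    have e : (X : ℝ) = (X : ℝ) ^ ((3 : ℝ) / 4) * ((X : ℝ) ^ ((1 : ℝ) / 8) *
        (X : ℝ) ^ ((1 : ℝ) / 8)) := by
      rw [← Real.rpow_add hx0, ← Real.rpow_add hx0]
      norm_num
    have h5 := mul_le_mul hc3 (ALE_log B X hx1) (by positivity) hp0.le
    have h6 := mul_le_mul_of_nonneg_left h5 (by positivity : (0 : ℝ) ≤ (X : ℝ) ^ ((3 : ℝ) / 4))
    refine h6.trans (le_of_eq ?_)
    conv_rhs => rw [e]
    ring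
  have e9 : (2 * |C| * 2 ^ B + 36 * (8 * ((B : ℝ) + 1)) ^ B) * X / (q * Real.log X ^ B) =
      2 * (|C| * 2 ^ B / (q * Real.log X ^ B)) * X +
      36 * ((8 * ((B : ℝ) + 1)) ^ B * X / (q * Real.log X ^ B)) := by ring
  rw [e9]
  linarith

end Pool.Agent.LLT.Q
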