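import Pool.Agent.LLT.QDefs
import Pool.Agent.LLT.Final

/-!
The local limit theorem in residue classes: from the level of distribution of the level sets.
-/

set_option autoImplicit false

namespace Pool.Agent.LLT.Q

open Finset Filter Topology
open Pool.Agent.SLD (T N)
open Pool.Agent.Collatz3.FW (Tn)

/-- the integers `1 ≤ n ≤ x`, `n = r` modulo `q`, whose orbit meets `F` for the first time at
time `t` -/
noncomputable def cntq (F : Finset ℕ) (x : ℕ) (t : ℤ) (q r : ℕ) : ℝ :=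
  ({n : ℕ | 1 ≤ n ∧ n ≤ x ∧ n ≡ r [MOD q] ∧ ∃ k : ℕ, (k : ℤ) = t ∧ Tn^[k] n ∈ F ∧
    ∀ j < k, Tn^[j] n ∉ F}.ncard : ℝ)

/-- the level sets -/
def LS (F : Finset ℕ) (t : ℤ) : Set ℤ :=
  {n | ∃ k : ℕ, (k : ℤ) = t ∧ T^[k] n ∈ ((fun a : ℕ => (a : ℤ)) '' (F : Set ℕ)) ∧
    ∀ j < k, T^[j] n ∉ ((fun a : ℕ => (a : ℤ)) '' (F : Set ℕ))}

theorem ev_LS (F : Finset ℕ) : EvFam (F.sup id) (LS F) := by
  intro t n hn
  have h0 : n ∉ ((fun a : ℕ => (a : ℤ)) '' (F : Set ℕ)) := by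
    rintro ⟨a, ha, rfl⟩
    have h1 : a ≤ F.sup id := Finset.le_sup (f := id) (Finset.mem_coe.1 ha)
    simp only [Nat.abs_cast, Nat.cast_lt] at hn
    omega
  constructor
  · rintro ⟨k, hk, h1, h2⟩
    refine ⟨k + 1, by push_cast; omega, by rwa [Function.iterate_succ_apply], ?_⟩
    intro j hj
    rcases j with _ | j
    · exact h0
    · rw [Function.iterate_succ_apply]
      exact h2 j (by omega)
  · rintro ⟨k, hk, h1, h2⟩
    rcases k with _ | k
    · exact absurd h1 h0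
    · refine ⟨k, by push_cast at hk; omega, by rwa [Function.iterate_succ_apply] at h1, ?_⟩
      intro j hj
      have := h2 (j + 1) (by omega)
      rwa [Function.iterate_succ_apply] at this

theorem T_cast (n : ℕ) : T (n : ℤ) = (Tn n : ℤ) := by
  unfold T Tn
  split_ifs with h1 h2 h2
  · push_cast
    rfl
  · omega
  · omega
  · push_cast
    rfl

theorem iter_cast (k n : ℕ) : T^[k] (n : ℤ) = (Tn^[k] n : ℤ) := by
  induction k generalizing n with
  | zero => rfl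
  | succ k ih => rw [Function.iterate_succ_apply, Function.iterate_succ_apply, T_cast, ih]

theorem cntq_eq (F : Finset ℕ) (x : ℕ) (t : ℤ) (q r : ℕ) :
    cntq F x t q r = (N 1 (LS F t) x q r : ℝ) := by
  have hmem : ∀ m : ℕ, (m : ℤ) ∈ ((fun a : ℕ => (a : ℤ)) '' (F : Set ℕ)) ↔ m ∈ F := by
    intro m
    simp
  unfold cntq N
  congr 1
  rw [← Set.ncard_image_of_injective _ (Nat.cast_injective (R := ℤ))]
  congr 1
  ext n
  constructor
  · rintro ⟨m, ⟨h1, h2, h3, k, h4, h5, h6⟩, rfl⟩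
    refine ⟨by push_cast; omega, by push_cast; omega, ?_, k, h4, ?_, ?_⟩
    · exact (Nat.modEq_iff_dvd.1 h3.symm)
    · rw [iter_cast, hmem]
      exact h5
    · intro j hj
      rw [iter_cast, hmem]
      exact h6 j hj
  · rintro ⟨h1, h2, h3, k, h4, h5, h6⟩
    obtain ⟨m, rfl⟩ : ∃ m : ℕ, n = m := ⟨n.toNat, by omega⟩
    refine ⟨m, ⟨by omega, by omega, (Nat.modEq_iff_dvd.2 h3).symm, k, h4, ?_, ?_⟩, rfl⟩
    · rw [iter_cast, hmem] at h5
      exact h5
    · intro j hj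
      have := h6 j hj
      rwa [iter_cast, hmem] at this

theorem cntq_one (F : Finset ℕ) (x : ℕ) (t : ℤ) : cntq F x t 1 0 = cnt F x t := by
  unfold cntq cnt
  congr 2
  ext n
  constructor
  · rintro ⟨h1, h2, -, h3⟩
    exact ⟨h1, h2, h3⟩
  · rintro ⟨h1, h2, h3⟩
    exact ⟨h1, h2, Nat.modEq_one, h3⟩

/-- the level sets of the hitting times are equidistributed in the classes modulo odd `q` -/
theorem level (hA : St_QAL) : ∃ δ : ℝ, 0 < δ ∧ ∀ F : Finset ℕ, ∃ C : ℝ, 0 < C ∧ ∃ x₀ : ℕ,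
    ∀ (x : ℕ) (t : ℤ) (q r : ℕ), x₀ ≤ x → Odd q → (q : ℝ) ≤ (x : ℝ) ^ δ →
      |cntq F x t q r - cnt F x t / q| ≤ C * x / (q * Real.log x) := by
  obtain ⟨δ, hδ, C, hC⟩ := hA 1
  refine ⟨δ, hδ, fun F => ⟨|C| + 1, by positivity, ?_⟩⟩
  have h1 : Tendsto (fun x : ℕ => (x : ℝ) ^ δ) atTop atTop :=
    (tendsto_rpow_atTop hδ).comp tendsto_natCast_atTop_atTop
  obtain ⟨x₀, hx₀⟩ := eventually_atTop.1 (h1.eventually_ge_atTop ((F.sup id : ℕ) : ℝ))
  refine ⟨max x₀ 2, fun x t q r hx hq hqx => ?_⟩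
  have hx2 : 2 ≤ x := le_trans (le_max_right _ _) hx
  have h2 := hC 1 r (F.sup id) (LS F) t x q (Or.inl rfl) (ev_LS F) hx2
    (hx₀ x (le_trans (le_max_left _ _) hx)) hq hqx
  have h3 := cntq_eq F x t 1 0
  rw [cntq_one] at h3
  have h4 := cntq_eq F x t q r
  simp only [Nat.cast_zero] at h3
  rw [h4, h3]
  refine h2.trans ?_
  rw [pow_one]
  have hlog : 0 < Real.log x := Real.log_pos (by exact_mod_cast hx2)
  have hq0 : (0 : ℝ) < q := by exact_mod_cast hq.pos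
  apply div_le_div_of_nonneg_right _ (by positivity)
  apply mul_le_mul_of_nonneg_right _ (by positivity)
  linarith [le_abs_self C]

/-- the local limit theorem in residue classes -/
theorem lltq (hA : St_QAL) : ∃ δ : ℝ, 0 < δ ∧ ∀ F : Finset ℕ, ∃ d : ℝ, Tendsto (fun x : ℕ =>
      ({n : ℕ | 1 ≤ n ∧ n ≤ x ∧ ∃ k : ℕ, Tn^[k] n ∈ F}.ncard : ℝ) / x) atTop (𝓝 d) ∧
    (∃ C : ℝ, ∃ x₀ : ℕ, ∀ (x : ℕ) (t : ℤ) (q r : ℕ), x₀ ≤ x → Odd q → (q : ℝ) ≤ (x : ℝ) ^ δ →
      cntq F x t q r ≤ C * x / (q * √(Real.log x))) ∧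
    (0 < d → ∀ R : ℝ, ∃ c : ℝ, 0 < c ∧ ∃ x₀ : ℕ, ∀ (x : ℕ) (t : ℤ) (q r : ℕ), x₀ ≤ x →
      Odd q → (q : ℝ) ≤ (x : ℝ) ^ δ → |(t : ℝ) - gg * Real.log x| ≤ R * √(Real.log x) →
        c * x / (q * √(Real.log x)) ≤ cntq F x t q r) ∧
    ∀ ε : ℝ, 0 < ε → ∃ H₀ : ℕ, ∀ H : ℕ, H₀ ≤ H → ∃ x₀ : ℕ, ∀ (x : ℕ) (t : ℤ) (q r : ℕ), x₀ ≤ x →
      Odd q → (q : ℝ) ≤ (x : ℝ) ^ δ →
      |∑ b ∈ range H, cntq F x (t + b) q r - d * (x * H) / (q * √(2 * Real.pi * VV * Real.log x)) *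
        Real.exp (-(t - gg * Real.log x) ^ 2 / (2 * VV * Real.log x))| ≤
          ε * (x * H) / (q * √(Real.log x)) := by
  obtain ⟨δ, hδ, hL⟩ := level hA
  refine ⟨δ, hδ, fun F => ?_⟩
  obtain ⟨C, hC, x₁, hx₁⟩ := hL F
  obtain ⟨d, k1, ⟨C2, x₂, k2⟩, k3, k4⟩ := llt F
  have hsq : Tendsto (fun x : ℕ => √(Real.log x)) atTop atTop :=
    Real.tendsto_sqrt_atTop.comp (Real.tendsto_log_atTop.comp tendsto_natCast_atTop_atTop)
  -- the error of the classes is small against `x / (q √log x)`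
  have herr : ∀ e : ℝ, 0 < e → ∃ x₀ : ℕ, 1 ≤ x₀ ∧ ∀ (x : ℕ) (t : ℤ) (q r : ℕ), x₀ ≤ x → Odd q →
      (q : ℝ) ≤ (x : ℝ) ^ δ → 0 < √(Real.log x) ∧
      |cntq F x t q r - cnt F x t / q| ≤ e * (x / (q * √(Real.log x))) := by
    intro e he
    obtain ⟨x₃, h3⟩ := eventually_atTop.1 (hsq.eventually_ge_atTop (max 1 (C / e)))
    refine ⟨max x₁ (max x₃ 1), le_trans (le_max_right _ _) (le_max_right _ _),
      fun x t q r hx hq hqx => ?_⟩
    have hxa : x₁ ≤ x := le_trans (le_max_left _ _) hx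
    have hxb : x₃ ≤ x := le_trans (le_trans (le_max_left _ _) (le_max_right _ _)) hx
    have h4 := h3 x hxb
    have h5 : 1 ≤ √(Real.log x) := le_trans (le_max_left _ _) h4
    have h6 : C / e ≤ √(Real.log x) := le_trans (le_max_right _ _) h4
    have hs : 0 < √(Real.log x) := by linarith
    have hlog : 0 < Real.log x := Real.sqrt_pos.1 hs
    have hq0 : (0 : ℝ) < q := by exact_mod_cast hq.pos
    refine ⟨hs, (hx₁ x t q r hxa hq hqx).trans ?_⟩
    have h7 : C ≤ e * √(Real.log x) := by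
      rw [div_le_iff₀ he] at h6
      linarith
    have h8 : Real.log x = √(Real.log x) * √(Real.log x) := (Real.mul_self_sqrt hlog.le).symm
    have hx0 : (0 : ℝ) ≤ x := Nat.cast_nonneg _
    rw [mul_div_assoc', div_le_div_iff₀ (by positivity) (by positivity)]
    calc C * x * (q * √(Real.log x)) ≤ (e * √(Real.log x)) * x * (q * √(Real.log x)) := by
          gcongr
      _ = e * x * (q * (√(Real.log x) * √(Real.log x))) := by ring
      _ = e * x * (q * Real.log x) := by rw [← h8]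
  refine ⟨d, k1, ?_, ?_, ?_⟩
  · obtain ⟨x₀, -, h⟩ := herr 1 one_pos
    refine ⟨C2 + 1, max x₀ x₂, fun x t q r hx hq hqx => ?_⟩
    obtain ⟨hs, h1⟩ := h x t q r (le_trans (le_max_left _ _) hx) hq hqx
    have h2 := k2 x t (le_trans (le_max_right _ _) hx)
    have hq0 : (0 : ℝ) < q := by exact_mod_cast hq.pos
    have h3 := div_le_div_of_nonneg_right h2 hq0.le
    have h4 := (abs_le.1 h1).2
    have e1 : (C2 + 1) * (x : ℝ) / (q * √(Real.log x)) =
        C2 * x / √(Real.log x) / q + 1 * (x / (q * √(Real.log x))) := by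
      field_simp
    rw [e1]
    linarith
  · intro hd R
    obtain ⟨c, hc, x₃, h3⟩ := k3 hd R
    obtain ⟨x₀, -, h⟩ := herr (c / 2) (by positivity)
    refine ⟨c / 2, by positivity, max x₀ x₃, fun x t q r hx hq hqx ht => ?_⟩
    obtain ⟨hs, h1⟩ := h x t q r (le_trans (le_max_left _ _) hx) hq hqx
    have h2 := h3 x t (le_trans (le_max_right _ _) hx) ht
    have hq0 : (0 : ℝ) < q := by exact_mod_cast hq.pos
    have h5 := div_le_div_of_nonneg_right h2 hq0.le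
    have h4 := (abs_le.1 h1).1
    have e1 : c / 2 * (x : ℝ) / (q * √(Real.log x)) =
        c * x / √(Real.log x) / q - c / 2 * (x / (q * √(Real.log x))) := by
      field_simp
      ring
    rw [e1]
    linarith
  · intro ε hε
    obtain ⟨H₀, -, hH⟩ := k4 (ε / 2) (by positivity)
    refine ⟨H₀, fun H hHH => ?_⟩
    obtain ⟨x₃, h3⟩ := hH H hHH
    obtain ⟨x₀, -, h⟩ := herr (ε / 2) (by positivity)
    refine ⟨max x₀ x₃, fun x t q r hx hq hqx => ?_⟩
    have hq0 : (0 : ℝ) < q := by exact_mod_cast hq.pos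
    have hs := (h x t q r (le_trans (le_max_left _ _) hx) hq hqx).1
    have h1 : |∑ b ∈ range H, cntq F x (t + b) q r - (∑ b ∈ range H, cnt F x (t + b)) / q| ≤
        H * (ε / 2 * (x / (q * √(Real.log x)))) := by
      rw [Finset.sum_div, ← Finset.sum_sub_distrib]
      refine (Finset.abs_sum_le_sum_abs _ _).trans ?_
      refine (Finset.sum_le_sum fun (b : ℕ) _ => (h x (t + (b : ℤ)) q r
        (le_trans (le_max_left _ _) hx) hq hqx).2).trans (le_of_eq ?_)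
      rw [Finset.sum_const, card_range, nsmul_eq_mul]
    have h2 := h3 x t (le_trans (le_max_right _ _) hx)
    have h4 := div_le_div_of_nonneg_right h2 hq0.le
    rw [← abs_of_pos hq0, ← abs_div, abs_of_pos hq0, sub_div] at h4
    have e1 : d * (x * H) / √(2 * Real.pi * VV * Real.log x) *
        Real.exp (-(t - gg * Real.log x) ^ 2 / (2 * VV * Real.log x)) / q =
        d * (x * H) / (q * √(2 * Real.pi * VV * Real.log x)) *
        Real.exp (-(t - gg * Real.log x) ^ 2 / (2 * VV * Real.log x)) := by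
      rw [mul_div_right_comm, div_div, mul_comm (√(2 * Real.pi * VV * Real.log x)) (q : ℝ)]
    rw [e1] at h4
    have e2 : ε * (x * H) / (q * √(Real.log x)) = H * (ε / 2 * (x / (q * √(Real.log x)))) +
        ε / 2 * (x * H) / √(Real.log x) / q := by
      field_simp
      ring
    rw [e2]
    exact (abs_sub_le _ _ _).trans (add_le_add h1 h4)

end Pool.Agent.LLT.Q
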