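import Pool.Agent.LLT.QDefs
import Pool.Agent.SLD.HE1
import Pool.Agent.SLD.FWE
import Pool.Agent.SLD.FWD
import Pool.Agent.SLD.CNT
import Pool.Agent.SLD.WRD
import Pool.Agent.SLD.TAL

/-! The hand-off, first part, for time families (copy of SLD, module HE1). -/

set_option autoImplicit false
set_option linter.unusedVariables false

namespace Pool.Agent.LLT.Q

open Finset Filter Topology
open Pool.Agent.Collatz3 (cw)
open Pool.Agent.SLD

theorem fam_iter {K : ℕ} {B : ℤ → Set ℤ} (hA : EvFam K B) : ∀ (j : ℕ) (t n : ℤ),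
    (K : ℤ) * 2 ^ j < |n| → (T^[j] n ∈ B (t - j) ↔ n ∈ B t)
  | 0, t, n, _ => by simp
  | j + 1, t, n, h => by
    rw [Function.iterate_succ_apply]
    have h1 := FWE_abs n
    have h2 : (K : ℤ) * 2 ^ (j + 1) = 2 * (K * 2 ^ j) := by ring
    have h3 : (K : ℤ) * 2 ^ j < |T n| := by
      rw [h2] at h
      linarith
    have h4 : (K : ℤ) < |n| := by
      have h5 : (1 : ℤ) ≤ 2 ^ (j + 1) := one_le_pow₀ (by norm_num)
      have h6 : (K : ℤ) * 1 ≤ K * 2 ^ (j + 1) :=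
        mul_le_mul_of_nonneg_left h5 (Int.natCast_nonneg _)
      linarith
    have h5 := fam_iter hA j (t - 1) (T n) h3
    have h6 : t - 1 - (j : ℤ) = t - ((j + 1 : ℕ) : ℤ) := by
      push_cast
      ring
    rw [h6] at h5
    exact h5.trans (hA t n h4)

theorem QHE_EF (hE : St_FWE) (hF : St_FWD) (hC : St_CNT) {σ : ℤ} (hσ : σ = 1 ∨ σ = -1) (b : ℤ)
    {K : ℕ} {B : ℤ → Set ℤ} (hA : EvFam K B) (t : ℤ) (w : List ℕ) (hw : ∀ i ∈ w, 1 ≤ i) (X Q : ℕ)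
    (hQ : Odd Q) :
    |((HO1_En σ b (B t) w X Q).ncard : ℝ) - (HE1_Fn σ b (B (t - w.sum)) w X Q).ncard| ≤ K + 1 := by
  obtain ⟨hE1, -⟩ := hE
  obtain ⟨A, hAe⟩ : ∃ A, A = B t := ⟨_, rfl⟩
  obtain ⟨A', hAe'⟩ : ∃ A', A' = B (t - w.sum) := ⟨_, rfl⟩
  rw [← hAe, ← hAe']
  set S := HO1_D σ b w (K * 2 ^ w.sum) Q with hS
  have hQ1 : (1 : ℝ) ≤ Q := by
    have : 1 ≤ Q := hQ.pos
    exact_mod_cast this
  have hSf : S.Finite := HO1_D_fin hσ b w _ Q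
  have hScard : (S.ncard : ℝ) ≤ K + 1 := by
    have h1 := (abs_le.1 (hC σ b w (K * 2 ^ w.sum) Q hσ hw hQ)).2
    have e1 : ((K * 2 ^ w.sum : ℕ) : ℝ) / (2 ^ (w.sum + 1) * Q) = K / (2 * Q) := by
      push_cast
      have h2 : (2 : ℝ) ^ w.sum ≠ 0 := by positivity
      have h3 : (Q : ℝ) ≠ 0 := by linarith
      rw [pow_succ]
      field_simp
    rw [e1] at h1
    have h2 : (K : ℝ) / (2 * Q) ≤ K := by
      apply div_le_self (Nat.cast_nonneg _)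
      linarith
    have h3 : (S.ncard : ℝ) ≤ K / (2 * Q) + 1 := by
      have h4 : (S.ncard : ℝ) - K / (2 * Q) ≤ 1 := h1
      linarith
    linarith
  have habs : ∀ n : ℤ, 1 ≤ σ * n → σ * n = |n| := by
    intro n hn
    rcases hσ with rfl | rfl
    · rw [abs_of_pos (by omega)]
      ring
    · rw [abs_of_neg (by omega)]
      ring
  have hfinE : (HO1_En σ b A w X Q).Finite := (HO1_fin hσ X).subset fun _ h => ⟨h.2.1, h.2.2.1⟩
  have hfinF : (HE1_Fn σ b A' w X Q).Finite := (HO1_fin hσ X).subset fun _ h => ⟨h.2.1, h.2.2.1⟩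
  have hkey : ∀ n m : ℤ, Odd m → 2 ^ w.sum * m = 3 ^ w.length * n + cw w → 1 ≤ σ * n →
      (Q : ℤ) ∣ n - b → n ∉ S → (n ∈ A ↔ m ∈ A') := by
    intro n m h1 h2 h3 h4 h5
    have h6 : (K : ℤ) * 2 ^ w.sum < |n| := by
      by_contra hcon
      push Not at hcon
      apply h5
      refine ⟨h3, ?_, h4, m, h1, h2⟩
      rw [habs n h3]
      push_cast
      exact hcon
    have h7 := fam_iter hA w.sum t n h6
    rw [hE1 n m w h1 hw h2] at h7
    rw [hAe, hAe']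
    exact h7.symm
  have hsub1 : HO1_En σ b A w X Q ⊆ HE1_Fn σ b A' w X Q ∪ S := by
    rintro n ⟨g1, g2, g3, g4, g5, m, g6, g7⟩
    by_cases h : n ∈ S
    · exact Or.inr h
    · exact Or.inl ⟨g1, g2, g3, g4, m, g6, g7, (hkey n m g6 g7 g2 g4 h).1 g5⟩
  have hsub2 : HE1_Fn σ b A' w X Q ⊆ HO1_En σ b A w X Q ∪ S := by
    rintro n ⟨g1, g2, g3, g4, m, g6, g7, g5⟩
    by_cases h : n ∈ S
    · exact Or.inr h
    · exact Or.inl ⟨g1, g2, g3, g4, (hkey n m g6 g7 g2 g4 h).2 g5, m, g6, g7⟩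
  have h1 : ((HO1_En σ b A w X Q).ncard : ℝ) ≤ (HE1_Fn σ b A' w X Q).ncard + S.ncard := by
    have h2 := Set.ncard_le_ncard hsub1 (hfinF.union hSf)
    have h3 := Set.ncard_union_le (HE1_Fn σ b A' w X Q) S
    exact_mod_cast h2.trans h3
  have h2 : ((HE1_Fn σ b A' w X Q).ncard : ℝ) ≤ (HO1_En σ b A w X Q).ncard + S.ncard := by
    have h2 := Set.ncard_le_ncard hsub2 (hfinE.union hSf)
    have h3 := Set.ncard_union_le (HO1_En σ b A w X Q) S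
    exact_mod_cast h2.trans h3
  rw [abs_le]
  constructor <;> linarith

/-- the bound with `ρ ^ k` -/
theorem QHE_main (hE : St_FWE) (hF : St_FWD) (hC : St_CNT) (hW : St_WRD) {σ : ℤ} (hσ : σ = 1 ∨ σ = -1) (b : ℤ)
    {K : ℕ} {B : ℤ → Set ℤ} (hA : EvFam K B) (t : ℤ) (X Q k : ℕ) (hQ : Odd Q) (ρ : ℝ)
    (hρ : 1 - ρ ^ k ≤ ∑ s ∈ range (21 * k / 10 + 1), p k s) :
    |(E σ (B t) X Q b : ℝ) - ∑ s ∈ range (21 * k / 10 + 1), ∑ w ∈ W k s,
      (Cn σ (B (t - s)) X Q b w : ℝ)| ≤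
      X / (2 * Q) * ρ ^ k + (K + 6) * 2 ^ (21 * k / 10) := by
  classical
  set R := 21 * k / 10 + 1 with hR
  have hWr := hW
  obtain ⟨hW1, hW2, hW3, hW4⟩ := hW
  have hQ1 : (1 : ℝ) ≤ Q := by
    have : 1 ≤ Q := hQ.pos
    exact_mod_cast this
  have hQ0 : (0 : ℝ) < Q := by linarith
  have hfin1 : {n : ℤ | Odd n ∧ 1 ≤ σ * n ∧ σ * n ≤ X ∧ (Q : ℤ) ∣ n - b}.Finite :=
    (HO1_fin hσ X).subset fun _ h => ⟨h.2.1, h.2.2.1⟩
  set F1 := hfin1.toFinset with hF1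
  have hmem1 : ∀ n, n ∈ F1 ↔ Odd n ∧ 1 ≤ σ * n ∧ σ * n ≤ X ∧ (Q : ℤ) ∣ n - b := by
    intro n
    rw [hF1, Set.Finite.mem_toFinset]
    rfl
  set F0 := F1.filter (fun n => n ∈ B t) with hF0
  have hcard0 : E σ (B t) X Q b = #F0 := by
    unfold E
    rw [← Set.ncard_coe_finset]
    congr 1
    ext n
    simp only [Set.mem_ofPred_eq, hF0, coe_filter, hmem1]
    tauto
  have hcard1 : (#F1 : ℝ) ≤ X / (2 * Q) + 1 := by
    have h1 := hC σ b [] X Q hσ (by simp) hQ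
    have h2 : Set.ncard {n : ℤ | 1 ≤ σ * n ∧ σ * n ≤ X ∧ (Q : ℤ) ∣ n - b ∧
        ∃ m : ℤ, Odd m ∧ 2 ^ ([] : List ℕ).sum * m = 3 ^ ([] : List ℕ).length * n + cw []} =
        #F1 := by
      rw [← Set.ncard_coe_finset]
      congr 1
      ext n
      simp only [Set.mem_ofPred_eq, mem_coe, hmem1]
      constructor
      · rintro ⟨g1, g2, g3, m, g4, g5⟩
        have g6 : m = n := by simpa [cw] using g5
        rw [g6] at g4
        exact ⟨g4, g1, g2, g3⟩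
      · rintro ⟨g0, g1, g2, g3⟩
        exact ⟨g1, g2, g3, n, g0, by simp [cw]⟩
    rw [h2] at h1
    have h3 := (abs_le.1 h1).2
    have h4 : (X : ℝ) / (2 ^ (([] : List ℕ).sum + 1) * Q) = X / (2 * Q) := by simp
    rw [h4] at h3
    linarith
  have hEn : ∀ w : List ℕ, (HO1_En σ b (B t) w X Q).ncard = #(F0.filter (HO1_has w)) := by
    intro w
    rw [← Set.ncard_coe_finset]
    congr 1
    ext n
    simp only [HO1_En, Set.mem_ofPred_eq, mem_coe, mem_filter, hF0, hmem1]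
    tauto
  have hDn : ∀ s ∈ range R, ∀ w ∈ W k s,
      (X : ℝ) / (2 * Q) / 2 ^ s - 1 ≤ (#(F1.filter (HO1_has w)) : ℝ) := by
    intro s hs w hw
    obtain ⟨a1, a2, a3⟩ := (hW1 _ _ _).1 hw
    have h1 := hC σ b w X Q hσ a2 hQ
    have h2 : Set.ncard {n : ℤ | 1 ≤ σ * n ∧ σ * n ≤ X ∧ (Q : ℤ) ∣ n - b ∧
        ∃ m : ℤ, Odd m ∧ 2 ^ w.sum * m = 3 ^ w.length * n + cw w} = #(F1.filter (HO1_has w)) := by
      rw [← Set.ncard_coe_finset]
      congr 1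
      ext n
      simp only [Set.mem_ofPred_eq, mem_coe, mem_filter, hmem1, HO1_has]
      constructor
      · rintro ⟨g1, g2, g3, m, g4, g5⟩
        exact ⟨⟨(hF.2.2 n m w g4 a2 g5).1, g1, g2, g3⟩, m, g4, g5⟩
      · rintro ⟨⟨g0, g1, g2, g3⟩, m, g4, g5⟩
        exact ⟨g1, g2, g3, m, g4, g5⟩
    rw [h2] at h1
    have h3 := (abs_le.1 h1).1
    have h4 : (X : ℝ) / (2 ^ (w.sum + 1) * Q) = X / (2 * Q) / 2 ^ s := by
      rw [a3, div_div]
      congr 1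
      ring
    rw [h4] at h3
    linarith
  have hp0 := HO1_part hF hWr k R F0 (fun n hn => by
    rw [hF0, mem_filter, hmem1] at hn
    exact hn.1.1)
  have hp1 := HO1_part hF hWr k R F1 (fun n hn => ((hmem1 n).1 hn).1)
  set r0 : ℝ := ((#(F0.filter (fun n => ¬ ∃ s ∈ range R, ∃ w ∈ W k s, HO1_has w n)) : ℕ) : ℝ) with hr0
  set r1 : ℝ := ((#(F1.filter (fun n => ¬ ∃ s ∈ range R, ∃ w ∈ W k s, HO1_has w n)) : ℕ) : ℝ) with hr1
  have hr : r0 ≤ r1 := by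
    have : #(F0.filter (fun n => ¬ ∃ s ∈ range R, ∃ w ∈ W k s, HO1_has w n)) ≤
        #(F1.filter (fun n => ¬ ∃ s ∈ range R, ∃ w ∈ W k s, HO1_has w n)) := by
      apply Finset.card_le_card
      apply Finset.filter_subset_filter
      exact Finset.filter_subset _ _
    rw [hr0, hr1]
    exact Nat.cast_le.2 this
  have hr0' : 0 ≤ r0 := Nat.cast_nonneg _
  set Wn : ℝ := ∑ s ∈ range R, (#(W k s) : ℝ) with hWn
  have hWn' : Wn ≤ 2 ^ (21 * k / 10) := HO1_Wn hWr k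
  have hWn1 : (1 : ℝ) ≤ 2 ^ (21 * k / 10) := one_le_pow₀ (by norm_num)
  -- the lower bound of the sum over `F1`
  have hlow : (X : ℝ) / (2 * Q) * ∑ s ∈ range R, p k s - Wn ≤
      ∑ s ∈ range R, ∑ w ∈ W k s, (#(F1.filter (HO1_has w)) : ℝ) := by
    rw [hWn, Finset.mul_sum, ← Finset.sum_sub_distrib]
    apply Finset.sum_le_sum
    intro s hs
    have h1 : ∑ w ∈ W k s, ((X : ℝ) / (2 * Q) / 2 ^ s - 1) ≤
        ∑ w ∈ W k s, (#(F1.filter (HO1_has w)) : ℝ) :=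
      Finset.sum_le_sum fun w hw => hDn s hs w hw
    rw [Finset.sum_const, nsmul_eq_mul] at h1
    have h2 : (X : ℝ) / (2 * Q) * p k s - #(W k s) =
        (#(W k s) : ℝ) * (X / (2 * Q) / 2 ^ s - 1) := by
      unfold p
      ring
    rw [h2]
    exact h1
  have hr1' : r1 ≤ X / (2 * Q) * ρ ^ k + 1 + Wn := by
    have h1 : r1 = (#F1 : ℝ) - ∑ s ∈ range R, ∑ w ∈ W k s, (#(F1.filter (HO1_has w)) : ℝ) := by
      linarith
    rw [h1]
    have h2 : (0 : ℝ) ≤ X / (2 * Q) := by positivity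
    have h3 : (X : ℝ) / (2 * Q) * (1 - ρ ^ k) ≤ X / (2 * Q) * ∑ s ∈ range R, p k s :=
      mul_le_mul_of_nonneg_left hρ h2
    have h4 : (X : ℝ) / (2 * Q) * (1 - ρ ^ k) = X / (2 * Q) - X / (2 * Q) * ρ ^ k := by ring
    rw [h4] at h3
    linarith
  have hdiff : |∑ s ∈ range R, ∑ w ∈ W k s, (#(F0.filter (HO1_has w)) : ℝ) -
      ∑ s ∈ range R, ∑ w ∈ W k s, (Cn σ (B (t - s)) X Q b w : ℝ)| ≤ (K + 4) * Wn := by
    rw [← Finset.sum_sub_distrib]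
    refine (Finset.abs_sum_le_sum_abs _ _).trans ?_
    rw [hWn, Finset.mul_sum]
    apply Finset.sum_le_sum
    intro s hs
    rw [← Finset.sum_sub_distrib]
    refine (Finset.abs_sum_le_sum_abs _ _).trans ?_
    have h1 : ∑ w ∈ W k s, |(#(F0.filter (HO1_has w)) : ℝ) - (Cn σ (B (t - s)) X Q b w : ℝ)| ≤
        ∑ w ∈ W k s, ((K : ℝ) + 4) := by
      apply Finset.sum_le_sum
      intro w hw
      obtain ⟨a1, a2, a3⟩ := (hW1 _ _ _).1 hw
      have h2 := HE1_diff hF hC hσ b (B (t - s)) w a2 X Q hQ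
      have h3 := QHE_EF hE hF hC hσ b hA t w a2 X Q hQ
      rw [hEn w, a3] at h3
      have h4 := abs_sub_le (#(F0.filter (HO1_has w)) : ℝ)
        ((HE1_Fn σ b (B (t - s)) w X Q).ncard : ℝ)
        (Cn σ (B (t - s)) X Q b w : ℝ)
      linarith
    refine h1.trans (le_of_eq ?_)
    rw [Finset.sum_const, nsmul_eq_mul]
    ring
  rw [hcard0, hp0]
  have e1 : ∑ s ∈ range R, ∑ w ∈ W k s, (#(F0.filter (HO1_has w)) : ℝ) + r0 -
      ∑ s ∈ range R, ∑ w ∈ W k s, (Cn σ (B (t - s)) X Q b w : ℝ) =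
      (∑ s ∈ range R, ∑ w ∈ W k s, (#(F0.filter (HO1_has w)) : ℝ) -
      ∑ s ∈ range R, ∑ w ∈ W k s, (Cn σ (B (t - s)) X Q b w : ℝ)) + r0 := by ring
  rw [e1]
  refine (abs_add_le _ _).trans ?_
  rw [abs_of_nonneg hr0']
  have hK : (0 : ℝ) ≤ K := Nat.cast_nonneg _
  have h9 : ((K : ℝ) + 5) * Wn ≤ (K + 5) * 2 ^ (21 * k / 10) :=
    mul_le_mul_of_nonneg_left hWn' (by linarith)
  linarith

theorem thm_QHE (hE : St_FWE) (hF : St_FWD) (hC : St_CNT) (hW : St_WRD) (hT : St_TAL) :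
    St_QHE := by
  obtain ⟨⟨ρ, hρ0, hρ1, hρ⟩, -⟩ := hT
  intro B
  obtain ⟨C1, hC1⟩ : ∃ C1 : ℝ, ∀ k : ℕ, (k : ℝ) ^ B * ρ ^ k ≤ C1 := by
    have h1 := tendsto_pow_const_mul_const_pow_of_abs_lt_one B
      (by rw [abs_of_pos hρ0]; exact hρ1 : |ρ| < 1)
    obtain ⟨C1, hC1⟩ := h1.bddAbove_range
    exact ⟨C1, fun k => hC1 ⟨k, rfl⟩⟩
  have hC10 : 0 ≤ C1 := by
    have h1 := hC1 1
    have h2 : (0 : ℝ) ≤ ((1 : ℕ) : ℝ) ^ B * ρ ^ 1 := by positivity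
    linarith
  refine ⟨C1 + 20, ?_⟩
  intro σ b K A t X Q hσ hA hX hQ
  have h1 := QHE_main hE hF hC hW hσ b hA t X Q (kk X) hQ ρ (hρ (kk X)).2.1
  have hK : (0 : ℝ) ≤ K := Nat.cast_nonneg _
  refine h1.trans ?_
  have hpow := HE1_pow X hX
  have hX1 : (1 : ℝ) ≤ X := by exact_mod_cast (by omega : 1 ≤ X)
  have hX2 : (1 : ℝ) ≤ (X : ℝ) ^ ((24 : ℝ) / 25) := Real.one_le_rpow hX1 (by norm_num)
  have hQ1 : (1 : ℝ) ≤ Q := by
    have : 1 ≤ Q := hQ.pos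
    exact_mod_cast this
  have hQ0 : (0 : ℝ) < Q := by linarith
  have hXQ : (0 : ℝ) ≤ (X : ℝ) / Q := by positivity
  have h2 : (X : ℝ) / (2 * Q) * ρ ^ kk X ≤ (X : ℝ) / Q * ρ ^ kk X := by
    apply mul_le_mul_of_nonneg_right _ (by positivity)
    apply div_le_div_of_nonneg_left (by positivity) hQ0
    linarith
  have hXp : (0 : ℝ) ≤ (X : ℝ) ^ ((24 : ℝ) / 25) := by linarith
  have hend : 8 * (X : ℝ) ^ ((24 : ℝ) / 25) + (K + 6) * 2 ^ (21 * kk X / 10) ≤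
      (C1 + 20) * (K + 1) * (X : ℝ) ^ ((24 : ℝ) / 25) := by
    have h3 : ((K : ℝ) + 6) * 2 ^ (21 * kk X / 10) ≤ (K + 6) * (X : ℝ) ^ ((24 : ℝ) / 25) :=
      mul_le_mul_of_nonneg_left hpow (by linarith)
    have h4 : (K : ℝ) + 14 ≤ (C1 + 20) * (K + 1) := by nlinarith
    have h5 : ((K : ℝ) + 14) * (X : ℝ) ^ ((24 : ℝ) / 25) ≤
        (C1 + 20) * (K + 1) * (X : ℝ) ^ ((24 : ℝ) / 25) := mul_le_mul_of_nonneg_right h4 hXp
    linarith
  rcases Nat.eq_zero_or_pos (kk X) with h0 | h0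
  · -- `X < 8`
    have h3 : X < 8 := by
      by_contra hcon
      push Not at hcon
      have h4 : 3 ≤ Nat.log 2 X := by
        have : Nat.log 2 8 ≤ Nat.log 2 X := Nat.log_mono_right hcon
        have h5 : Nat.log 2 8 = 3 := by
          have := Nat.log_pow (b := 2) (by norm_num) 3
          simpa using this
        omega
      unfold kk at h0
      omega
    have h4 : (X : ℝ) / Q ≤ 8 := by
      have h5 : (X : ℝ) / Q ≤ X := div_le_self (by linarith) hQ1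
      have h6 : (X : ℝ) ≤ 8 := by exact_mod_cast h3.le
      linarith
    have h5 : (X : ℝ) / Q * ρ ^ kk X ≤ 8 := by
      rw [h0, pow_zero, mul_one]
      exact h4
    have h6 : (0 : ℝ) ≤ (C1 + 20) * (X / Q) / (kk X : ℝ) ^ B := by positivity
    linarith
  · have hk : (0 : ℝ) < (kk X : ℝ) ^ B := by
      have : (0 : ℝ) < kk X := by exact_mod_cast h0
      positivity
    have h3 : ρ ^ kk X ≤ C1 / (kk X : ℝ) ^ B := by
      rw [le_div_iff₀ hk, mul_comm]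
      exact hC1 (kk X)
    have h4 : (X : ℝ) / Q * ρ ^ kk X ≤ (C1 + 20) * (X / Q) / (kk X : ℝ) ^ B := by
      have h5 : (X : ℝ) / Q * ρ ^ kk X ≤ X / Q * (C1 / (kk X : ℝ) ^ B) :=
        mul_le_mul_of_nonneg_left h3 hXQ
      have h6 : (X : ℝ) / Q * (C1 / (kk X : ℝ) ^ B) = C1 * (X / Q) / (kk X : ℝ) ^ B := by ring
      rw [h6] at h5
      refine h5.trans ?_
      apply div_le_div_of_nonneg_right _ hk.le
      apply mul_le_mul_of_nonneg_right _ hXQ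
      linarith
    linarith

/-- the hand-off, first part, for time families -/
theorem all_QHE : St_QHE := thm_QHE thm_FWE thm_FWD thm_CNT thm_WRD thm_TAL

end Pool.Agent.LLT.Q
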