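import Pool.Agent.LLT.QDefs
import Pool.Agent.SLD.HEF
import Pool.Agent.SLD.ODD

/-!
Level sets of hitting times in residue classes: odd numbers, odd moduli (copies of SLD/HEF by
helper40 and SLD/ODE by helper82 for families of sets).
-/

set_option autoImplicit false

namespace Pool.Agent.LLT.Q

open Finset
open Pool.Agent.Collatz3 (cw)
open Pool.Agent.SLD

/-- the hand-off with a class -/
theorem thm_QHEF (h1 : St_QHE) (h2 : St_QHO) : ∀ B : ℕ, ∃ C : ℝ, ∀ (σ b : ℤ) (K : ℕ)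
    (A : ℤ → Set ℤ) (t : ℤ) (X a q₀ : ℕ), σ = 1 ∨ σ = -1 → EvFam K A →
    2 ≤ X → Odd q₀ → ¬ 3 ∣ q₀ →
    |(E σ (A t) X (3 ^ a * q₀) b : ℝ) - MF σ (fun s => A (t - (s : ℤ))) X (kk X) / (3 ^ a * q₀)| ≤
      X / (3 ^ a * q₀) * Osc (3 ^ (kk X + a) * q₀) (3 ^ (kk X / 4)) (kk X) (21 * kk X / 10 + 1) +
      C * (X / (3 ^ a * q₀)) / (kk X : ℝ) ^ B + C * (K + 1) * (X : ℝ) ^ ((24 : ℝ) / 25) := by
  intro B
  obtain ⟨C, hC⟩ := h1 B
  refine ⟨|C| + 2, ?_⟩
  intro σ b K A t X a q₀ hσ hA hX hq₀ _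
  have hQ : Odd (3 ^ a * q₀) := (Odd.pow (by decide)).mul hq₀
  have e1 := hC σ b K A t X (3 ^ a * q₀) hσ hA hX hQ
  have e2 := h2 σ b (fun s => A (t - (s : ℤ))) X (3 ^ a * q₀) (kk X) hσ hQ
  have hmod : 3 ^ kk X * (3 ^ a * q₀) = 3 ^ (kk X + a) * q₀ := by
    rw [pow_add, mul_assoc]
  rw [hmod] at e2
  push_cast at e1 e2
  have hp := HEF_pow X hX
  set S₀ : ℝ := ∑ s ∈ range (21 * kk X / 10 + 1), ∑ w ∈ W (kk X) s,
    (Cn σ (A (t - (s : ℤ))) X (3 ^ a * q₀) b w : ℝ) with hS₀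
  have e3 := abs_sub_le (E σ (A t) X (3 ^ a * q₀) b : ℝ) S₀
    (MF σ (fun s => A (t - (s : ℤ))) X (kk X) / (3 ^ a * q₀))
  have hCle : C ≤ |C| := le_abs_self C
  have hY : (0 : ℝ) ≤ (X : ℝ) ^ ((24 : ℝ) / 25) := by positivity
  have hK : (1 : ℝ) ≤ (K : ℝ) + 1 := by
    have : (0 : ℝ) ≤ (K : ℝ) := by positivity
    linarith
  have hY' : (X : ℝ) ^ ((24 : ℝ) / 25) ≤ ((K : ℝ) + 1) * (X : ℝ) ^ ((24 : ℝ) / 25) :=
    le_mul_of_one_le_left hY hK
  have hZ : (0 : ℝ) ≤ (X : ℝ) / (3 ^ a * q₀) / (kk X : ℝ) ^ B := by positivity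
  have t1 : C * ((X : ℝ) / (3 ^ a * q₀)) / (kk X : ℝ) ^ B ≤
      (|C| + 2) * ((X : ℝ) / (3 ^ a * q₀)) / (kk X : ℝ) ^ B := by
    rw [mul_div_assoc, mul_div_assoc]
    exact mul_le_mul_of_nonneg_right (by linarith) hZ
  have t2 : C * ((K : ℝ) + 1) * (X : ℝ) ^ ((24 : ℝ) / 25) + 2 * 2 ^ (21 * kk X / 10) ≤
      (|C| + 2) * ((K : ℝ) + 1) * (X : ℝ) ^ ((24 : ℝ) / 25) := by
    have h3 := mul_le_mul_of_nonneg_right hCle (hY.trans hY')
    have h4 : C * ((K : ℝ) + 1) * (X : ℝ) ^ ((24 : ℝ) / 25) =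
      C * (((K : ℝ) + 1) * (X : ℝ) ^ ((24 : ℝ) / 25)) := by ring
    have h5 : (|C| + 2) * ((K : ℝ) + 1) * (X : ℝ) ^ ((24 : ℝ) / 25) =
      |C| * (((K : ℝ) + 1) * (X : ℝ) ^ ((24 : ℝ) / 25)) +
        2 * (((K : ℝ) + 1) * (X : ℝ) ^ ((24 : ℝ) / 25)) := by ring
    rw [h4, h5]
    linarith
  linarith

theorem thm_QOD (h1 : St_QHE) (h2 : St_QHO) (hMIX : St_MIX) : St_QOD := by
  intro B
  obtain ⟨C2, hC2⟩ := thm_QHEF h1 h2 B
  obtain ⟨δ1, hδ1, C1, hC1⟩ := hMIX B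
  set D₀ : ℝ := (100 * (B + 1) : ℝ) ^ B with hD₀
  have hD₀p : 0 < D₀ := by positivity
  set D : ℝ := 2 * D₀ with hD
  have hDp : 0 < D := by positivity
  set C3 : ℝ := 64 * Real.log 64 ^ B with hC3
  refine ⟨min (1 / 100) (δ1 / 4), lt_min (by norm_num) (by linarith),
    2 * ((|C1| + |C2|) * 4 ^ B + |C2| * D) + C3, ?_⟩
  intro σ b K A t X Q hσ hA hX hKX hQ hQX
  have hQ0 : 0 < Q := hQ.pos
  have hQr : (0 : ℝ) < Q := by exact_mod_cast hQ0
  have hQ1 : (1 : ℝ) ≤ Q := by exact_mod_cast hQ0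
  have hXr : (0 : ℝ) < X := by exact_mod_cast (by omega : 0 < X)
  have hX1 : (1 : ℝ) ≤ X := by exact_mod_cast (by omega : 1 ≤ X)
  have hX2 : (1 : ℝ) < X := by exact_mod_cast (by omega : 1 < X)
  have hlog : 0 < Real.log X := Real.log_pos hX2
  have hlB : 0 < Real.log X ^ B := pow_pos hlog B
  have hQX1 : (Q : ℝ) ≤ (X : ℝ) ^ (1 / 100 : ℝ) :=
    hQX.trans (Real.rpow_le_rpow_of_exponent_le hX1 (min_le_left _ _))
  have hYp : 0 < (X : ℝ) / (Q * Real.log X ^ B) := by positivity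
  have hC3p : 0 ≤ C3 := by
    have : 0 ≤ Real.log 64 := Real.log_nonneg (by norm_num)
    positivity
  have hfirst : 0 ≤ 2 * ((|C1| + |C2|) * 4 ^ B + |C2| * D) := by positivity
  by_cases hXs : X < 64
  · -- small `X`
    have e1 : (E σ (A t) X Q b : ℝ) ≤ X := by exact_mod_cast ODD_E_le σ b (A t) X Q hσ
    have e2 : (E σ (A t) X 1 0 : ℝ) ≤ X := by exact_mod_cast ODD_E_le σ 0 (A t) X 1 hσ
    have e3 : (0 : ℝ) ≤ E σ (A t) X Q b := Nat.cast_nonneg _
    have e4 : (0 : ℝ) ≤ E σ (A t) X 1 0 := Nat.cast_nonneg _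
    have e5 : (E σ (A t) X 1 0 : ℝ) / Q ≤ X := (div_le_self e4 hQ1).trans e2
    have e6 : 0 ≤ (E σ (A t) X 1 0 : ℝ) / Q := div_nonneg e4 hQr.le
    have e7 : |(E σ (A t) X Q b : ℝ) - E σ (A t) X 1 0 / Q| ≤ 64 := by
      have h64 : (X : ℝ) ≤ 64 := by exact_mod_cast hXs.le
      rw [abs_le]
      constructor <;> linarith
    have e8 : (Q : ℝ) ≤ X := by
      refine hQX1.trans ?_
      calc (X : ℝ) ^ (1 / 100 : ℝ) ≤ (X : ℝ) ^ (1 : ℝ) :=
            Real.rpow_le_rpow_of_exponent_le hX1 (by norm_num)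
        _ = X := Real.rpow_one _
    have e9 : Real.log X ^ B ≤ Real.log 64 ^ B := by
      refine pow_le_pow_left₀ hlog.le (Real.log_le_log hXr ?_) B
      exact_mod_cast hXs.le
    have e10 : 64 * (Q * Real.log X ^ B) ≤ C3 * X := by
      calc 64 * (Q * Real.log X ^ B) ≤ 64 * (X * Real.log 64 ^ B) := by gcongr
        _ = C3 * X := by rw [hC3]; ring
    have e11 : 64 ≤ C3 * X / (Q * Real.log X ^ B) := by
      rw [le_div_iff₀ (by positivity)]
      exact e10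
    refine e7.trans (e11.trans ?_)
    refine div_le_div_of_nonneg_right (mul_le_mul_of_nonneg_right ?_ hXr.le) (by positivity)
    linarith
  · push Not at hXs
    obtain ⟨hk, hk1⟩ := ODD_kk X hXs
    have hkr : (1 : ℝ) ≤ kk X := by exact_mod_cast hk1
    have hk0 : (0 : ℝ) < kk X := by linarith
    obtain ⟨a, q₀, hq3, hQe⟩ := Nat.exists_eq_pow_mul_and_not_dvd hQ0.ne' 3 (by norm_num)
    have hq₀ : Odd q₀ := by
      rw [hQe] at hQ
      exact (Nat.odd_mul.1 hQ).2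
    have hQc : (Q : ℝ) = 3 ^ a * q₀ := by
      rw [hQe]
      push_cast
      ring
    -- the exponents
    have hexp : (3 : ℝ) ^ a * q₀ ≤ Real.exp (δ1 * kk X) := by
      rw [← hQc]
      refine hQX.trans ?_
      rw [Real.rpow_def_of_pos hXr]
      refine Real.exp_le_exp.2 ?_
      have h1 : min (1 / 100 : ℝ) (δ1 / 4) ≤ δ1 / 4 := min_le_right _ _
      have h2 : 0 < min (1 / 100 : ℝ) (δ1 / 4) := lt_min (by norm_num) (by linarith)
      calc Real.log X * min (1 / 100) (δ1 / 4) ≤ (4 * kk X) * (δ1 / 4) := by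
            exact mul_le_mul hk h1 h2.le (by linarith)
        _ = δ1 * kk X := by ring
    have hexp1 : (3 : ℝ) ^ 0 * (1 : ℕ) ≤ Real.exp (δ1 * kk X) := by
      rw [pow_zero, one_mul, Nat.cast_one]
      exact Real.one_le_exp (by positivity)
    have hO1 := hC1 (kk X) a q₀ hk1 hq₀ hq3 hexp
    have hO2 := hC1 (kk X) 0 1 hk1 odd_one (by norm_num) hexp1
    have hH1 := hC2 σ b K A t X a q₀ hσ hA hX hq₀ hq3
    have hH2 := hC2 σ 0 K A t X 0 1 hσ hA hX odd_one (by norm_num)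
    -- `1 / kk ^ B`
    have hkB : 0 < (kk X : ℝ) ^ B := pow_pos hk0 B
    have hinv : 1 / (kk X : ℝ) ^ B ≤ 4 ^ B / Real.log X ^ B := by
      rw [div_le_div_iff₀ hkB hlB, one_mul, ← mul_pow]
      exact pow_le_pow_left₀ hlog.le hk B
    -- the power of `X`
    have hK1 : ((K : ℝ) + 1) ≤ 2 * (X : ℝ) ^ (1 / 100 : ℝ) := by
      have h1 : (K : ℝ) ≤ (X : ℝ) ^ (1 / 100 : ℝ) :=
        hKX.trans (Real.rpow_le_rpow_of_exponent_le hX1 (min_le_left _ _))
      have h2 : (1 : ℝ) ≤ (X : ℝ) ^ (1 / 100 : ℝ) := Real.one_le_rpow hX1 (by norm_num)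
      linarith
    have hpow : ((K : ℝ) + 1) * (X : ℝ) ^ ((24 : ℝ) / 25) ≤ D * (X / (Q * Real.log X ^ B)) := by
      rw [← mul_div_assoc, le_div_iff₀ (by positivity)]
      have h1 := ODD_log B X hX1
      have h2 : (X : ℝ) ^ (1 / 100 : ℝ) * ((X : ℝ) ^ ((24 : ℝ) / 25) *
          ((X : ℝ) ^ (1 / 100 : ℝ) * (X : ℝ) ^ (1 / 100 : ℝ))) ≤ X := by
        rw [← Real.rpow_add hXr, ← Real.rpow_add hXr, ← Real.rpow_add hXr]
        calc (X : ℝ) ^ ((1 / 100 : ℝ) + (24 / 25 + (1 / 100 + 1 / 100))) ≤ (X : ℝ) ^ (1 : ℝ) :=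
              Real.rpow_le_rpow_of_exponent_le hX1 (by norm_num)
          _ = X := Real.rpow_one _
      calc ((K : ℝ) + 1) * (X : ℝ) ^ ((24 : ℝ) / 25) * (Q * Real.log X ^ B)
          ≤ (2 * (X : ℝ) ^ (1 / 100 : ℝ)) * (X : ℝ) ^ ((24 : ℝ) / 25) *
            ((X : ℝ) ^ (1 / 100 : ℝ) * (D₀ * (X : ℝ) ^ (1 / 100 : ℝ))) := by
            gcongr
        _ = D * ((X : ℝ) ^ (1 / 100 : ℝ) * ((X : ℝ) ^ ((24 : ℝ) / 25) *
            ((X : ℝ) ^ (1 / 100 : ℝ) * (X : ℝ) ^ (1 / 100 : ℝ)))) := by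
            rw [hD]
            ring
        _ ≤ D * X := mul_le_mul_of_nonneg_left h2 hDp.le
    set Y : ℝ := X / (Q * Real.log X ^ B) with hY
    have hYQ : (X : ℝ) / Q * (1 / Real.log X ^ B) = Y := by
      rw [hY, div_mul_div_comm, mul_one]
    -- first estimate
    have g1 : |(E σ (A t) X Q b : ℝ) - MF σ (fun s => A (t - (s : ℤ))) X (kk X) / Q| ≤
        ((|C1| + |C2|) * 4 ^ B + |C2| * D) * Y := by
      rw [← hQe, ← hQc] at hH1
      refine hH1.trans ?_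
      have t1 : (X : ℝ) / Q * Osc (3 ^ (kk X + a) * q₀) (3 ^ (kk X / 4)) (kk X)
          (21 * kk X / 10 + 1) ≤ |C1| * 4 ^ B * Y := by
        calc _ ≤ (X : ℝ) / Q * (|C1| * (4 ^ B / Real.log X ^ B)) := by
              refine mul_le_mul_of_nonneg_left ?_ (by positivity)
              refine hO1.trans ?_
              rw [div_eq_mul_one_div]
              exact mul_le_mul (le_abs_self _) hinv (by positivity) (abs_nonneg _)
          _ = |C1| * 4 ^ B * ((X : ℝ) / Q * (1 / Real.log X ^ B)) := by ring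
          _ = _ := by rw [hYQ]
      have t2 : C2 * (X / Q) / (kk X : ℝ) ^ B ≤ |C2| * 4 ^ B * Y := by
        calc C2 * (X / Q) / (kk X : ℝ) ^ B = C2 * (X / Q * (1 / (kk X : ℝ) ^ B)) := by ring
          _ ≤ |C2| * (X / Q * (4 ^ B / Real.log X ^ B)) := by
              refine mul_le_mul (le_abs_self _) ?_ (by positivity) (abs_nonneg _)
              exact mul_le_mul_of_nonneg_left hinv (by positivity)
          _ = |C2| * 4 ^ B * ((X : ℝ) / Q * (1 / Real.log X ^ B)) := by ring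
          _ = _ := by rw [hYQ]
      have t3 : C2 * ((K : ℝ) + 1) * (X : ℝ) ^ ((24 : ℝ) / 25) ≤ |C2| * D * Y := by
        rw [mul_assoc, mul_assoc]
        exact mul_le_mul (le_abs_self _) hpow (by positivity) (abs_nonneg _)
      calc _ ≤ |C1| * 4 ^ B * Y + |C2| * 4 ^ B * Y + |C2| * D * Y := by
            exact add_le_add (add_le_add t1 t2) t3
        _ = _ := by ring
    -- second estimate
    have g2 : |(E σ (A t) X 1 0 : ℝ) / Q - MF σ (fun s => A (t - (s : ℤ))) X (kk X) / Q| ≤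
        ((|C1| + |C2|) * 4 ^ B + |C2| * D) * Y := by
      simp only [pow_zero, add_zero, mul_one, Nat.cast_one, div_one] at hH2 hO2
      rw [← sub_div, abs_div, abs_of_pos hQr, div_le_iff₀ hQr]
      refine hH2.trans ?_
      have hXY : (X : ℝ) * (1 / Real.log X ^ B) = Y * Q := by
        rw [← hYQ]
        field_simp
      have t1 : (X : ℝ) * Osc (3 ^ kk X) (3 ^ (kk X / 4)) (kk X)
          (21 * kk X / 10 + 1) ≤ |C1| * 4 ^ B * (Y * Q) := by
        calc _ ≤ (X : ℝ) * (|C1| * (4 ^ B / Real.log X ^ B)) := by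
              refine mul_le_mul_of_nonneg_left ?_ (by positivity)
              refine hO2.trans ?_
              rw [div_eq_mul_one_div]
              exact mul_le_mul (le_abs_self _) hinv (by positivity) (abs_nonneg _)
          _ = |C1| * 4 ^ B * ((X : ℝ) * (1 / Real.log X ^ B)) := by ring
          _ = _ := by rw [hXY]
      have t2 : C2 * X / (kk X : ℝ) ^ B ≤ |C2| * 4 ^ B * (Y * Q) := by
        calc C2 * X / (kk X : ℝ) ^ B = C2 * (X * (1 / (kk X : ℝ) ^ B)) := by ring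
          _ ≤ |C2| * (X * (4 ^ B / Real.log X ^ B)) := by
              refine mul_le_mul (le_abs_self _) ?_ (by positivity) (abs_nonneg _)
              exact mul_le_mul_of_nonneg_left hinv (by positivity)
          _ = |C2| * 4 ^ B * ((X : ℝ) * (1 / Real.log X ^ B)) := by ring
          _ = _ := by rw [hXY]
      have t3 : C2 * ((K : ℝ) + 1) * (X : ℝ) ^ ((24 : ℝ) / 25) ≤ |C2| * D * (Y * Q) := by
        have h1 : ((K : ℝ) + 1) * (X : ℝ) ^ ((24 : ℝ) / 25) ≤ D * (Y * Q) := by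
          refine hpow.trans (mul_le_mul_of_nonneg_left ?_ hDp.le)
          exact le_mul_of_one_le_right hYp.le hQ1
        rw [mul_assoc, mul_assoc]
        exact mul_le_mul (le_abs_self _) h1 (by positivity) (abs_nonneg _)
      calc _ ≤ |C1| * 4 ^ B * (Y * Q) + |C2| * 4 ^ B * (Y * Q) + |C2| * D * (Y * Q) := by
            exact add_le_add (add_le_add t1 t2) t3
        _ = _ := by ring
    have g3 : |(E σ (A t) X Q b : ℝ) - E σ (A t) X 1 0 / Q| ≤
        2 * ((|C1| + |C2|) * 4 ^ B + |C2| * D) * Y := by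
      have h1 := abs_sub_le (E σ (A t) X Q b : ℝ) (MF σ (fun s => A (t - (s : ℤ))) X (kk X) / Q) (E σ (A t) X 1 0 / Q)
      rw [abs_sub_comm (MF σ (fun s => A (t - (s : ℤ))) X (kk X) / Q : ℝ)] at h1
      linarith
    refine g3.trans ?_
    rw [mul_div_assoc, ← hY]
    refine mul_le_mul_of_nonneg_right ?_ hYp.le
    linarith

end Pool.Agent.LLT.Q
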