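import Pool.Agent.LLT.QFin

/-!
The local limit theorem in residue classes for the moduli with a bounded power of two.
-/

set_option autoImplicit false

namespace Pool.Agent.LLT.Q

open Finset Filter Topology
open Pool.Agent.Collatz3.FW (Tn)

/-- the level sets are equidistributed in the classes modulo `q ≤ x ^ δ`, `2 ^ (j + 1) ∤ q` -/
def StTw (δ : ℝ) : Prop :=
  ∀ (F : Finset ℕ) (j : ℕ) (ε : ℝ), 0 < ε → ∃ x₀ : ℕ, ∀ x : ℕ, x₀ ≤ x → ∀ q : ℕ,
    ¬ 2 ^ (j + 1) ∣ q → (q : ℝ) ≤ (x : ℝ) ^ δ → ∀ (t : ℤ) (r : ℕ),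
      |cntq F x t q r - cnt F x t / q| ≤ ε * x / (q * √(Real.log x))

/-- the local limit theorem in residue classes -/
theorem lltj {δ : ℝ} (hT : StTw δ) (F : Finset ℕ) : ∃ d : ℝ, Tendsto (fun x : ℕ =>
      ({n : ℕ | 1 ≤ n ∧ n ≤ x ∧ ∃ k : ℕ, Tn^[k] n ∈ F}.ncard : ℝ) / x) atTop (𝓝 d) ∧ ∀ j : ℕ,
    (∃ C : ℝ, ∃ x₀ : ℕ, ∀ (x : ℕ) (t : ℤ) (q r : ℕ), x₀ ≤ x → ¬ 2 ^ (j + 1) ∣ q →
      (q : ℝ) ≤ (x : ℝ) ^ δ → cntq F x t q r ≤ C * x / (q * √(Real.log x))) ∧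
    (0 < d → ∀ R : ℝ, ∃ c : ℝ, 0 < c ∧ ∃ x₀ : ℕ, ∀ (x : ℕ) (t : ℤ) (q r : ℕ), x₀ ≤ x →
      ¬ 2 ^ (j + 1) ∣ q → (q : ℝ) ≤ (x : ℝ) ^ δ →
      |(t : ℝ) - gg * Real.log x| ≤ R * √(Real.log x) →
        c * x / (q * √(Real.log x)) ≤ cntq F x t q r) ∧
    ∀ ε : ℝ, 0 < ε → ∃ H₀ : ℕ, ∀ H : ℕ, H₀ ≤ H → ∃ x₀ : ℕ, ∀ (x : ℕ) (t : ℤ) (q r : ℕ), x₀ ≤ x →
      ¬ 2 ^ (j + 1) ∣ q → (q : ℝ) ≤ (x : ℝ) ^ δ →
      |∑ b ∈ range H, cntq F x (t + b) q r - d * (x * H) / (q * √(2 * Real.pi * VV * Real.log x)) *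
        Real.exp (-(t - gg * Real.log x) ^ 2 / (2 * VV * Real.log x))| ≤
          ε * (x * H) / (q * √(Real.log x)) := by
  obtain ⟨d, k1, ⟨C2, x₂, k2⟩, k3, k4⟩ := llt F
  refine ⟨d, k1, fun j => ?_⟩
  have hq0' : ∀ q : ℕ, ¬ 2 ^ (j + 1) ∣ q → (0 : ℝ) < q := by
    intro q hq
    rcases Nat.eq_zero_or_pos q with h | h
    · exact absurd (h ▸ dvd_zero _) hq
    · exact_mod_cast h
  have hlog : ∃ x₁ : ℕ, ∀ x : ℕ, x₁ ≤ x → 0 < √(Real.log x) := by
    refine ⟨2, fun x hx => Real.sqrt_pos.2 (Real.log_pos ?_)⟩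
    have : (2 : ℝ) ≤ x := by exact_mod_cast hx
    linarith
  obtain ⟨x₁, hx₁⟩ := hlog
  refine ⟨?_, ?_, ?_⟩
  · obtain ⟨x₀, h⟩ := hT F j 1 one_pos
    refine ⟨C2 + 1, max x₁ (max x₀ x₂), fun x t q r hx hq hqx => ?_⟩
    have hs := hx₁ x (le_trans (le_max_left _ _) hx)
    have hxa : x₀ ≤ x := le_trans (le_trans (le_max_left _ _) (le_max_right _ _)) hx
    have hxb : x₂ ≤ x := le_trans (le_trans (le_max_right _ _) (le_max_right _ _)) hx
    have h1 := h x hxa q hq hqx t r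
    have h2 := k2 x t hxb
    have hq0 := hq0' q hq
    have h3 := div_le_div_of_nonneg_right h2 hq0.le
    have h4 := (abs_le.1 h1).2
    have e1 : (C2 + 1) * (x : ℝ) / (q * √(Real.log x)) =
        C2 * x / √(Real.log x) / q + 1 * x / (q * √(Real.log x)) := by
      field_simp
    rw [e1]
    linarith
  · intro hd R
    obtain ⟨c, hc, x₃, h3⟩ := k3 hd R
    obtain ⟨x₀, h⟩ := hT F j (c / 2) (by positivity)
    refine ⟨c / 2, by positivity, max x₁ (max x₀ x₃), fun x t q r hx hq hqx ht => ?_⟩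
    have hs := hx₁ x (le_trans (le_max_left _ _) hx)
    have hxa : x₀ ≤ x := le_trans (le_trans (le_max_left _ _) (le_max_right _ _)) hx
    have hxb : x₃ ≤ x := le_trans (le_trans (le_max_right _ _) (le_max_right _ _)) hx
    have h1 := h x hxa q hq hqx t r
    have h2 := h3 x t hxb ht
    have hq0 := hq0' q hq
    have h5 := div_le_div_of_nonneg_right h2 hq0.le
    have h4 := (abs_le.1 h1).1
    have e1 : c / 2 * (x : ℝ) / (q * √(Real.log x)) =
        c * x / √(Real.log x) / q - c / 2 * x / (q * √(Real.log x)) := by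
      field_simp
      ring
    rw [e1]
    linarith
  · intro ε hε
    obtain ⟨H₀, -, hH⟩ := k4 (ε / 2) (by positivity)
    refine ⟨H₀, fun H hHH => ?_⟩
    obtain ⟨x₃, h3⟩ := hH H hHH
    obtain ⟨x₀, h⟩ := hT F j (ε / 2) (by positivity)
    refine ⟨max x₁ (max x₀ x₃), fun x t q r hx hq hqx => ?_⟩
    have hs := hx₁ x (le_trans (le_max_left _ _) hx)
    have hxa : x₀ ≤ x := le_trans (le_trans (le_max_left _ _) (le_max_right _ _)) hx
    have hxb : x₃ ≤ x := le_trans (le_trans (le_max_right _ _) (le_max_right _ _)) hx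
    have hq0 := hq0' q hq
    have h1 : |∑ b ∈ range H, cntq F x (t + b) q r - (∑ b ∈ range H, cnt F x (t + b)) / q| ≤
        H * (ε / 2 * x / (q * √(Real.log x))) := by
      rw [Finset.sum_div, ← Finset.sum_sub_distrib]
      refine (Finset.abs_sum_le_sum_abs _ _).trans ?_
      refine (Finset.sum_le_sum fun (b : ℕ) _ => h x hxa q hq hqx (t + (b : ℤ)) r).trans
        (le_of_eq ?_)
      rw [Finset.sum_const, card_range, nsmul_eq_mul]
    have h2 := h3 x t hxb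
    have h4 := div_le_div_of_nonneg_right h2 hq0.le
    rw [← abs_of_pos hq0, ← abs_div, abs_of_pos hq0, sub_div] at h4
    have e1 : d * (x * H) / √(2 * Real.pi * VV * Real.log x) *
        Real.exp (-(t - gg * Real.log x) ^ 2 / (2 * VV * Real.log x)) / q =
        d * (x * H) / (q * √(2 * Real.pi * VV * Real.log x)) *
        Real.exp (-(t - gg * Real.log x) ^ 2 / (2 * VV * Real.log x)) := by
      rw [mul_div_right_comm, div_div, mul_comm (√(2 * Real.pi * VV * Real.log x)) (q : ℝ)]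
    rw [e1] at h4
    have e2 : ε * (x * H) / (q * √(Real.log x)) = H * (ε / 2 * x / (q * √(Real.log x))) +
        ε / 2 * (x * H) / √(Real.log x) / q := by
      field_simp
      ring
    rw [e2]
    exact (abs_sub_le _ _ _).trans (add_le_add h1 h4)

end Pool.Agent.LLT.Q
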