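import Pool.Agent.LLT.QHE
import Pool.Agent.SLD.TWE

/-! Even moduli, time families (copy of SLD, module TWE). -/

set_option autoImplicit false

namespace Pool.Agent.LLT.Q

open Pool.Agent.SLD

/-- [QTW] as `SLD.St_TWE` -/
def St_QTW : Prop :=
  ∀ (σ r : ℤ) (K : ℕ) (B : ℤ → Set ℤ) (τ : ℤ) (X i q₁ : ℕ), σ = 1 ∨ σ = -1 → EvFam K B → Odd q₁ →
    ∃ (a X' : ℕ) (b : ℤ), a ≤ i ∧
      |(N σ (B τ) X (2 ^ i * q₁) r : ℝ) - N σ (B (τ - i)) X' (3 ^ a * q₁) b| ≤ K + 1 ∧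
      |(X' : ℝ) - 3 ^ a * X / 2 ^ i| ≤ 2 * 3 ^ a

theorem thm_QTW : St_QTW := by
  intro σ r K B τ X i q₁ hσ hA _
  have hp : (0 : ℤ) < 2 ^ i := by positivity
  obtain ⟨a, t, ha, ht0, ht1, hl⟩ := TWO_A i (r % 2 ^ i) (Int.emod_nonneg _ hp.ne')
    (Int.emod_lt_of_pos _ hp)
  have hr0 := Int.emod_nonneg r hp.ne'
  have hr1 := Int.emod_lt_of_pos r hp
  have hrr := Int.emod_add_mul_ediv r (2 ^ i)
  set r₀ := r % 2 ^ i with hr₀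
  set k := r / 2 ^ i with hk
  have hz : r₀ = 0 ↔ t = 0 := by
    have h1 := hl 0
    rw [mul_zero, mul_zero, add_zero, zero_add] at h1
    rw [← h1]
    exact (TWO_it_zero i r₀).symm
  have key : ∃ X' : ℕ, (∀ l : ℤ, (1 ≤ σ * (r₀ + 2 ^ i * l) ∧ σ * (r₀ + 2 ^ i * l) ≤ X) ↔
      (1 ≤ σ * (t + 3 ^ a * l) ∧ σ * (t + 3 ^ a * l) ≤ X')) ∧
      |(X' : ℝ) - 3 ^ a * X / 2 ^ i| ≤ 2 * 3 ^ a := by
    rcases hσ with rfl | rfl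
    · obtain ⟨X', h1, h2⟩ := TWO_pos X a i r₀ t hr0 hr1 ht0 ht1 hz
      refine ⟨X', fun l => ?_, h2⟩
      rw [one_mul, one_mul]
      exact h1 l
    · obtain ⟨X', h1, h2⟩ := TWO_neg X a i r₀ t hr0 hr1 ht0 ht1
      refine ⟨X', fun l => ?_, h2⟩
      rw [neg_one_mul, neg_one_mul]
      exact h1 l
  obtain ⟨X', hX', hX2⟩ := key
  refine ⟨a, X', t + 3 ^ a * k, ha, ?_, hX2⟩
  let S : Set ℤ := {l | (q₁ : ℤ) ∣ l - k ∧ 1 ≤ σ * (r₀ + 2 ^ i * l) ∧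
    σ * (r₀ + 2 ^ i * l) ≤ X ∧ r₀ + 2 ^ i * l ∈ B τ}
  let S' : Set ℤ := {l | (q₁ : ℤ) ∣ l - k ∧ 1 ≤ σ * (r₀ + 2 ^ i * l) ∧
    σ * (r₀ + 2 ^ i * l) ≤ X ∧ t + 3 ^ a * l ∈ B (τ - i)}
  let D : Set ℤ := {l | 1 ≤ σ * (r₀ + 2 ^ i * l) ∧ |r₀ + 2 ^ i * l| ≤ K * 2 ^ i}
  have e1 : N σ (B τ) X (2 ^ i * q₁) r = S.ncard := by
    refine TWO_card σ (B τ) X (2 ^ i * q₁) q₁ (2 ^ i) r r₀ k hp.ne' S ?_ hrr.symm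
      (fun l => Iff.rfl)
    push_cast
    rfl
  have e2 : N σ (B (τ - i)) X' (3 ^ a * q₁) (t + 3 ^ a * k) = S'.ncard := by
    refine TWO_card σ (B (τ - i)) X' (3 ^ a * q₁) q₁ (3 ^ a) (t + 3 ^ a * k) t k
      (by positivity) S' ?_ rfl (fun l => ?_)
    · push_cast
      rfl
    · have h2 := hX' l
      constructor
      · rintro ⟨h3, h4, h5, h6⟩
        exact ⟨h3, (h2.1 ⟨h4, h5⟩).1, (h2.1 ⟨h4, h5⟩).2, h6⟩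
      · rintro ⟨h3, h4, h5, h6⟩
        exact ⟨h3, (h2.2 ⟨h4, h5⟩).1, (h2.2 ⟨h4, h5⟩).2, h6⟩
  obtain ⟨hDf, hDc⟩ := TWE_small σ hσ K i r₀ hr0 hr1 D (fun l hl => hl)
  rw [e1, e2]
  refine TWE_cmp S S' D (TWE_fin σ hσ X i r₀ hr0 hr1 S fun l hl => ⟨hl.2.1, hl.2.2.1⟩)
    (TWE_fin σ hσ X i r₀ hr0 hr1 S' fun l hl => ⟨hl.2.1, hl.2.2.1⟩) hDf (fun l hd => ?_) K hDc
  have h5 : 1 ≤ σ * (r₀ + 2 ^ i * l) → (r₀ + 2 ^ i * l ∈ B τ ↔ t + 3 ^ a * l ∈ B (τ - i)) := by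
    intro h6
    have h7 : (K : ℤ) * 2 ^ i < |r₀ + 2 ^ i * l| := by
      by_contra hc
      exact hd ⟨h6, not_lt.1 hc⟩
    have h8 := fam_iter hA i τ _ h7
    rw [hl] at h8
    rw [← h8, add_comm]
  constructor
  · rintro ⟨h6, h7, h8, h9⟩
    exact ⟨h6, h7, h8, (h5 h7).1 h9⟩
  · rintro ⟨h6, h7, h8, h9⟩
    exact ⟨h6, h7, h8, (h5 h7).2 h9⟩

end Pool.Agent.LLT.Q
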