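import Pool.Agent.LLT.QModA
import Pool.Agent.LLT.QTW
import Pool.Agent.LLT.QFinJ

/-!
The level sets of the hitting times in the classes modulo an arbitrary `q`.
-/

set_option autoImplicit false

namespace Pool.Agent.LLT.Q

open Finset Filter Topology
open Pool.Agent.SLD (T N)
open Pool.Agent.Collatz3.FW (Tn Fam cN)

theorem qm_cnt (F : Finset ℕ) (i a : ℕ) {ε : ℝ} (hε : 0 < ε) : ∀ᶠ x : ℕ in atTop,
    ∀ (t : ℤ) (X' : ℕ), |(X' : ℝ) - 3 ^ a * x / 2 ^ i| ≤ 2 * 3 ^ a →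
      |cnt F X' (t - i) - 3 ^ a / 2 ^ i * cnt F x t| ≤ ε * (x / √(Real.log x)) := by
  obtain ⟨C, hC⟩ : ∃ C : ℕ, ∀ c ∈ m10_S F, |c| ≤ C := by
    refine ⟨F.sup id, ?_⟩
    rintro c ⟨a, ha, rfl⟩
    rw [Nat.abs_cast]
    exact_mod_cast Finset.le_sup (f := id) (Finset.mem_coe.1 ha)
  have hCr : ∀ c ∈ m10_S F, |(c : ℝ)| ≤ (C : ℝ) + 2 := by
    intro c hc
    have h1 := hC c hc
    have h2 : |(c : ℝ)| ≤ (C : ℝ) := by exact_mod_cast h1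
    linarith
  have hM : (1 : ℝ) < (C : ℝ) + 2 := by
    have : (0 : ℝ) ≤ (C : ℝ) := Nat.cast_nonneg _
    linarith
  have hA : Fam ((C : ℝ) + 2) (Es (m10_S F)) := fam_Es hCr
  have h1 := qm_cN (by linarith) hA (loc hM hA fun n t t' h h' => dis_Es n t t' h h') (inv hM hA)
    i a (by positivity : 0 < ε / 2)
  have h2 := m10_big (2 * 3 ^ a + 1) (by positivity : 0 < ε / 2)
  have hcast : Tendsto (fun x : ℕ => (x : ℝ)) atTop atTop := tendsto_natCast_atTop_atTop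
  filter_upwards [hcast.eventually h1, hcast.eventually h2] with x g1 g2 t X' hX'
  have g3 := g1 t
  rw [m10_cnt, m10_cnt]
  have e1 : ((t - (i : ℤ) : ℤ) : ℝ) = (t : ℝ) - (i : ℝ) := by push_cast; rfl
  rw [e1]
  have e2 : (3 : ℝ) ^ a * (x / 2 ^ i) = 3 ^ a * x / 2 ^ i := by ring
  rw [e2] at g3
  have hZ : (0 : ℝ) ≤ 3 ^ a * x / 2 ^ i := by positivity
  have g4 := qt_diff (Es (m10_S F) ((t : ℝ) - i)) (X := 3 ^ a * x / 2 ^ i) (Z := X') hZ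
  have g5 := qt_diff (Es (m10_S F) ((t : ℝ) - i)) (X := X') (Z := 3 ^ a * x / 2 ^ i)
    (Nat.cast_nonneg _)
  rw [abs_sub_comm] at g5
  have g6 := abs_le.1 g3
  rw [abs_le]
  constructor
  · linarith [g6.1]
  · linarith [g6.2]

/-- the level sets of the hitting times are equidistributed in the classes modulo `q`, for every
`q ≤ x ^ δ` which is not divisible by a fixed power of two -/
theorem qtw0 (hA : St_QAL) : ∃ δ : ℝ, 0 < δ ∧ ∀ (F : Finset ℕ) (j : ℕ) (ε : ℝ), 0 < ε → ∃ x₀ : ℕ,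
    ∀ (x : ℕ) (t : ℤ) (q r : ℕ), x₀ ≤ x → ¬ 2 ^ (j + 1) ∣ q → (q : ℝ) ≤ (x : ℝ) ^ δ →
      |cntq F x t q r - cnt F x t / q| ≤ ε * (x / (q * √(Real.log x))) := by
  obtain ⟨δ₀, hδ₀, C, hC⟩ := hA 1
  refine ⟨min (δ₀ / 2) (1 / 4), lt_min (by positivity) (by norm_num), fun F j ε hε => ?_⟩
  obtain ⟨K, hK⟩ : ∃ K : ℕ, K = F.sup id := ⟨_, rfl⟩
  have hcast : Tendsto (fun x : ℕ => (x : ℝ)) atTop atTop := tendsto_natCast_atTop_atTop
  have hsq : Tendsto (fun x : ℕ => √(Real.log x)) atTop atTop :=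
    Real.tendsto_sqrt_atTop.comp (Real.tendsto_log_atTop.comp hcast)
  have H1 : ∀ᶠ x : ℕ in atTop, ∀ i ∈ range (j + 1), ∀ a ∈ range (j + 1), ∀ (t : ℤ) (X' : ℕ),
      |(X' : ℝ) - 3 ^ a * x / 2 ^ i| ≤ 2 * 3 ^ a →
      |cnt F X' (t - i) - 3 ^ a / 2 ^ i * cnt F x t| ≤ ε / (4 * 2 ^ j) * (x / √(Real.log x)) :=
    (eventually_all_finset _).2 fun i _ => (eventually_all_finset _).2 fun a _ =>
      qm_cnt F i a (by positivity)
  have H2 : ∀ᶠ x : ℕ in atTop, 4 * 4 * (K + 1) / ε ≤ (x : ℝ) ^ (1 / 4 : ℝ) :=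
    ((tendsto_rpow_atTop (by norm_num)).comp hcast).eventually_ge_atTop _
  have H3 : ∀ᶠ x : ℕ in atTop, (3 : ℝ) ^ j * (2 ^ (j + 1)) ^ δ₀ ≤ (x : ℝ) ^ (δ₀ / 2) :=
    ((tendsto_rpow_atTop (by positivity)).comp hcast).eventually_ge_atTop _
  have H4 : ∀ᶠ x : ℕ in atTop, ((K : ℝ) + 1) * (2 ^ (j + 1)) ^ δ₀ ≤ (x : ℝ) ^ δ₀ :=
    ((tendsto_rpow_atTop hδ₀).comp hcast).eventually_ge_atTop _
  have H5 : ∀ᶠ x : ℕ in atTop, (2 : ℝ) ^ (j + 2) * (2 * 3 ^ j + 2) ≤ x :=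
    hcast.eventually_ge_atTop _
  have H6 := hcast.eventually (m10_log (j + 1))
  have H7 := hsq.eventually_ge_atTop (48 * |C| / ε)
  obtain ⟨x₀, hx₀⟩ := eventually_atTop.1
    (H1.and (H2.and (H3.and (H4.and (H5.and (H6.and H7))))))
  refine ⟨x₀, fun x t q r hx hq hqx => ?_⟩
  obtain ⟨h1, h2, h3, h4, h5, ⟨h6, h6b, -⟩, h7⟩ := hx₀ x hx
  have hq0 : q ≠ 0 := by
    rintro rfl
    exact hq (dvd_zero _)
  obtain ⟨i, q₁, hq₁, hqq⟩ := Nat.exists_eq_two_pow_mul_odd hq0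
  have hij : i ≤ j := by
    by_contra hcon
    apply hq
    rw [hqq]
    exact (pow_dvd_pow 2 (by omega)).mul_right _
  obtain ⟨a, X', b, ha, e1, e2⟩ := thm_QTW 1 r K (LS F) t x i q₁ (Or.inl rfl)
    (by rw [hK]; exact ev_LS F) hq₁
  have haj : a ≤ j := ha.trans hij
  -- sizes
  have hx1 : (1 : ℝ) ≤ x := by
    have : (1 : ℝ) ≤ 2 ^ (j + 2) * (2 * 3 ^ j + 2) := by
      have p1 : (1 : ℝ) ≤ 2 ^ (j + 2) := one_le_pow₀ (by norm_num)
      have p2 : (1 : ℝ) ≤ 3 ^ j := one_le_pow₀ (by norm_num)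
      nlinarith
    linarith
  have hx0 : (0 : ℝ) < x := by linarith
  have hqr0 : (0 : ℝ) < q := by exact_mod_cast Nat.pos_of_ne_zero hq0
  have hq1r : (0 : ℝ) < q₁ := by exact_mod_cast hq₁.pos
  have hqr : (q : ℝ) = 2 ^ i * q₁ := by exact_mod_cast hqq
  have p2i : (1 : ℝ) ≤ 2 ^ i := one_le_pow₀ (by norm_num)
  have p3a : (1 : ℝ) ≤ 3 ^ a := one_le_pow₀ (by norm_num)
  have p2ij : (2 : ℝ) ^ i ≤ 2 ^ j := pow_le_pow_right₀ (by norm_num) hij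
  have p3aj : (3 : ℝ) ^ a ≤ 3 ^ j := pow_le_pow_right₀ (by norm_num) haj
  have hq1q : (q₁ : ℝ) ≤ q := by
    rw [hqr]
    exact le_mul_of_one_le_left hq1r.le p2i
  have e3 := abs_le.1 e2
  have hxi : (x : ℝ) / 2 ^ j ≤ 3 ^ a * x / 2 ^ i := by
    rw [div_le_div_iff₀ (by positivity) (by positivity)]
    have : (x : ℝ) * 2 ^ i ≤ x * 2 ^ j := mul_le_mul_of_nonneg_left p2ij hx0.le
    nlinarith [mul_nonneg hx0.le (by positivity : (0 : ℝ) ≤ 2 ^ j)]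
  have hX'1 : (x : ℝ) / 2 ^ (j + 1) ≤ X' := by
    have a1 : (x : ℝ) / 2 ^ j = x / 2 ^ (j + 1) + x / 2 ^ (j + 1) := by
      rw [pow_succ]
      field_simp
      ring
    have a2 : 2 * (3 : ℝ) ^ a ≤ x / 2 ^ (j + 1) := by
      rw [le_div_iff₀ (by positivity)]
      have a3 : (2 : ℝ) ^ (j + 2) = 2 * 2 ^ (j + 1) := by ring
      have a4 : (0 : ℝ) < 2 ^ (j + 1) := by positivity
      rw [a3] at h5
      nlinarith
    linarith [e3.1]
  have hX'2 : 2 ≤ X' := by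
    have a2 : (2 : ℝ) ≤ x / 2 ^ (j + 1) := by
      rw [le_div_iff₀ (by positivity)]
      have a3 : (2 : ℝ) ^ (j + 2) = 2 * 2 ^ (j + 1) := by ring
      have a4 : (0 : ℝ) < 2 ^ (j + 1) := by positivity
      have a5 : (1 : ℝ) ≤ 3 ^ j := one_le_pow₀ (by norm_num)
      rw [a3] at h5
      nlinarith
    exact_mod_cast a2.trans hX'1
  have hX'r : (0 : ℝ) < X' := by
    have : (2 : ℝ) ≤ X' := by exact_mod_cast hX'2
    linarith
  have hX'3 : (X' : ℝ) ≤ 3 * (3 ^ a * x / 2 ^ i) := by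
    have a1 : (1 : ℝ) ≤ x / 2 ^ i := by
      rw [le_div_iff₀ (by positivity)]
      have a3 : (2 : ℝ) ^ (j + 2) = 4 * 2 ^ j := by ring
      have a5 : (1 : ℝ) ≤ 3 ^ j := one_le_pow₀ (by norm_num)
      have a6 : (0 : ℝ) < 2 ^ j := by positivity
      rw [a3] at h5
      nlinarith
    have a2 : 2 * (3 : ℝ) ^ a ≤ 2 * (3 ^ a * x / 2 ^ i) := by
      have a4 : (3 : ℝ) ^ a * x / 2 ^ i = 3 ^ a * (x / 2 ^ i) := by ring
      rw [a4]
      nlinarith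
    linarith [e3.2]
  -- powers
  have hpow : (x : ℝ) ^ δ₀ / (2 ^ (j + 1)) ^ δ₀ ≤ (X' : ℝ) ^ δ₀ := by
    rw [← Real.div_rpow hx0.le (by positivity)]
    exact Real.rpow_le_rpow (by positivity) hX'1 hδ₀.le
  have hKX : (K : ℝ) ≤ (X' : ℝ) ^ δ₀ := by
    refine le_trans ?_ hpow
    rw [le_div_iff₀ (by positivity)]
    refine le_trans ?_ h4
    apply mul_le_mul_of_nonneg_right _ (by positivity)
    linarith
  have hqX : ((3 ^ a * q₁ : ℕ) : ℝ) ≤ (X' : ℝ) ^ δ₀ := by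
    refine le_trans ?_ hpow
    rw [le_div_iff₀ (by positivity)]
    have a1 : (q₁ : ℝ) ≤ (x : ℝ) ^ (δ₀ / 2) :=
      hq1q.trans (hqx.trans (Real.rpow_le_rpow_of_exponent_le hx1 (min_le_left _ _)))
    have a2 : (x : ℝ) ^ δ₀ = (x : ℝ) ^ (δ₀ / 2) * (x : ℝ) ^ (δ₀ / 2) := by
      rw [← Real.rpow_add hx0]
      congr 1
      ring
    have a3 : (3 : ℝ) ^ a * (2 ^ (j + 1)) ^ δ₀ ≤ (x : ℝ) ^ (δ₀ / 2) :=
      (mul_le_mul_of_nonneg_right p3aj (by positivity)).trans h3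
    push_cast
    calc (3 : ℝ) ^ a * q₁ * (2 ^ (j + 1)) ^ δ₀ = 3 ^ a * (2 ^ (j + 1)) ^ δ₀ * q₁ := by ring
      _ ≤ (x : ℝ) ^ (δ₀ / 2) * (x : ℝ) ^ (δ₀ / 2) :=
        mul_le_mul a3 a1 hq1r.le (by positivity)
      _ = (x : ℝ) ^ δ₀ := a2.symm
  have hodd : Odd (3 ^ a * q₁) := (Odd.pow (by decide)).mul hq₁
  have e4 := hC 1 b K (LS F) (t - i) X' (3 ^ a * q₁) (Or.inl rfl)
    (by rw [hK]; exact ev_LS F) hX'2 hKX hodd hqX
  have e5 := h1 i (mem_range.2 (by omega)) a (mem_range.2 (by omega)) t X' e2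
  have e6 := cntq_eq F X' (t - i) 1 0
  rw [cntq_one] at e6
  simp only [Nat.cast_zero] at e6
  rw [← e6] at e4
  have e7 : cntq F x t q r = (N 1 (LS F t) x (2 ^ i * q₁) r : ℝ) := by rw [cntq_eq, hqq]
  rw [e7]
  obtain ⟨s, hs⟩ : ∃ s, s = √(Real.log (x : ℝ)) := ⟨_, rfl⟩
  have hs0 : 0 < s := by
    rw [hs]
    exact Real.sqrt_pos.2 (by linarith)
  have hss : s * s = Real.log (x : ℝ) := by
    rw [hs]
    exact Real.mul_self_sqrt (by linarith)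
  rw [← hs] at h7 e5 ⊢
  -- the three errors
  obtain ⟨w, hw⟩ : ∃ w, w = (x : ℝ) / (q * s) := ⟨_, rfl⟩
  have hw0 : 0 < w := by rw [hw]; positivity
  have f1 : (K : ℝ) + 1 ≤ ε / 4 * w := by
    have a1 : (q : ℝ) ≤ (x : ℝ) ^ (1 / 4 : ℝ) :=
      hqx.trans (Real.rpow_le_rpow_of_exponent_le hx1 (min_le_right _ _))
    have a2 : s ≤ (x : ℝ) ^ (1 / 2 : ℝ) := by
      rw [hs, ← Real.sqrt_eq_rpow]
      exact Real.sqrt_le_sqrt ((Real.log_le_sub_one_of_pos hx0).trans (by linarith))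
    have a3 : (x : ℝ) ^ (1 / 4 : ℝ) * (x : ℝ) ^ (1 / 2 : ℝ) * (x : ℝ) ^ (1 / 4 : ℝ) = x := by
      rw [← Real.rpow_add hx0, ← Real.rpow_add hx0]
      norm_num
    have a4 : (q : ℝ) * s ≤ (x : ℝ) ^ (1 / 4 : ℝ) * (x : ℝ) ^ (1 / 2 : ℝ) :=
      mul_le_mul a1 a2 hs0.le (by positivity)
    rw [div_le_iff₀ hε] at h2
    have a5 : (K : ℝ) + 1 ≤ ε / 4 * (x : ℝ) ^ (1 / 4 : ℝ) := by
      have : (0 : ℝ) ≤ K := Nat.cast_nonneg _
      nlinarith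
    rw [hw, ← mul_div_assoc, le_div_iff₀ (by positivity)]
    calc ((K : ℝ) + 1) * (q * s) ≤ ε / 4 * (x : ℝ) ^ (1 / 4 : ℝ) *
        ((x : ℝ) ^ (1 / 4 : ℝ) * (x : ℝ) ^ (1 / 2 : ℝ)) :=
          mul_le_mul a5 a4 (by positivity) (by positivity)
      _ = ε / 4 * ((x : ℝ) ^ (1 / 4 : ℝ) * (x : ℝ) ^ (1 / 2 : ℝ) * (x : ℝ) ^ (1 / 4 : ℝ)) := by ring
      _ = ε / 4 * x := by rw [a3]
  have f2 : C * X' / (((3 ^ a * q₁ : ℕ) : ℝ) * Real.log X' ^ 1) ≤ ε / 4 * w := by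
    rw [pow_one]
    push_cast
    have a1 : Real.log (x : ℝ) / 4 ≤ Real.log (X' : ℝ) := by
      refine h6b.trans ?_
      exact Real.log_le_log (by positivity) hX'1
    have a2 : 0 < Real.log (X' : ℝ) := by linarith
    have a3 : C * X' ≤ |C| * (3 * (3 ^ a * x / 2 ^ i)) :=
      mul_le_mul (le_abs_self C) hX'3 hX'r.le (abs_nonneg _)
    have a4 : (3 : ℝ) ^ a * q₁ * (Real.log (x : ℝ) / 4) ≤ 3 ^ a * q₁ * Real.log (X' : ℝ) :=
      mul_le_mul_of_nonneg_left a1 (by positivity)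
    have hlx : 0 < Real.log (x : ℝ) := by linarith
    calc C * X' / (3 ^ a * q₁ * Real.log (X' : ℝ)) ≤
        |C| * (3 * (3 ^ a * x / 2 ^ i)) / (3 ^ a * q₁ * (Real.log (x : ℝ) / 4)) :=
          div_le_div₀ (by positivity) a3 (by positivity) a4
      _ = 12 * |C| * (x / (q * (s * s))) := by
        rw [hss, hqr]
        field_simp
        ring
      _ = 12 * |C| / s * w := by
        rw [hw]
        field_simp
      _ ≤ ε / 4 * w := by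
        apply mul_le_mul_of_nonneg_right _ hw0.le
        rw [div_le_iff₀ hs0]
        rw [div_le_iff₀ hε] at h7
        linarith
  have f3 : |cnt F X' (t - i) / ((3 ^ a * q₁ : ℕ) : ℝ) - cnt F x t / q| ≤ ε / 4 * w := by
    have a1 : cnt F X' (t - i) / ((3 ^ a * q₁ : ℕ) : ℝ) - cnt F x t / q =
        (cnt F X' (t - i) - 3 ^ a / 2 ^ i * cnt F x t) / (3 ^ a * q₁) := by
      push_cast
      rw [hqr]
      field_simp
    rw [a1, abs_div, abs_of_pos (by positivity : (0 : ℝ) < 3 ^ a * q₁)]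
    rw [div_le_iff₀ (by positivity)]
    refine e5.trans ?_
    rw [hw, hqr]
    have a2 : ε / (4 * 2 ^ j) * ((x : ℝ) / s) ≤ ε / (4 * 2 ^ i) * (x / s) := by
      apply mul_le_mul_of_nonneg_right _ (by positivity)
      apply div_le_div_of_nonneg_left hε.le (by positivity)
      linarith
    have a3 : ε / 4 * ((x : ℝ) / (2 ^ i * q₁ * s)) * (3 ^ a * q₁) =
        3 ^ a * (ε / (4 * 2 ^ i) * (x / s)) := by
      field_simp
    rw [a3]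
    refine a2.trans ?_
    exact le_mul_of_one_le_left (by positivity) p3a
  have g1 := abs_le.1 e1
  have g2 := abs_le.1 e4
  have g3 := abs_le.1 f3
  rw [← hw]
  push_cast at g1 g2 g3 f2 ⊢
  rw [abs_le]
  constructor
  · linarith [g1.1, g2.1, g3.1]
  · linarith [g1.2, g2.2, g3.2]

/-- all moduli -/
theorem qtw (hA : St_QAL) : ∃ δ : ℝ, 0 < δ ∧ StTw δ := by
  obtain ⟨δ, hδ, h⟩ := qtw0 hA
  refine ⟨δ, hδ, fun F j ε hε => ?_⟩
  obtain ⟨x₀, hx₀⟩ := h F j ε hε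
  refine ⟨x₀, fun x hx q hq hqx t r => ?_⟩
  rw [mul_div_assoc]
  exact hx₀ x t q r hx hq hqx

end Pool.Agent.LLT.Q
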