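import Pool.Agent.LLT.QAll
import Pool.Agent.LLT.QFinJ
import Pool.Agent.LLT.QMod

/-!
The local limit theorem in residue classes for the moduli with a bounded power of two, without
hypotheses.
-/

set_option autoImplicit false

namespace Pool.Agent.LLT.Q

open Finset Filter Topology
open Pool.Agent.Collatz3.FW (Tn)

theorem all_Tw : ∃ δ : ℝ, 0 < δ ∧ StTw δ := qtw all_QAL

/-- the local limit theorem in residue classes -/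
theorem llt_moduli : ∃ δ : ℝ, 0 < δ ∧ ∀ F : Finset ℕ, ∃ d : ℝ, Tendsto (fun x : ℕ =>
      ({n : ℕ | 1 ≤ n ∧ n ≤ x ∧ ∃ k : ℕ, Tn^[k] n ∈ F}.ncard : ℝ) / x) atTop (𝓝 d) ∧ ∀ j : ℕ,
    (∃ C : ℝ, ∃ x₀ : ℕ, ∀ (x : ℕ) (t : ℤ) (q r : ℕ), x₀ ≤ x → ¬ 2 ^ (j + 1) ∣ q →
      (q : ℝ) ≤ (x : ℝ) ^ δ → cntq F x t q r ≤ C * x / (q * √(Real.log x))) ∧
    (0 < d → ∀ R : ℝ, ∃ c : ℝ, 0 < c ∧ ∃ x₀ : ℕ, ∀ (x : ℕ) (t : ℤ) (q r : ℕ), x₀ ≤ x →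
      ¬ 2 ^ (j + 1) ∣ q → (q : ℝ) ≤ (x : ℝ) ^ δ →
      |(t : ℝ) - gg * Real.log x| ≤ R * √(Real.log x) →
        c * x / (q * √(Real.log x)) ≤ cntq F x t q r) ∧
    ∀ ε : ℝ, 0 < ε → ∃ H₀ : ℕ, ∀ H : ℕ, H₀ ≤ H → ∃ x₀ : ℕ, ∀ (x : ℕ) (t : ℤ) (q r : ℕ), x₀ ≤ x →
      ¬ 2 ^ (j + 1) ∣ q → (q : ℝ) ≤ (x : ℝ) ^ δ →
      |∑ b ∈ range H, cntq F x (t + b) q r - d * (x * H) / (q * √(2 * Real.pi * VV * Real.log x)) *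
        Real.exp (-(t - gg * Real.log x) ^ 2 / (2 * VV * Real.log x))| ≤
          ε * (x * H) / (q * √(Real.log x)) := by
  obtain ⟨δ, hδ, h⟩ := all_Tw
  exact ⟨δ, hδ, fun F => lltj h F⟩

end Pool.Agent.LLT.Q
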