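import Pool.Agent.SLD.StB

/-!
Level sets of hitting times in residue classes: definitions (after SLD by helper30).
-/

set_option autoImplicit false

namespace Pool.Agent.LLT.Q

open Finset
open Pool.Agent.Collatz3 (cw)
open Pool.Agent.SLD

/-- a family of sets indexed by time, carried along by the map outside `[-K, K]` -/
def EvFam (K : ℕ) (B : ℤ → Set ℤ) : Prop :=
  ∀ (t n : ℤ), (K : ℤ) < |n| → (T n ∈ B (t - 1) ↔ n ∈ B t)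

open Classical in
/-- the main term of the hand-off with `k` letters, sets depending on the sum of the letters -/
noncomputable def MF (σ : ℤ) (A : ℕ → Set ℤ) (X k : ℕ) : ℝ :=
  ∑ s ∈ range (21 * k / 10 + 1), 2 ^ s * (3 ^ (k / 4) / 3 ^ k) *
    ∑ m ∈ (Icc 1 (3 ^ k * X / 2 ^ s)).filter (fun m => Odd m ∧ σ * (m : ℤ) ∈ A s),
      P (3 ^ (k / 4)) k s (σ * (m : ℤ))

/-- [QHE] as `SLD.St_HE1` -/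
def St_QHE : Prop :=
  ∀ B : ℕ, ∃ C : ℝ, ∀ (σ b : ℤ) (K : ℕ) (A : ℤ → Set ℤ) (t : ℤ) (X Q : ℕ), σ = 1 ∨ σ = -1 →
    EvFam K A → 2 ≤ X → Odd Q →
    |(E σ (A t) X Q b : ℝ) - ∑ s ∈ range (21 * kk X / 10 + 1), ∑ w ∈ W (kk X) s,
        (Cn σ (A (t - s)) X Q b w : ℝ)| ≤
      C * (X / Q) / (kk X : ℝ) ^ B + C * (K + 1) * (X : ℝ) ^ ((24 : ℝ) / 25)

/-- [QHO] as `SLD.St_HO2` -/
def St_QHO : Prop :=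
  ∀ (σ b : ℤ) (A : ℕ → Set ℤ) (X Q k : ℕ), σ = 1 ∨ σ = -1 → Odd Q →
    |(∑ s ∈ range (21 * k / 10 + 1), ∑ w ∈ W k s, (Cn σ (A s) X Q b w : ℝ)) - MF σ A X k / Q| ≤
      X / Q * Osc (3 ^ k * Q) (3 ^ (k / 4)) k (21 * k / 10 + 1) + 2 * 2 ^ (21 * k / 10)

/-- [QOD] as `SLD.St_ODE` -/
def St_QOD : Prop :=
  ∀ B : ℕ, ∃ δ : ℝ, 0 < δ ∧ ∃ C : ℝ, ∀ (σ b : ℤ) (K : ℕ) (A : ℤ → Set ℤ) (t : ℤ) (X Q : ℕ),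
    σ = 1 ∨ σ = -1 → EvFam K A → 2 ≤ X → (K : ℝ) ≤ (X : ℝ) ^ δ → Odd Q → (Q : ℝ) ≤ (X : ℝ) ^ δ →
    |(E σ (A t) X Q b : ℝ) - E σ (A t) X 1 0 / Q| ≤ C * X / (Q * Real.log X ^ B)

/-- [QAL] as `SLD.St_ALE` -/
def St_QAL : Prop :=
  ∀ B : ℕ, ∃ δ : ℝ, 0 < δ ∧ ∃ C : ℝ, ∀ (σ r : ℤ) (K : ℕ) (A : ℤ → Set ℤ) (t : ℤ) (X q : ℕ),
    σ = 1 ∨ σ = -1 → EvFam K A → 2 ≤ X → (K : ℝ) ≤ (X : ℝ) ^ δ → Odd q → (q : ℝ) ≤ (X : ℝ) ^ δ →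
    |(N σ (A t) X q r : ℝ) - N σ (A t) X 1 0 / q| ≤ C * X / (q * Real.log X ^ B)

end Pool.Agent.LLT.Q
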