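import Pool.Agent.LLT.M10b

set_option autoImplicit false

/-!
Local limit theorem: small changes of the argument.
-/

namespace Pool.Agent.LLT

open Finset Filter Topology
open Pool.Agent.Collatz3.FW
open Pool.Agent.Collatz3.DN (Dens Reach)
open Pool.Agent.Helper14 (T)

theorem qt_diff (A : Set ℤ) {X Z : ℝ} (hX : 0 ≤ X) : cN A Z ≤ cN A X + (|Z - X| + 1) := by
  rcases le_or_gt Z X with h | h
  · have h1 : cN A Z ≤ cN A X := cN_mono fun n _ hn hA => ⟨hn.trans h, hA⟩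
    have h2 := abs_nonneg (Z - X)
    linarith
  · have hZ : 0 ≤ Z := hX.trans h.le
    have h1 : {n : ℕ | 1 ≤ n ∧ (n : ℝ) ≤ Z ∧ (n : ℤ) ∈ A} ⊆
        {n : ℕ | 1 ≤ n ∧ (n : ℝ) ≤ X ∧ (n : ℤ) ∈ A} ∪ (Finset.Ioc ⌊X⌋₊ ⌊Z⌋₊ : Finset ℕ) := by
      rintro n ⟨h2, h3, h4⟩
      rcases le_or_gt (n : ℝ) X with h5 | h5
      · exact Or.inl ⟨h2, h5, h4⟩
      · right
        rw [mem_coe, mem_Ioc]
        exact ⟨(Nat.floor_lt hX).2 h5, Nat.le_floor h3⟩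
    have h2 := (Set.ncard_le_ncard h1 ((cN_finite A X).union (Finset.finite_toSet _))).trans
      (Set.ncard_union_le _ _)
    rw [Set.ncard_coe_finset, Nat.card_Ioc] at h2
    have h3 : cN A Z ≤ cN A X + ((⌊Z⌋₊ - ⌊X⌋₊ : ℕ) : ℝ) := by
      unfold cN
      exact_mod_cast h2
    have h4 : ⌊X⌋₊ ≤ ⌊Z⌋₊ := Nat.floor_le_floor h.le
    rw [Nat.cast_sub h4] at h3
    have h5 := Nat.floor_le hZ
    have h6 := Nat.lt_floor_add_one X
    rw [abs_of_pos (by linarith : 0 < Z - X)]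
    linarith

section fam
variable {A : ℝ → Set ℤ}

theorem qt_inv3 (hloc : ∃ C X₀ : ℝ, 0 < C ∧ 2 ≤ X₀ ∧
      ∀ X t : ℝ, X₀ ≤ X → ff (A t) X ≤ C / √(Real.log X))
    (hinv : ∃ C X₀ : ℝ, 0 < C ∧ 2 ≤ X₀ ∧
      ∀ X t B : ℝ, X₀ ≤ X → 0 ≤ B → (∀ y τ : ℝ, X ^ (9 / 10 : ℝ) ≤ y → ff (A τ) y ≤ B) →
        |ff (A (t + 1)) (2 * X) - ff (A t) X| ≤ C * (B / √(Real.log X) + 1 / Real.log X ^ 2) ∧
        |ff (A t) (3 * X) - ff (A t) X| ≤ C * (B / √(Real.log X) + 1 / Real.log X ^ 2))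
    {δ : ℝ} (hδ : 0 < δ) : ∀ᶠ X : ℝ in atTop, ∀ t : ℝ,
      |ff (A t) (3 * X) - ff (A t) X| ≤ δ / √(Real.log X) := by
  obtain ⟨C, X₀, hC, hX₀, hl⟩ := hloc
  obtain ⟨C', X₁, hC', hX₁, hi⟩ := hinv
  have hs : Tendsto (fun X : ℝ => √(Real.log X)) atTop atTop :=
    Real.tendsto_sqrt_atTop.comp Real.tendsto_log_atTop
  filter_upwards [eventually_ge_atTop X₁,
    (tendsto_rpow_atTop (by norm_num : (0 : ℝ) < 9 / 10)).eventually_ge_atTop X₀,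
    hs.eventually_ge_atTop (1 : ℝ), hs.eventually_ge_atTop (C' * (2 * C + 1) / δ)]
    with X h1 h2 h3 h4 t
  have hX0 : 0 < X := by linarith
  obtain ⟨s, hsdef⟩ : ∃ s, s = √(Real.log X) := ⟨_, rfl⟩
  rw [← hsdef] at h3 h4
  have hs0 : 0 < s := by linarith
  have hlog : 0 < Real.log X := by
    have h5 : 0 < √(Real.log X) := by rw [← hsdef]; exact hs0
    exact Real.sqrt_pos.1 h5
  have hsq : s * s = Real.log X := by
    rw [hsdef]
    exact Real.mul_self_sqrt hlog.le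
  have h5 : s ≤ 2 * √(9 / 10 * Real.log X) := by
    rw [hsdef, Real.sqrt_le_left (by positivity), mul_pow, Real.sq_sqrt (by positivity)]
    linarith
  have h6 : 0 < √(9 / 10 * Real.log X) := Real.sqrt_pos.2 (by positivity)
  have hB : C / √(9 / 10 * Real.log X) ≤ 2 * C / s := by
    rw [div_le_div_iff₀ h6 hs0]
    nlinarith
  have h7 := (hi X t (C / √(9 / 10 * Real.log X)) h1 (by positivity) (fun y τ hy => by
    refine (hl y τ (h2.trans hy)).trans ?_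
    apply div_le_div_of_nonneg_left hC.le h6
    apply Real.sqrt_le_sqrt
    rw [← Real.log_rpow hX0]
    exact Real.log_le_log (by positivity) hy)).2
  refine h7.trans ?_
  rw [← hsdef, ← hsq, le_div_iff₀ hs0]
  rw [div_le_iff₀ hδ] at h4
  have h8 : C / √(9 / 10 * (s * s)) / s + 1 / (s * s) ^ 2 ≤ (2 * C + 1) / (s * s) := by
    rw [hsq]
    have e1 : C / √(9 / 10 * Real.log X) / s ≤ 2 * C / Real.log X := by
      calc C / √(9 / 10 * Real.log X) / s ≤ 2 * C / s / s :=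
            div_le_div_of_nonneg_right hB hs0.le
        _ = 2 * C / Real.log X := by rw [div_div, hsq]
    have e2 : 1 / Real.log X ^ 2 ≤ 1 / Real.log X := by
      apply div_le_div_of_nonneg_left (by norm_num) hlog
      have : 1 ≤ Real.log X := by nlinarith
      nlinarith
    rw [add_div]
    linarith
  calc C' * (C / √(9 / 10 * (s * s)) / s + 1 / (s * s) ^ 2) * s ≤
      C' * ((2 * C + 1) / (s * s)) * s := by
        apply mul_le_mul_of_nonneg_right _ hs0.le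
        exact mul_le_mul_of_nonneg_left h8 hC'.le
    _ = C' * (2 * C + 1) / s := by field_simp
    _ ≤ δ := by
      rw [div_le_iff₀ hs0]
      linarith

theorem qt_pow3 (hloc : ∃ C X₀ : ℝ, 0 < C ∧ 2 ≤ X₀ ∧
      ∀ X t : ℝ, X₀ ≤ X → ff (A t) X ≤ C / √(Real.log X))
    (hinv : ∃ C X₀ : ℝ, 0 < C ∧ 2 ≤ X₀ ∧
      ∀ X t B : ℝ, X₀ ≤ X → 0 ≤ B → (∀ y τ : ℝ, X ^ (9 / 10 : ℝ) ≤ y → ff (A τ) y ≤ B) →
        |ff (A (t + 1)) (2 * X) - ff (A t) X| ≤ C * (B / √(Real.log X) + 1 / Real.log X ^ 2) ∧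
        |ff (A t) (3 * X) - ff (A t) X| ≤ C * (B / √(Real.log X) + 1 / Real.log X ^ 2))
    (a : ℕ) : ∀ δ : ℝ, 0 < δ → ∀ᶠ X : ℝ in atTop, ∀ t : ℝ,
      |ff (A t) (3 ^ a * X) - ff (A t) X| ≤ δ / √(Real.log X) := by
  induction a with
  | zero =>
    intro δ hδ
    filter_upwards with X t
    simp only [pow_zero, one_mul, sub_self, abs_zero]
    positivity
  | succ a ih =>
    intro δ hδ
    have ht : Tendsto (fun X : ℝ => 3 ^ a * X) atTop atTop :=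
      tendsto_id.const_mul_atTop (by positivity)
    filter_upwards [ih (δ / 2) (by positivity),
      ht.eventually (qt_inv3 hloc hinv (by positivity : 0 < δ / 2)), eventually_gt_atTop 1]
      with X h1 h2 h3 t
    have e1 := h1 t
    have e2 := h2 t
    have e4 : 3 * (3 ^ a * X) = 3 ^ (a + 1) * X := by ring
    rw [e4] at e2
    have p1 : 0 < √(Real.log X) := Real.sqrt_pos.2 (Real.log_pos h3)
    have e5 : δ / 2 / √(Real.log (3 ^ a * X)) ≤ δ / 2 / √(Real.log X) := by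
      apply div_le_div_of_nonneg_left (by positivity) p1
      apply Real.sqrt_le_sqrt
      apply Real.log_le_log (by linarith)
      exact le_mul_of_one_le_left (by linarith) (one_le_pow₀ (by norm_num))
    have e6 : δ / 2 / √(Real.log X) + δ / 2 / √(Real.log X) = δ / √(Real.log X) := by ring
    rw [abs_le] at e1 e2 ⊢
    constructor <;> linarith [e1.1, e1.2, e2.1, e2.2]

theorem qm_cN {M : ℝ} (hM : 0 ≤ M) (hA : Fam M A) (hloc : ∃ C X₀ : ℝ, 0 < C ∧ 2 ≤ X₀ ∧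
      ∀ X t : ℝ, X₀ ≤ X → ff (A t) X ≤ C / √(Real.log X))
    (hinv : ∃ C X₀ : ℝ, 0 < C ∧ 2 ≤ X₀ ∧
      ∀ X t B : ℝ, X₀ ≤ X → 0 ≤ B → (∀ y τ : ℝ, X ^ (9 / 10 : ℝ) ≤ y → ff (A τ) y ≤ B) →
        |ff (A (t + 1)) (2 * X) - ff (A t) X| ≤ C * (B / √(Real.log X) + 1 / Real.log X ^ 2) ∧
        |ff (A t) (3 * X) - ff (A t) X| ≤ C * (B / √(Real.log X) + 1 / Real.log X ^ 2))
    (i a : ℕ) {ε : ℝ} (hε : 0 < ε) : ∀ᶠ X : ℝ in atTop, ∀ t : ℝ,
      |cN (A (t - i)) (3 ^ a * (X / 2 ^ i)) - 3 ^ a / 2 ^ i * cN (A t) X| ≤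
        ε * (X / √(Real.log X)) := by
  obtain ⟨ε₁, h₁⟩ : ∃ ε₁, ε₁ = ε / (6 * 3 ^ a) := ⟨_, rfl⟩
  have hε₁ : 0 < ε₁ := by rw [h₁]; positivity
  have hy : Tendsto (fun X : ℝ => X / 2 ^ i) atTop atTop :=
    tendsto_id.atTop_div_const (by positivity)
  have hZ : Tendsto (fun X : ℝ => 3 ^ a * (X / 2 ^ i)) atTop atTop :=
    hy.const_mul_atTop (by positivity)
  filter_upwards [hZ.eventually (m10_main hM hA hloc hinv hε₁),
    hy.eventually (qt_pow3 hloc hinv a ε₁ hε₁), m10_shift hloc hinv i ε₁ hε₁,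
    m10_main hM hA hloc hinv hε₁, m10_log i, eventually_gt_atTop 0] with X h1 h2 h3 h4 h5 h6 t
  obtain ⟨h7, h8, h9⟩ := h5
  have g1 := h1 (t - i)
  have g2 := h2 (t - i)
  have g3 := h3 t
  have g4 := h4 t
  have hy0 : 0 < X / 2 ^ i := by positivity
  have p3 : (1 : ℝ) ≤ 3 ^ a := one_le_pow₀ (by norm_num)
  obtain ⟨Z, hZdef⟩ : ∃ Z, Z = 3 ^ a * (X / 2 ^ i) := ⟨_, rfl⟩
  rw [← hZdef] at g1 g2 ⊢
  have hyZ : X / 2 ^ i ≤ Z := by
    rw [hZdef]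
    exact le_mul_of_one_le_left hy0.le p3
  have hZ0 : 0 < Z := hy0.trans_le hyZ
  have hZX : Z ≤ 3 ^ a * X := by
    rw [hZdef]
    apply mul_le_mul_of_nonneg_left _ (by positivity)
    exact div_le_self h6.le (one_le_pow₀ (by norm_num))
  obtain ⟨s, hs⟩ : ∃ s, s = √(Real.log X) := ⟨_, rfl⟩
  have hs0 : 0 < s := by
    rw [hs]
    exact Real.sqrt_pos.2 (by linarith)
  have hsy0 : 0 < √(Real.log (X / 2 ^ i)) := Real.sqrt_pos.2 (by linarith)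
  have hsZ : √(Real.log (X / 2 ^ i)) ≤ √(Real.log Z) :=
    Real.sqrt_le_sqrt (Real.log_le_log hy0 hyZ)
  have hsZ0 : 0 < √(Real.log Z) := hsy0.trans_le hsZ
  rw [← hs] at g3 g4 h9 ⊢
  obtain ⟨u, hu⟩ : ∃ u, u = cN (A (t - i)) Z := ⟨_, rfl⟩
  obtain ⟨v, hv⟩ : ∃ v, v = cN (A t) X := ⟨_, rfl⟩
  obtain ⟨f1, hf1⟩ : ∃ f1, f1 = ff (A (t - i)) Z := ⟨_, rfl⟩
  obtain ⟨f2, hf2⟩ : ∃ f2, f2 = ff (A (t - i)) (X / 2 ^ i) := ⟨_, rfl⟩
  obtain ⟨f3, hf3⟩ : ∃ f3, f3 = ff (A t) X := ⟨_, rfl⟩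
  rw [← hu, ← hf1] at g1
  rw [← hf1, ← hf2] at g2
  rw [← hf2, ← hf3] at g3
  rw [← hv, ← hf3] at g4
  rw [← hu, ← hv]
  have b1 : ε₁ * (Z / √(Real.log Z)) ≤ 2 * (ε₁ * (Z / s)) := by
    have e1 : Z / √(Real.log Z) ≤ 2 * (Z / s) := by
      rw [← mul_div_assoc, div_le_div_iff₀ hsZ0 hs0]
      nlinarith
    nlinarith
  have b2 : ε₁ / √(Real.log (X / 2 ^ i)) ≤ 2 * (ε₁ / s) := by
    rw [← mul_div_assoc, div_le_div_iff₀ hsy0 hs0]
    nlinarith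
  have c1 := abs_le.1 (g1.trans b1)
  have c2 := abs_le.1 (g2.trans b2)
  have c3 := abs_le.1 g3
  have c4 := abs_le.1 g4
  have k0 : 3 ^ a / 2 ^ i * X = Z := by
    rw [hZdef]
    ring
  have hc0 : (0 : ℝ) < 3 ^ a / 2 ^ i := by positivity
  have d2 : |Z * (f1 - f2)| ≤ 2 * (ε₁ * (Z / s)) := by
    rw [abs_mul, abs_of_pos hZ0]
    have := mul_le_mul_of_nonneg_left (g2.trans b2) hZ0.le
    calc Z * |f1 - f2| ≤ Z * (2 * (ε₁ / s)) := this
      _ = 2 * (ε₁ * (Z / s)) := by ring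
  have d3 : |Z * (f2 - f3)| ≤ ε₁ * (Z / s) := by
    rw [abs_mul, abs_of_pos hZ0]
    have := mul_le_mul_of_nonneg_left g3 hZ0.le
    calc Z * |f2 - f3| ≤ Z * (ε₁ / s) := this
      _ = ε₁ * (Z / s) := by ring
  have d4 : |3 ^ a / 2 ^ i * (v - X * f3)| ≤ ε₁ * (Z / s) := by
    rw [abs_mul, abs_of_pos hc0]
    have := mul_le_mul_of_nonneg_left g4 hc0.le
    calc 3 ^ a / 2 ^ i * |v - X * f3| ≤ 3 ^ a / 2 ^ i * (ε₁ * (X / s)) := this
      _ = ε₁ * (3 ^ a / 2 ^ i * X / s) := by ring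
      _ = ε₁ * (Z / s) := by rw [k0]
  have e0 : u - 3 ^ a / 2 ^ i * v = (u - Z * f1) + Z * (f1 - f2) + Z * (f2 - f3) -
      3 ^ a / 2 ^ i * (v - X * f3) := by
    have : Z * f3 = 3 ^ a / 2 ^ i * (X * f3) := by rw [← k0]; ring
    linear_combination this
  have e1 : 6 * (ε₁ * (Z / s)) ≤ ε * (X / s) := by
    have e2 : Z / s ≤ 3 ^ a * (X / s) := by
      rw [← mul_div_assoc]
      exact div_le_div_of_nonneg_right hZX hs0.le
    calc 6 * (ε₁ * (Z / s)) ≤ 6 * (ε₁ * (3 ^ a * (X / s))) := by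
          apply mul_le_mul_of_nonneg_left _ (by norm_num)
          exact mul_le_mul_of_nonneg_left e2 hε₁.le
      _ = ε * (X / s) := by
        rw [h₁]
        field_simp
  have c5 := abs_le.1 d2
  have c6 := abs_le.1 d3
  have c7 := abs_le.1 d4
  rw [e0, abs_le]
  constructor <;> linarith [c1.1, c1.2, c5.1, c5.2, c6.1, c6.2, c7.1, c7.2]

end fam

end Pool.Agent.LLT
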