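import Pool.Agent.LLT.QFin
import Pool.Agent.LLT.QModA
import Pool.Agent.LLT.QTW

/-!
The level sets of the hitting times in the classes modulo every `q ≤ x ^ δ`: the class of `n`
modulo `2 ^ i` fixes the first `i` parities.
-/

set_option autoImplicit false

namespace Pool.Agent.LLT.Q

open Finset Filter Topology
open Pool.Agent.SLD
open Pool.Agent.Collatz3.FW (Tn)

/-- the number of odd terms among the first `i` terms of the orbit of `r` -/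
def os (i r : ℕ) : ℕ := ((range i).filter fun k => Tn^[k] r % 2 = 1).card

theorem os_zero (r : ℕ) : os 0 r = 0 := rfl

theorem os_succ (i r : ℕ) : os (i + 1) r = (if r % 2 = 1 then 1 else 0) + os i (Tn r) := by
  unfold os
  rw [Finset.card_filter, Finset.card_filter, Finset.sum_range_succ']
  rw [add_comm]
  rfl

theorem os_le (i r : ℕ) : os i r ≤ i := by
  unfold os
  refine (Finset.card_filter_le _ _).trans (le_of_eq (card_range i))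

theorem it_add (i : ℕ) : ∀ r l : ℕ, Tn^[i] (r + 2 ^ i * l) = Tn^[i] r + 3 ^ os i r * l := by
  induction i with
  | zero =>
    intro r l
    simp [os_zero]
  | succ i ih =>
    intro r l
    rw [Function.iterate_succ_apply, Function.iterate_succ_apply, os_succ]
    have h0 : (2 : ℕ) ^ (i + 1) * l = 2 * (2 ^ i * l) := by ring
    rcases Nat.mod_two_eq_zero_or_one r with h | h
    · have h1 : Tn (r + 2 ^ (i + 1) * l) = Tn r + 2 ^ i * l := by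
        unfold Tn
        rw [h0, if_pos (by omega), if_pos h]
        omega
      rw [h1, ih, if_neg (by omega), zero_add]
    · have h1 : Tn (r + 2 ^ (i + 1) * l) = Tn r + 2 ^ i * (3 * l) := by
        have h2 : 2 ^ i * (3 * l) = 3 * (2 ^ i * l) := by ring
        unfold Tn
        rw [h0, h2, if_neg (by omega), if_neg (by omega)]
        omega
      rw [h1, ih, if_pos h, pow_add, pow_one]
      ring

/-- `thm_QTW` with the exponent of `3` -/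
theorem qtw2 (r : ℕ) (K : ℕ) (B : ℤ → Set ℤ) (τ : ℤ) (X i q₁ : ℕ) (hA : EvFam K B) :
    ∃ (X' : ℕ) (b : ℤ),
      |(N 1 (B τ) X (2 ^ i * q₁) r : ℝ) - N 1 (B (τ - i)) X' (3 ^ os i r * q₁) b| ≤ K + 1 ∧
      |(X' : ℝ) - 3 ^ os i r * X / 2 ^ i| ≤ 2 * 3 ^ os i r := by
  have hp : (0 : ℤ) < 2 ^ i := by positivity
  obtain ⟨a, t, ha, ht0, ht1, hl⟩ := TWO_A i ((r : ℤ) % 2 ^ i) (Int.emod_nonneg _ hp.ne')
    (Int.emod_lt_of_pos _ hp)
  have hr0 := Int.emod_nonneg (r : ℤ) hp.ne'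
  have hr1 := Int.emod_lt_of_pos (r : ℤ) hp
  have hrr := Int.emod_add_mul_ediv (r : ℤ) (2 ^ i)
  set r₀ := (r : ℤ) % 2 ^ i with hr₀
  set k := (r : ℤ) / 2 ^ i with hk
  have hos : a = os i r := by
    have h1 := hl k
    have h2 := hl (k + 1)
    rw [hrr, iter_cast] at h1
    have h3 : r₀ + 2 ^ i * (k + 1) = ((r + 2 ^ i * 1 : ℕ) : ℤ) := by
      push_cast
      linear_combination hrr
    rw [h3, iter_cast, it_add] at h2
    have h4 : (3 : ℤ) ^ a = ((3 ^ os i r : ℕ) : ℤ) := by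
      push_cast at h2 ⊢
      linear_combination h1 - h2
    have h5 : 3 ^ a = 3 ^ os i r := by exact_mod_cast h4
    exact Nat.pow_right_injective (le_refl 2 |>.trans (by norm_num : 2 ≤ 3)) h5
  subst hos
  have hz : r₀ = 0 ↔ t = 0 := by
    have h1 := hl 0
    rw [mul_zero, mul_zero, add_zero, zero_add] at h1
    rw [← h1]
    exact (TWO_it_zero i r₀).symm
  have key : ∃ X' : ℕ, (∀ l : ℤ, (1 ≤ 1 * (r₀ + 2 ^ i * l) ∧ 1 * (r₀ + 2 ^ i * l) ≤ X) ↔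
      (1 ≤ 1 * (t + 3 ^ os i r * l) ∧ 1 * (t + 3 ^ os i r * l) ≤ X')) ∧
      |(X' : ℝ) - 3 ^ os i r * X / 2 ^ i| ≤ 2 * 3 ^ os i r := by
    obtain ⟨X', h1, h2⟩ := TWO_pos X (os i r) i r₀ t hr0 hr1 ht0 ht1 hz
    refine ⟨X', fun l => ?_, h2⟩
    rw [one_mul, one_mul]
    exact h1 l
  obtain ⟨X', hX', hX2⟩ := key
  refine ⟨X', t + 3 ^ os i r * k, ?_, hX2⟩
  let S : Set ℤ := {l | (q₁ : ℤ) ∣ l - k ∧ 1 ≤ 1 * (r₀ + 2 ^ i * l) ∧
    1 * (r₀ + 2 ^ i * l) ≤ X ∧ r₀ + 2 ^ i * l ∈ B τ}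
  let S' : Set ℤ := {l | (q₁ : ℤ) ∣ l - k ∧ 1 ≤ 1 * (r₀ + 2 ^ i * l) ∧
    1 * (r₀ + 2 ^ i * l) ≤ X ∧ t + 3 ^ os i r * l ∈ B (τ - i)}
  let D : Set ℤ := {l | 1 ≤ 1 * (r₀ + 2 ^ i * l) ∧ |r₀ + 2 ^ i * l| ≤ K * 2 ^ i}
  have e1 : N 1 (B τ) X (2 ^ i * q₁) r = S.ncard := by
    refine TWO_card 1 (B τ) X (2 ^ i * q₁) q₁ (2 ^ i) r r₀ k hp.ne' S ?_ hrr.symm
      (fun l => Iff.rfl)
    push_cast
    rfl
  have e2 : N 1 (B (τ - i)) X' (3 ^ os i r * q₁) (t + 3 ^ os i r * k) = S'.ncard := by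
    refine TWO_card 1 (B (τ - i)) X' (3 ^ os i r * q₁) q₁ (3 ^ os i r) (t + 3 ^ os i r * k) t k
      (by positivity) S' ?_ rfl (fun l => ?_)
    · push_cast
      rfl
    · have h2 := hX' l
      constructor
      · rintro ⟨h3, h4, h5, h6⟩
        exact ⟨h3, (h2.1 ⟨h4, h5⟩).1, (h2.1 ⟨h4, h5⟩).2, h6⟩
      · rintro ⟨h3, h4, h5, h6⟩
        exact ⟨h3, (h2.2 ⟨h4, h5⟩).1, (h2.2 ⟨h4, h5⟩).2, h6⟩
  obtain ⟨hDf, hDc⟩ := TWE_small 1 (Or.inl rfl) K i r₀ hr0 hr1 D (fun l hl => hl)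
  rw [e1, e2]
  refine TWE_cmp S S' D (TWE_fin 1 (Or.inl rfl) X i r₀ hr0 hr1 S fun l hl => ⟨hl.2.1, hl.2.2.1⟩)
    (TWE_fin 1 (Or.inl rfl) X i r₀ hr0 hr1 S' fun l hl => ⟨hl.2.1, hl.2.2.1⟩) hDf
    (fun l hd => ?_) K hDc
  have h5 : 1 ≤ 1 * (r₀ + 2 ^ i * l) →
      (r₀ + 2 ^ i * l ∈ B τ ↔ t + 3 ^ os i r * l ∈ B (τ - i)) := by
    intro h6
    have h7 : (K : ℤ) * 2 ^ i < |r₀ + 2 ^ i * l| := by
      by_contra hc
      exact hd ⟨h6, not_lt.1 hc⟩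
    have h8 := fam_iter hA i τ _ h7
    rw [hl] at h8
    rw [← h8, add_comm]
  constructor
  · rintro ⟨h6, h7, h8, h9⟩
    exact ⟨h6, h7, h8, (h5 h7).1 h9⟩
  · rintro ⟨h6, h7, h8, h9⟩
    exact ⟨h6, h7, h8, (h5 h7).2 h9⟩


open Pool.Agent.Collatz3.FW (cN)

theorem cnt_diff (F : Finset ℕ) (X Z : ℕ) (t : ℤ) {e : ℝ} (h : |(Z : ℝ) - X| ≤ e) :
    |cnt F Z t - cnt F X t| ≤ e + 1 := by
  rw [m10_cnt, m10_cnt]
  have h1 := qt_diff (Es (m10_S F) (t : ℝ)) (X := X) (Z := Z) (Nat.cast_nonneg _)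
  have h2 := qt_diff (Es (m10_S F) (t : ℝ)) (X := Z) (Z := X) (Nat.cast_nonneg _)
  rw [abs_sub_comm] at h2
  rw [abs_le]
  constructor <;> linarith

/-- the level sets of the hitting times in the classes modulo `q = 2 ^ i * q₁ ≤ x ^ δ` -/
theorem lev (hA : St_QAL) (B : ℕ) : ∃ δ : ℝ, 0 < δ ∧ ∀ F : Finset ℕ, ∃ C : ℝ, ∃ x₀ : ℕ,
    ∀ (x i q₁ r : ℕ) (t : ℤ), x₀ ≤ x → Odd q₁ → ((2 ^ i * q₁ : ℕ) : ℝ) ≤ (x : ℝ) ^ δ →
      |cntq F x t (2 ^ i * q₁) r -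
          cnt F (3 ^ os i r * x / 2 ^ i) (t - i) / ((3 ^ os i r * q₁ : ℕ) : ℝ)| ≤
        C * x / (((2 ^ i * q₁ : ℕ) : ℝ) * Real.log x ^ B) := by
  obtain ⟨δ₀, hδ₀, C, hC⟩ := hA B
  refine ⟨min (δ₀ / 6) (1 / 4), lt_min (by positivity) (by norm_num), fun F => ?_⟩
  obtain ⟨K, hK⟩ : ∃ K : ℕ, K = F.sup id := ⟨_, rfl⟩
  have hcast : Tendsto (fun x : ℕ => (x : ℝ)) atTop atTop := tendsto_natCast_atTop_atTop
  have H1 : ∀ᶠ x : ℕ in atTop, ((K : ℝ) + 4) ≤ (x : ℝ) ^ (1 / 4 : ℝ) :=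
    ((tendsto_rpow_atTop (by norm_num)).comp hcast).eventually_ge_atTop _
  have H2 : ∀ᶠ x : ℕ in atTop, (K : ℝ) ≤ (x : ℝ) ^ (δ₀ / 2) :=
    ((tendsto_rpow_atTop (by positivity)).comp hcast).eventually_ge_atTop _
  have H3 : ∀ᶠ x : ℕ in atTop, Real.log x ^ B ≤ (x : ℝ) ^ (1 / 4 : ℝ) := by
    have h1 := (isLittleO_log_rpow_rpow_atTop (B : ℝ) (by norm_num : (0 : ℝ) < 1 / 4)).bound
      (one_pos)
    filter_upwards [hcast.eventually h1] with x hx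
    rw [one_mul, Real.norm_eq_abs, Real.norm_eq_abs,
      abs_of_nonneg (Real.rpow_nonneg (Nat.cast_nonneg x) _), Real.rpow_natCast] at hx
    exact (le_abs_self _).trans hx
  have H4 : ∀ᶠ x : ℕ in atTop, 1 ≤ Real.log (x : ℝ) :=
    (Real.tendsto_log_atTop.comp hcast).eventually_ge_atTop _
  obtain ⟨x₀, hx₀⟩ := eventually_atTop.1 (H1.and (H2.and (H3.and H4)))
  refine ⟨|C| * 2 ^ (B + 1) + 3, max x₀ 1, fun x i q₁ r t hx hq₁ hqx => ?_⟩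
  obtain ⟨h1, h2, h3, h4⟩ := hx₀ x ((le_max_left _ _).trans hx)
  have hx1 : (1 : ℝ) ≤ x := by exact_mod_cast (le_max_right _ _).trans hx
  have hx0 : (0 : ℝ) < x := by linarith
  obtain ⟨a, ha⟩ : ∃ a, a = os i r := ⟨_, rfl⟩
  have hai : a ≤ i := by rw [ha]; exact os_le i r
  obtain ⟨X', b, e1, e2⟩ := qtw2 r K (LS F) t x i q₁ (by rw [hK]; exact ev_LS F)
  rw [← ha] at e1 e2 ⊢
  obtain ⟨s, hs⟩ : ∃ s, s = (x : ℝ) ^ (1 / 4 : ℝ) := ⟨_, rfl⟩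
  rw [← hs] at h1 h3
  have hs4 : (x : ℝ) = s ^ 4 := by
    rw [hs, ← Real.rpow_natCast, ← Real.rpow_mul hx0.le]
    norm_num
  have hK0 : (0 : ℝ) ≤ K := Nat.cast_nonneg _
  have hs4' : 4 ≤ s := by linarith
  have hs0 : 0 < s := by linarith
  obtain ⟨L, hL⟩ : ∃ L, L = Real.log (x : ℝ) ^ B := ⟨_, rfl⟩
  have hL0 : 1 ≤ L := by rw [hL]; exact one_le_pow₀ h4
  rw [← hL] at h3 ⊢
  -- the modulus
  have hqr1 : (1 : ℝ) ≤ q₁ := by exact_mod_cast hq₁.pos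
  have p2i : (1 : ℝ) ≤ 2 ^ i := one_le_pow₀ (by norm_num)
  have p3a : (1 : ℝ) ≤ 3 ^ a := one_le_pow₀ (by norm_num)
  have hqs : (2 : ℝ) ^ i * q₁ ≤ s := by
    have h5 : ((2 ^ i * q₁ : ℕ) : ℝ) ≤ (x : ℝ) ^ (1 / 4 : ℝ) :=
      hqx.trans (Real.rpow_le_rpow_of_exponent_le hx1 (min_le_right _ _))
    rw [hs]
    push_cast at h5
    exact h5
  have h2is : (2 : ℝ) ^ i ≤ s := (le_mul_of_one_le_right (by positivity) hqr1).trans hqs
  have hxi : s ^ 3 ≤ (x : ℝ) / 2 ^ i := by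
    rw [le_div_iff₀ (by positivity), hs4]
    have : s ^ 4 = s ^ 3 * s := by ring
    rw [this]
    exact mul_le_mul_of_nonneg_left h2is (by positivity)
  have hs3 : s ^ 2 + 2 ≤ s ^ 3 := by nlinarith
  have e3 := abs_le.1 e2
  have eM : (3 : ℝ) ^ a * x / 2 ^ i = 3 ^ a * (x / 2 ^ i) := by ring
  rw [eM] at e3
  have hX1 : s ^ 2 ≤ (X' : ℝ) := by
    have h5 : (3 : ℝ) ^ a * (s ^ 2 + 2) ≤ 3 ^ a * (x / 2 ^ i) :=
      mul_le_mul_of_nonneg_left (hs3.trans hxi) (by positivity)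
    have h6 : 1 * s ^ 2 ≤ (3 : ℝ) ^ a * s ^ 2 := mul_le_mul_of_nonneg_right p3a (by positivity)
    linarith [e3.1]
  have hX2 : (X' : ℝ) ≤ 2 * (3 ^ a * (x / 2 ^ i)) := by
    have h5 : (3 : ℝ) ^ a * 2 ≤ 3 ^ a * (x / 2 ^ i) := by
      apply mul_le_mul_of_nonneg_left _ (by positivity)
      have : (0 : ℝ) ≤ s ^ 2 := by positivity
      linarith
    linarith [e3.2]
  have hX'2 : 2 ≤ X' := by
    have h5 : (2 : ℝ) ≤ s ^ 2 := by nlinarith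
    exact_mod_cast h5.trans hX1
  have hX0 : (0 : ℝ) < X' := by
    have : (2 : ℝ) ≤ X' := by exact_mod_cast hX'2
    linarith
  have hs2 : s ^ 2 = (x : ℝ) ^ (1 / 2 : ℝ) := by
    rw [hs, ← Real.rpow_natCast, ← Real.rpow_mul hx0.le]
    norm_num
  have hlX : Real.log x / 2 ≤ Real.log X' := by
    have h5 : Real.log (s ^ 2) ≤ Real.log X' := Real.log_le_log (by positivity) hX1
    rw [hs2, Real.log_rpow hx0] at h5
    linarith
  have hpX : (x : ℝ) ^ (δ₀ / 2) ≤ (X' : ℝ) ^ δ₀ := by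
    have h5 : (s ^ 2) ^ δ₀ ≤ (X' : ℝ) ^ δ₀ := Real.rpow_le_rpow (by positivity) hX1 hδ₀.le
    rw [hs2, ← Real.rpow_mul hx0.le] at h5
    rwa [show (1 / 2 : ℝ) * δ₀ = δ₀ / 2 by ring] at h5
  have hqX : ((3 ^ a * q₁ : ℕ) : ℝ) ≤ (X' : ℝ) ^ δ₀ := by
    refine le_trans ?_ hpX
    obtain ⟨y, hy⟩ : ∃ y, y = (x : ℝ) ^ (δ₀ / 6) := ⟨_, rfl⟩
    have h5 : (2 : ℝ) ^ i * q₁ ≤ y := by
      have h6 : ((2 ^ i * q₁ : ℕ) : ℝ) ≤ (x : ℝ) ^ (δ₀ / 6) :=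
        hqx.trans (Real.rpow_le_rpow_of_exponent_le hx1 (min_le_left _ _))
      rw [hy]
      push_cast at h6
      exact h6
    have h7 : (x : ℝ) ^ (δ₀ / 2) = y ^ 3 := by
      rw [hy, ← Real.rpow_natCast, ← Real.rpow_mul hx0.le]
      congr 1
      push_cast
      ring
    have h8 : (3 : ℝ) ^ a ≤ 2 ^ i * 2 ^ i := by
      calc (3 : ℝ) ^ a ≤ 3 ^ i := pow_le_pow_right₀ (by norm_num) hai
        _ ≤ 4 ^ i := pow_le_pow_left₀ (by norm_num) (by norm_num) i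
        _ = 2 ^ i * 2 ^ i := by rw [← mul_pow]; norm_num
    have h9 : (2 : ℝ) ^ i ≤ y := (le_mul_of_one_le_right (by positivity) hqr1).trans h5
    have hy0 : 0 < y := by linarith
    rw [h7]
    push_cast
    calc (3 : ℝ) ^ a * q₁ ≤ 2 ^ i * 2 ^ i * q₁ := mul_le_mul_of_nonneg_right h8 (by linarith)
      _ = 2 ^ i * (2 ^ i * q₁) := by ring
      _ ≤ y * y := mul_le_mul h9 h5 (by positivity) hy0.le
      _ ≤ y ^ 3 := by
          have : 1 ≤ y := p2i.trans h9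
          nlinarith [mul_pos hy0 hy0]
  have hodd : Odd (3 ^ a * q₁) := (Odd.pow (by decide)).mul hq₁
  have e4 := hC 1 b K (LS F) (t - i) X' (3 ^ a * q₁) (Or.inl rfl)
    (by rw [hK]; exact ev_LS F) hX'2 (h2.trans hpX) hodd hqX
  have e6 := cntq_eq F X' (t - i) 1 0
  rw [cntq_one] at e6
  simp only [Nat.cast_zero] at e6
  rw [← e6] at e4
  rw [cntq_eq]
  -- the two scales
  have e8 : |(X' : ℝ) - (3 ^ a * x / 2 ^ i : ℕ)| ≤ 2 * 3 ^ a + 1 := by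
    have h5 : ((3 ^ a * x / 2 ^ i : ℕ) : ℝ) ≤ 3 ^ a * (x / 2 ^ i) := by
      refine (Nat.cast_div_le).trans (le_of_eq ?_)
      push_cast
      ring
    have h6 : (3 : ℝ) ^ a * (x / 2 ^ i) < ((3 ^ a * x / 2 ^ i : ℕ) : ℝ) + 1 := by
      have h7 : 3 ^ a * x < (3 ^ a * x / 2 ^ i + 1) * 2 ^ i := by
        have := Nat.lt_div_mul_add (a := 3 ^ a * x) (b := 2 ^ i) (by positivity)
        rw [add_mul, one_mul]
        exact this
      have h8 : ((3 ^ a * x : ℕ) : ℝ) < (((3 ^ a * x / 2 ^ i : ℕ) : ℝ) + 1) * 2 ^ i := by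
        exact_mod_cast h7
      push_cast at h8
      rw [← mul_div_assoc, div_lt_iff₀ (by positivity)]
      exact_mod_cast h8
    rw [abs_le]
    constructor <;> linarith [e3.1, e3.2]
  have e9 := cnt_diff F (3 ^ a * x / 2 ^ i) X' (t - i) e8
  obtain ⟨u, hu⟩ : ∃ u, u = cnt F X' (t - i) := ⟨_, rfl⟩
  obtain ⟨v, hv⟩ : ∃ v, v = cnt F (3 ^ a * x / 2 ^ i) (t - i) := ⟨_, rfl⟩
  obtain ⟨m, hm⟩ : ∃ m, m = ((3 ^ a * q₁ : ℕ) : ℝ) := ⟨_, rfl⟩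
  rw [← hu, ← hm] at e4
  rw [← hu, ← hv] at e9
  rw [← hv, ← hm]
  have hm' : m = 3 ^ a * q₁ := by rw [hm]; push_cast; rfl
  have hm0 : 0 < m := by rw [hm']; positivity
  have e10 : |u / m - v / m| ≤ 2 * (x / (2 ^ i * q₁ * L)) := by
    rw [← sub_div, abs_div, abs_of_pos hm0, div_le_iff₀ hm0]
    refine e9.trans ?_
    have h5 : (2 * 3 ^ a + 1 + 1 : ℝ) ≤ 3 ^ a * 4 := by linarith
    refine h5.trans ?_
    rw [hm']
    have h6 : 2 * (x / (2 ^ i * q₁ * L)) * (3 ^ a * q₁) = 3 ^ a * (2 * (x / (2 ^ i * L))) := by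
      field_simp
    rw [h6]
    apply mul_le_mul_of_nonneg_left _ (by positivity)
    have h7 : (2 : ℝ) ≤ x / (2 ^ i * L) := by
      rw [le_div_iff₀ (by positivity), hs4]
      calc 2 * (2 ^ i * L) ≤ 2 * (s * s) := by
            apply mul_le_mul_of_nonneg_left _ (by norm_num)
            exact mul_le_mul h2is h3 (by linarith) hs0.le
        _ ≤ s ^ 4 := by nlinarith [mul_pos hs0 hs0]
    linarith
  have e11 : C * X' / (m * Real.log X' ^ B) ≤ |C| * 2 ^ (B + 1) * (x / (2 ^ i * q₁ * L)) := by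
    have h5 : (Real.log x / 2) ^ B ≤ Real.log X' ^ B := pow_le_pow_left₀ (by linarith) hlX B
    have h6 : L / 2 ^ B ≤ Real.log X' ^ B := by rw [hL, ← div_pow]; exact h5
    have h7 : (0 : ℝ) < L / 2 ^ B := by positivity
    calc C * X' / (m * Real.log X' ^ B) ≤ |C| * X' / (m * Real.log X' ^ B) := by
          apply div_le_div_of_nonneg_right _ (mul_nonneg hm0.le (h7.le.trans h6))
          exact mul_le_mul_of_nonneg_right (le_abs_self C) hX0.le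
      _ ≤ |C| * X' / (m * (L / 2 ^ B)) := by
          apply div_le_div_of_nonneg_left (by positivity) (by positivity)
          exact mul_le_mul_of_nonneg_left h6 hm0.le
      _ ≤ |C| * (2 * (3 ^ a * (x / 2 ^ i))) / (m * (L / 2 ^ B)) := by
          apply div_le_div_of_nonneg_right _ (by positivity)
          exact mul_le_mul_of_nonneg_left hX2 (abs_nonneg C)
      _ = |C| * 2 ^ (B + 1) * (x / (2 ^ i * q₁ * L)) := by
          rw [hm', pow_succ]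
          field_simp
  have e12 : (K : ℝ) + 1 ≤ 1 * (x / (2 ^ i * q₁ * L)) := by
    rw [one_mul, le_div_iff₀ (by positivity), hs4]
    calc ((K : ℝ) + 1) * (2 ^ i * q₁ * L) ≤ s * (s * s) := by
          apply mul_le_mul (by linarith) _ (by positivity) hs0.le
          exact mul_le_mul hqs h3 (by linarith) hs0.le
      _ ≤ s ^ 4 := by nlinarith [mul_pos hs0 hs0, mul_pos hs0 (mul_pos hs0 hs0)]
  have e13 : (|C| * 2 ^ (B + 1) + 3) * x / (((2 ^ i * q₁ : ℕ) : ℝ) * L) =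
      1 * (x / (2 ^ i * q₁ * L)) + |C| * 2 ^ (B + 1) * (x / (2 ^ i * q₁ * L)) +
        2 * (x / (2 ^ i * q₁ * L)) := by
    push_cast
    ring
  have e14 := abs_le.1 (e1.trans e12)
  have e15 := abs_le.1 (e4.trans e11)
  have e16 := abs_le.1 e10
  rw [e13, abs_le]
  constructor <;> linarith [e14.1, e14.2, e15.1, e15.2, e16.1, e16.2]

end Pool.Agent.LLT.Q
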